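import Mathlib
import Pool.Agent.Helper39.Mu.Relax
import Pool.Agent.Helper39.Mu.Upper
import Pool.Agent.Helper39.Mu.Lower

/-!
# Sum of squared degrees: degrees into sets, numerical functions, the core structure
-/

namespace Pool.Agent.Helper96.Mu

open Finset Pool.Agent.Helper39.Mu

set_option linter.unusedSectionVars false

section Graph

variable {V : Type*} [Fintype V] [DecidableEq V] (G : SimpleGraph V)

/-- The number of neighbours of `v` in `A` (as a real number). -/
noncomputable def dg (A : Finset V) (v : V) : ℝ := ∑ w ∈ A, adj G v w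

lemma dg_nonneg (A : Finset V) (v : V) : 0 ≤ dg G A v :=
  Finset.sum_nonneg fun w _ => adj_nonneg G v w

lemma dg_univ (v : V) : dg G univ v = deg G v := rfl

lemma dg_mono {A B : Finset V} (h : A ⊆ B) (v : V) : dg G A v ≤ dg G B v :=
  Finset.sum_le_sum_of_subset_of_nonneg h fun w _ _ => adj_nonneg G v w

lemma dg_le_deg (A : Finset V) (v : V) : dg G A v ≤ deg G v :=
  dg_mono G (Finset.subset_univ A) v

lemma dg_le_card (A : Finset V) (v : V) : dg G A v ≤ A.card := by
  unfold dg
  calc ∑ w ∈ A, adj G v w ≤ ∑ w ∈ A, (1 : ℝ) :=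
        Finset.sum_le_sum fun w _ => adj_le_one G v w
    _ = A.card := by simp

lemma dg_union {A B : Finset V} (h : Disjoint A B) (v : V) :
    dg G (A ∪ B) v = dg G A v + dg G B v := by
  unfold dg
  exact Finset.sum_union h

lemma dg_le_card_sub_one {A : Finset V} {v : V} (hv : v ∈ A) : dg G A v ≤ A.card - 1 := by
  have h1 : dg G A v = dg G (A.erase v) v := by
    unfold dg
    rw [← Finset.sum_erase_add _ _ hv, adj_self, add_zero]
  have h2 := dg_le_card G (A.erase v) v
  have h3 : 1 ≤ A.card := Finset.card_pos.mpr ⟨v, hv⟩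
  rw [Finset.card_erase_of_mem hv, Nat.cast_sub h3] at h2
  rw [h1]
  simpa using h2

lemma sum_dg_comm (A B : Finset V) : ∑ v ∈ A, dg G B v = ∑ w ∈ B, dg G A w := by
  unfold dg
  rw [Finset.sum_comm]
  refine Finset.sum_congr rfl fun v _ => Finset.sum_congr rfl fun w _ => ?_
  rw [adj_comm]

/-- Twice the number of edges inside `A`. -/
noncomputable def e2 (A : Finset V) : ℝ := ∑ v ∈ A, dg G A v

/-- Twice the number of edges of `G`. -/
noncomputable def tot : ℝ := ∑ v, deg G v

/-- The number of non-edges inside `B`. -/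
noncomputable def mis (B : Finset V) : ℝ := ((B.card : ℝ) * (B.card - 1) - e2 G B) / 2

/-- The number of edges which are not inside `B`. -/
noncomputable def ext (B : Finset V) : ℝ := (tot G - e2 G B) / 2

/-- A near complete structure of `G`: `B` is the near clique, `H` the other vertices of large
degree, `L` the vertices of small degree; `N = √(2m)`. -/
structure Core (N : ℝ) (B H L : Finset V) : Prop where
  union : B ∪ H ∪ L = univ
  disjBH : Disjoint B H
  disjBL : Disjoint B L
  disjHL : Disjoint H L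
  card_lo : (1 - 1 / 10 ^ 6) * N ≤ (B.card : ℝ)
  card_hi : (B.card : ℝ) ≤ (1 + 1 / 10 ^ 6) * N
  miss : ∀ v ∈ B, (B.card : ℝ) - 1 - dg G B v ≤ N / 80
  out : ∀ v ∈ B, dg G (H ∪ L) v ≤ N / 80
  cardH : (H.card : ℝ) ≤ N / 10 ^ 6
  Halt : ∀ h ∈ H, dg G B h ≤ 991 / 1000 * N ∨ N / 200 ≤ dg G (H ∪ L) h
  Hdeg : ∀ h ∈ H, N / 100 ≤ deg G h
  Ldeg : ∀ l ∈ L, deg G l ≤ N / 100

end Graph

/-- Size of the smaller half. -/
def lo (a : ℕ) : ℕ := a / 2

/-- Size of the larger half. -/
def hi (a : ℕ) : ℕ := (a + 1) / 2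

/-- The value of `K_a`. -/
noncomputable def fK (a : ℕ) : ℝ :=
  (hi a : ℝ) * ((hi a : ℝ) - 1) ^ 2 + (lo a : ℝ) * ((lo a : ℝ) - 1) ^ 2

/-- The value of `K_a` minus a star with `j` edges. -/
noncomputable def fS (a : ℕ) (j : ℝ) : ℝ := fK a - (4 * (hi a : ℝ) - 5) * j + j ^ 2

/-- Slope of `Phi` at `a`. -/
noncomputable def sl (a : ℝ) : ℝ := (3 * a ^ 2 - 8 * a + 7) / (2 * (2 * a - 1))

/-- The upper bound as a function of `n`, where `m = n (n - 1) / 2`. -/
noncomputable def Phi (n : ℝ) : ℝ := (n - 1) * (n ^ 2 - 3 * n + 4) / 4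

/-- Probability that two given elements both belong to the random half. -/
noncomputable def rho2 (a : ℕ) : ℝ :=
  ((hi a : ℝ) * (hi a - 1) + (lo a : ℝ) * (lo a - 1)) / (2 * (a * (a - 1)))

/-- Probability that three given elements all belong to the random half. -/
noncomputable def rho3 (a : ℕ) : ℝ :=
  ((hi a : ℝ) * (hi a - 1) * (hi a - 2) + (lo a : ℝ) * (lo a - 1) * (lo a - 2)) /
    (2 * (a * (a - 1) * (a - 2)))

end Pool.Agent.Helper96.Mu
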