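import Mathlib
import Pool.Agent.Helper96.Mu.Base

/-!
# Existence of the core structure
-/

namespace Pool.Agent.Helper96.Mu

open Finset Pool.Agent.Helper39.Mu

set_option linter.unusedSectionVars false

section Graph

variable {V : Type*} [Fintype V] [DecidableEq V] (G : SimpleGraph V)

/-- Markov's inequality for finite sums. -/
lemma markov_card {S T : Finset V} (h : S ⊆ T) (f : V → ℝ) (c : ℝ) (h0 : ∀ v ∈ T, 0 ≤ f v)
    (h1 : ∀ v ∈ S, c ≤ f v) : (S.card : ℝ) * c ≤ ∑ v ∈ T, f v := by
  calc (S.card : ℝ) * c = ∑ v ∈ S, c := by rw [Finset.sum_const, nsmul_eq_mul]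
    _ ≤ ∑ v ∈ S, f v := Finset.sum_le_sum h1
    _ ≤ ∑ v ∈ T, f v := Finset.sum_le_sum_of_subset_of_nonneg h fun v hv _ => h0 v hv

lemma dg_add_compl (A : Finset V) (v : V) : dg G A v + dg G Aᶜ v = deg G v := by
  rw [← dg_union G disjoint_compl_right, Finset.union_compl, dg_univ]

/-- Degrees into a set covered by two sets. -/
lemma dg_le_add {A B C : Finset V} (h : A ⊆ B ∪ C) (v : V) : dg G A v ≤ dg G B v + dg G C v := by
  have h1 : dg G A v ≤ dg G (B ∪ (C \ B)) v := by
    apply dg_mono
    intro x hx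
    have := h hx
    simp only [Finset.mem_union, Finset.mem_sdiff] at this ⊢
    tauto
  rw [dg_union G disjoint_sdiff] at h1
  have h2 : dg G (C \ B) v ≤ dg G C v := dg_mono G sdiff_subset v
  linarith

theorem exists_core {N : ℝ} (hN : 0 < N) (hsum : tot G = N ^ 2) (A : Finset V)
    (hA : (A.card : ℝ) ≤ (1 + 1 / 10 ^ 10) * N) (he : (1 - 1 / 10 ^ 10) * N ^ 2 ≤ e2 G A) :
    ∃ B H L : Finset V, Core G N B H L := by
  classical
  -- the size of `A`
  have hA0 : (0 : ℝ) ≤ A.card := Nat.cast_nonneg _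
  have heA : e2 G A ≤ (A.card : ℝ) ^ 2 := by
    unfold e2
    calc ∑ v ∈ A, dg G A v ≤ ∑ v ∈ A, (A.card : ℝ) :=
          Finset.sum_le_sum fun v _ => dg_le_card G A v
      _ = (A.card : ℝ) ^ 2 := by rw [Finset.sum_const, nsmul_eq_mul]; ring
  have hAlo : (1 - 1 / 10 ^ 10) * N ≤ (A.card : ℝ) := by
    by_contra hcon
    push Not at hcon
    have h1 : (A.card : ℝ) ^ 2 < ((1 - 1 / 10 ^ 10) * N) ^ 2 := by
      apply pow_lt_pow_left₀ hcon hA0
      norm_num
    have h2 : ((1 - 1 / 10 ^ 10) * N) ^ 2 ≤ (1 - 1 / 10 ^ 10) * N ^ 2 := by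
      have : 0 < N ^ 2 := by positivity
      nlinarith
    linarith
  -- counting edges
  set X : ℝ := ∑ v ∈ A, dg G Aᶜ v with hX
  have hX' : X = ∑ v ∈ Aᶜ, dg G A v := sum_dg_comm G A Aᶜ
  have htot : tot G = e2 G A + 2 * X + e2 G Aᶜ := by
    unfold tot e2
    rw [← Finset.sum_add_sum_compl A]
    have h1 : ∑ v ∈ A, deg G v = ∑ v ∈ A, dg G A v + X := by
      rw [hX, ← Finset.sum_add_distrib]
      exact Finset.sum_congr rfl fun v _ => (dg_add_compl G A v).symm
    have h2 : ∑ v ∈ Aᶜ, deg G v = X + ∑ v ∈ Aᶜ, dg G Aᶜ v := by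
      rw [hX', ← Finset.sum_add_distrib]
      exact Finset.sum_congr rfl fun v _ => (dg_add_compl G A v).symm
    rw [h1, h2]
    ring
  have hsumc : ∑ v ∈ Aᶜ, deg G v = X + e2 G Aᶜ := by
    unfold e2
    rw [hX', ← Finset.sum_add_distrib]
    exact Finset.sum_congr rfl fun v _ => (dg_add_compl G A v).symm
  have he2c : 0 ≤ e2 G Aᶜ := Finset.sum_nonneg fun v _ => dg_nonneg G _ v
  have hX0 : 0 ≤ X := Finset.sum_nonneg fun v _ => dg_nonneg G _ v
  have hXle : X ≤ 1 / 10 ^ 10 / 2 * N ^ 2 := by linarith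
  have hsumc' : ∑ v ∈ Aᶜ, deg G v ≤ 1 / 10 ^ 10 * N ^ 2 := by linarith
  have hN2 : 0 < N ^ 2 := by positivity
  -- the sets
  set B : Finset V := univ.filter fun v => 99 / 100 * N ≤ dg G A v ∧ dg G Aᶜ v ≤ N / 100 with hB
  set H : Finset V := univ.filter fun v => v ∉ B ∧ N / 100 ≤ deg G v with hH
  set L : Finset V := univ.filter fun v => v ∉ B ∧ deg G v < N / 100 with hL
  have memB : ∀ v, v ∈ B ↔ 99 / 100 * N ≤ dg G A v ∧ dg G Aᶜ v ≤ N / 100 := fun v => by
    rw [hB, Finset.mem_filter]; simp
  have memH : ∀ v, v ∈ H ↔ v ∉ B ∧ N / 100 ≤ deg G v := fun v => by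
    rw [hH, Finset.mem_filter]; simp
  have memL : ∀ v, v ∈ L ↔ v ∉ B ∧ deg G v < N / 100 := fun v => by
    rw [hL, Finset.mem_filter]; simp
  have memHL : ∀ v, v ∈ H ∪ L ↔ v ∉ B := fun v => by
    rw [Finset.mem_union, memH, memL]
    rcases le_or_gt (N / 100) (deg G v) with h | h
    · constructor
      · rintro (h1 | h1) <;> exact h1.1
      · intro h1; exact Or.inl ⟨h1, h⟩
    · constructor
      · rintro (h1 | h1) <;> exact h1.1
      · intro h1; exact Or.inr ⟨h1, h⟩
  -- `A \ B` is small
  have hAB : ((A \ B).card : ℝ) ≤ 1 / 10 ^ 7 * N := by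
    set A1 : Finset V := A.filter fun v => dg G A v < 99 / 100 * N with hA1
    set A2 : Finset V := A.filter fun v => N / 100 < dg G Aᶜ v with hA2
    have hsub : A \ B ⊆ A1 ∪ A2 := by
      intro v hv
      rw [Finset.mem_sdiff, memB] at hv
      rw [Finset.mem_union, hA1, hA2, Finset.mem_filter, Finset.mem_filter]
      rcases le_or_gt (99 / 100 * N) (dg G A v) with h | h
      · right
        refine ⟨hv.1, ?_⟩
        by_contra h3
        exact hv.2 ⟨h, not_lt.mp h3⟩
      · left
        exact ⟨hv.1, h⟩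
    have h1 : (A1.card : ℝ) * (99 / 10000 * N) ≤ ∑ v ∈ A, ((A.card : ℝ) - dg G A v) := by
      apply markov_card (Finset.filter_subset _ _)
      · intro v _
        have := dg_le_card G A v
        linarith
      · intro v hv
        have := (Finset.mem_filter.mp hv).2
        norm_num at hAlo
        linarith
    have h1' : ∑ v ∈ A, ((A.card : ℝ) - dg G A v) = (A.card : ℝ) ^ 2 - e2 G A := by
      rw [Finset.sum_sub_distrib, Finset.sum_const, nsmul_eq_mul]
      unfold e2
      ring
    have h1'' : (A.card : ℝ) ^ 2 ≤ ((1 + 1 / 10 ^ 10) * N) ^ 2 := pow_le_pow_left₀ hA0 hA 2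
    have h2 : (A2.card : ℝ) * (N / 100) ≤ X := by
      apply markov_card (Finset.filter_subset _ _)
      · intro v _
        exact dg_nonneg G _ v
      · intro v hv
        exact (Finset.mem_filter.mp hv).2.le
    have h3 : ((A \ B).card : ℝ) ≤ A1.card + A2.card := by
      have := (Finset.card_le_card hsub).trans (Finset.card_union_le _ _)
      exact_mod_cast this
    have h4 : (A1.card : ℝ) ≤ 320 / 10 ^ 10 * N := by
      have h5 : (A1.card : ℝ) * (99 / 10000 * N) ≤ (31 / 10 ^ 11) * N ^ 2 := by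
        rw [h1'] at h1
        nlinarith
      by_contra h6
      push Not at h6
      have : 320 / 10 ^ 10 * N * (99 / 10000 * N) < (A1.card : ℝ) * (99 / 10000 * N) :=
        mul_lt_mul_of_pos_right h6 (by positivity)
      nlinarith
    have h5 : (A2.card : ℝ) ≤ 51 / 10 ^ 10 * N := by
      by_contra h6
      push Not at h6
      have : 51 / 10 ^ 10 * N * (N / 100) < (A2.card : ℝ) * (N / 100) :=
        mul_lt_mul_of_pos_right h6 (by positivity)
      nlinarith
    norm_num at h4 h5 ⊢
    linarith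
  -- `B \ A` is small
  have hBA : ((B \ A).card : ℝ) ≤ 1 / 10 ^ 9 * N := by
    have h1 : ((B \ A).card : ℝ) * (99 / 100 * N) ≤ ∑ v ∈ Aᶜ, dg G A v := by
      apply markov_card
      · intro v hv
        rw [Finset.mem_sdiff] at hv
        rw [Finset.mem_compl]
        exact hv.2
      · intro v _
        exact dg_nonneg G _ v
      · intro v hv
        rw [Finset.mem_sdiff, memB] at hv
        exact hv.1.1
    rw [← hX'] at h1
    by_contra h6
    push Not at h6
    have : 1 / 10 ^ 9 * N * (99 / 100 * N) < ((B \ A).card : ℝ) * (99 / 100 * N) :=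
      mul_lt_mul_of_pos_right h6 (by positivity)
    nlinarith
  have hABv : ∀ v, dg G (A \ B) v ≤ 1 / 10 ^ 7 * N := fun v => (dg_le_card G _ v).trans hAB
  have hBAv : ∀ v, dg G (B \ A) v ≤ 1 / 10 ^ 9 * N := fun v => (dg_le_card G _ v).trans hBA
  have hBhi : (B.card : ℝ) ≤ (1 + 1 / 10 ^ 6) * N := by
    have h1 : B ⊆ A ∪ (B \ A) := by
      intro v hv
      rw [Finset.mem_union, Finset.mem_sdiff]
      by_cases h : v ∈ A
      · exact Or.inl h
      · exact Or.inr ⟨hv, h⟩
    have h2 : (B.card : ℝ) ≤ A.card + (B \ A).card := by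
      have := (Finset.card_le_card h1).trans (Finset.card_union_le _ _)
      exact_mod_cast this
    norm_num at hA hBA ⊢
    linarith
  refine ⟨B, H, L, ?_⟩
  constructor
  · -- union
    ext v
    rw [Finset.union_assoc, Finset.mem_union, memHL]
    simp [em]
  · -- disjBH
    rw [Finset.disjoint_left]
    intro v h1 h2
    exact ((memH v).mp h2).1 h1
  · rw [Finset.disjoint_left]
    intro v h1 h2
    exact ((memL v).mp h2).1 h1
  · rw [Finset.disjoint_left]
    intro v h1 h2
    have := ((memH v).mp h1).2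
    have := ((memL v).mp h2).2
    linarith
  · -- card_lo
    have h1 : A ⊆ B ∪ (A \ B) := by
      intro v hv
      rw [Finset.mem_union, Finset.mem_sdiff]
      by_cases h : v ∈ B
      · exact Or.inl h
      · exact Or.inr ⟨hv, h⟩
    have h2 : (A.card : ℝ) ≤ B.card + (A \ B).card := by
      have := (Finset.card_le_card h1).trans (Finset.card_union_le _ _)
      exact_mod_cast this
    norm_num at hAlo hAB ⊢
    linarith
  · exact hBhi
  · -- miss
    intro v hv
    have h1 : dg G A v ≤ dg G B v + dg G (A \ B) v := by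
      apply dg_le_add
      intro x hx
      rw [Finset.mem_union, Finset.mem_sdiff]
      by_cases h : x ∈ B
      · exact Or.inl h
      · exact Or.inr ⟨hx, h⟩
    have h2 := hABv v
    have h3 := ((memB v).mp hv).1
    norm_num at hBhi h2 ⊢
    linarith
  · -- out
    intro v hv
    have h1 : dg G (H ∪ L) v ≤ dg G Aᶜ v + dg G (A \ B) v := by
      apply dg_le_add
      intro x hx
      rw [memHL] at hx
      rw [Finset.mem_union, Finset.mem_sdiff, Finset.mem_compl]
      by_cases h : x ∈ A
      · exact Or.inr ⟨h, hx⟩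
      · exact Or.inl h
    have h2 := hABv v
    have h3 := ((memB v).mp hv).2
    norm_num at h2 ⊢
    linarith
  · -- cardH
    set H2 : Finset V := Aᶜ.filter fun v => N / 100 ≤ deg G v with hH2
    have memH2 : ∀ v, v ∈ H2 ↔ v ∉ A ∧ N / 100 ≤ deg G v := fun v => by
      rw [hH2, Finset.mem_filter, Finset.mem_compl]
    have h1 : H ⊆ (A \ B) ∪ H2 := by
      intro v hv
      rw [memH] at hv
      rw [Finset.mem_union, Finset.mem_sdiff, memH2]
      by_cases h : v ∈ A
      · exact Or.inl ⟨h, hv.1⟩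
      · exact Or.inr ⟨h, hv.2⟩
    have h2 : (H.card : ℝ) ≤ (A \ B).card + H2.card := by
      have := (Finset.card_le_card h1).trans (Finset.card_union_le _ _)
      exact_mod_cast this
    have h3 : (H2.card : ℝ) * (N / 100) ≤ ∑ v ∈ Aᶜ, deg G v := by
      apply markov_card (Finset.filter_subset _ _)
      · intro v _
        rw [← dg_univ]
        exact dg_nonneg G _ v
      · intro v hv
        exact (Finset.mem_filter.mp hv).2
    have h4 : (H2.card : ℝ) ≤ 1 / 10 ^ 7 * N := by
      by_contra h6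
      push Not at h6
      have : 1 / 10 ^ 7 * N * (N / 100) < (H2.card : ℝ) * (N / 100) :=
        mul_lt_mul_of_pos_right h6 (by positivity)
      nlinarith
    norm_num at hAB h4 ⊢
    linarith
  · -- Halt
    intro h hh
    rw [memH, memB] at hh
    rcases le_or_gt (99 / 100 * N) (dg G A h) with h1 | h1
    · right
      have h2 : N / 100 < dg G Aᶜ h := by
        by_contra h3
        exact hh.1 ⟨h1, not_lt.mp h3⟩
      have h3 : dg G Aᶜ h ≤ dg G (H ∪ L) h + dg G (B \ A) h := by
        apply dg_le_add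
        intro x hx
        rw [Finset.mem_compl] at hx
        rw [Finset.mem_union, memHL, Finset.mem_sdiff]
        by_cases h : x ∈ B
        · exact Or.inr ⟨h, hx⟩
        · exact Or.inl h
      have h4 := hBAv h
      norm_num at h4 ⊢
      linarith
    · left
      have h3 : dg G B h ≤ dg G A h + dg G (B \ A) h := by
        apply dg_le_add
        intro x hx
        rw [Finset.mem_union, Finset.mem_sdiff]
        by_cases h : x ∈ A
        · exact Or.inl h
        · exact Or.inr ⟨hx, h⟩
      have h4 := hBAv h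
      norm_num at h4 ⊢
      linarith
  · intro h hh
    exact ((memH h).mp hh).2
  · intro l hl
    exact ((memL l).mp hl).2.le

end Graph

end Pool.Agent.Helper96.Mu
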