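import Mathlib
import Pool.Agent.Helper96.Mu.Base

/-!
# Sum of squared degrees: an explicit partition
-/

namespace Pool.Agent.Helper96.Mu

open Finset Pool.Agent.Helper39.Mu

set_option linter.unusedSectionVars false

section Graph

variable {V : Type*} [Fintype V] [DecidableEq V] (G : SimpleGraph V)

/-- The value of `μ` on a finite set of vertices. -/
private theorem mu_fin (S : Finset V) :
    (mu (G.induce (S : Set V)) : ℝ) = ∑ v ∈ S, dg G S v ^ 2 := by
  classical
  rw [mu_induce G (x := fun v => if v ∈ S then (1 : ℝ) else 0) (U := (S : Set V))]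
  · have h1 : ∀ v, avg G (fun v => if v ∈ S then (1 : ℝ) else 0) v = dg G S v := by
      intro v
      unfold avg dg
      rw [← Finset.sum_filter_add_sum_filter_not univ (fun w => w ∈ S)]
      have h2 : ∑ w ∈ univ.filter (fun w => ¬ w ∈ S), adj G v w * (if w ∈ S then (1 : ℝ) else 0)
          = 0 := by
        refine Finset.sum_eq_zero fun w hw => ?_
        rw [Finset.mem_filter] at hw
        rw [if_neg hw.2, mul_zero]
      rw [h2, add_zero]
      have h3 : univ.filter (fun w => w ∈ S) = S := by ext w; simp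
      rw [h3]
      refine Finset.sum_congr rfl fun w hw => ?_
      show adj G v w * (if w ∈ S then (1 : ℝ) else 0) = adj G v w
      rw [if_pos hw, mul_one]
    have h4 : ∀ v, (if v ∈ S then (1 : ℝ) else 0) *
        avg G (fun v => if v ∈ S then (1 : ℝ) else 0) v ^ 2 =
        if v ∈ S then dg G S v ^ 2 else 0 := by
      intro v
      rw [h1]
      split_ifs <;> simp
    rw [Finset.sum_congr rfl (fun v _ => h4 v), Finset.sum_ite_mem, Finset.univ_inter]
  · intro v
    by_cases h : v ∈ S
    · left; simp [h]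
    · right; simp [h]

/-- The sum of the squares of the degrees of a graph with `j` edges is at most `j (j + 1)`. -/
private theorem sum_sq_le (m : V → V → ℝ) (h01 : ∀ v w, m v w = 0 ∨ m v w = 1)
    (hs : ∀ v w, m v w = m w v) (h0 : ∀ v, m v v = 0) (T : V → ℝ) (hT : ∀ v, T v = ∑ w, m v w)
    (j : ℝ) (hj : ∑ v, T v = 2 * j) : ∑ v, T v ^ 2 ≤ j ^ 2 + j := by
  have hm0 : ∀ v w, 0 ≤ m v w := by
    intro v w
    rcases h01 v w with h | h <;> rw [h]; norm_num
  have key : ∀ v w, m v w * (T v + T w) ≤ m v w * (j + 1) := by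
    intro v w
    rcases h01 v w with h | h
    · rw [h]; simp
    · rw [h, one_mul, one_mul]
      have hvw : v ≠ w := by
        rintro rfl
        rw [h0] at h
        norm_num at h
      have hlow : ∀ x, (if x = v ∨ x = w then 0 else m x v + m x w) ≤
          (if x = v ∨ x = w then 0 else T x) := by
        intro x
        split_ifs
        · exact le_rfl
        · rw [hT x]
          have h1 : ∑ y ∈ ({v, w} : Finset V), m x y ≤ ∑ y, m x y :=
            Finset.sum_le_sum_of_subset_of_nonneg (Finset.subset_univ _) fun y _ _ => hm0 x y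
          rwa [Finset.sum_pair hvw] at h1
      have hsum := Finset.sum_le_sum fun x (_ : x ∈ (univ : Finset V)) => hlow x
      have e1 : ∀ f : V → ℝ, ∑ x, (if x = v ∨ x = w then 0 else f x) = ∑ x, f x - (f v + f w) := by
        intro f
        have : ∀ x, f x = (if x = v ∨ x = w then 0 else f x) +
            (if x ∈ ({v, w} : Finset V) then f x else 0) := by
          intro x
          by_cases hx : x = v ∨ x = w
          · rw [if_pos hx, if_pos (by simpa using hx), zero_add]
          · rw [if_neg hx, if_neg (by simpa using hx), add_zero]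
        have h2 : ∑ x, f x = ∑ x, (if x = v ∨ x = w then 0 else f x) +
            ∑ x, (if x ∈ ({v, w} : Finset V) then f x else 0) := by
          rw [← Finset.sum_add_distrib]
          exact Finset.sum_congr rfl fun x _ => this x
        rw [Finset.sum_ite_mem, Finset.univ_inter, Finset.sum_pair hvw] at h2
        linarith
      rw [e1 (fun x => m x v + m x w), e1 T, Finset.sum_add_distrib, hj] at hsum
      have h3 : ∑ x, m x v = T v := by
        rw [hT]
        exact Finset.sum_congr rfl fun x _ => hs x v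
      have h4 : ∑ x, m x w = T w := by
        rw [hT]
        exact Finset.sum_congr rfl fun x _ => hs x w
      rw [h3, h4, h0, h0, h, hs w v, h] at hsum
      linarith
  have s1 : ∑ v, T v ^ 2 = ∑ v, ∑ w, m v w * T v := by
    refine Finset.sum_congr rfl fun v _ => ?_
    rw [← Finset.sum_mul, ← hT, sq]
  have s2 : ∑ v, T v ^ 2 = ∑ v, ∑ w, m v w * T w := by
    rw [s1, Finset.sum_comm]
    refine Finset.sum_congr rfl fun v _ => Finset.sum_congr rfl fun w _ => ?_
    rw [hs]
  have s3 : ∑ v, ∑ w, m v w * (T v + T w) ≤ ∑ v, ∑ w, m v w * (j + 1) :=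
    Finset.sum_le_sum fun v _ => Finset.sum_le_sum fun w _ => key v w
  have s4 : ∑ v, ∑ w, m v w * (j + 1) = 2 * j * (j + 1) := by
    rw [← hj, Finset.sum_mul]
    refine Finset.sum_congr rfl fun v _ => ?_
    rw [hT, Finset.sum_mul]
  have s5 : ∑ v, ∑ w, m v w * (T v + T w) = ∑ v, T v ^ 2 + ∑ v, T v ^ 2 := by
    nth_rewrite 1 [s1]
    rw [s2, ← Finset.sum_add_distrib]
    refine Finset.sum_congr rfl fun v _ => ?_
    rw [← Finset.sum_add_distrib]
    exact Finset.sum_congr rfl fun w _ => by ring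
  rw [s5, s4] at s3
  linarith

private theorem hi_add_lo (a : ℕ) : hi a + lo a = a := by
  unfold hi lo
  omega

-- MODULE MU-E: file Pool/Agent/Helper96/Mu/Direct.lean
theorem direct {B : Finset V} (hB : 4 ≤ B.card) (hm : 2 * mis G B ≤ hi B.card) :
    ∃ U : Set V, (mu (G.induce U) : ℝ) ≤ (hi B.card : ℝ) * ((hi B.card : ℝ) - 1) ^ 2 -
        (4 * (hi B.card : ℝ) - 5) * mis G B + mis G B ^ 2 ∧
      (mu (G.induce Uᶜ) : ℝ) ≤ (lo B.card : ℝ) * ((lo B.card : ℝ) - 1) ^ 2 +
        B.card * ext G B + ext G B ^ 2 := by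
  classical
  have hhl := hi_add_lo B.card
  have hhlR : (hi B.card : ℝ) + lo B.card = B.card := by exact_mod_cast hhl
  have hlo2 : 2 ≤ lo B.card := by unfold lo; omega
  have hlohi : lo B.card ≤ hi B.card := by unfold lo hi; omega
  -- the missing edges
  let m1 : V → V → ℝ := fun v w => if v ∈ B ∧ w ∈ B ∧ v ≠ w then 1 - adj G v w else 0
  let T1 : V → ℝ := fun v => ∑ w, m1 v w
  have m1_01 : ∀ v w, m1 v w = 0 ∨ m1 v w = 1 := by
    intro v w
    simp only [m1]
    split_ifs
    · rcases adj_zero_or_one G v w with h | h <;> rw [h] <;> norm_num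
    · exact Or.inl rfl
  have m1_s : ∀ v w, m1 v w = m1 w v := by
    intro v w
    simp only [m1]
    by_cases h : v ∈ B ∧ w ∈ B ∧ v ≠ w
    · rw [if_pos h, if_pos ⟨h.2.1, h.1, h.2.2.symm⟩, adj_comm]
    · rw [if_neg h, if_neg (fun h' => h ⟨h'.2.1, h'.1, h'.2.2.symm⟩)]
  have m1_0 : ∀ v, m1 v v = 0 := by
    intro v
    simp only [m1]
    rw [if_neg (fun h => h.2.2 rfl)]
  have hT1B : ∀ v ∈ B, T1 v = B.card - 1 - dg G B v := by
    intro v hv
    have h1 : ∀ w, m1 v w = if w ∈ B then (if v = w then 0 else 1) - adj G v w else 0 := by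
      intro w
      simp only [m1]
      by_cases hw : w ∈ B
      · by_cases hvw : v = w
        · subst hvw
          simp [adj_self]
        · simp [hv, hw, hvw]
      · simp [hw]
    show ∑ w, m1 v w = _
    rw [Finset.sum_congr rfl (fun w _ => h1 w), Finset.sum_ite_mem, Finset.univ_inter,
      Finset.sum_sub_distrib]
    have h2 : ∑ w ∈ B, (if v = w then (0 : ℝ) else 1) = B.card - 1 := by
      have : ∀ w, (if v = w then (0 : ℝ) else 1) = 1 - (if v = w then 1 else 0) := by
        intro w; split_ifs <;> norm_num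
      rw [Finset.sum_congr rfl (fun w _ => this w), Finset.sum_sub_distrib, Finset.sum_ite_eq,
        if_pos hv]
      simp
    rw [h2]
    rfl
  have hT1n : ∀ v, v ∉ B → T1 v = 0 := by
    intro v hv
    refine Finset.sum_eq_zero fun w _ => ?_
    simp only [m1]
    rw [if_neg (fun h => hv h.1)]
  have hm10 : ∀ v w, 0 ≤ m1 v w := by
    intro v w
    rcases m1_01 v w with h | h <;> rw [h]; norm_num
  have hT10 : ∀ v, 0 ≤ T1 v := fun v => Finset.sum_nonneg fun w _ => hm10 v w
  have hT1sum : ∑ v, T1 v = 2 * mis G B := by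
    have h1 : ∑ v, T1 v = ∑ v ∈ B, T1 v := by
      symm
      exact Finset.sum_subset (Finset.subset_univ _) fun v _ hv => hT1n v hv
    rw [h1, Finset.sum_congr rfl hT1B, Finset.sum_sub_distrib, Finset.sum_const, nsmul_eq_mul]
    unfold mis e2
    ring
  have hsq1 := sum_sq_le m1 m1_01 m1_s m1_0 T1 (fun _ => rfl) (mis G B) hT1sum
  -- the vertices with a missing edge
  let D : Finset V := B.filter (fun v => T1 v ≠ 0)
  have hD1 : ∀ v ∈ D, 1 ≤ T1 v := by
    intro v hv
    have hv2 : T1 v ≠ 0 := (Finset.mem_filter.1 hv).2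
    obtain ⟨w, _, hw⟩ := Finset.exists_ne_zero_of_sum_ne_zero hv2
    have hw1 : m1 v w = 1 := (m1_01 v w).resolve_left hw
    calc (1 : ℝ) = m1 v w := hw1.symm
      _ ≤ T1 v := Finset.single_le_sum (f := fun w => m1 v w) (fun w _ => hm10 v w)
          (Finset.mem_univ w)
  have hDcard : D.card ≤ hi B.card := by
    have h1 : (D.card : ℝ) ≤ ∑ v ∈ D, T1 v := by
      calc (D.card : ℝ) = ∑ v ∈ D, (1 : ℝ) := by simp
        _ ≤ _ := Finset.sum_le_sum hD1
    have h2 : ∑ v ∈ D, T1 v ≤ ∑ v, T1 v :=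
      Finset.sum_le_sum_of_subset_of_nonneg (Finset.subset_univ _) fun v _ _ => hT10 v
    have h3 : (D.card : ℝ) ≤ hi B.card := by linarith
    exact_mod_cast h3
  obtain ⟨S, hDS, hSB, hScard⟩ := Finset.exists_subsuperset_card_eq
    (Finset.filter_subset (fun v => T1 v ≠ 0) B) hDcard (by omega)
  have hT1S : ∀ v, v ∉ S → T1 v = 0 := by
    intro v hv
    by_cases hvB : v ∈ B
    · by_contra hne
      exact hv (hDS (Finset.mem_filter.2 ⟨hvB, hne⟩))
    · exact hT1n v hvB
  -- vertices outside `S` are adjacent to everything in `B`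
  have hadj : ∀ v ∈ B, v ∉ S → ∀ w ∈ B, w ≠ v → adj G v w = 1 := by
    intro v hv hvS w hw hwv
    have h1 : ∀ y ∈ (univ : Finset V), m1 v y = 0 :=
      (Finset.sum_eq_zero_iff_of_nonneg fun y _ => hm10 v y).1 (hT1S v hvS)
    have h2 := h1 w (Finset.mem_univ w)
    simp only [m1] at h2
    rw [if_pos ⟨hv, hw, hwv.symm⟩] at h2
    linarith
  have hBS : (B \ S).card = lo B.card := by
    rw [Finset.card_sdiff_of_subset hSB]
    omega
  have hdisj : Disjoint S (B \ S) := Finset.disjoint_sdiff
  have hunion : S ∪ (B \ S) = B := Finset.union_sdiff_of_subset hSB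
  refine ⟨(S : Set V), ?_, ?_⟩
  · -- the first part
    rw [mu_fin]
    have h1 : ∀ v ∈ S, dg G S v = (hi B.card : ℝ) - 1 - T1 v := by
      intro v hv
      have hvB := hSB hv
      have h2 := dg_union G hdisj v
      rw [hunion] at h2
      have h3 : dg G (B \ S) v = lo B.card := by
        unfold dg
        have : ∀ w ∈ B \ S, adj G v w = 1 := by
          intro w hw
          rw [Finset.mem_sdiff] at hw
          rw [adj_comm]
          exact hadj w hw.1 hw.2 v hvB (fun e => hw.2 (e ▸ hv))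
        rw [Finset.sum_congr rfl this, Finset.sum_const, hBS]
        simp
      have h4 := hT1B v hvB
      rw [h4, h2, h3]
      linarith
    have h2 : ∑ v ∈ S, T1 v = 2 * mis G B := by
      rw [← hT1sum]
      exact Finset.sum_subset (Finset.subset_univ _) fun v _ hv => hT1S v hv
    have h3 : ∑ v ∈ S, T1 v ^ 2 = ∑ v, T1 v ^ 2 := by
      refine Finset.sum_subset (Finset.subset_univ _) fun v _ hv => ?_
      rw [hT1S v hv]
      ring
    have h4 : ∑ v ∈ S, dg G S v ^ 2 = (hi B.card : ℝ) * ((hi B.card : ℝ) - 1) ^ 2 -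
        2 * ((hi B.card : ℝ) - 1) * ∑ v ∈ S, T1 v + ∑ v ∈ S, T1 v ^ 2 := by
      rw [Finset.mul_sum, ← hScard]
      have h5 : (S.card : ℝ) * ((S.card : ℝ) - 1) ^ 2 = ∑ v ∈ S, ((S.card : ℝ) - 1) ^ 2 := by
        rw [Finset.sum_const, nsmul_eq_mul]
      rw [h5, ← Finset.sum_sub_distrib, ← Finset.sum_add_distrib]
      refine Finset.sum_congr rfl fun v hv => ?_
      rw [h1 v hv, ← hScard]
      ring
    rw [h4, h2, h3]
    linarith
  · -- the second part
    rw [← Finset.coe_compl, mu_fin]
    let m2 : V → V → ℝ := fun v w =>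
      if v ∉ S ∧ w ∉ S ∧ ¬ (v ∈ B ∧ w ∈ B) then adj G v w else 0
    let T2 : V → ℝ := fun v => ∑ w, m2 v w
    have m2_01 : ∀ v w, m2 v w = 0 ∨ m2 v w = 1 := by
      intro v w
      simp only [m2]
      split_ifs
      · exact adj_zero_or_one G v w
      · exact Or.inl rfl
    have m2_s : ∀ v w, m2 v w = m2 w v := by
      intro v w
      simp only [m2]
      by_cases h : v ∉ S ∧ w ∉ S ∧ ¬ (v ∈ B ∧ w ∈ B)
      · rw [if_pos h, if_pos ⟨h.2.1, h.1, fun h' => h.2.2 h'.symm⟩, adj_comm]
      · rw [if_neg h, if_neg (fun h' => h ⟨h'.2.1, h'.1, fun h'' => h'.2.2 h''.symm⟩)]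
    have m2_0 : ∀ v, m2 v v = 0 := by
      intro v
      simp only [m2]
      split_ifs
      · exact adj_self G v
      · rfl
    have hm20 : ∀ v w, 0 ≤ m2 v w := by
      intro v w
      rcases m2_01 v w with h | h <;> rw [h]; norm_num
    have hT20 : ∀ v, 0 ≤ T2 v := fun v => Finset.sum_nonneg fun w _ => hm20 v w
    obtain ⟨K, hK⟩ : ∃ K : ℝ, ∑ v, T2 v = 2 * K := ⟨(∑ v, T2 v) / 2, by ring⟩
    have hsq2 := sum_sq_le m2 m2_01 m2_s m2_0 T2 (fun _ => rfl) K hK
    have hK0 : 0 ≤ K := by
      have : 0 ≤ ∑ v, T2 v := Finset.sum_nonneg fun v _ => hT20 v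
      linarith
    have hKle : K ≤ ext G B := by
      have h1 : tot G = ∑ v, ∑ w, adj G v w := rfl
      have h2 : e2 G B = ∑ v, ∑ w, (if v ∈ B ∧ w ∈ B then adj G v w else 0) := by
        unfold e2 dg
        rw [← Finset.univ_inter B, ← Finset.sum_ite_mem]
        refine Finset.sum_congr rfl fun v _ => ?_
        by_cases hv : v ∈ B
        · rw [if_pos hv, ← Finset.sum_ite_mem]
          refine Finset.sum_congr rfl fun w _ => ?_
          by_cases hw : w ∈ B <;> simp [hv, hw]
        · rw [if_neg hv]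
          symm
          refine Finset.sum_eq_zero fun w _ => ?_
          simp [hv]
      have h3 : ∑ v, ∑ w, m2 v w ≤ ∑ v, ∑ w, (adj G v w -
          (if v ∈ B ∧ w ∈ B then adj G v w else 0)) := by
        refine Finset.sum_le_sum fun v _ => Finset.sum_le_sum fun w _ => ?_
        have h0 := adj_nonneg G v w
        simp only [m2]
        by_cases h : v ∈ B ∧ w ∈ B
        · rw [if_neg (fun h' => h'.2.2 h), if_pos h]
          linarith
        · rw [if_neg h]
          split_ifs <;> linarith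
      have h4 : ∑ v, ∑ w, (adj G v w - (if v ∈ B ∧ w ∈ B then adj G v w else 0)) =
          tot G - e2 G B := by
        rw [h1, h2, ← Finset.sum_sub_distrib]
        refine Finset.sum_congr rfl fun v _ => ?_
        rw [Finset.sum_sub_distrib]
      rw [h4] at h3
      have h5 : ∑ v, T2 v = ∑ v, ∑ w, m2 v w := rfl
      unfold ext
      linarith
    have hcomp : (B \ S) ∪ Bᶜ = Sᶜ := by
      ext v
      simp only [Finset.mem_union, Finset.mem_sdiff, Finset.mem_compl]
      constructor
      · rintro (h | h)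
        · exact h.2
        · exact fun h' => h (hSB h')
      · intro h
        by_cases hv : v ∈ B
        · exact Or.inl ⟨hv, h⟩
        · exact Or.inr hv
    have hdisj2 : Disjoint (B \ S) Bᶜ := by
      rw [Finset.disjoint_left]
      intro v hv hv'
      exact (Finset.mem_compl.1 hv') (Finset.mem_sdiff.1 hv).1
    have hT2c : ∀ v, v ∉ S → v ∉ B → dg G Sᶜ v = T2 v := by
      intro v hvS hvB
      show ∑ w ∈ Sᶜ, adj G v w = ∑ w, m2 v w
      rw [← Finset.univ_inter Sᶜ, ← Finset.sum_ite_mem]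
      refine Finset.sum_congr rfl fun w _ => ?_
      simp only [m2]
      by_cases hw : w ∈ S <;> simp [hvS, hvB, hw]
    have hT2B : ∀ v ∈ B \ S, dg G Sᶜ v = (lo B.card : ℝ) - 1 + T2 v := by
      intro v hv
      have hv' := Finset.mem_sdiff.1 hv
      rw [← hcomp, dg_union G hdisj2]
      have h1 : dg G (B \ S) v = (lo B.card : ℝ) - 1 := by
        unfold dg
        rw [← Finset.sum_erase_add _ _ hv, adj_self, add_zero]
        have : ∀ w ∈ (B \ S).erase v, adj G v w = 1 := by
          intro w hw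
          rw [Finset.mem_erase, Finset.mem_sdiff] at hw
          exact hadj v hv'.1 hv'.2 w hw.2.1 hw.1
        rw [Finset.sum_congr rfl this, Finset.sum_const, Finset.card_erase_of_mem hv, hBS,
          nsmul_eq_mul, mul_one, Nat.cast_sub (by omega)]
        simp
      have h2 : dg G Bᶜ v = T2 v := by
        show ∑ w ∈ Bᶜ, adj G v w = ∑ w, m2 v w
        rw [← Finset.univ_inter Bᶜ, ← Finset.sum_ite_mem]
        refine Finset.sum_congr rfl fun w _ => ?_
        simp only [m2]
        by_cases hw : w ∈ B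
        · simp [hv'.1, hw]
        · have hwS : w ∉ S := fun h => hw (hSB h)
          simp [hv'.2, hw, hwS]
      rw [h1, h2]
    have hcost : ∑ v ∈ Sᶜ, dg G Sᶜ v ^ 2 = (lo B.card : ℝ) * ((lo B.card : ℝ) - 1) ^ 2 +
        2 * ((lo B.card : ℝ) - 1) * ∑ v ∈ B \ S, T2 v + ∑ v ∈ Sᶜ, T2 v ^ 2 := by
      rw [← hcomp, Finset.sum_union hdisj2, Finset.sum_union hdisj2, hcomp]
      have h1 : ∑ v ∈ Bᶜ, dg G Sᶜ v ^ 2 = ∑ v ∈ Bᶜ, T2 v ^ 2 := by
        refine Finset.sum_congr rfl fun v hv => ?_
        have hvB := Finset.mem_compl.1 hv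
        rw [hT2c v (fun h => hvB (hSB h)) hvB]
      have h2 : ∑ v ∈ B \ S, dg G Sᶜ v ^ 2 = (lo B.card : ℝ) * ((lo B.card : ℝ) - 1) ^ 2 +
          2 * ((lo B.card : ℝ) - 1) * ∑ v ∈ B \ S, T2 v + ∑ v ∈ B \ S, T2 v ^ 2 := by
        have h5 : (lo B.card : ℝ) * ((lo B.card : ℝ) - 1) ^ 2 =
            ∑ v ∈ B \ S, ((lo B.card : ℝ) - 1) ^ 2 := by
          rw [Finset.sum_const, nsmul_eq_mul, hBS]
        rw [Finset.mul_sum, h5, ← Finset.sum_add_distrib, ← Finset.sum_add_distrib]
        refine Finset.sum_congr rfl fun v hv => ?_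
        rw [hT2B v hv]
        ring
      rw [h1, h2]
      ring
    have hcross : ∑ v ∈ B \ S, T2 v ≤ K := by
      have h1 : ∑ v ∈ B \ S, T2 v ≤ ∑ w ∈ Bᶜ, T2 w := by
        have h2 : ∀ v ∈ B \ S, T2 v = dg G Bᶜ v := by
          intro v hv
          have hv' := Finset.mem_sdiff.1 hv
          symm
          show ∑ w ∈ Bᶜ, adj G v w = ∑ w, m2 v w
          rw [← Finset.univ_inter Bᶜ, ← Finset.sum_ite_mem]
          refine Finset.sum_congr rfl fun w _ => ?_
          simp only [m2]
          by_cases hw : w ∈ B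
          · simp [hv'.1, hw]
          · have hwS : w ∉ S := fun h => hw (hSB h)
            simp [hv'.2, hw, hwS]
        rw [Finset.sum_congr rfl h2, sum_dg_comm]
        refine Finset.sum_le_sum fun w hw => ?_
        have hwB := Finset.mem_compl.1 hw
        rw [← hT2c w (fun h => hwB (hSB h)) hwB]
        apply dg_mono
        rw [← hcomp]
        exact Finset.subset_union_left
      have h3 : ∑ v ∈ B \ S, T2 v + ∑ w ∈ Bᶜ, T2 w ≤ ∑ v, T2 v := by
        rw [← Finset.sum_union hdisj2]
        exact Finset.sum_le_sum_of_subset_of_nonneg (Finset.subset_univ _) fun v _ _ => hT20 v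
      linarith
    have hsq3 : ∑ v ∈ Sᶜ, T2 v ^ 2 ≤ ∑ v, T2 v ^ 2 :=
      Finset.sum_le_sum_of_subset_of_nonneg (Finset.subset_univ _) fun v _ _ => sq_nonneg _
    rw [hcost]
    have hl2 : (2 : ℝ) ≤ lo B.card := by exact_mod_cast hlo2
    have hlh : (lo B.card : ℝ) ≤ hi B.card := by exact_mod_cast hlohi
    have hE0 : 0 ≤ ext G B := hK0.trans hKle
    have f1 : 2 * ((lo B.card : ℝ) - 1) * ∑ v ∈ B \ S, T2 v ≤ 2 * ((lo B.card : ℝ) - 1) * ext G B :=
      mul_le_mul_of_nonneg_left (hcross.trans hKle) (by linarith)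
    have f2 : K ^ 2 ≤ ext G B ^ 2 := pow_le_pow_left₀ hK0 hKle 2
    have f3 : (2 * ((lo B.card : ℝ) - 1) + 1) * ext G B ≤ B.card * ext G B := by
      apply mul_le_mul_of_nonneg_right _ hE0
      linarith
    nlinarith

end Graph

end Pool.Agent.Helper96.Mu
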