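import Mathlib
import Pool.Agent.Helper96.Mu.Base

/-!
# Sum of squared degrees: a vertex of small degree with a large average yields a dense set
-/

namespace Pool.Agent.Helper96.Mu

open Finset Pool.Agent.Helper39.Mu

set_option linter.unusedSectionVars false

section Graph

variable {V : Type*} [Fintype V] [DecidableEq V] (G : SimpleGraph V)

theorem extract {N' δ ω : ℝ} (hN : 0 < N') (hsum : ∑ v, deg G v = (1 + 2 * ω) * N' ^ 2) {v : V}
    (hv1 : deg G v < (1 + δ) * N') (hv2 : N' / 2 < avg G (prob G N') v) :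
    ∃ A : Finset V, (A.card : ℝ) ≤ (1 + δ) * N' ∧ (1 - 2 * ω) * N' ^ 2 ≤ e2 G A := by
  classical
  set A : Finset V := univ.filter (fun w => adj G v w = 1) with hA
  have key : ∀ q : V → ℝ, ∑ w, adj G v w * q w = ∑ w ∈ A, q w := by
    intro q
    rw [hA, Finset.sum_filter]
    refine Finset.sum_congr rfl fun w _ => ?_
    rcases adj_zero_or_one G v w with h | h <;> simp [h]
  have hcard : (A.card : ℝ) = deg G v := by
    have h := key (fun _ => 1)
    simp only [mul_one, Finset.sum_const, nsmul_eq_mul] at h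
    exact h.symm
  refine ⟨A, by rw [hcard]; exact hv1.le, ?_⟩
  have h1 : avg G (prob G N') v ≤ (∑ w ∈ A, deg G w) / (2 * N') := by
    have h2 : avg G (prob G N') v = ∑ w ∈ A, prob G N' w := key _
    rw [h2, Finset.sum_div]
    refine Finset.sum_le_sum fun w _ => ?_
    calc prob G N' w ≤ deg G w / N' / 2 := min_le_right _ _
      _ = deg G w / (2 * N') := by field_simp
  have h3 : N' ^ 2 < ∑ w ∈ A, deg G w := by
    have h4 := lt_of_lt_of_le hv2 h1
    rw [lt_div_iff₀ (by positivity)] at h4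
    nlinarith
  have hsplit : ∀ w, deg G w = dg G A w + dg G Aᶜ w := by
    intro w
    rw [← dg_union G disjoint_compl_right, Finset.union_compl, dg_univ]
  have h5 : ∑ w ∈ A, deg G w = e2 G A + ∑ w ∈ A, dg G Aᶜ w := by
    unfold e2
    rw [← Finset.sum_add_distrib]
    exact Finset.sum_congr rfl fun w _ => hsplit w
  have h6 : ∑ w ∈ A, dg G Aᶜ w ≤ ∑ w ∈ Aᶜ, deg G w := by
    rw [sum_dg_comm]
    exact Finset.sum_le_sum fun w _ => dg_le_deg G A w
  have h7 : ∑ w ∈ A, deg G w + ∑ w ∈ Aᶜ, deg G w = (1 + 2 * ω) * N' ^ 2 := by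
    rw [Finset.sum_add_sum_compl, hsum]
  nlinarith

end Graph

end Pool.Agent.Helper96.Mu
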