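import Pool.Agent.Helper96.Mu.Base

/-!
# Numerical consequence of the averaging bound near a clique (without the averaging bound)
-/

namespace Pool.Agent.Helper96.Mu

open Finset Pool.Agent.Helper39.Mu

set_option linter.unusedSectionVars false

lemma rho2_nonneg {a : ℕ} (ha : 3 ≤ a) : 0 ≤ rho2 a := by
  have h1 : (0 : ℝ) ≤ (hi a : ℝ) * (hi a - 1) := by
    have : (1 : ℝ) ≤ hi a := by
      have : 1 ≤ hi a := by unfold hi; omega
      exact_mod_cast this
    nlinarith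
  have h2 : (0 : ℝ) ≤ (lo a : ℝ) * (lo a - 1) := by
    have : (1 : ℝ) ≤ lo a := by
      have : 1 ≤ lo a := by unfold lo; omega
      exact_mod_cast this
    nlinarith
  have h3 : (3 : ℝ) ≤ a := by exact_mod_cast ha
  unfold rho2
  apply div_nonneg (by linarith)
  nlinarith

lemma hi_cast_even (k : ℕ) : hi (2 * k) = k := by unfold hi; omega
lemma lo_cast_even (k : ℕ) : lo (2 * k) = k := by unfold lo; omega
lemma hi_cast_odd (k : ℕ) : hi (2 * k + 1) = k + 1 := by unfold hi; omega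
lemma lo_cast_odd (k : ℕ) : lo (2 * k + 1) = k := by unfold lo; omega

lemma rho2_le {a : ℕ} (ha : 3 ≤ a) : rho2 a ≤ 1 / 4 := by
  have h3 : (3 : ℝ) ≤ a := by exact_mod_cast ha
  rcases Nat.even_or_odd' a with ⟨k, rfl | rfl⟩
  · unfold rho2
    rw [hi_cast_even, lo_cast_even]
    push_cast at h3 ⊢
    rw [div_le_iff₀ (by nlinarith)]
    nlinarith
  · unfold rho2
    rw [hi_cast_odd, lo_cast_odd]
    push_cast at h3 ⊢
    rw [div_le_iff₀ (by nlinarith)]
    nlinarith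

lemma rho3_ge {a : ℕ} (h3 : (1000 : ℝ) ≤ a) : 12 / 100 ≤ rho3 a := by
  rcases Nat.even_or_odd' a with ⟨k, rfl | rfl⟩
  · unfold rho3
    rw [hi_cast_even, lo_cast_even]
    push_cast at h3 ⊢
    have hk : (500 : ℝ) ≤ k := by linarith
    have hpos : (0 : ℝ) < 2 * (2 * k * (2 * k - 1) * (2 * k - 2)) := by
      have : (0 : ℝ) < 2 * k * (2 * k - 1) := by nlinarith
      nlinarith
    rw [le_div_iff₀ hpos]
    have e : (k : ℝ) * (k - 1) * (k - 2) + k * (k - 1) * (k - 2) -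
        12 / 100 * (2 * (2 * k * (2 * k - 1) * (2 * k - 2))) =
        k * (k - 1) * (2 * (k - 2) - 96 / 100 * (2 * k - 1)) := by ring
    have h4 : 0 ≤ (k : ℝ) * (k - 1) := by nlinarith
    have h5 : 0 ≤ 2 * ((k : ℝ) - 2) - 96 / 100 * (2 * k - 1) := by linarith
    nlinarith [mul_nonneg h4 h5]
  · unfold rho3
    rw [hi_cast_odd, lo_cast_odd]
    push_cast at h3 ⊢
    have hk : (499 : ℝ) ≤ k := by linarith
    have hpos : (0 : ℝ) < 2 * ((2 * k + 1) * (2 * k + 1 - 1) * (2 * k + 1 - 2)) := by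
      have : (0 : ℝ) < (2 * k + 1) * (2 * k + 1 - 1) := by nlinarith
      nlinarith
    rw [le_div_iff₀ hpos]
    have e : ((k : ℝ) + 1) * (k + 1 - 1) * (k + 1 - 2) + k * (k - 1) * (k - 2) -
        12 / 100 * (2 * ((2 * k + 1) * (2 * k + 1 - 1) * (2 * k + 1 - 2))) =
        k * (2 * k - 1) * ((k - 1) - 48 / 100 * (2 * k + 1)) := by ring
    have h4 : 0 ≤ (k : ℝ) * (2 * k - 1) := by nlinarith
    have h5 : 0 ≤ ((k : ℝ) - 1) - 48 / 100 * (2 * k + 1) := by linarith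
    nlinarith [mul_nonneg h4 h5]

lemma hi_add_lo (a : ℕ) : hi a + lo a = a := by unfold hi lo; omega

lemma fK_eq {a : ℕ} (ha : 3 ≤ a) :
    (a : ℝ) * (2 * (((a : ℝ) - 1) * rho2 a + ((a : ℝ) - 1) * (a - 2) * rho3 a)) = fK a := by
  have h3 : (3 : ℝ) ≤ a := by exact_mod_cast ha
  have h0 : (a : ℝ) ≠ 0 := by linarith
  have h1 : (a : ℝ) - 1 ≠ 0 := by linarith
  have h2 : (a : ℝ) - 2 ≠ 0 := by linarith
  unfold rho2 rho3 fK
  field_simp
  ring

lemma sl_lo {a : ℝ} (ha : 1 ≤ a) : 3 / 4 * a - 13 / 8 ≤ sl a := by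
  unfold sl
  rw [le_div_iff₀ (by linarith)]
  nlinarith

lemma sl_hi {a : ℝ} (ha : 10 ≤ a) : sl a ≤ 3 / 4 * a := by
  unfold sl
  rw [div_le_iff₀ (by linarith)]
  nlinarith

section Graph

variable {V : Type*} [Fintype V] [DecidableEq V] (G : SimpleGraph V)

/-- numerical inequality at a vertex of `B`, main part -/
lemma vB_main {N a r2 r3 sla d fka : ℝ} (hN : 10 ^ 6 ≤ N) (ha1 : (1 - 1 / 10 ^ 6) * N ≤ a)
    (h2 : 0 ≤ r2) (h3 : 12 / 100 ≤ r3)
    (hs : sla ≤ 3 / 4 * a) (hf : a * (2 * ((a - 1) * r2 + (a - 1) * (a - 2) * r3)) = fka)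
    (ht0 : d ≤ a - 1) (ht : a - 1 - d ≤ N / 80) :
    2 * (d * r2 + d * (d - 1) * r3) ≤ fka / a - (sla + N / 1000) * (a - 1 - d) / 2 := by
  have ha0 : 0 < a := by linarith
  have e1 : fka / a = 2 * ((a - 1) * r2 + (a - 1) * (a - 2) * r3) := by
    rw [← hf]; field_simp
  rw [e1]
  obtain ⟨t, rfl⟩ : ∃ t, d = a - 1 - t := ⟨a - 1 - d, by ring⟩
  have ht0' : 0 ≤ t := by linarith
  have ht' : t ≤ N / 80 := by linarith
  have key : 0 ≤ t * (2 * r2 + 2 * r3 * (2 * a - 3 - t) - (sla + N / 1000) / 2) := by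
    apply mul_nonneg ht0'
    have h4 : 0 ≤ 2 * a - 3 - t := by linarith
    have h5 : 2 * (12 / 100) * (2 * a - 3 - t) ≤ 2 * r3 * (2 * a - 3 - t) := by
      nlinarith
    linarith
  nlinarith [key]

lemma vB_cross {N a r2 d h l : ℝ} (h2' : r2 ≤ 1 / 4) (hd0 : 0 ≤ d) (hd : d ≤ a)
    (hh0 : 0 ≤ h) (hh : h ≤ N / 10 ^ 4) (hl0 : 0 ≤ l) (hl : l ≤ N / 80) :
    2 * r2 * d * (h + l) + (h ^ 2 + l ^ 2) / 2 ≤
      (a / 2 + N / 20000) * h + (a / 2 + N / 160) * l := by
  have e1 : 2 * r2 * d ≤ a / 2 := by nlinarith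
  have e2 : 2 * r2 * d * (h + l) ≤ a / 2 * (h + l) :=
    mul_le_mul_of_nonneg_right e1 (by linarith)
  nlinarith

lemma vH {N a r2 sla d s lam : ℝ} (hN : 10 ^ 6 ≤ N) (ha1 : (1 - 1 / 10 ^ 6) * N ≤ a)
    (ha2 : a ≤ (1 + 1 / 10 ^ 6) * N) (h2 : 0 ≤ r2) (h2' : r2 ≤ 1 / 4)
    (hs : 3 / 4 * a - 13 / 8 ≤ sla) (hd0 : 0 ≤ d) (hd : d ≤ a) (hs0 : 0 ≤ s)
    (hs1 : s ≤ N / 10 ^ 4) (hl0 : 0 ≤ lam)
    (halt : d ≤ 991 / 1000 * N ∨ N / 200 ≤ s + lam) :
    d * (a / 2 + N / 20000) + (d / 2 + d * (d - 1) * r2 + d * s + s ^ 2) ≤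
      (sla - N / 1000) * (d + (s + lam) / 2) := by
  have e0 : 74899 / 100000 * N ≤ sla - N / 1000 := by linarith
  have e1 : 74899 / 100000 * N * (d + (s + lam) / 2) ≤ (sla - N / 1000) * (d + (s + lam) / 2) :=
    mul_le_mul_of_nonneg_right e0 (by linarith)
  have e2 : d * (d - 1) * r2 ≤ d ^ 2 / 4 := by nlinarith [mul_nonneg hd0 h2]
  have e3 : d * (a / 2 + N / 20000) + d / 2 ≤ 500051 / 1000000 * N * d := by nlinarith
  have e4 : s ^ 2 ≤ N / 10 ^ 4 * s := by nlinarith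
  have e5 : 0 ≤ d * (248939 / 1000000 * N - d / 4 - s) + 374 / 1000 * N * (s + lam) -
      N / 10 ^ 4 * s := by
    rcases halt with h | h
    · have : 0 ≤ 248939 / 1000000 * N - d / 4 - s := by linarith
      nlinarith [mul_nonneg hd0 this]
    · have h6 : -(1162 / 1000000 * N) ≤ 248939 / 1000000 * N - d / 4 - s := by linarith
      have h7 : -(1162 / 1000000 * N) * d ≤ d * (248939 / 1000000 * N - d / 4 - s) := by
        nlinarith
      have h8 : 1162 / 1000000 * N * d ≤ 1163 / 1000000 * N ^ 2 := by nlinarith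
      nlinarith
  nlinarith

lemma vL {N a r2 sla d p q : ℝ} (hN : 10 ^ 6 ≤ N) (ha1 : (1 - 1 / 10 ^ 6) * N ≤ a)
    (ha2 : a ≤ (1 + 1 / 10 ^ 6) * N) (h2 : 0 ≤ r2) (h2' : r2 ≤ 1 / 4)
    (hs : 3 / 4 * a - 13 / 8 ≤ sla) (hd0 : 0 ≤ d) (hp0 : 0 ≤ p) (hq0 : 0 ≤ q)
    (hdeg : d + q + p ≤ N / 100) :
    d * (a / 2 + N / 160) + (d / 2 + d * (d - 1) * r2 + d * p + p ^ 2) ≤
      (sla - N / 1000) * (d + (q + p) / 2) := by
  have e0 : 74899 / 100000 * N ≤ sla - N / 1000 := by linarith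
  have e1 : 74899 / 100000 * N * (d + (q + p) / 2) ≤ (sla - N / 1000) * (d + (q + p) / 2) :=
    mul_le_mul_of_nonneg_right e0 (by linarith)
  have e2 : d * (d - 1) * r2 ≤ d ^ 2 / 4 := by nlinarith [mul_nonneg hd0 h2]
  have e3 : d * (a / 2 + N / 160) + d / 2 ≤ 506251 / 1000000 * N * d + N / 1000000 * d := by
    nlinarith
  have e4 : p ^ 2 ≤ N / 100 * p := by nlinarith
  have e5 : d * p ≤ N / 100 * p := by nlinarith
  have e6 : d ^ 2 ≤ N / 100 * d := by nlinarith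
  nlinarith

theorem near_bound_of {N : ℝ} {B H L : Finset V} (hc : Core G N B H L) (hN : 10 ^ 6 ≤ N)
    {T : ℝ} (hA : T ≤
      ∑ v ∈ B, (2 * (dg G B v * rho2 B.card + dg G B v * (dg G B v - 1) * rho3 B.card) +
        2 * rho2 B.card * dg G B v * (dg G H v + dg G L v) +
        (dg G H v ^ 2 + dg G L v ^ 2) / 2) +
      ∑ h ∈ H, (dg G B h / 2 + dg G B h * (dg G B h - 1) * rho2 B.card +
        dg G B h * dg G H h + dg G H h ^ 2) +
      ∑ l ∈ L, (dg G B l / 2 + dg G B l * (dg G B l - 1) * rho2 B.card +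
        dg G B l * dg G L l + dg G L l ^ 2)) :
    T ≤ fK B.card + sl B.card * (ext G B - mis G B) -
      N / 1000 * (ext G B + mis G B) := by
  have ha1 := hc.card_lo
  have ha2 := hc.card_hi
  have hcH : (H.card : ℝ) ≤ N / 10 ^ 4 := hc.cardH.trans (by norm_num; linarith)
  have haR : (1000 : ℝ) ≤ B.card := by linarith
  have h3 : 3 ≤ B.card := by
    have : (3 : ℝ) ≤ B.card := by linarith
    exact_mod_cast this
  have hr2 := rho2_nonneg h3
  have hr2' := rho2_le h3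
  have hr3 := rho3_ge haR
  have hfK := fK_eq h3
  have hs1 := sl_lo (a := (B.card : ℝ)) (by linarith)
  have hs2 := sl_hi (a := (B.card : ℝ)) (by linarith)
  -- degrees
  have hdeg : ∀ v, deg G v = dg G B v + dg G H v + dg G L v := by
    intro v
    rw [← dg_univ, ← hc.union, dg_union G _ v, dg_union G hc.disjBH v]
    rw [Finset.disjoint_union_left]
    exact ⟨hc.disjBL, hc.disjHL⟩
  have hout : ∀ v, dg G (H ∪ L) v = dg G H v + dg G L v := fun v => dg_union G hc.disjHL v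
  have htot : tot G = ∑ v ∈ B, deg G v + ∑ v ∈ H, deg G v + ∑ v ∈ L, deg G v := by
    unfold tot
    rw [← hc.union, Finset.sum_union, Finset.sum_union hc.disjBH]
    rw [Finset.disjoint_union_left]
    exact ⟨hc.disjBL, hc.disjHL⟩
  have hBH := sum_dg_comm G B H
  have hBL := sum_dg_comm G B L
  -- `B` part
  have hB1 : ∑ v ∈ B, (2 * (dg G B v * rho2 B.card + dg G B v * (dg G B v - 1) * rho3 B.card) +
        2 * rho2 B.card * dg G B v * (dg G H v + dg G L v) +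
        (dg G H v ^ 2 + dg G L v ^ 2) / 2) ≤
      ∑ v ∈ B, (fK B.card / B.card - (sl B.card + N / 1000) * (B.card - 1 - dg G B v) / 2 +
        (((B.card : ℝ) / 2 + N / 20000) * dg G H v + ((B.card : ℝ) / 2 + N / 160) * dg G L v)) := by
    apply Finset.sum_le_sum
    intro v hv
    have i1 := vB_main hN ha1 hr2 hr3 hs2 hfK (dg_le_card_sub_one G hv) (hc.miss v hv)
    have hHv : dg G H v ≤ N / 10 ^ 4 := (dg_le_card G H v).trans hcH
    have hLv : dg G L v ≤ N / 80 := by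
      have := hc.out v hv
      rw [hout] at this
      linarith [dg_nonneg G H v]
    have i2 := vB_cross (a := (B.card : ℝ)) hr2' (dg_nonneg G B v) (dg_le_card G B v)
      (dg_nonneg G H v) hHv (dg_nonneg G L v) hLv
    linarith
  have hB2 : ∑ v ∈ B, (fK B.card / B.card - (sl B.card + N / 1000) * (B.card - 1 - dg G B v) / 2 +
        (((B.card : ℝ) / 2 + N / 20000) * dg G H v + ((B.card : ℝ) / 2 + N / 160) * dg G L v)) =
      fK B.card - (sl B.card + N / 1000) * mis G B +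
        ∑ h ∈ H, dg G B h * ((B.card : ℝ) / 2 + N / 20000) +
        ∑ l ∈ L, dg G B l * ((B.card : ℝ) / 2 + N / 160) := by
    rw [Finset.sum_add_distrib, Finset.sum_sub_distrib, Finset.sum_add_distrib,
      ← Finset.mul_sum, ← Finset.mul_sum, hBH, hBL, ← Finset.sum_mul, ← Finset.sum_mul]
    have e1 : ∑ v ∈ B, fK B.card / (B.card : ℝ) = fK B.card := by
      rw [Finset.sum_const, nsmul_eq_mul]
      field_simp
    have e2 : ∑ v ∈ B, (sl B.card + N / 1000) * ((B.card : ℝ) - 1 - dg G B v) / 2 =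
        (sl B.card + N / 1000) * mis G B := by
      rw [← Finset.sum_div, ← Finset.mul_sum, Finset.sum_sub_distrib, Finset.sum_const,
        nsmul_eq_mul]
      unfold mis e2
      ring
    rw [e1, e2]
    ring
  -- `H` and `L` parts
  have hH : ∑ h ∈ H, (dg G B h / 2 + dg G B h * (dg G B h - 1) * rho2 B.card +
        dg G B h * dg G H h + dg G H h ^ 2) +
        ∑ h ∈ H, dg G B h * ((B.card : ℝ) / 2 + N / 20000) ≤
      (sl B.card - N / 1000) * ∑ h ∈ H, (dg G B h + (dg G H h + dg G L h) / 2) := by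
    rw [← Finset.sum_add_distrib, Finset.mul_sum]
    apply Finset.sum_le_sum
    intro v hv
    have halt := hc.Halt v hv
    rw [hout] at halt
    have := vH hN ha1 ha2 hr2 hr2' hs1 (dg_nonneg G B v) (dg_le_card G B v) (dg_nonneg G H v)
      ((dg_le_card G H v).trans hcH) (dg_nonneg G L v) halt
    linarith
  have hL : ∑ l ∈ L, (dg G B l / 2 + dg G B l * (dg G B l - 1) * rho2 B.card +
        dg G B l * dg G L l + dg G L l ^ 2) +
        ∑ l ∈ L, dg G B l * ((B.card : ℝ) / 2 + N / 160) ≤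
      (sl B.card - N / 1000) * ∑ l ∈ L, (dg G B l + (dg G H l + dg G L l) / 2) := by
    rw [← Finset.sum_add_distrib, Finset.mul_sum]
    apply Finset.sum_le_sum
    intro v hv
    have hd := hc.Ldeg v hv
    rw [hdeg] at hd
    have := vL hN ha1 ha2 hr2 hr2' hs1 (dg_nonneg G B v) (dg_nonneg G L v) (dg_nonneg G H v) hd
    linarith
  -- `ext`
  have hext : ext G B = ∑ h ∈ H, (dg G B h + (dg G H h + dg G L h) / 2) +
      ∑ l ∈ L, (dg G B l + (dg G H l + dg G L l) / 2) := by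
    unfold ext
    rw [htot]
    simp only [hdeg, Finset.sum_add_distrib, ← Finset.sum_div, e2]
    rw [hBH, hBL]
    ring
  have hfin : T ≤ fK B.card - (sl B.card + N / 1000) * mis G B +
      (sl B.card - N / 1000) * ext G B := by
    rw [hext]
    rw [hB2] at hB1
    linarith
  linarith

end Graph

end Pool.Agent.Helper96.Mu
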