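import Pool.Agent.Helper96.Mu.Avg
import Pool.Agent.Helper96.Mu.Near0

/-!
# The bound near a clique
-/

namespace Pool.Agent.Helper96.Mu

open Finset Pool.Agent.Helper39.Mu

variable {V : Type*} [Fintype V] [DecidableEq V] (G : SimpleGraph V)

theorem near_bound {N : ℝ} {B H L : Finset V} (hc : Core G N B H L) (hN : 10 ^ 6 ≤ N)
    (hsum : tot G = N ^ 2) :
    (fMu G : ℝ) ≤ fK B.card + sl B.card * (ext G B - mis G B) -
      N / 1000 * (ext G B + mis G B) := by
  refine near_bound_of G hc hN (fMu_le_avg G hc.union hc.disjBH hc.disjBL hc.disjHL ?_)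
  have ha1 := hc.card_lo
  have : (3 : ℝ) ≤ B.card := by linarith
  exact_mod_cast this

end Pool.Agent.Helper96.Mu
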