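import Pool.Agent.Helper96.Mu.Near0

/-!
# Sharper numerical consequence of the averaging bound near a clique
-/

namespace Pool.Agent.Helper96.Mu

open Finset Pool.Agent.Helper39.Mu

set_option linter.unusedSectionVars false

lemma rho3_ge' {a : ℕ} (h3 : (10000 : ℝ) ≤ a) : 1249 / 10000 ≤ rho3 a := by
  rcases Nat.even_or_odd' a with ⟨k, rfl | rfl⟩
  · unfold rho3
    rw [hi_cast_even, lo_cast_even]
    push_cast at h3 ⊢
    have hk : (5000 : ℝ) ≤ k := by linarith
    have hpos : (0 : ℝ) < 2 * (2 * k * (2 * k - 1) * (2 * k - 2)) := by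
      have : (0 : ℝ) < 2 * k * (2 * k - 1) := by nlinarith
      nlinarith
    rw [le_div_iff₀ hpos]
    have e : (k : ℝ) * (k - 1) * (k - 2) + k * (k - 1) * (k - 2) -
        1249 / 10000 * (2 * (2 * k * (2 * k - 1) * (2 * k - 2))) =
        k * (k - 1) * (2 * (k - 2) - 9992 / 10000 * (2 * k - 1)) := by ring
    have h4 : 0 ≤ (k : ℝ) * (k - 1) := by nlinarith
    have h5 : 0 ≤ 2 * ((k : ℝ) - 2) - 9992 / 10000 * (2 * k - 1) := by linarith
    nlinarith [mul_nonneg h4 h5]
  · unfold rho3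
    rw [hi_cast_odd, lo_cast_odd]
    push_cast at h3 ⊢
    have hk : (4999 : ℝ) ≤ k := by linarith
    have hpos : (0 : ℝ) < 2 * ((2 * k + 1) * (2 * k + 1 - 1) * (2 * k + 1 - 2)) := by
      have : (0 : ℝ) < (2 * k + 1) * (2 * k + 1 - 1) := by nlinarith
      nlinarith
    rw [le_div_iff₀ hpos]
    have e : ((k : ℝ) + 1) * (k + 1 - 1) * (k + 1 - 2) + k * (k - 1) * (k - 2) -
        1249 / 10000 * (2 * ((2 * k + 1) * (2 * k + 1 - 1) * (2 * k + 1 - 2))) =
        k * (2 * k - 1) * ((k - 1) - 4996 / 10000 * (2 * k + 1)) := by ring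
    have h4 : 0 ≤ (k : ℝ) * (2 * k - 1) := by nlinarith
    have h5 : 0 ≤ ((k : ℝ) - 1) - 4996 / 10000 * (2 * k + 1) := by linarith
    nlinarith [mul_nonneg h4 h5]

section Graph

variable {V : Type*} [Fintype V] [DecidableEq V] (G : SimpleGraph V)

/-- numerical inequality at a vertex of `B`, main part -/
lemma vB_main2 {N a r2 r3 sla d fka : ℝ} (hN : 10 ^ 6 ≤ N) (ha1 : (1 - 1 / 10 ^ 6) * N ≤ a)
    (h2 : 0 ≤ r2) (h3 : 1249 / 10000 ≤ r3)
    (hs : sla ≤ 3 / 4 * a) (hf : a * (2 * ((a - 1) * r2 + (a - 1) * (a - 2) * r3)) = fka)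
    (ht0 : d ≤ a - 1) (ht : a - 1 - d ≤ N / 80) :
    2 * (d * r2 + d * (d - 1) * r3) ≤ fka / a - (sla + 6 / 25 * N) * (a - 1 - d) / 2 := by
  have ha0 : 0 < a := by linarith
  have e1 : fka / a = 2 * ((a - 1) * r2 + (a - 1) * (a - 2) * r3) := by
    rw [← hf]; field_simp
  rw [e1]
  obtain ⟨t, rfl⟩ : ∃ t, d = a - 1 - t := ⟨a - 1 - d, by ring⟩
  have ht0' : 0 ≤ t := by linarith
  have ht' : t ≤ N / 80 := by linarith
  have key : 0 ≤ t * (2 * r2 + 2 * r3 * (2 * a - 3 - t) - (sla + 6 / 25 * N) / 2) := by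
    apply mul_nonneg ht0'
    have h4 : 0 ≤ 2 * a - 3 - t := by linarith
    have h5 : 2 * (1249 / 10000) * (2 * a - 3 - t) ≤ 2 * r3 * (2 * a - 3 - t) := by
      nlinarith
    linarith
  nlinarith [key]

lemma vB_cross2 {N a r2 d h l : ℝ} (h2' : r2 ≤ 1 / 4) (hd0 : 0 ≤ d) (hd : d ≤ a)
    (hh0 : 0 ≤ h) (hh : h ≤ N / 10 ^ 6) (hl0 : 0 ≤ l) (hl : l ≤ N / 80) :
    2 * r2 * d * (h + l) + (h ^ 2 + l ^ 2) / 2 ≤
      (a / 2 + N / 2000000) * h + (a / 2 + N / 160) * l := by
  have e1 : 2 * r2 * d ≤ a / 2 := by nlinarith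
  have e2 : 2 * r2 * d * (h + l) ≤ a / 2 * (h + l) :=
    mul_le_mul_of_nonneg_right e1 (by linarith)
  nlinarith

lemma vH2 {N a r2 sla d s lam : ℝ} (hN : 10 ^ 6 ≤ N) (ha1 : (1 - 1 / 10 ^ 6) * N ≤ a)
    (ha2 : a ≤ (1 + 1 / 10 ^ 6) * N) (h2 : 0 ≤ r2) (h2' : r2 ≤ 1 / 4)
    (hs : 3 / 4 * a - 13 / 8 ≤ sla) (hd0 : 0 ≤ d) (hd : d ≤ a) (hs0 : 0 ≤ s)
    (hs1 : s ≤ N / 10 ^ 6) (hl0 : 0 ≤ lam)
    (halt : d ≤ 991 / 1000 * N ∨ N / 200 ≤ s + lam) :
    d * (a / 2 + N / 2000000) + (d / 2 + d * (d - 1) * r2 + d * s + s ^ 2) ≤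
      sla * (d + (s + lam) / 2) - 6 / 25 * N * ((s + lam) / 2) - 6 / 25 * (d * (N - d)) := by
  have e0 : 3 / 4 * a - 13 / 8 ≤ sla := hs
  have e1 : (3 / 4 * a - 13 / 8) * (d + (s + lam) / 2) ≤ sla * (d + (s + lam) / 2) :=
    mul_le_mul_of_nonneg_right e0 (by linarith)
  have e2 : d * (d - 1) * r2 ≤ d ^ 2 / 4 := by nlinarith [mul_nonneg hd0 h2]
  have e4 : s ^ 2 ≤ N / 10 ^ 6 * s := by nlinarith
  have e6 : d * s ≤ N / 10 ^ 6 * d := by nlinarith
  have e7 : 0 ≤ d * (1 / 4 * a - d / 4 - 17 / 8 - N / 2000000 - N / 10 ^ 6) -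
      6 / 25 * (d * (N - d)) + 254 / 1000 * N * (s + lam) - N / 10 ^ 6 * s := by
    have g1 : d * (1 / 4 * (N - d) - 4 / 10 ^ 6 * N) ≤
        d * (1 / 4 * a - d / 4 - 17 / 8 - N / 2000000 - N / 10 ^ 6) := by
      apply mul_le_mul_of_nonneg_left _ hd0
      norm_num at ha1 ⊢
      linarith
    have g2 : 0 ≤ d * (1 / 100 * (N - d) - 4 / 10 ^ 6 * N) + 254 / 1000 * N * (s + lam) -
        N / 10 ^ 6 * s := by
      rcases halt with h | h
      · have : 0 ≤ 1 / 100 * (N - d) - 4 / 10 ^ 6 * N := by norm_num; linarith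
        have g3 := mul_nonneg hd0 this
        have g4 : 0 ≤ N * lam := mul_nonneg (by linarith) hl0
        have g5 : 0 ≤ N * s := mul_nonneg (by linarith) hs0
        norm_num at g3 ⊢
        nlinarith
      · have g3 : -(5 / 10 ^ 6 * N) ≤ 1 / 100 * (N - d) - 4 / 10 ^ 6 * N := by
          norm_num at ha2 ⊢
          linarith
        have g4 : -(5 / 10 ^ 6 * N) * d ≤ d * (1 / 100 * (N - d) - 4 / 10 ^ 6 * N) := by
          nlinarith
        have g5 : 5 / 10 ^ 6 * N * d ≤ 6 / 10 ^ 6 * N ^ 2 := by nlinarith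
        have g6 : N * (N / 200) ≤ N * (s + lam) := mul_le_mul_of_nonneg_left h (by linarith)
        have g7 : 0 ≤ N * lam := mul_nonneg (by linarith) hl0
        have g8 : 0 ≤ N * s := mul_nonneg (by linarith) hs0
        norm_num at g4 g5 ⊢
        nlinarith
    linarith
  have e8 : 254 / 1000 * N * (s + lam) ≤
      (3 / 4 * a - 13 / 8) * ((s + lam) / 2) - 6 / 25 * N * ((s + lam) / 2) := by
    have : 0 ≤ (s + lam) * ((3 / 4 * a - 13 / 8) / 2 - 3 / 25 * N - 254 / 1000 * N) := by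
      apply mul_nonneg (by linarith)
      norm_num at ha1
      linarith
    linarith
  linarith

lemma vL2 {N a r2 sla d p q : ℝ} (hN : 10 ^ 6 ≤ N) (ha1 : (1 - 1 / 10 ^ 6) * N ≤ a)
    (ha2 : a ≤ (1 + 1 / 10 ^ 6) * N) (h2 : 0 ≤ r2) (h2' : r2 ≤ 1 / 4)
    (hs : 3 / 4 * a - 13 / 8 ≤ sla) (hd0 : 0 ≤ d) (hp0 : 0 ≤ p) (hq0 : 0 ≤ q)
    (hdeg : d + q + p ≤ N / 100) :
    d * (a / 2 + N / 160) + (d / 2 + d * (d - 1) * r2 + d * p + p ^ 2) ≤
      (sla - 6 / 25 * N) * (d + (q + p) / 2) := by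
  have e0 : 5099 / 10000 * N ≤ sla - 6 / 25 * N := by linarith
  have e1 : 5099 / 10000 * N * (d + (q + p) / 2) ≤ (sla - 6 / 25 * N) * (d + (q + p) / 2) :=
    mul_le_mul_of_nonneg_right e0 (by linarith)
  have e2 : d * (d - 1) * r2 ≤ d ^ 2 / 4 := by nlinarith [mul_nonneg hd0 h2]
  have e3 : d * (a / 2 + N / 160) + d / 2 ≤ 506251 / 1000000 * N * d + N / 1000000 * d := by
    nlinarith
  have e4 : p ^ 2 ≤ N / 100 * p := by nlinarith
  have e5 : d * p ≤ N / 100 * p := by nlinarith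
  have e6 : d ^ 2 ≤ N / 100 * d := by nlinarith
  have e7 : 0 ≤ N * p := mul_nonneg (by linarith) hp0
  have e8 : 0 ≤ N * q := mul_nonneg (by linarith) hq0
  have e9 : 0 ≤ N * d := mul_nonneg (by linarith) hd0
  nlinarith

/-- The number of edges outside `B` which are not between `B` and `H`. -/
noncomputable def lam (B H : Finset V) : ℝ := ext G B - ∑ h ∈ H, dg G B h

theorem near_bound2_of {N : ℝ} {B H L : Finset V} (hc : Core G N B H L) (hN : 10 ^ 6 ≤ N)
    {T : ℝ} (hA : T ≤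
      ∑ v ∈ B, (2 * (dg G B v * rho2 B.card + dg G B v * (dg G B v - 1) * rho3 B.card) +
        2 * rho2 B.card * dg G B v * (dg G H v + dg G L v) +
        (dg G H v ^ 2 + dg G L v ^ 2) / 2) +
      ∑ h ∈ H, (dg G B h / 2 + dg G B h * (dg G B h - 1) * rho2 B.card +
        dg G B h * dg G H h + dg G H h ^ 2) +
      ∑ l ∈ L, (dg G B l / 2 + dg G B l * (dg G B l - 1) * rho2 B.card +
        dg G B l * dg G L l + dg G L l ^ 2)) :
    T ≤ fK B.card + sl B.card * (ext G B - mis G B) -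
      6 / 25 * (N * (mis G B + lam G B H) + ∑ h ∈ H, dg G B h * (N - dg G B h)) ∧
    (H.card : ℝ) * (N ^ 2 / 1000) ≤ N * lam G B H + ∑ h ∈ H, dg G B h * (N - dg G B h) ∧
    0 ≤ lam G B H := by
  have ha1 := hc.card_lo
  have ha2 := hc.card_hi
  have haR : (10000 : ℝ) ≤ B.card := by linarith
  have h3 : 3 ≤ B.card := by
    have : (3 : ℝ) ≤ B.card := by linarith
    exact_mod_cast this
  have hr2 := rho2_nonneg h3
  have hr2' := rho2_le h3
  have hr3 := rho3_ge' haR
  have hfK := fK_eq h3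
  have hs1 := sl_lo (a := (B.card : ℝ)) (by linarith)
  have hs2 := sl_hi (a := (B.card : ℝ)) (by linarith)
  -- degrees
  have hdeg : ∀ v, deg G v = dg G B v + dg G H v + dg G L v := by
    intro v
    rw [← dg_univ, ← hc.union, dg_union G _ v, dg_union G hc.disjBH v]
    rw [Finset.disjoint_union_left]
    exact ⟨hc.disjBL, hc.disjHL⟩
  have hout : ∀ v, dg G (H ∪ L) v = dg G H v + dg G L v := fun v => dg_union G hc.disjHL v
  have htot : tot G = ∑ v ∈ B, deg G v + ∑ v ∈ H, deg G v + ∑ v ∈ L, deg G v := by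
    unfold tot
    rw [← hc.union, Finset.sum_union, Finset.sum_union hc.disjBH]
    rw [Finset.disjoint_union_left]
    exact ⟨hc.disjBL, hc.disjHL⟩
  have hBH := sum_dg_comm G B H
  have hBL := sum_dg_comm G B L
  -- `B` part
  have hB1 : ∑ v ∈ B, (2 * (dg G B v * rho2 B.card + dg G B v * (dg G B v - 1) * rho3 B.card) +
        2 * rho2 B.card * dg G B v * (dg G H v + dg G L v) +
        (dg G H v ^ 2 + dg G L v ^ 2) / 2) ≤
      ∑ v ∈ B, (fK B.card / B.card - (sl B.card + 6 / 25 * N) * (B.card - 1 - dg G B v) / 2 +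
        (((B.card : ℝ) / 2 + N / 2000000) * dg G H v + ((B.card : ℝ) / 2 + N / 160) * dg G L v)) := by
    apply Finset.sum_le_sum
    intro v hv
    have i1 := vB_main2 hN ha1 hr2 hr3 hs2 hfK (dg_le_card_sub_one G hv) (hc.miss v hv)
    have hHv : dg G H v ≤ N / 10 ^ 6 := (dg_le_card G H v).trans hc.cardH
    have hLv : dg G L v ≤ N / 80 := by
      have := hc.out v hv
      rw [hout] at this
      linarith [dg_nonneg G H v]
    have i2 := vB_cross2 (a := (B.card : ℝ)) hr2' (dg_nonneg G B v) (dg_le_card G B v)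
      (dg_nonneg G H v) hHv (dg_nonneg G L v) hLv
    linarith
  have hB2 : ∑ v ∈ B, (fK B.card / B.card - (sl B.card + 6 / 25 * N) * (B.card - 1 - dg G B v) / 2 +
        (((B.card : ℝ) / 2 + N / 2000000) * dg G H v + ((B.card : ℝ) / 2 + N / 160) * dg G L v)) =
      fK B.card - (sl B.card + 6 / 25 * N) * mis G B +
        ∑ h ∈ H, dg G B h * ((B.card : ℝ) / 2 + N / 2000000) +
        ∑ l ∈ L, dg G B l * ((B.card : ℝ) / 2 + N / 160) := by
    rw [Finset.sum_add_distrib, Finset.sum_sub_distrib, Finset.sum_add_distrib,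
      ← Finset.mul_sum, ← Finset.mul_sum, hBH, hBL, ← Finset.sum_mul, ← Finset.sum_mul]
    have e1 : ∑ v ∈ B, fK B.card / (B.card : ℝ) = fK B.card := by
      rw [Finset.sum_const, nsmul_eq_mul]
      field_simp
    have e2 : ∑ v ∈ B, (sl B.card + 6 / 25 * N) * ((B.card : ℝ) - 1 - dg G B v) / 2 =
        (sl B.card + 6 / 25 * N) * mis G B := by
      rw [← Finset.sum_div, ← Finset.mul_sum, Finset.sum_sub_distrib, Finset.sum_const,
        nsmul_eq_mul]
      unfold mis e2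
      ring
    rw [e1, e2]
    ring
  -- `H` and `L` parts
  have hH : ∑ h ∈ H, (dg G B h / 2 + dg G B h * (dg G B h - 1) * rho2 B.card +
        dg G B h * dg G H h + dg G H h ^ 2) +
        ∑ h ∈ H, dg G B h * ((B.card : ℝ) / 2 + N / 2000000) ≤
      sl B.card * ∑ h ∈ H, (dg G B h + (dg G H h + dg G L h) / 2) -
        6 / 25 * N * ∑ h ∈ H, ((dg G H h + dg G L h) / 2) -
        6 / 25 * ∑ h ∈ H, dg G B h * (N - dg G B h) := by
    rw [← Finset.sum_add_distrib, Finset.mul_sum, Finset.mul_sum, Finset.mul_sum,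
      ← Finset.sum_sub_distrib, ← Finset.sum_sub_distrib]
    apply Finset.sum_le_sum
    intro v hv
    have halt := hc.Halt v hv
    rw [hout] at halt
    have := vH2 hN ha1 ha2 hr2 hr2' hs1 (dg_nonneg G B v) (dg_le_card G B v) (dg_nonneg G H v)
      ((dg_le_card G H v).trans hc.cardH) (dg_nonneg G L v) halt
    linarith
  have hL : ∑ l ∈ L, (dg G B l / 2 + dg G B l * (dg G B l - 1) * rho2 B.card +
        dg G B l * dg G L l + dg G L l ^ 2) +
        ∑ l ∈ L, dg G B l * ((B.card : ℝ) / 2 + N / 160) ≤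
      (sl B.card - 6 / 25 * N) * ∑ l ∈ L, (dg G B l + (dg G H l + dg G L l) / 2) := by
    rw [← Finset.sum_add_distrib, Finset.mul_sum]
    apply Finset.sum_le_sum
    intro v hv
    have hd := hc.Ldeg v hv
    rw [hdeg] at hd
    have := vL2 hN ha1 ha2 hr2 hr2' hs1 (dg_nonneg G B v) (dg_nonneg G L v) (dg_nonneg G H v) hd
    linarith
  -- `ext`
  have hext : ext G B = ∑ h ∈ H, (dg G B h + (dg G H h + dg G L h) / 2) +
      ∑ l ∈ L, (dg G B l + (dg G H l + dg G L l) / 2) := by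
    unfold ext
    rw [htot]
    simp only [hdeg, Finset.sum_add_distrib, ← Finset.sum_div, e2]
    rw [hBH, hBL]
    ring
  have hlam : lam G B H = ∑ h ∈ H, ((dg G H h + dg G L h) / 2) +
      ∑ l ∈ L, (dg G B l + (dg G H l + dg G L l) / 2) := by
    unfold lam
    rw [hext, Finset.sum_add_distrib]
    ring
  have hlamL : 0 ≤ ∑ l ∈ L, (dg G B l + (dg G H l + dg G L l) / 2) := by
    apply Finset.sum_nonneg
    intro l _
    have := dg_nonneg G B l
    have := dg_nonneg G H l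
    have := dg_nonneg G L l
    linarith
  have hlamH : 0 ≤ ∑ h ∈ H, ((dg G H h + dg G L h) / 2) := by
    apply Finset.sum_nonneg
    intro l _
    have := dg_nonneg G H l
    have := dg_nonneg G L l
    linarith
  refine ⟨?_, ?_, ?_⟩
  · have hfin : T ≤ fK B.card - (sl B.card + 6 / 25 * N) * mis G B +
        sl B.card * ext G B - 6 / 25 * N * lam G B H -
        6 / 25 * ∑ h ∈ H, dg G B h * (N - dg G B h) := by
      rw [hlam, hext]
      rw [hB2] at hB1
      linarith
    linarith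
  · rw [hlam]
    have h1 : (H.card : ℝ) * (N ^ 2 / 1000) ≤
        ∑ h ∈ H, (N * ((dg G H h + dg G L h) / 2) + dg G B h * (N - dg G B h)) := by
      rw [← nsmul_eq_mul]
      apply Finset.card_nsmul_le_sum
      intro v hv
      have halt := hc.Halt v hv
      rw [hout] at halt
      have hdg := hc.Hdeg v hv
      rw [hdeg] at hdg
      have d0 := dg_nonneg G B v
      have s0 := dg_nonneg G H v
      have l0 := dg_nonneg G L v
      have s1 : dg G H v ≤ N / 10 ^ 6 := (dg_le_card G H v).trans hc.cardH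
      have d1 : dg G B v ≤ (1 + 1 / 10 ^ 6) * N := (dg_le_card G B v).trans ha2
      have hN0 : 0 < N := by linarith
      rcases le_or_gt (dg G B v) (991 / 1000 * N) with h | h
      · rcases le_or_gt (dg G B v) (N / 200) with h' | h'
        · have : N / 200 ≤ dg G H v + dg G L v := by linarith
          have g1 : 0 ≤ dg G B v * (N - dg G B v) := mul_nonneg d0 (by linarith)
          have g2 : N * (N / 200) ≤ N * (dg G H v + dg G L v) :=
            mul_le_mul_of_nonneg_left this hN0.le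
          nlinarith
        · have g1 : 0 ≤ (dg G B v - N / 200) * (991 / 1000 * N - dg G B v) :=
            mul_nonneg (by linarith) (by linarith)
          have g2 : 0 ≤ N * (dg G H v + dg G L v) := mul_nonneg hN0.le (by linarith)
          have g3 : N * (N / 200) ≤ N * dg G B v := mul_le_mul_of_nonneg_left h'.le hN0.le
          nlinarith
      · have : N / 200 ≤ dg G H v + dg G L v := by
          rcases halt with h' | h'
          · linarith
          · exact h'
        have g2 : N * (N / 200) ≤ N * (dg G H v + dg G L v) :=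
          mul_le_mul_of_nonneg_left this hN0.le
        have g1 : -(2 / 10 ^ 6 * N ^ 2) ≤ dg G B v * (N - dg G B v) := by
          rcases le_or_gt (dg G B v) N with h6 | h6
          · have := mul_nonneg d0 (sub_nonneg.mpr h6)
            have : 0 ≤ 2 / 10 ^ 6 * N ^ 2 := by positivity
            linarith
          · have h7 : dg G B v - N ≤ 1 / 10 ^ 6 * N := by linarith
            have h8 : dg G B v * (dg G B v - N) ≤ (1 + 1 / 10 ^ 6) * N * (1 / 10 ^ 6 * N) :=
              mul_le_mul d1 h7 (by linarith) (by positivity)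
            norm_num at h8 ⊢
            nlinarith
        norm_num at g1 ⊢
        nlinarith
    rw [Finset.sum_add_distrib, ← Finset.mul_sum] at h1
    have h2 : 0 ≤ N * ∑ l ∈ L, (dg G B l + (dg G H l + dg G L l) / 2) :=
      mul_nonneg (by linarith) hlamL
    linarith
  · rw [hlam]; linarith

end Graph

end Pool.Agent.Helper96.Mu
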