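import Pool.Agent.Helper96.Mu.Far
import Pool.Agent.Helper96.Mu.Extract
import Pool.Agent.Helper96.Mu.CoreEx
import Pool.Agent.Helper96.Mu.Near
import Pool.Agent.Helper96.Mu.Near2
import Pool.Agent.Helper96.Mu.Direct

/-!
# Assembly of the upper bounds for the sum version
-/

namespace Pool.Agent.Helper96.Mu

open Finset Pool.Agent.Helper39.Mu

set_option linter.unusedSectionVars false

/-- The gain in the far case. -/
noncomputable def kap : ℝ := 1 / (12 * 10 ^ 30)

section Graph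

variable {V : Type*} [Fintype V] [DecidableEq V] (G : SimpleGraph V)

/-- Either the cost is far below the extremal value or there is a core structure. -/
theorem dichotomy {N : ℝ} (hN : 0 < N) (hsum : tot G = N ^ 2) :
    (fMu G : ℝ) ≤ (1 - kap) * N ^ 3 / 4 + N ^ 2 / 4 ∨
      ∃ B H L : Finset V, Core G N B H L := by
  obtain ⟨ω, hω⟩ : ∃ ω : ℝ, ω = 1 / (6 * 10 ^ 30) := ⟨_, rfl⟩
  obtain ⟨δ, hδ⟩ : ∃ δ : ℝ, δ = 1 / 10 ^ 10 := ⟨_, rfl⟩
  have hω0 : 0 < ω := by rw [hω]; norm_num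
  have hω1 : ω ≤ 1 / 10 ^ 30 := by rw [hω]; norm_num
  have hk : kap = ω / 2 := by rw [hω]; unfold kap; norm_num
  obtain ⟨s, hs⟩ : ∃ s, s = Real.sqrt (1 + 2 * ω) := ⟨_, rfl⟩
  have hs0 : 0 < s := by rw [hs]; exact Real.sqrt_pos.mpr (by linarith)
  have hs2 : s ^ 2 = 1 + 2 * ω := by rw [hs]; exact Real.sq_sqrt (by linarith)
  have hs1 : 1 ≤ s := by nlinarith
  obtain ⟨N', hN'⟩ : ∃ N', N' = N / s := ⟨_, rfl⟩
  have hN'0 : 0 < N' := by rw [hN']; positivity
  have hNs : N = N' * s := by rw [hN']; field_simp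
  have hN'N : N' ≤ N := by rw [hNs]; nlinarith
  have hN'2 : (1 + 2 * ω) * N' ^ 2 = N ^ 2 := by rw [← hs2, hNs]; ring
  have hN'le : N' ≤ (1 - ω / 2) * N := by
    have h1 : 1 ≤ (1 - ω / 2) * s := by
      have h2 : 1 ≤ ((1 - ω / 2) * s) ^ 2 := by
        rw [mul_pow, hs2]
        nlinarith [mul_pos hω0 hω0, mul_pos (mul_pos hω0 hω0) hω0]
      have h3 : 0 ≤ (1 - ω / 2) * s := mul_nonneg (by linarith) hs0.le
      nlinarith
    rw [hNs]
    nlinarith
  have htot : ∑ v, deg G v = (1 + 2 * ω) * N' ^ 2 := by rw [hN'2]; exact hsum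
  by_cases hbad : ∀ v, deg G v < (1 + δ) * N' → avg G (prob G N') v ≤ N' / 2
  · left
    have h1 := fMu_far G hN'0 (δ := δ) (by rw [hδ]; norm_num) (by rw [hδ]; norm_num) hω0.le
      (by rw [hω, hδ]; norm_num) htot hbad
    have h2 : (1 + 2 * ω) * N' ^ 3 = N ^ 2 * N' := by rw [← hN'2]; ring
    rw [h2, hN'2] at h1
    rw [hk]
    have h3 : N ^ 2 * N' ≤ N ^ 2 * ((1 - ω / 2) * N) := mul_le_mul_of_nonneg_left hN'le (sq_nonneg N)
    nlinarith
  · right
    push Not at hbad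
    obtain ⟨v, hv1, hv2⟩ := hbad
    obtain ⟨A, hA1, hA2⟩ := extract G hN'0 htot hv1 hv2
    refine exists_core G hN hsum A ?_ ?_
    · rw [hδ] at hA1
      refine hA1.trans ?_
      apply mul_le_mul_of_nonneg_left hN'N
      norm_num
    · refine le_trans ?_ hA2
      have h4 : 0 < N' ^ 2 := by positivity
      have h5 : ω * N' ^ 2 ≤ 1 / 10 ^ 30 * N' ^ 2 := mul_le_mul_of_nonneg_right hω1 h4.le
      have h6 : 0 < ω * N' ^ 2 := by positivity
      rw [← hN'2]
      norm_num at h5 ⊢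
      nlinarith

end Graph

/-- Convexity of `Phi` as a function of the number of edges. -/
lemma phi_convex {a n : ℝ} (ha : 2 ≤ a) (hn : 1 ≤ n) :
    Phi a + sl a * ((n * (n - 1) - a * (a - 1)) / 2) ≤ Phi n := by
  have h1 : 2 * a - 1 ≠ 0 := by linarith
  have hsl : sl a * (2 * (2 * a - 1)) = 3 * a ^ 2 - 8 * a + 7 := by
    unfold sl
    exact div_mul_cancel₀ _ (mul_ne_zero two_ne_zero h1)
  have ht : (3 * a ^ 2 - 3 * a - 3) / (2 * a - 1) * (2 * a - 1) = 3 * a ^ 2 - 3 * a - 3 :=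
    div_mul_cancel₀ _ h1
  have e : Phi n - (Phi a + sl a * ((n * (n - 1) - a * (a - 1)) / 2)) =
      (n - a) ^ 2 / 4 * ((n - a) + (3 * a ^ 2 - 3 * a - 3) / (2 * a - 1)) := by
    apply mul_left_cancel₀ h1
    unfold Phi
    linear_combination (-((n * (n - 1) - a * (a - 1)) / 2) / 2) * hsl - (n - a) ^ 2 / 4 * ht
  have h2 : a - 1 ≤ (3 * a ^ 2 - 3 * a - 3) / (2 * a - 1) := by
    rw [le_div_iff₀ (by linarith)]
    nlinarith
  have h3 : 0 ≤ (n - a) ^ 2 / 4 * ((n - a) + (3 * a ^ 2 - 3 * a - 3) / (2 * a - 1)) :=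
    mul_nonneg (by positivity) (by linarith)
  linarith

lemma fK_le_Phi {a : ℕ} (ha : 2 ≤ a) : fK a ≤ Phi a ∧ Phi a ≤ fK a + (3 * a - 4) / 4 := by
  have ha' : (2 : ℝ) ≤ a := by exact_mod_cast ha
  rcases Nat.even_or_odd' a with ⟨k, rfl | rfl⟩
  · unfold fK Phi
    rw [hi_cast_even, lo_cast_even]
    push_cast at ha' ⊢
    constructor <;> nlinarith
  · unfold fK Phi
    rw [hi_cast_odd, lo_cast_odd]
    push_cast at ha' ⊢
    constructor <;> nlinarith

section Graph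

variable {V : Type*} [Fintype V] [DecidableEq V] (G : SimpleGraph V)

lemma ext_sub_mis (B : Finset V) :
    ext G B - mis G B = (tot G - B.card * (B.card - 1)) / 2 := by
  unfold ext mis; ring

lemma ext_nonneg (B : Finset V) : 0 ≤ ext G B := by
  have h1 : e2 G B ≤ tot G := by
    unfold e2 tot
    calc ∑ v ∈ B, dg G B v ≤ ∑ v ∈ B, deg G v := Finset.sum_le_sum fun v _ => dg_le_deg G B v
      _ ≤ ∑ v, deg G v := Finset.sum_le_sum_of_subset_of_nonneg (Finset.subset_univ _)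
          fun v _ _ => deg_nonneg G v
  unfold ext
  linarith

lemma mis_nonneg (B : Finset V) : 0 ≤ mis G B := by
  have h1 : e2 G B ≤ B.card * (B.card - 1) := by
    unfold e2
    calc ∑ v ∈ B, dg G B v ≤ ∑ v ∈ B, ((B.card : ℝ) - 1) :=
          Finset.sum_le_sum fun v hv => dg_le_card_sub_one G hv
      _ = B.card * (B.card - 1) := by rw [Finset.sum_const, nsmul_eq_mul]
  unfold mis
  linarith

/-- The bound in the near case for all numbers of edges. -/
lemma near_all {N : ℝ} {B H L : Finset V} (hc : Core G N B H L) (hN : 10 ^ 6 ≤ N)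
    (hsum : tot G = N ^ 2) {n : ℝ} (hn : 1 ≤ n) (hnN : n * (n - 1) = N ^ 2) :
    (fMu G : ℝ) ≤ Phi n := by
  have ha : (2 : ℝ) ≤ B.card := by
    have := hc.card_lo
    norm_num at this
    linarith
  have ha' : 2 ≤ B.card := by exact_mod_cast ha
  have h1 := near_bound G hc hN hsum
  rw [ext_sub_mis, hsum, ← hnN] at h1
  have h2 := phi_convex ha hn
  have h3 := (fK_le_Phi ha').1
  have h4 : 0 ≤ N / 1000 * (ext G B + mis G B) :=
    mul_nonneg (by linarith) (add_nonneg (ext_nonneg G B) (mis_nonneg G B))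
  linarith

/-- The upper bound `Phi` for all large graphs. -/
theorem upper_all {N : ℝ} (hN : 48 * 10 ^ 30 ≤ N) (hsum : tot G = N ^ 2) {n : ℝ} (hn : 1 ≤ n)
    (hnN : n * (n - 1) = N ^ 2) : (fMu G : ℝ) ≤ Phi n := by
  rcases dichotomy G (by linarith) hsum with h | ⟨B, H, L, hc⟩
  · refine h.trans ?_
    have h1 : N ≤ n := by nlinarith
    have h2 : N - 1 ≤ n - 1 := by linarith
    have e1 : Phi n = (n - 1) * (N ^ 2 - 2 * n + 4) / 4 := by
      unfold Phi
      rw [← hnN]; ring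
    have h3 : n ≤ N + 1 := by nlinarith
    have h4 : (N - 1) * (N ^ 2 - 2 * (N + 1) + 4) ≤ (n - 1) * (N ^ 2 - 2 * n + 4) := by
      apply mul_le_mul h2 (by linarith) (by nlinarith) (by linarith)
    rw [e1]
    have h5 : 4 ≤ kap * N := by
      unfold kap
      rw [div_mul_eq_mul_div, le_div_iff₀ (by norm_num)]
      linarith
    have h6 : 4 * N ^ 2 ≤ kap * N * N ^ 2 := mul_le_mul_of_nonneg_right h5 (sq_nonneg N)
    nlinarith
  · exact near_all G hc (by linarith) hsum hn hnN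

end Graph

end Pool.Agent.Helper96.Mu
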