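import Mathlib
import Pool.Agent.Helper96.Mu.Base

/-!
# Sum of squared degrees: averaging over the balanced halves of `B`
-/

namespace Pool.Agent.Helper96.Mu

open Finset Pool.Agent.Helper39.Mu

set_option linter.unusedSectionVars false

section Count

variable {V : Type*} [DecidableEq V]

lemma card_superset (B T : Finset V) (hT : T ⊆ B) (k : ℕ) (hk : T.card ≤ k) :
    ((B.powersetCard k).filter (fun S => T ⊆ S)).card =
      (B.card - T.card).choose (k - T.card) := by
  rw [← Finset.card_sdiff_of_subset hT, ← Finset.card_powersetCard]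
  refine Finset.card_nbij' (fun S => S \ T) (fun S => S ∪ T) ?_ ?_ ?_ ?_
  · intro S hS
    simp only [Finset.coe_filter, Finset.mem_powersetCard, Set.mem_ofPred_eq] at hS
    simp only [Finset.mem_coe, Finset.mem_powersetCard]
    refine ⟨Finset.sdiff_subset_sdiff hS.1.1 (Finset.Subset.refl _), ?_⟩
    rw [Finset.card_sdiff_of_subset hS.2, hS.1.2]
  · intro S hS
    simp only [Finset.mem_coe, Finset.mem_powersetCard] at hS
    simp only [Finset.coe_filter, Finset.mem_powersetCard, Set.mem_ofPred_eq]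
    have hd : Disjoint S T := by
      refine Finset.disjoint_left.mpr fun x hx hxT => ?_
      exact (Finset.mem_sdiff.mp (hS.1 hx)).2 hxT
    refine ⟨⟨Finset.union_subset (hS.1.trans Finset.sdiff_subset) hT, ?_⟩,
      Finset.subset_union_right⟩
    rw [Finset.card_union_of_disjoint hd, hS.2]
    omega
  · intro S hS
    simp only [Finset.coe_filter, Finset.mem_powersetCard, Set.mem_ofPred_eq] at hS
    exact Finset.sdiff_union_of_subset hS.2
  · intro S hS
    simp only [Finset.mem_coe, Finset.mem_powersetCard] at hS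
    have hd : Disjoint S T := by
      refine Finset.disjoint_left.mpr fun x hx hxT => ?_
      exact (Finset.mem_sdiff.mp (hS.1 hx)).2 hxT
    exact Finset.union_sdiff_cancel_right hd

lemma card_superset_mul (B T : Finset V) (hT : T ⊆ B) (k : ℕ) :
    ((B.powersetCard k).filter (fun S => T ⊆ S)).card * B.card.choose T.card =
      B.card.choose k * k.choose T.card := by
  have hTB := Finset.card_le_card hT
  by_cases hk : T.card ≤ k
  · by_cases hkB : k ≤ B.card
    · rw [card_superset B T hT k hk, Nat.choose_mul hk, mul_comm]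
    · have h1 : B.card.choose k = 0 := Nat.choose_eq_zero_of_lt (by omega)
      have h2 : B.powersetCard k = ∅ := Finset.powersetCard_eq_empty.mpr (by omega)
      rw [h1, h2]; simp
  · have h1 : k.choose T.card = 0 := Nat.choose_eq_zero_of_lt (by omega)
    have h2 : (B.powersetCard k).filter (fun S => T ⊆ S) = ∅ := by
      refine Finset.filter_eq_empty_iff.mpr fun S hS hTS => ?_
      have := Finset.card_le_card hTS
      rw [(Finset.mem_powersetCard.mp hS).2] at this
      exact hk this
    rw [h1, h2]; simp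

/-- Indicator of a finite set. -/
noncomputable def ind (S : Finset V) (v : V) : ℝ := if v ∈ S then 1 else 0

lemma ind_sq (S : Finset V) (v : V) : ind S v * ind S v = ind S v := by
  unfold ind; split_ifs <;> simp

lemma sum_ind_mul {S B : Finset V} (h : S ⊆ B) (F : V → ℝ) :
    ∑ v ∈ S, F v = ∑ v ∈ B, ind S v * F v := by
  unfold ind
  rw [← Finset.sum_subset h]
  · exact Finset.sum_congr rfl fun v hv => by simp [hv]
  · intro v _ hv; simp [hv]

lemma sum_prod_ind (B T : Finset V) (hT : T ⊆ B) (k : ℕ) :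
    (∑ S ∈ B.powersetCard k, ∏ v ∈ T, ind S v) * (B.card.choose T.card : ℝ) =
      (B.card.choose k : ℝ) * (k.choose T.card : ℝ) := by
  have h1 : ∀ S : Finset V, ∏ v ∈ T, ind S v = if T ⊆ S then 1 else 0 := by
    intro S
    by_cases h : T ⊆ S
    · rw [if_pos h]
      exact Finset.prod_eq_one fun v hv => by simp [ind, h hv]
    · rw [if_neg h]
      obtain ⟨v, hv, hvS⟩ := Finset.not_subset.mp h
      exact Finset.prod_eq_zero hv (by simp [ind, hvS])
  rw [Finset.sum_congr rfl (fun S _ => h1 S), ← Finset.sum_filter, Finset.sum_const, nsmul_eq_mul,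
    mul_one]
  exact_mod_cast card_superset_mul B T hT k

/-- Probability that `t` given elements are in a random `k`-subset of an `a`-set. -/
noncomputable def pr (a k t : ℕ) : ℝ := (k.choose t : ℝ) / (a.choose t : ℝ)

lemma sum_prod_ind' (B T : Finset V) (hT : T ⊆ B) (k : ℕ) :
    ∑ S ∈ B.powersetCard k, ∏ v ∈ T, ind S v =
      (B.card.choose k : ℝ) * pr B.card k T.card := by
  have h0 : (0 : ℝ) < (B.card.choose T.card : ℝ) := by
    exact_mod_cast Nat.choose_pos (Finset.card_le_card hT)
  unfold pr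
  rw [← mul_div_assoc, eq_div_iff h0.ne']
  exact sum_prod_ind B T hT k

lemma sum_ind1 {B : Finset V} (k : ℕ) {u : V} (hu : u ∈ B) :
    ∑ S ∈ B.powersetCard k, ind S u = (B.card.choose k : ℝ) * pr B.card k 1 := by
  have h := sum_prod_ind' B {u} (by simpa using hu) k
  simpa using h

lemma sum_ind2 {B : Finset V} (k : ℕ) {u v : V} (hu : u ∈ B) (hv : v ∈ B) (huv : u ≠ v) :
    ∑ S ∈ B.powersetCard k, ind S u * ind S v = (B.card.choose k : ℝ) * pr B.card k 2 := by
  have h := sum_prod_ind' B {u, v} (by intro x; simp; rintro (rfl | rfl) <;> assumption) k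
  rw [Finset.card_pair huv] at h
  rw [← h]
  exact Finset.sum_congr rfl fun S _ => by rw [Finset.prod_pair huv]

lemma sum_ind3 {B : Finset V} (k : ℕ) {u v w : V} (hu : u ∈ B) (hv : v ∈ B) (hw : w ∈ B)
    (huv : u ≠ v) (huw : u ≠ w) (hvw : v ≠ w) :
    ∑ S ∈ B.powersetCard k, ind S u * (ind S v * ind S w) =
      (B.card.choose k : ℝ) * pr B.card k 3 := by
  have h := sum_prod_ind' B {u, v, w}
    (by intro x; simp; rintro (rfl | rfl | rfl) <;> assumption) k
  rw [Finset.card_eq_three.mpr ⟨u, v, w, huv, huw, hvw, rfl⟩] at h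
  rw [← h]
  refine Finset.sum_congr rfl fun S _ => ?_
  rw [Finset.prod_insert (by simp [huv, huw]), Finset.prod_pair hvw]

end Count

section Graph

variable {V : Type*} [Fintype V] [DecidableEq V] (G : SimpleGraph V)

/-- The cost of a part. -/
noncomputable def sq (X : Finset V) : ℝ := ∑ v ∈ X, dg G X v ^ 2

lemma mu_eq_sq (X : Finset V) (U : Set V) (hU : ∀ v, v ∈ U ↔ v ∈ X) :
    (mu (G.induce U) : ℝ) = sq G X := by
  have h1 : ∀ v, avg G (ind X) v = dg G X v := by
    intro v
    unfold avg dg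
    rw [sum_ind_mul (Finset.subset_univ X)]
    exact Finset.sum_congr rfl fun w _ => mul_comm _ _
  rw [mu_induce G (x := ind X)]
  · unfold sq
    rw [sum_ind_mul (Finset.subset_univ X)]
    exact Finset.sum_congr rfl fun v _ => by rw [h1]
  · intro v
    by_cases h : v ∈ X
    · left; exact ⟨(hU v).mpr h, by simp [ind, h]⟩
    · right; exact ⟨fun h' => h ((hU v).mp h'), by simp [ind, h]⟩

lemma fMu_le_sq {X Y : Finset V} (h1 : X ∪ Y = univ) (h2 : Disjoint X Y) :
    (fMu G : ℝ) ≤ sq G X + sq G Y := by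
  have h3 : fMu G ≤ mu (G.induce {v | v ∈ X}) + mu (G.induce {v | v ∈ X}ᶜ) :=
    Nat.sInf_le ⟨_, rfl⟩
  have h4 := mu_eq_sq G X {v | v ∈ X} (fun v => Iff.rfl)
  have h5 := mu_eq_sq G Y {v | v ∈ X}ᶜ (fun v => by
    simp only [Set.mem_compl_iff, Set.mem_ofPred_eq]
    constructor
    · intro h
      have : v ∈ X ∪ Y := by rw [h1]; exact Finset.mem_univ v
      exact (Finset.mem_union.mp this).resolve_left h
    · intro h h'
      exact Finset.disjoint_left.mp h2 h' h)
  rw [← h4, ← h5]
  exact_mod_cast h3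

/-- The cost of the part `S ∪ K`, where `K` is a fixed set of other vertices. -/
lemma sq_union {S K : Finset V} (h : Disjoint S K) :
    sq G (S ∪ K) = ∑ v ∈ S, (dg G S v + dg G K v) ^ 2 + ∑ v ∈ K, (dg G S v + dg G K v) ^ 2 := by
  unfold sq
  rw [Finset.sum_union h]
  simp only [dg_union G h]

lemma sum_dg {B : Finset V} (k : ℕ) {v : V} :
    ∑ S ∈ B.powersetCard k, dg G S v =
      (B.card.choose k : ℝ) * (dg G B v * pr B.card k 1) := by
  have h1 : ∀ S ∈ B.powersetCard k, dg G S v = ∑ w ∈ B, adj G v w * ind S w := by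
    intro S hS
    unfold dg
    rw [sum_ind_mul (Finset.mem_powersetCard.mp hS).1]
    exact Finset.sum_congr rfl fun w _ => mul_comm _ _
  rw [Finset.sum_congr rfl h1, Finset.sum_comm]
  have h2 : ∀ w ∈ B, ∑ S ∈ B.powersetCard k, adj G v w * ind S w =
      adj G v w * ((B.card.choose k : ℝ) * pr B.card k 1) := by
    intro w hw
    rw [← Finset.mul_sum, sum_ind1 k hw]
  rw [Finset.sum_congr rfl h2, ← Finset.sum_mul]
  unfold dg
  ring

lemma sum_ind_dg {B : Finset V} (k : ℕ) {v : V} (hv : v ∈ B) :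
    ∑ S ∈ B.powersetCard k, ind S v * dg G S v =
      (B.card.choose k : ℝ) * (dg G B v * pr B.card k 2) := by
  have h1 : ∀ S ∈ B.powersetCard k, ind S v * dg G S v =
      ∑ w ∈ B, adj G v w * (ind S v * ind S w) := by
    intro S hS
    unfold dg
    rw [sum_ind_mul (Finset.mem_powersetCard.mp hS).1, Finset.mul_sum]
    exact Finset.sum_congr rfl fun w _ => by ring
  rw [Finset.sum_congr rfl h1, Finset.sum_comm]
  have h2 : ∀ w ∈ B, ∑ S ∈ B.powersetCard k, adj G v w * (ind S v * ind S w) =
      adj G v w * ((B.card.choose k : ℝ) * pr B.card k 2) := by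
    intro w hw
    by_cases hvw : v = w
    · subst hvw; simp [adj_self]
    · rw [← Finset.mul_sum, sum_ind2 k hv hw hvw]
  rw [Finset.sum_congr rfl h2, ← Finset.sum_mul]
  unfold dg
  ring

lemma adj_mul_sq (v w : V) : adj G v w * adj G v w = adj G v w := by
  rw [← pow_two, adj_sq]

lemma sum_dg_sq {B : Finset V} (k : ℕ) {v : V} :
    ∑ S ∈ B.powersetCard k, dg G S v ^ 2 =
      (B.card.choose k : ℝ) *
        (dg G B v * pr B.card k 1 + dg G B v * (dg G B v - 1) * pr B.card k 2) := by
  have h1 : ∀ S ∈ B.powersetCard k, dg G S v ^ 2 =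
      ∑ w ∈ B, ∑ x ∈ B, adj G v w * adj G v x * (ind S w * ind S x) := by
    intro S hS
    unfold dg
    rw [sum_ind_mul (Finset.mem_powersetCard.mp hS).1, pow_two, Finset.sum_mul_sum]
    exact Finset.sum_congr rfl fun w _ => Finset.sum_congr rfl fun x _ => by ring
  rw [Finset.sum_congr rfl h1, Finset.sum_comm]
  have h2 : ∀ w ∈ B, ∑ S ∈ B.powersetCard k,
      ∑ x ∈ B, adj G v w * adj G v x * (ind S w * ind S x) =
      (B.card.choose k : ℝ) * (adj G v w * pr B.card k 1 +
        (adj G v w * dg G B v - adj G v w) * pr B.card k 2) := by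
    intro w hw
    rw [Finset.sum_comm]
    have h3 : ∀ x ∈ B, ∑ S ∈ B.powersetCard k, adj G v w * adj G v x * (ind S w * ind S x) =
        (B.card.choose k : ℝ) * (adj G v w * adj G v x * pr B.card k 2 +
          (if w = x then adj G v w * (pr B.card k 1 - pr B.card k 2) else 0)) := by
      intro x hx
      rw [← Finset.mul_sum]
      by_cases hwx : w = x
      · subst hwx
        rw [if_pos rfl, adj_mul_sq, Finset.sum_congr rfl (fun S _ => ind_sq S w), sum_ind1 k hw]
        ring
      · rw [if_neg hwx, sum_ind2 k hw hx hwx]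
        ring
    rw [Finset.sum_congr rfl h3, ← Finset.mul_sum, Finset.sum_add_distrib, ← Finset.sum_mul,
      ← Finset.mul_sum, Finset.sum_ite_eq B w, if_pos hw]
    unfold dg
    ring
  rw [Finset.sum_congr rfl h2, ← Finset.mul_sum, Finset.sum_add_distrib, ← Finset.sum_mul,
    ← Finset.sum_mul, Finset.sum_sub_distrib, ← Finset.sum_mul]
  unfold dg
  ring

lemma sum_ind_dg_sq {B : Finset V} (k : ℕ) {v : V} (hv : v ∈ B) :
    ∑ S ∈ B.powersetCard k, ind S v * dg G S v ^ 2 =
      (B.card.choose k : ℝ) *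
        (dg G B v * pr B.card k 2 + dg G B v * (dg G B v - 1) * pr B.card k 3) := by
  have h1 : ∀ S ∈ B.powersetCard k, ind S v * dg G S v ^ 2 =
      ∑ w ∈ B, ∑ x ∈ B, adj G v w * adj G v x * (ind S v * (ind S w * ind S x)) := by
    intro S hS
    unfold dg
    rw [sum_ind_mul (Finset.mem_powersetCard.mp hS).1, pow_two, Finset.sum_mul_sum,
      Finset.mul_sum]
    refine Finset.sum_congr rfl fun w _ => ?_
    rw [Finset.mul_sum]
    exact Finset.sum_congr rfl fun x _ => by ring
  rw [Finset.sum_congr rfl h1, Finset.sum_comm]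
  have h2 : ∀ w ∈ B, ∑ S ∈ B.powersetCard k,
      ∑ x ∈ B, adj G v w * adj G v x * (ind S v * (ind S w * ind S x)) =
      (B.card.choose k : ℝ) * (adj G v w * pr B.card k 2 +
        (adj G v w * dg G B v - adj G v w) * pr B.card k 3) := by
    intro w hw
    rw [Finset.sum_comm]
    have h3 : ∀ x ∈ B, ∑ S ∈ B.powersetCard k,
        adj G v w * adj G v x * (ind S v * (ind S w * ind S x)) =
        (B.card.choose k : ℝ) * (adj G v w * adj G v x * pr B.card k 3 +
          (if w = x then adj G v w * (pr B.card k 2 - pr B.card k 3) else 0)) := by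
      intro x hx
      rw [← Finset.mul_sum]
      by_cases hvw : v = w
      · subst hvw; simp [adj_self]
      by_cases hvx : v = x
      · subst hvx
        rw [adj_self, if_neg (fun h => hvw h.symm)]
        simp
      by_cases hwx : w = x
      · subst hwx
        rw [if_pos rfl, adj_mul_sq, Finset.sum_congr rfl (fun S _ => by rw [ind_sq S w]),
          sum_ind2 k hv hw hvw]
        ring
      · rw [if_neg hwx, sum_ind3 k hv hw hx hvw hvx hwx]
        ring
    rw [Finset.sum_congr rfl h3, ← Finset.mul_sum, Finset.sum_add_distrib, ← Finset.sum_mul,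
      ← Finset.mul_sum, Finset.sum_ite_eq B w, if_pos hw]
    unfold dg
    ring
  rw [Finset.sum_congr rfl h2, ← Finset.mul_sum, Finset.sum_add_distrib, ← Finset.sum_mul,
    ← Finset.sum_mul, Finset.sum_sub_distrib, ← Finset.sum_mul]
  unfold dg
  ring

/-- The total cost of the parts `S ∪ K`, `|S| = k`. -/
lemma sum_sq_union {B K : Finset V} (h : Disjoint B K) (k : ℕ) :
    ∑ S ∈ B.powersetCard k, sq G (S ∪ K) = (B.card.choose k : ℝ) *
      (∑ v ∈ B, (dg G B v * pr B.card k 2 + dg G B v * (dg G B v - 1) * pr B.card k 3 +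
          2 * dg G K v * (dg G B v * pr B.card k 2) + dg G K v ^ 2 * pr B.card k 1) +
        ∑ v ∈ K, (dg G B v * pr B.card k 1 + dg G B v * (dg G B v - 1) * pr B.card k 2 +
          2 * dg G K v * (dg G B v * pr B.card k 1) + dg G K v ^ 2)) := by
  have h1 : ∀ S ∈ B.powersetCard k, sq G (S ∪ K) =
      ∑ v ∈ B, (ind S v * dg G S v ^ 2 + 2 * dg G K v * (ind S v * dg G S v) +
        dg G K v ^ 2 * ind S v) +
      ∑ v ∈ K, (dg G S v ^ 2 + 2 * dg G K v * dg G S v + dg G K v ^ 2) := by
    intro S hS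
    have hSB := (Finset.mem_powersetCard.mp hS).1
    rw [sq_union G (Finset.disjoint_of_subset_left hSB h), sum_ind_mul hSB]
    congr 1
    · exact Finset.sum_congr rfl fun v _ => by ring
    · exact Finset.sum_congr rfl fun v _ => by ring
  rw [Finset.sum_congr rfl h1, Finset.sum_add_distrib, Finset.sum_comm,
    Finset.sum_comm (s := B.powersetCard k) (t := K), mul_add, Finset.mul_sum, Finset.mul_sum]
  congr 1
  · refine Finset.sum_congr rfl fun v hv => ?_
    rw [Finset.sum_add_distrib, Finset.sum_add_distrib, ← Finset.mul_sum, ← Finset.mul_sum,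
      sum_ind_dg_sq G k hv, sum_ind_dg G k hv, sum_ind1 k hv]
    ring
  · refine Finset.sum_congr rfl fun v hv => ?_
    rw [Finset.sum_add_distrib, Finset.sum_add_distrib, ← Finset.mul_sum, sum_dg_sq G k,
      sum_dg G k, Finset.sum_const, Finset.card_powersetCard, nsmul_eq_mul]
    ring

lemma sum_compl {B : Finset V} {k l : ℕ} (hkl : k + l = B.card) (F : Finset V → ℝ) :
    ∑ S ∈ B.powersetCard k, F (B \ S) = ∑ S ∈ B.powersetCard l, F S := by
  refine Finset.sum_nbij' (fun S => B \ S) (fun S => B \ S) ?_ ?_ ?_ ?_ ?_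
  · intro S hS
    rw [Finset.mem_powersetCard] at hS ⊢
    refine ⟨Finset.sdiff_subset, ?_⟩
    rw [Finset.card_sdiff_of_subset hS.1, hS.2]
    omega
  · intro S hS
    rw [Finset.mem_powersetCard] at hS ⊢
    refine ⟨Finset.sdiff_subset, ?_⟩
    rw [Finset.card_sdiff_of_subset hS.1, hS.2]
    omega
  · intro S hS
    exact Finset.sdiff_sdiff_eq_self (Finset.mem_powersetCard.mp hS).1
  · intro S hS
    exact Finset.sdiff_sdiff_eq_self (Finset.mem_powersetCard.mp hS).1
  · intro S _
    rfl

lemma lo_add_hi (a : ℕ) : lo a + hi a = a := by unfold lo hi; omega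

lemma cast_choose_three (n : ℕ) : ((n.choose 3 : ℕ) : ℝ) = n * (n - 1) * (n - 2) / 6 := by
  induction n with
  | zero => simp
  | succ n ih =>
    rw [Nat.choose_succ_succ' n 2]
    push_cast
    rw [ih, Nat.cast_choose_two]
    ring

lemma pr1 {a : ℕ} (ha : 3 ≤ a) : pr a (hi a) 1 + pr a (lo a) 1 = 1 := by
  unfold pr
  have h : (lo a : ℝ) + hi a = a := by exact_mod_cast lo_add_hi a
  have h0 : (a : ℝ) ≠ 0 := by positivity
  simp only [Nat.choose_one_right]
  rw [← add_div, add_comm, h, div_self h0]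

lemma pr2 {a : ℕ} (ha : 3 ≤ a) : pr a (hi a) 2 + pr a (lo a) 2 = 2 * rho2 a := by
  unfold pr rho2
  rw [Nat.cast_choose_two, Nat.cast_choose_two, Nat.cast_choose_two]
  have h3 : (3 : ℝ) ≤ a := by exact_mod_cast ha
  have h0 : (a : ℝ) ≠ 0 := by positivity
  have h1 : (a : ℝ) - 1 ≠ 0 := by linarith
  field_simp

lemma pr3 {a : ℕ} (ha : 3 ≤ a) : pr a (hi a) 3 + pr a (lo a) 3 = 2 * rho3 a := by
  unfold pr rho3
  rw [cast_choose_three, cast_choose_three, cast_choose_three]
  have h3 : (3 : ℝ) ≤ a := by exact_mod_cast ha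
  have h0 : (a : ℝ) ≠ 0 := by positivity
  have h1 : (a : ℝ) - 1 ≠ 0 := by linarith
  have h2 : (a : ℝ) - 2 ≠ 0 := by linarith
  field_simp

theorem fMu_le_avg {B H L : Finset V} (h1 : B ∪ H ∪ L = univ) (h2 : Disjoint B H)
    (h3 : Disjoint B L) (h4 : Disjoint H L) (h5 : 3 ≤ B.card) :
    (fMu G : ℝ) ≤
      ∑ v ∈ B, (2 * (dg G B v * rho2 B.card + dg G B v * (dg G B v - 1) * rho3 B.card) +
        2 * rho2 B.card * dg G B v * (dg G H v + dg G L v) +
        (dg G H v ^ 2 + dg G L v ^ 2) / 2) +
      ∑ h ∈ H, (dg G B h / 2 + dg G B h * (dg G B h - 1) * rho2 B.card +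
        dg G B h * dg G H h + dg G H h ^ 2) +
      ∑ l ∈ L, (dg G B l / 2 + dg G B l * (dg G B l - 1) * rho2 B.card +
        dg G B l * dg G L l + dg G L l ^ 2) := by
  -- every split gives a bound
  have hS : ∀ S, S ⊆ B → (fMu G : ℝ) ≤ sq G (S ∪ H) + sq G ((B \ S) ∪ L) := by
    intro S hSB
    refine fMu_le_sq G ?_ ?_
    · rw [← h1]
      ext v
      simp only [Finset.mem_union, Finset.mem_sdiff]
      constructor
      · rintro ((h | h) | (h | h))
        · exact Or.inl (Or.inl (hSB h))
        · exact Or.inl (Or.inr h)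
        · exact Or.inl (Or.inl h.1)
        · exact Or.inr h
      · rintro ((h | h) | h)
        · by_cases hs : v ∈ S
          · exact Or.inl (Or.inl hs)
          · exact Or.inr (Or.inl ⟨h, hs⟩)
        · exact Or.inl (Or.inr h)
        · exact Or.inr (Or.inr h)
    · rw [Finset.disjoint_union_left, Finset.disjoint_union_right, Finset.disjoint_union_right]
      refine ⟨⟨Finset.disjoint_sdiff, Finset.disjoint_of_subset_left hSB h3⟩,
        (Finset.disjoint_of_subset_left Finset.sdiff_subset h2).symm, h4⟩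
  -- sum over all splits of a given size
  have hsum : ∀ k l : ℕ, k + l = B.card → (B.card.choose k : ℝ) * fMu G ≤
      ∑ S ∈ B.powersetCard k, sq G (S ∪ H) + ∑ S ∈ B.powersetCard l, sq G (S ∪ L) := by
    intro k l hkl
    rw [← sum_compl hkl (fun S => sq G (S ∪ L)), ← Finset.sum_add_distrib]
    calc (B.card.choose k : ℝ) * fMu G = ∑ S ∈ B.powersetCard k, (fMu G : ℝ) := by
          rw [Finset.sum_const, Finset.card_powersetCard, nsmul_eq_mul]
      _ ≤ _ := Finset.sum_le_sum fun S hS' => hS S (Finset.mem_powersetCard.mp hS').1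
  have hlh := lo_add_hi B.card
  have ha := hsum (hi B.card) (lo B.card) (by omega)
  have hb := hsum (lo B.card) (hi B.card) (by omega)
  have hch : B.card.choose (lo B.card) = B.card.choose (hi B.card) := by
    apply Nat.choose_symm_of_eq_add
    omega
  rw [sum_sq_union G h2, sum_sq_union G h3] at ha hb
  rw [hch] at ha hb
  have hpos : (0 : ℝ) < (B.card.choose (hi B.card) : ℝ) := by
    exact_mod_cast Nat.choose_pos (by omega)
  rw [← mul_add] at ha hb
  have ha' := le_of_mul_le_mul_left ha hpos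
  have hb' := le_of_mul_le_mul_left hb hpos
  have hp1 := pr1 h5
  have hp2 := pr2 h5
  have hp3 := pr3 h5
  have e1 : ∑ v ∈ B, (dg G B v * pr B.card (hi B.card) 2 +
        dg G B v * (dg G B v - 1) * pr B.card (hi B.card) 3 +
        2 * dg G H v * (dg G B v * pr B.card (hi B.card) 2) +
        dg G H v ^ 2 * pr B.card (hi B.card) 1) +
      ∑ v ∈ B, (dg G B v * pr B.card (lo B.card) 2 +
        dg G B v * (dg G B v - 1) * pr B.card (lo B.card) 3 +
        2 * dg G L v * (dg G B v * pr B.card (lo B.card) 2) +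
        dg G L v ^ 2 * pr B.card (lo B.card) 1) +
      (∑ v ∈ B, (dg G B v * pr B.card (lo B.card) 2 +
        dg G B v * (dg G B v - 1) * pr B.card (lo B.card) 3 +
        2 * dg G H v * (dg G B v * pr B.card (lo B.card) 2) +
        dg G H v ^ 2 * pr B.card (lo B.card) 1) +
      ∑ v ∈ B, (dg G B v * pr B.card (hi B.card) 2 +
        dg G B v * (dg G B v - 1) * pr B.card (hi B.card) 3 +
        2 * dg G L v * (dg G B v * pr B.card (hi B.card) 2) +
        dg G L v ^ 2 * pr B.card (hi B.card) 1)) =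
      2 * ∑ v ∈ B, (2 * (dg G B v * rho2 B.card + dg G B v * (dg G B v - 1) * rho3 B.card) +
        2 * rho2 B.card * dg G B v * (dg G H v + dg G L v) +
        (dg G H v ^ 2 + dg G L v ^ 2) / 2) := by
    rw [← Finset.sum_add_distrib, ← Finset.sum_add_distrib, ← Finset.sum_add_distrib,
      Finset.mul_sum]
    refine Finset.sum_congr rfl fun v _ => ?_
    linear_combination (2 * dg G B v + 2 * dg G H v * dg G B v + 2 * dg G L v * dg G B v) * hp2 +
      2 * (dg G B v * (dg G B v - 1)) * hp3 + (dg G H v ^ 2 + dg G L v ^ 2) * hp1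
  have e2' : ∀ K : Finset V, ∑ v ∈ K, (dg G B v * pr B.card (hi B.card) 1 +
        dg G B v * (dg G B v - 1) * pr B.card (hi B.card) 2 +
        2 * dg G K v * (dg G B v * pr B.card (hi B.card) 1) + dg G K v ^ 2) +
      ∑ v ∈ K, (dg G B v * pr B.card (lo B.card) 1 +
        dg G B v * (dg G B v - 1) * pr B.card (lo B.card) 2 +
        2 * dg G K v * (dg G B v * pr B.card (lo B.card) 1) + dg G K v ^ 2) =
      2 * ∑ h ∈ K, (dg G B h / 2 + dg G B h * (dg G B h - 1) * rho2 B.card +
        dg G B h * dg G K h + dg G K h ^ 2) := by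
    intro K
    rw [← Finset.sum_add_distrib, Finset.mul_sum]
    refine Finset.sum_congr rfl fun v _ => ?_
    linear_combination (dg G B v + 2 * dg G K v * dg G B v) * hp1 +
      (dg G B v * (dg G B v - 1)) * hp2
  have e2 := e2' H
  have e3 := e2' L
  linarith

end Graph

end Pool.Agent.Helper96.Mu
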