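import Mathlib
import Pool.Agent.Helper96.Mu.Base

/-!
# Sum of squared degrees: the upper bound far from near complete graphs
-/

namespace Pool.Agent.Helper96.Mu

open Finset Pool.Agent.Helper39.Mu

set_option linter.unusedSectionVars false

/-- The modified slope. -/
noncomputable def be' (δ ω x π : ℝ) : ℝ := be x π - (if 1 + δ ≤ x then 6 * ω else 0)

lemma far_small {δ ω : ℝ} (hδ : 0 < δ) (hδ1 : δ ≤ 1 / 10) (hωδ : ω ≤ δ ^ 3 / 6) :
    ω ≤ 1 / 6000 ∧ δ ^ 3 ≤ δ ^ 2 / 10 ∧ δ ^ 3 ≤ δ / 100 := by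
  have h2 : δ ^ 2 ≤ δ / 10 := by nlinarith
  have h3 : δ ^ 3 ≤ δ ^ 2 / 10 := by
    have := mul_le_mul_of_nonneg_left hδ1 (sq_nonneg δ)
    calc δ ^ 3 = δ ^ 2 * δ := by ring
      _ ≤ δ ^ 2 * (1 / 10) := this
      _ = δ ^ 2 / 10 := by ring
  refine ⟨?_, h3, ?_⟩ <;> linarith

lemma vertex_bound' {δ ω x π : ℝ} (hδ : 0 < δ) (hδ1 : δ ≤ 1 / 10) (hω : 0 ≤ ω)
    (hωδ : ω ≤ δ ^ 3 / 6) (hx : 0 < x) (h0 : 0 ≤ π) (h1 : π ≤ 1 / 2 + ω)
    (h2 : x < 1 + δ → π ≤ 1 / 2) :
    min 1 (x / 2) * π ^ 2 + (1 - min 1 (x / 2)) * (x - π) ^ 2 ≤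
      al x π * x - be' δ ω x π * π := by
  obtain ⟨hw, -, -⟩ := far_small hδ hδ1 hωδ
  unfold be'
  split_ifs with h
  · rcases le_or_gt π (1 / 2) with hπ | hπ
    · have := vertex_bound hx h0 hπ
      have h3 : 0 ≤ 6 * ω * π := by positivity
      nlinarith
    · unfold al be
      rw [if_neg (by linarith), if_neg (by linarith)]
      obtain ⟨t, ht⟩ : ∃ t, t = π - 1 / 2 := ⟨_, rfl⟩
      have hπt : π = 1 / 2 + t := by rw [ht]; ring
      have ht0 : 0 ≤ t := by linarith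
      have htw : t ≤ ω := by linarith
      rcases le_or_gt x 2 with h4 | h4
      · rw [min_eq_right (by linarith)]
        have h3 : 1 / 2 * x - (1 / 2 + (2 * (x / 2) - 1) ^ 3 - 6 * ω) * π -
            (x / 2 * π ^ 2 + (1 - x / 2) * (x - π) ^ 2) =
            (1 - 2 * π) * (x * (x - 1) ^ 2 / 2) + π * (1 / 2 - π) + 6 * ω * π := by ring
        have h5 : x * (x - 1) ^ 2 / 2 ≤ 1 := by
          have h6 : (x - 1) ^ 2 ≤ 1 := by nlinarith
          have h7 : x * (x - 1) ^ 2 ≤ 2 * 1 :=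
            mul_le_mul h4 h6 (sq_nonneg _) (by norm_num)
          linarith
        have h5' : 0 ≤ x * (x - 1) ^ 2 / 2 := by positivity
        have h8 : 2 * t * (x * (x - 1) ^ 2 / 2) ≤ 2 * t * 1 :=
          mul_le_mul_of_nonneg_left h5 (by linarith)
        have h9 : (1 - 2 * π) * (x * (x - 1) ^ 2 / 2) = - (2 * t * (x * (x - 1) ^ 2 / 2)) := by
          rw [hπt]; ring
        have h10 : t * t ≤ 1 / 6000 * t := mul_le_mul_of_nonneg_right (by linarith) ht0
        have h11 : 0 ≤ 6 * ω * t := by positivity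
        have h12 : π * (1 / 2 - π) + 6 * ω * π = - (t / 2) - t * t + 3 * ω + 6 * ω * t := by
          rw [hπt]; ring
        linarith
      · rw [min_eq_left (by linarith)]
        have h10 : t * t ≤ 1 / 6000 * t := mul_le_mul_of_nonneg_right (by linarith) ht0
        have h11 : 0 ≤ 6 * ω * t := by positivity
        have h3 : 1 / 2 * x - (1 / 2 + (2 * 1 - 1) ^ 3 - 6 * ω) * π -
            (1 * π ^ 2 + (1 - 1) * (x - π) ^ 2) = x / 2 - 1 - 5 / 2 * t - t * t + 3 * ω +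
            6 * ω * t := by
          rw [hπt]; ring
        linarith
  · have := vertex_bound hx h0 (h2 (by linarith))
    rw [sub_zero]
    exact this

lemma pair_mixed' {δ ω x y π ρ : ℝ} (hδ : 0 < δ) (hδ1 : δ ≤ 1 / 10) (hω : 0 ≤ ω)
    (hωδ : ω ≤ δ ^ 3 / 6) (hx : 0 < x) (hx1 : x < 1) (hy1 : 1 + δ ≤ y)
    (h1 : π ≤ 1 / 2) :
    al x π - be x π * min 1 (y / 2) + (al y ρ - (be y ρ - 6 * ω) * min 1 (x / 2)) ≤ 1 / 2 := by
  obtain ⟨hw, hd2, hd1⟩ := far_small hδ hδ1 hωδ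
  have hy1' : 1 ≤ y := by linarith
  unfold al be
  rw [if_pos hx1, if_pos hx1, if_neg (not_lt.mpr hy1'), if_neg (not_lt.mpr hy1'),
    min_eq_right (show x / 2 ≤ 1 by linarith)]
  obtain ⟨b, hb⟩ : ∃ b, b = 2 * min 1 (y / 2) - 1 := ⟨_, rfl⟩
  have hp : min 1 (y / 2) = (1 + b) / 2 := by rw [hb]; ring
  have hbd : δ ≤ b := by
    have : (1 + δ) / 2 ≤ min 1 (y / 2) := le_min (by linarith) (by linarith)
    linarith
  have hb0 : 0 ≤ b := by linarith
  have hb1 : b ≤ 1 := by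
    have : min 1 (y / 2) ≤ 1 := min_le_left _ _
    linarith
  rw [← hb, hp]
  have e1 : (1 - x / 2) * x - π ^ 2 / x - (2 * (1 - x / 2) * x - 2 * π) * ((1 + b) / 2) +
      (1 / 2 - (1 / 2 + b ^ 3 - 6 * ω) * (x / 2)) =
      -(1 - x / 2) * x * b + (π * (1 + b) - π ^ 2 / x) +
      1 / 2 - x / 4 - b ^ 3 * x / 2 + 3 * ω * x := by ring
  rw [e1]
  rcases le_or_gt (x * (1 + b)) 1 with hc | hc
  · have e2 : π * (1 + b) - π ^ 2 / x ≤ x * (1 + b) ^ 2 / 4 := by
      have : x * (1 + b) ^ 2 / 4 - (π * (1 + b) - π ^ 2 / x) =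
          (π - x * (1 + b) / 2) ^ 2 / x := by
        field_simp
        ring
      have h2 : 0 ≤ (π - x * (1 + b) / 2) ^ 2 / x := by positivity
      linarith
    have e3 : x ≤ 1 - b + b ^ 2 := by
      by_contra hcon
      push Not at hcon
      have h4 : (1 - b + b ^ 2) * (1 + b) < x * (1 + b) :=
        mul_lt_mul_of_pos_right hcon (by linarith)
      have h5 : (1 - b + b ^ 2) * (1 + b) = 1 + b ^ 3 := by ring
      have h6 : 0 ≤ b ^ 3 := by positivity
      linarith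
    have e4 : x * b * (b / 4) ≤ x * b * (1 / 2 - x / 2 - b / 4 + b ^ 2 / 2) := by
      apply mul_le_mul_of_nonneg_left _ (mul_nonneg hx.le hb0)
      linarith
    have e5 : δ ^ 2 ≤ b ^ 2 := pow_le_pow_left₀ hδ.le hbd 2
    have e6 : 3 * ω ≤ b ^ 2 / 4 := by linarith
    have e7 : 3 * ω * x ≤ b ^ 2 / 4 * x := mul_le_mul_of_nonneg_right e6 hx.le
    have e8 : x * (1 + b) ^ 2 / 4 = x / 4 + x * b / 2 + x * b ^ 2 / 4 := by ring
    nlinarith
  · have hx2 : 1 / 2 < x := by nlinarith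
    have e2 : π * (1 + b) - π ^ 2 / x ≤ (1 + b) / 2 - 1 / (4 * x) := by
      have : (1 + b) / 2 - 1 / (4 * x) - (π * (1 + b) - π ^ 2 / x) =
          (1 / 2 - π) * ((x * (1 + b) - (1 / 2 + π)) / x) := by
        field_simp
        ring
      have h2 : 0 ≤ (1 / 2 - π) * ((x * (1 + b) - (1 / 2 + π)) / x) :=
        mul_nonneg (by linarith) (div_nonneg (by linarith) hx.le)
      linarith
    have hx22 : x ^ 2 ≤ 1 := by nlinarith
    have hd3 : δ ^ 3 ≤ b ^ 3 := pow_le_pow_left₀ hδ.le hbd 3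
    have e3 : (1 - x) ^ 2 * (2 * x * b - 1) + 12 * ω * x ^ 2 ≤ 2 * b ^ 3 * x ^ 2 := by
      rcases le_or_gt (2 * x * b) 1 with h3 | h3
      · have h4 : (1 - x) ^ 2 * (2 * x * b - 1) ≤ 0 :=
          mul_nonpos_of_nonneg_of_nonpos (sq_nonneg _) (by linarith)
        have h5 : 12 * ω * x ^ 2 ≤ 2 * b ^ 3 * x ^ 2 :=
          mul_le_mul_of_nonneg_right (by linarith) (sq_nonneg x)
        linarith
      · have h4 : (1 - x) ^ 2 ≤ 1 / 4 := by nlinarith
        have h5 : (1 - x) ^ 2 * (2 * x * b - 1) ≤ 1 / 4 * (2 * x * b - 1) :=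
          mul_le_mul_of_nonneg_right h4 (by linarith)
        obtain ⟨u, hu⟩ : ∃ u, u = b * x := ⟨_, rfl⟩
        have hu1 : 1 / 2 ≤ u := by rw [hu]; linarith
        have hub : u ≤ b := by rw [hu]; nlinarith
        have h6 : u ^ 2 * u ≤ u ^ 2 * b := mul_le_mul_of_nonneg_left hub (sq_nonneg u)
        have h7 : 2 * b ^ 3 * x ^ 2 = 2 * (u ^ 2 * b) := by rw [hu]; ring
        have h8 : 12 * ω * x ^ 2 ≤ 12 * ω * 1 :=
          mul_le_mul_of_nonneg_left hx22 (by linarith)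
        have h9 : 1 / 4 * (2 * u - 1) + 1 / 4 ≤ 2 * (u ^ 2 * u) := by
          have : 2 * (u ^ 2 * u) - (1 / 4 * (2 * u - 1) + 1 / 4) =
            2 * u * (u - 1 / 2) * (u + 1 / 2) := by ring
          have h10 : 0 ≤ 2 * u * (u - 1 / 2) * (u + 1 / 2) :=
            mul_nonneg (mul_nonneg (by linarith) (by linarith)) (by linarith)
          linarith
        have h11 : 1 / 4 * (2 * x * b - 1) = 1 / 4 * (2 * u - 1) := by rw [hu]; ring
        linarith
    have e4 : (1 + b) / 2 - 1 / (4 * x) - (1 - x / 2) * x * b - x / 4 - b ^ 3 * x / 2 +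
        3 * ω * x =
        ((1 - x) ^ 2 * (2 * x * b - 1) + 12 * ω * x ^ 2 - 2 * b ^ 3 * x ^ 2) / (4 * x) := by
      field_simp
      ring
    have e5 : ((1 - x) ^ 2 * (2 * x * b - 1) + 12 * ω * x ^ 2 - 2 * b ^ 3 * x ^ 2) / (4 * x)
        ≤ 0 :=
      div_nonpos_of_nonpos_of_nonneg (by linarith) (by linarith)
    linarith

lemma pair_large' {δ ω ε x y π ρ : ℝ} (hδ : 0 < δ) (hδ1 : δ ≤ 1 / 10) (hω : 0 ≤ ω)
    (hωδ : ω ≤ δ ^ 3 / 6) (hε : ε ≤ 6 * ω) (hx1 : 1 ≤ x) (hy1 : 1 + δ ≤ y) :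
    al x π - (be x π - ε) * min 1 (y / 2) +
      (al y ρ - (be y ρ - 6 * ω) * min 1 (x / 2)) ≤ 1 / 2 := by
  obtain ⟨hw, hd2, hd1⟩ := far_small hδ hδ1 hωδ
  have hy1' : 1 ≤ y := by linarith
  unfold al be
  rw [if_neg (not_lt.mpr hx1), if_neg (not_lt.mpr hx1), if_neg (not_lt.mpr hy1'),
    if_neg (not_lt.mpr hy1')]
  have hp : 1 / 2 ≤ min 1 (x / 2) := le_min (by norm_num) (by linarith)
  have hq : (1 + δ) / 2 ≤ min 1 (y / 2) := le_min (by linarith) (by linarith)
  have hp1 : min 1 (x / 2) ≤ 1 := min_le_left _ _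
  have hq1 : min 1 (y / 2) ≤ 1 := min_le_left _ _
  have hp3 : 0 ≤ (2 * min 1 (x / 2) - 1) ^ 3 := pow_nonneg (by linarith) 3
  have hq3 : 0 ≤ (2 * min 1 (y / 2) - 1) ^ 3 := pow_nonneg (by linarith) 3
  have h1 : 0 ≤ (2 * min 1 (x / 2) - 1) ^ 3 * min 1 (y / 2) := mul_nonneg hp3 (by linarith)
  have h2 : 0 ≤ (2 * min 1 (y / 2) - 1) ^ 3 * min 1 (x / 2) := mul_nonneg hq3 (by linarith)
  have h3 : ε * min 1 (y / 2) ≤ 6 * ω * min 1 (y / 2) :=
    mul_le_mul_of_nonneg_right hε (by linarith)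
  have h4 : 6 * ω * min 1 (y / 2) ≤ 6 * ω * 1 := mul_le_mul_of_nonneg_left hq1 (by linarith)
  have h5 : 6 * ω * min 1 (x / 2) ≤ 6 * ω * 1 := mul_le_mul_of_nonneg_left hp1 (by linarith)
  nlinarith

lemma pair_bound' {δ ω x y π ρ : ℝ} (hδ : 0 < δ) (hδ1 : δ ≤ 1 / 10) (hω : 0 ≤ ω)
    (hωδ : ω ≤ δ ^ 3 / 6) (hx : 0 < x) (hy : 0 < y) (h1 : x < 1 + δ → π ≤ 1 / 2)
    (h2 : y < 1 + δ → ρ ≤ 1 / 2) :
    al x π - be' δ ω x π * min 1 (y / 2) + (al y ρ - be' δ ω y ρ * min 1 (x / 2)) ≤ 1 / 2 := by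
  unfold be'
  rcases lt_or_ge x (1 + δ) with hx1 | hx1
  · rw [if_neg (not_le.mpr hx1)]
    rcases lt_or_ge y (1 + δ) with hy1 | hy1
    · rw [if_neg (not_le.mpr hy1), sub_zero, sub_zero]
      exact pair_bound hx hy (h1 hx1) (h2 hy1)
    · rw [if_pos hy1]
      rcases lt_or_ge x 1 with hx2 | hx2
      · have := pair_mixed' (ρ := ρ) hδ hδ1 hω hωδ hx hx2 hy1 (h1 hx1)
        rw [sub_zero]
        exact this
      · exact pair_large' hδ hδ1 hω hωδ (by linarith) hx2 hy1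
  · rw [if_pos hx1]
    rcases lt_or_ge y (1 + δ) with hy1 | hy1
    · rw [if_neg (not_le.mpr hy1)]
      rcases lt_or_ge y 1 with hy2 | hy2
      · have := pair_mixed' (ρ := π) hδ hδ1 hω hωδ hy hy2 hx1 (h2 hy1)
        rw [sub_zero]
        linarith
      · have := pair_large' (ε := 0) (π := ρ) (ρ := π) hδ hδ1 hω hωδ (by linarith) hy2 hx1
        linarith
    · rw [if_pos hy1]
      exact pair_large' hδ hδ1 hω hωδ le_rfl (by linarith) hy1

section Graph

variable {V : Type*} [Fintype V] [DecidableEq V] (G : SimpleGraph V)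

lemma avg_le' {N s : ℝ} (hN : 0 < N) (hsum : ∑ v, deg G v = s * N ^ 2) (v : V) :
    avg G (prob G N) v ≤ s * N / 2 := by
  unfold avg
  calc ∑ w, adj G v w * prob G N w ≤ ∑ w, deg G w / N / 2 := by
        refine Finset.sum_le_sum fun w _ => ?_
        calc adj G v w * prob G N w ≤ 1 * prob G N w :=
              mul_le_mul_of_nonneg_right (adj_le_one G v w) (prob_mem G hN w).1
          _ ≤ deg G w / N / 2 := by rw [one_mul]; exact min_le_right _ _
    _ = s * N / 2 := by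
        rw [← Finset.sum_div, ← Finset.sum_div, hsum]
        field_simp

lemma main_sum' {N δ ω : ℝ} (hN : 0 < N) (hδ : 0 < δ) (hδ1 : δ ≤ 1 / 10) (hω : 0 ≤ ω)
    (hωδ : ω ≤ δ ^ 3 / 6) (hsum : ∑ v, deg G v = (1 + 2 * ω) * N ^ 2)
    (hbad : ∀ v, deg G v < (1 + δ) * N → avg G (prob G N) v ≤ N / 2) :
    ∑ v, (prob G N v * avg G (prob G N) v ^ 2 +
      (1 - prob G N v) * (deg G v - avg G (prob G N) v) ^ 2) ≤ (1 + 2 * ω) * N ^ 3 / 4 := by
  obtain ⟨x, hx⟩ : ∃ x : V → ℝ, x = fun v => deg G v / N := ⟨_, rfl⟩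
  obtain ⟨r, hr⟩ : ∃ r : V → ℝ, r = fun v => avg G (prob G N) v / N := ⟨_, rfl⟩
  have hp : ∀ v, prob G N v = min 1 (x v / 2) := fun v => by rw [hx]; rfl
  have hdeg : ∀ v, deg G v = N * x v := fun v => by rw [hx]; field_simp
  have havg : ∀ v, avg G (prob G N) v = N * r v := fun v => by rw [hr]; field_simp
  have hr0 : ∀ v, 0 ≤ r v := fun v => by
    rw [hr]; exact div_nonneg (avg_nonneg G (fun w => (prob_mem G hN w).1) v) hN.le
  have hr1 : ∀ v, r v ≤ 1 / 2 + ω := fun v => by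
    rw [hr]
    have := avg_le' G hN hsum v
    rw [div_le_iff₀ hN]
    linarith
  have hr2 : ∀ v, x v < 1 + δ → r v ≤ 1 / 2 := fun v hv => by
    have h1 : deg G v < (1 + δ) * N := by
      rw [hdeg v]
      nlinarith
    have h2 := hbad v h1
    rw [hr]
    rw [div_le_iff₀ hN]
    linarith
  have hx0 : ∀ v, 0 ≤ x v := fun v => by rw [hx]; exact div_nonneg (deg_nonneg G v) hN.le
  have step1 : ∀ v, prob G N v * avg G (prob G N) v ^ 2 +
      (1 - prob G N v) * (deg G v - avg G (prob G N) v) ^ 2 ≤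
      N * ∑ w, adj G v w * (al (x v) (r v) - be' δ ω (x v) (r v) * prob G N w) := by
    intro v
    have e1 : ∑ w, adj G v w * (al (x v) (r v) - be' δ ω (x v) (r v) * prob G N w) =
        al (x v) (r v) * deg G v - be' δ ω (x v) (r v) * avg G (prob G N) v := by
      unfold deg avg
      rw [Finset.mul_sum, Finset.mul_sum, ← Finset.sum_sub_distrib]
      exact Finset.sum_congr rfl fun w _ => by ring
    rw [e1, hdeg v, havg v, hp v]
    rcases (hx0 v).eq_or_lt with h0 | h0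
    · have h1 : deg G v = 0 := by rw [hdeg v, ← h0, mul_zero]
      have h2 : ∀ w, adj G v w = 0 := by
        intro w
        have := (Finset.sum_eq_zero_iff_of_nonneg (fun w _ => adj_nonneg G v w)).mp h1
        exact this w (Finset.mem_univ _)
      have h3 : avg G (prob G N) v = 0 := Finset.sum_eq_zero fun w _ => by rw [h2 w, zero_mul]
      have h4 : r v = 0 := by
        have := havg v
        rw [h3] at this
        rcases mul_eq_zero.mp this.symm with h | h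
        · exact absurd h hN.ne'
        · exact h
      rw [← h0, h4]
      simp
    · have := vertex_bound' hδ hδ1 hω hωδ h0 (hr0 v) (hr1 v) (hr2 v)
      have h5 : 0 ≤ N ^ 2 := sq_nonneg N
      nlinarith [mul_le_mul_of_nonneg_left this h5]
  have step2 : ∑ v, ∑ w, adj G v w * (al (x v) (r v) - be' δ ω (x v) (r v) * prob G N w) ≤
      (1 + 2 * ω) * N ^ 2 / 4 := by
    have e1 : ∑ v, ∑ w, adj G v w * (al (x v) (r v) - be' δ ω (x v) (r v) * prob G N w) =
        ∑ v, ∑ w, adj G v w * (al (x w) (r w) - be' δ ω (x w) (r w) * prob G N v) := by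
      rw [Finset.sum_comm]
      refine Finset.sum_congr rfl fun v _ => Finset.sum_congr rfl fun w _ => ?_
      rw [adj_comm]
    have e2 : 2 * ∑ v, ∑ w, adj G v w * (al (x v) (r v) - be' δ ω (x v) (r v) * prob G N w) =
        ∑ v, ∑ w, adj G v w * ((al (x v) (r v) - be' δ ω (x v) (r v) * prob G N w) +
          (al (x w) (r w) - be' δ ω (x w) (r w) * prob G N v)) := by
      rw [two_mul]
      nth_rewrite 2 [e1]
      rw [← Finset.sum_add_distrib]
      refine Finset.sum_congr rfl fun v _ => ?_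
      rw [← Finset.sum_add_distrib]
      exact Finset.sum_congr rfl fun w _ => by ring
    have e3 : ∑ v, ∑ w, adj G v w * ((al (x v) (r v) - be' δ ω (x v) (r v) * prob G N w) +
          (al (x w) (r w) - be' δ ω (x w) (r w) * prob G N v)) ≤
          ∑ v, ∑ w, adj G v w * (1 / 2) := by
      refine Finset.sum_le_sum fun v _ => Finset.sum_le_sum fun w _ => ?_
      rcases adj_zero_or_one G v w with h | h
      · rw [h]; simp
      · rw [h, one_mul, one_mul]
        have hv : 0 < x v := by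
          rw [hx]
          have : 0 < deg G v := by
            have h1 : adj G v w ≤ deg G v :=
              Finset.single_le_sum (fun w _ => adj_nonneg G v w) (Finset.mem_univ w)
            linarith
          exact div_pos this hN
        have hw : 0 < x w := by
          rw [hx]
          have : 0 < deg G w := by
            have h1 : adj G w v ≤ deg G w :=
              Finset.single_le_sum (fun w' _ => adj_nonneg G w w') (Finset.mem_univ v)
            rw [adj_comm] at h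
            linarith
          exact div_pos this hN
        rw [hp v, hp w]
        exact pair_bound' hδ hδ1 hω hωδ hv hw (hr2 v) (hr2 w)
    have e4 : ∑ v, ∑ w, adj G v w * (1 / 2) = (1 + 2 * ω) * N ^ 2 / 2 := by
      have : ∀ v, ∑ w, adj G v w * (1 / 2) = deg G v / 2 := by
        intro v
        rw [← Finset.sum_mul]
        unfold deg
        ring
      rw [Finset.sum_congr rfl (fun v _ => this v), ← Finset.sum_div, hsum]
    linarith
  calc _ ≤ ∑ v, N * ∑ w, adj G v w * (al (x v) (r v) - be' δ ω (x v) (r v) * prob G N w) :=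
        Finset.sum_le_sum fun v _ => step1 v
    _ = N * ∑ v, ∑ w, adj G v w * (al (x v) (r v) - be' δ ω (x v) (r v) * prob G N w) := by
        rw [Finset.mul_sum]
    _ ≤ N * ((1 + 2 * ω) * N ^ 2 / 4) := mul_le_mul_of_nonneg_left step2 hN.le
    _ = (1 + 2 * ω) * N ^ 3 / 4 := by ring

theorem fMu_far {N' δ ω : ℝ} (hN : 0 < N') (hδ : 0 < δ) (hδ1 : δ ≤ 1 / 10) (hω : 0 ≤ ω)
    (hωδ : ω ≤ δ ^ 3 / 6) (hsum : ∑ v, deg G v = (1 + 2 * ω) * N' ^ 2)
    (hbad : ∀ v, deg G v < (1 + δ) * N' → avg G (prob G N') v ≤ N' / 2) :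
    (fMu G : ℝ) ≤ (1 + 2 * ω) * N' ^ 3 / 4 + (1 + 2 * ω) * N' ^ 2 / 4 := by
  refine (fMu_le G (prob G N') (prob_mem G hN)).trans ?_
  have h1 := main_sum' G hN hδ hδ1 hω hωδ hsum hbad
  have h2 := sum_vr_le G (prob G N')
  rw [hsum] at h2
  have h3 : FX G (prob G N') + FY G (prob G N') =
      ∑ v, (prob G N' v * avg G (prob G N') v ^ 2 +
      (1 - prob G N' v) * (deg G v - avg G (prob G N') v) ^ 2) +
        ∑ v, vr G (prob G N') v := by
    unfold FX FY
    rw [← Finset.sum_add_distrib, ← Finset.sum_add_distrib]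
    exact Finset.sum_congr rfl fun v _ => by ring
  linarith

end Graph

end Pool.Agent.Helper96.Mu
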