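import Pool.Agent.Helper96.Mu.AsmF2

/-!
# Filling in missing edges
-/

namespace Pool.Agent.Helper96.Mu

open Finset Pool.Agent.Helper39.Mu

set_option linter.unusedSectionVars false

section Graph

variable {V : Type*} [Fintype V] [DecidableEq V] (G : SimpleGraph V)

lemma adj_mono {G G' : SimpleGraph V} (h : G ≤ G') (v w : V) : adj G v w ≤ adj G' v w := by
  rcases adj_zero_or_one G v w with h1 | h1
  · rw [h1]; exact adj_nonneg G' v w
  · have h2 : G.Adj v w := by
      by_contra hcon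
      simp [adj, hcon] at h1
    rw [adj_of_adj G h2, adj_of_adj G' (h h2)]

lemma mu_mono {G G' : SimpleGraph V} (h : G ≤ G') (U : Set V) :
    (mu (G.induce U) : ℝ) ≤ (mu (G'.induce U) : ℝ) := by
  classical
  obtain ⟨x, hx⟩ : ∃ x : V → ℝ, x = fun v => if v ∈ U then 1 else 0 := ⟨_, rfl⟩
  have hxU : ∀ v, (v ∈ U ∧ x v = 1) ∨ (v ∉ U ∧ x v = 0) := by
    intro v
    by_cases h : v ∈ U
    · left; exact ⟨h, by rw [hx]; simp [h]⟩
    · right; exact ⟨h, by rw [hx]; simp [h]⟩
  have hx0 : ∀ v, 0 ≤ x v := fun v => by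
    rcases hxU v with ⟨_, h⟩ | ⟨_, h⟩ <;> rw [h]
    norm_num
  rw [mu_induce G hxU, mu_induce G' hxU]
  refine Finset.sum_le_sum fun v _ => mul_le_mul_of_nonneg_left ?_ (hx0 v)
  apply pow_le_pow_left₀
  · exact Finset.sum_nonneg fun w _ => mul_nonneg (adj_nonneg G v w) (hx0 w)
  · exact Finset.sum_le_sum fun w _ => mul_le_mul_of_nonneg_right (adj_mono h v w) (hx0 w)

/-- Adding one missing edge inside `B`. -/
lemma add_edge {B : Finset V} {v w : V} (hv : v ∈ B) (hw : w ∈ B) (hvw : v ≠ w)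
    (hna : ¬ G.Adj v w) :
    ∃ G' : SimpleGraph V, G ≤ G' ∧ mis G' B = mis G B - 1 ∧ ext G' B = ext G B := by
  classical
  obtain ⟨G', hG'⟩ : ∃ G', G' = G ⊔ SimpleGraph.edge v w := ⟨_, rfl⟩
  have hadj : ∀ x y, adj G' x y = adj G x y + (if x = v then (if y = w then 1 else 0) else 0) +
      (if x = w then (if y = v then 1 else 0) else 0) := by
    intro x y
    have h1 : G'.Adj x y ↔ G.Adj x y ∨ (x = v ∧ y = w) ∨ (x = w ∧ y = v) := by
      rw [hG', SimpleGraph.sup_adj, SimpleGraph.edge_adj]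
      constructor
      · rintro (h | ⟨h, _⟩)
        · exact Or.inl h
        · rcases h with h | h
          · exact Or.inr (Or.inl ⟨h.1, h.2⟩)
          · exact Or.inr (Or.inr ⟨h.1, h.2⟩)
      · rintro (h | ⟨h1, h2⟩ | ⟨h1, h2⟩)
        · exact Or.inl h
        · exact Or.inr ⟨Or.inl ⟨h1, h2⟩, by rw [h1, h2]; exact hvw⟩
        · exact Or.inr ⟨Or.inr ⟨h1, h2⟩, by rw [h1, h2]; exact hvw.symm⟩
    have hna' : ¬ G.Adj w v := fun h => hna h.symm
    unfold adj
    by_cases hx : x = v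
    · subst hx
      by_cases hy : y = w
      · subst hy
        rw [if_pos (h1.mpr (Or.inr (Or.inl ⟨rfl, rfl⟩))), if_neg hna]
        simp [hvw]
      · simp only [h1, hy, hvw, and_false, false_and, or_false, if_false, if_true]
        ring
    · by_cases hx' : x = w
      · subst hx'
        by_cases hy : y = v
        · subst hy
          rw [if_pos (h1.mpr (Or.inr (Or.inr ⟨rfl, rfl⟩))), if_neg hna']
          simp [hx]
        · simp only [h1, hx, hy, and_false, false_and, or_false, if_false, if_true]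
          ring
      · simp only [h1, hx, hx', false_and, or_false, if_false]
        ring
  refine ⟨G', by rw [hG']; exact le_sup_left, ?_⟩
  have hdg : ∀ (A : Finset V), v ∈ A → w ∈ A → ∀ x, dg G' A x = dg G A x +
      (if x = v then 1 else 0) + (if x = w then 1 else 0) := by
    intro A hvA hwA x
    unfold dg
    rw [Finset.sum_congr rfl fun y _ => hadj x y, Finset.sum_add_distrib, Finset.sum_add_distrib]
    congr 1
    · congr 1
      by_cases hx : x = v
      · simp [hx, hwA]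
      · simp [hx]
    · by_cases hx : x = w
      · simp [hx, hvA]
      · simp [hx]
  have he2 : ∀ (A : Finset V), v ∈ A → w ∈ A → ∑ x ∈ A, dg G' A x = ∑ x ∈ A, dg G A x + 2 := by
    intro A hvA hwA
    rw [Finset.sum_congr rfl fun x _ => hdg A hvA hwA x, Finset.sum_add_distrib,
      Finset.sum_add_distrib]
    simp only [Finset.sum_ite_eq', hvA, hwA, if_true]
    ring
  have h1 : e2 G' B = e2 G B + 2 := he2 B hv hw
  have h2 : tot G' = tot G + 2 := he2 univ (Finset.mem_univ v) (Finset.mem_univ w)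
  unfold mis ext
  rw [h1, h2]
  constructor <;> ring

lemma exists_missing {B : Finset V} (h : 0 < mis G B) :
    ∃ v ∈ B, ∃ w ∈ B, v ≠ w ∧ ¬ G.Adj v w := by
  by_contra hcon
  push Not at hcon
  have h1 : e2 G B = B.card * (B.card - 1) := by
    unfold e2
    rw [Finset.sum_congr rfl fun v hv => ?_, Finset.sum_const, nsmul_eq_mul]
    unfold dg
    rw [← Finset.sum_erase_add _ _ hv, adj_self, add_zero,
      Finset.sum_congr rfl fun w hw => ?_, Finset.sum_const, nsmul_eq_mul, mul_one,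
      Finset.card_erase_of_mem hv, Nat.cast_sub (Finset.card_pos.mpr ⟨v, hv⟩), Nat.cast_one]
    exact adj_of_adj G (hcon v hv w (Finset.mem_of_mem_erase hw) (Finset.ne_of_mem_erase hw).symm)
  unfold mis at h
  rw [h1] at h
  linarith

theorem exists_fill {B : Finset V} {t : ℝ} (ht0 : 0 ≤ t) : ∀ (k : ℕ) (G : SimpleGraph V),
    t ≤ mis G B → mis G B < t + 1 + k →
    ∃ G' : SimpleGraph V, G ≤ G' ∧ t ≤ mis G' B ∧ mis G' B < t + 1 ∧ ext G' B = ext G B := by
  intro k
  induction k with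
  | zero =>
    intro G h1 h2
    exact ⟨G, le_rfl, h1, by simpa using h2, rfl⟩
  | succ k ih =>
    intro G h1 h2
    rcases lt_or_ge (mis G B) (t + 1) with h3 | h3
    · exact ⟨G, le_rfl, h1, h3, rfl⟩
    · obtain ⟨v, hv, w, hw, hvw, hna⟩ := exists_missing G (B := B) (by linarith)
      obtain ⟨G₁, hG1, hG2, hG3⟩ := add_edge G hv hw hvw hna
      push_cast at h2
      obtain ⟨G', h4, h5, h6, h7⟩ := ih G₁ (by rw [hG2]; linarith) (by rw [hG2]; linarith)
      exact ⟨G', hG1.trans h4, h5, h6, by rw [h7, hG3]⟩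

/-- The direct partition with `j` missing edges inside the first part. -/
theorem direct2 {B : Finset V} (hB : 4 ≤ B.card) {j : ℝ} (hj0 : 0 ≤ j) (hjM : j ≤ mis G B)
    (hj : 2 * (j + 1) ≤ hi B.card) :
    ∃ U : Set V, (mu (G.induce U) : ℝ) ≤ (hi B.card : ℝ) * ((hi B.card : ℝ) - 1) ^ 2 -
        (4 * (hi B.card : ℝ) - 5) * j + j ^ 2 ∧
      (mu (G.induce Uᶜ) : ℝ) ≤ (lo B.card : ℝ) * ((lo B.card : ℝ) - 1) ^ 2 +
        B.card * ext G B + ext G B ^ 2 := by
  obtain ⟨k, hk⟩ := exists_nat_gt (mis G B - j - 1)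
  obtain ⟨G', h1, h2, h3, h4⟩ := exists_fill (B := B) hj0 k G hjM (by linarith)
  obtain ⟨U, hU1, hU2⟩ := direct G' hB (by linarith)
  refine ⟨U, (mu_mono h1 U).trans (hU1.trans ?_), (mu_mono h1 Uᶜ).trans (hU2.trans ?_)⟩
  · have h5 : 0 ≤ (mis G' B - j) * (4 * (hi B.card : ℝ) - 5 - mis G' B - j) := by
      apply mul_nonneg (by linarith)
      linarith
    nlinarith
  · rw [h4]

end Graph

end Pool.Agent.Helper96.Mu
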