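import Mathlib
import Pool.Agent.Helper96.Mu.Base

/-!
# The complete graph minus a star: definition and cost of a part
-/

namespace Pool.Agent.Helper96.Mu

open Finset Pool.Agent.Helper39.Mu

/-- `K_n` minus a star with `j` edges (centre `0`, leaves `1, …, j`). -/
def starG (n j : ℕ) : SimpleGraph (Fin n) where
  Adj u v := u ≠ v ∧ ¬ (u.val = 0 ∧ v.val ≤ j) ∧ ¬ (v.val = 0 ∧ u.val ≤ j)
  symm := ⟨fun _ _ h => ⟨h.1.symm, h.2.2, h.2.1⟩⟩
  loopless := ⟨fun _ h => h.1 rfl⟩

lemma starG_adj {n j : ℕ} (u v : Fin n) :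
    (starG n j).Adj u v ↔ u ≠ v ∧ ¬ (u.val = 0 ∧ v.val ≤ j) ∧ ¬ (v.val = 0 ∧ u.val ≤ j) :=
  Iff.rfl

/-- A part which does not contain the centre is complete. -/
lemma star_other {n j : ℕ} (hn : 0 < n) (U : Set (Fin n)) (h0 : (⟨0, hn⟩ : Fin n) ∉ U) :
    (U.ncard : ℝ) * ((U.ncard : ℝ) - 1) ^ 2 ≤ (mu ((starG n j).induce U) : ℝ) := by
  classical
  have h1 := mu_induce_ge (starG n j) (univ.filter (fun v : Fin n => v ≠ ⟨0, hn⟩)) (by
    intro v hv w hw hvw
    rw [Finset.mem_filter] at hv hw
    have h2 : v.val ≠ 0 := fun h => hv.2 (Fin.ext h)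
    have h3 : w.val ≠ 0 := fun h => hw.2 (Fin.ext h)
    exact ⟨hvw, fun h => h2 h.1, fun h => h3 h.1⟩) U
  have h2 : ((univ.filter (fun v : Fin n => v ≠ ⟨0, hn⟩) : Finset (Fin n)) : Set (Fin n)) ∩ U
      = U := by
    ext v
    simp only [Finset.coe_filter, Finset.mem_univ, true_and, Set.mem_inter_iff,
      Set.mem_ofPred_eq]
    constructor
    · intro h; exact h.2
    · intro h
      refine ⟨?_, h⟩
      rintro rfl
      exact h0 h
  rw [h2] at h1
  exact h1

/-- The cost of a part which contains the centre. -/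
lemma star_part {n j : ℕ} (hn : 0 < n) (U : Set (Fin n)) (h0 : (⟨0, hn⟩ : Fin n) ∈ U) :
    ∃ i : ℕ, i ≤ j ∧ i + 1 ≤ U.ncard ∧
      (mu ((starG n j).induce U) : ℝ) = (U.ncard : ℝ) * ((U.ncard : ℝ) - 1) ^ 2 -
        i * (4 * (U.ncard : ℝ) - 5) + (i : ℝ) ^ 2 := by
  classical
  obtain ⟨o, ho⟩ : ∃ o : Fin n, o = ⟨0, hn⟩ := ⟨_, rfl⟩
  rw [← ho] at h0
  have ho' : ∀ v : Fin n, v.val = 0 ↔ v = o := by
    intro v
    rw [ho, Fin.ext_iff]
  obtain ⟨x, hx⟩ : ∃ x : Fin n → ℝ, x = fun v => if v ∈ U then 1 else 0 := ⟨_, rfl⟩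
  have hxU : ∀ v, (v ∈ U ∧ x v = 1) ∨ (v ∉ U ∧ x v = 0) := by
    intro v
    by_cases h : v ∈ U
    · left; exact ⟨h, by rw [hx]; simp [h]⟩
    · right; exact ⟨h, by rw [hx]; simp [h]⟩
  have hx0 : x o = 1 := by
    rcases hxU o with h | h
    · exact h.2
    · exact absurd h0 h.1
  obtain ⟨S, hS⟩ : ∃ S : Finset (Fin n), S = univ.filter (fun v => v ∈ U) := ⟨_, rfl⟩
  obtain ⟨L, hL⟩ : ∃ L : Finset (Fin n), L = univ.filter (fun v => v ∈ U ∧ v ≠ o ∧ v.val ≤ j) :=
    ⟨_, rfl⟩
  have hSU : (S : Set (Fin n)) = U := by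
    ext v; simp [hS]
  have hScard : U.ncard = S.card := by
    rw [← hSU, Set.ncard_coe_finset]
  have hoS : o ∈ S := by rw [hS]; simp [h0]
  have hLS : L ⊆ S.erase o := by
    intro v hv
    rw [hL, Finset.mem_filter] at hv
    rw [Finset.mem_erase, hS, Finset.mem_filter]
    exact ⟨hv.2.2.1, Finset.mem_univ _, hv.2.1⟩
  have hLc : L.card + 1 ≤ S.card := by
    have h1 := Finset.card_le_card hLS
    rw [Finset.card_erase_of_mem hoS] at h1
    have h2 : 0 < S.card := Finset.card_pos.mpr ⟨o, hoS⟩
    omega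
  have hLj : L.card ≤ j := by
    have h1 : L.image (fun v => v.val) ⊆ (Finset.Icc 1 j) := by
      intro a ha
      rw [Finset.mem_image] at ha
      obtain ⟨v, hv, rfl⟩ := ha
      rw [hL, Finset.mem_filter] at hv
      rw [Finset.mem_Icc]
      have : v.val ≠ 0 := fun h => hv.2.2.1 ((ho' v).1 h)
      exact ⟨by omega, hv.2.2.2⟩
    have h2 := Finset.card_le_card h1
    rw [Finset.card_image_of_injective _ (fun a b h => Fin.ext h), Nat.card_Icc] at h2
    omega
  have hsumx : ∑ v, x v = S.card := by
    rw [hS, Finset.card_filter, hx]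
    push_cast
    rfl
  have hsumL : ∀ c : ℝ, ∑ v, (if v ∈ L then c else 0) = L.card * c := by
    intro c
    rw [← Finset.sum_filter, Finset.sum_const, nsmul_eq_mul]
    congr 2
    simp
  refine ⟨L.card, hLj, by rw [hScard]; exact hLc, ?_⟩
  rw [mu_induce (starG n j) hxU, hScard]
  -- the adjacency
  have hadj : ∀ v w, adj (starG n j) v w = 1 - (if w = v then 1 else 0) -
      (if v = o ∧ w ≠ o ∧ w.val ≤ j then 1 else 0) -
      (if w = o ∧ v ≠ o ∧ v.val ≤ j then 1 else 0) := by
    intro v w
    unfold adj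
    rw [starG_adj, ho' v, ho' w]
    by_cases h1 : w = v
    · subst h1
      simp only [ne_eq, not_true_eq_false, false_and, if_false, if_true]
      by_cases h2 : w = o
      · simp [h2]
      · simp [h2]
    · have h1' : v ≠ w := fun h => h1 h.symm
      by_cases h2 : v = o
      · subst h2
        by_cases h3 : w.val ≤ j
        · simp [h1, h1', h3]
        · simp [h1, h1', h3]
      · by_cases h3 : w = o
        · subst h3
          by_cases h4 : v.val ≤ j
          · simp [h1, h1', h4]
          · simp [h1, h1', h4]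
        · simp [h1, h1', h2, h3]
  have havg : ∀ v, avg (starG n j) x v = S.card - x v -
      (if v = o then (L.card : ℝ) else 0) - (if v ≠ o ∧ v.val ≤ j then 1 else 0) := by
    intro v
    unfold avg
    have h1 : ∀ w, adj (starG n j) v w * x w = x w - (if w = v then x v else 0) -
        (if v = o then (if w ∈ L then 1 else 0) else 0) -
        (if w = o then (if v ≠ o ∧ v.val ≤ j then 1 else 0) else 0) := by
      intro w
      rw [hadj]
      have e1 : (if w = v then (1 : ℝ) else 0) * x w = (if w = v then x v else 0) := by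
        by_cases h : w = v
        · subst h; simp
        · simp [h]
      have e2 : (if v = o ∧ w ≠ o ∧ w.val ≤ j then (1 : ℝ) else 0) * x w =
          (if v = o then (if w ∈ L then 1 else 0) else 0) := by
        by_cases h : v = o
        · by_cases h2 : w ∈ L
          · have h3 := h2
            rw [hL, Finset.mem_filter] at h3
            have h4 : x w = 1 := by
              rcases hxU w with h | h
              · exact h.2
              · exact absurd h3.2.1 h.1
            simp [h, h2, h3.2.2.1, h3.2.2.2, h4]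
          · rcases hxU w with h5 | h5
            · have h6 : ¬ (w ≠ o ∧ w.val ≤ j) := by
                intro h7
                apply h2
                rw [hL, Finset.mem_filter]
                exact ⟨Finset.mem_univ _, h5.1, h7⟩
              have h8 : ¬ (v = o ∧ w ≠ o ∧ w.val ≤ j) := fun h9 => h6 h9.2
              rw [if_neg h8, if_pos h, if_neg h2, zero_mul]
            · rw [h5.2, mul_zero, if_pos h, if_neg h2]
        · simp [h]
      have e3 : (if w = o ∧ v ≠ o ∧ v.val ≤ j then (1 : ℝ) else 0) * x w =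
          (if w = o then (if v ≠ o ∧ v.val ≤ j then 1 else 0) else 0) := by
        by_cases h : w = o
        · subst h
          by_cases h2 : v ≠ w ∧ v.val ≤ j
          · rw [if_pos ⟨rfl, h2⟩, if_pos rfl, if_pos h2, hx0, one_mul]
          · rw [if_neg (fun h3 => h2 h3.2), if_pos rfl, if_neg h2, zero_mul]
        · simp [h]
      rw [sub_mul, sub_mul, sub_mul, one_mul, e1, e2, e3]
    rw [Finset.sum_congr rfl (fun w _ => h1 w), Finset.sum_sub_distrib, Finset.sum_sub_distrib,
      Finset.sum_sub_distrib, hsumx, Finset.sum_ite_eq', Finset.sum_ite_eq']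
    have e4 : ∑ w, (if v = o then (if w ∈ L then (1 : ℝ) else 0) else 0) =
        (if v = o then (L.card : ℝ) else 0) := by
      by_cases h : v = o
      · simp only [h, if_true]
        rw [hsumL, mul_one]
      · simp [h]
    rw [e4]
    simp
  have hterm : ∀ v, x v * avg (starG n j) x v ^ 2 =
      x v * ((S.card : ℝ) - 1) ^ 2 -
      (if v = o then (L.card : ℝ) * (2 * ((S.card : ℝ) - 1) - L.card) else 0) -
      (if v ∈ L then (2 * ((S.card : ℝ) - 1) - 1) else 0) := by
    intro v
    rw [havg]
    by_cases h : v = o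
    · subst h
      have h2 : v ∉ L := by
        rw [hL, Finset.mem_filter]
        rintro ⟨_, _, h, _⟩
        exact h rfl
      rw [hx0, if_pos rfl, if_neg (fun h3 => h3.1 rfl), if_pos rfl, if_neg h2]
      ring
    · rw [if_neg h, if_neg h]
      by_cases h2 : v ∈ L
      · have h3 := h2
        rw [hL, Finset.mem_filter] at h3
        have h4 : x v = 1 := by
          rcases hxU v with h | h
          · exact h.2
          · exact absurd h3.2.1 h.1
        rw [if_pos h3.2.2, if_pos h2, h4]
        ring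
      · rw [if_neg h2]
        rcases hxU v with h5 | h5
        · have h6 : ¬ (v ≠ o ∧ v.val ≤ j) := by
            intro h7
            apply h2
            rw [hL, Finset.mem_filter]
            exact ⟨Finset.mem_univ _, h5.1, h7⟩
          rw [if_neg h6, h5.2]
          ring
        · rw [h5.2]
          ring
  rw [Finset.sum_congr rfl (fun v _ => hterm v), Finset.sum_sub_distrib,
    Finset.sum_sub_distrib, ← Finset.sum_mul, hsumx, Finset.sum_ite_eq', hsumL]
  simp only [Finset.mem_univ, if_true]
  ring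

end Pool.Agent.Helper96.Mu
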