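import Mathlib
import Pool.Agent.Helper96.Mu.StarDef

/-!
# The graph `K_n` minus a star: number of edges
-/

namespace Pool.Agent.Helper96.Mu

open Finset Pool.Agent.Helper39.Mu

theorem starG_card {n j : ℕ} (h : j + 1 ≤ n) :
    (starG n j).edgeSet.ncard = n.choose 2 - j := by
  classical
  obtain ⟨o, ho⟩ : ∃ o : Fin n, o = ⟨0, by omega⟩ := ⟨_, rfl⟩
  have ho' : ∀ v : Fin n, v.val = 0 ↔ v = o := by
    intro v
    rw [ho, Fin.ext_iff]
  obtain ⟨L, hL⟩ : ∃ L : Finset (Fin n), L = (Finset.Icc 1 j).attach.image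
      (fun a => (⟨a.1, by have := Finset.mem_Icc.1 a.2; omega⟩ : Fin n)) := ⟨_, rfl⟩
  have hLmem : ∀ v : Fin n, v ∈ L ↔ v.val ≠ 0 ∧ v.val ≤ j := by
    intro v
    rw [hL, Finset.mem_image]
    constructor
    · rintro ⟨a, _, rfl⟩
      have := Finset.mem_Icc.1 a.2
      exact ⟨by simp only; omega, this.2⟩
    · rintro ⟨h1, h2⟩
      exact ⟨⟨v.val, Finset.mem_Icc.2 ⟨by omega, h2⟩⟩, Finset.mem_attach _ _, rfl⟩
  have hLc : L.card = j := by
    rw [hL, Finset.card_image_of_injective, Finset.card_attach, Nat.card_Icc]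
    · omega
    · intro a b hab
      exact Subtype.ext (by simpa using hab)
  obtain ⟨S, hS⟩ : ∃ S : Finset (Sym2 (Fin n)), S = L.image (fun v => s(o, v)) := ⟨_, rfl⟩
  have hSc : S.card = j := by
    rw [hS, Finset.card_image_of_injective, hLc]
    intro a b hab
    have h1 : s(o, a) = s(o, b) := hab
    rw [Sym2.eq_iff] at h1
    rcases h1 with ⟨_, h1⟩ | ⟨h1, h2⟩
    · exact h1
    · rw [h2, h1]
  have hsub : S ⊆ (⊤ : SimpleGraph (Fin n)).edgeFinset := by
    intro e he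
    rw [hS, Finset.mem_image] at he
    obtain ⟨v, hv, rfl⟩ := he
    rw [hLmem] at hv
    simp only [SimpleGraph.mem_edgeFinset, SimpleGraph.mem_edgeSet, SimpleGraph.top_adj]
    intro h1
    exact hv.1 ((ho' v).2 h1.symm)
  have heq : (starG n j).edgeSet = (((⊤ : SimpleGraph (Fin n)).edgeFinset \ S : Finset _) :
      Set (Sym2 (Fin n))) := by
    ext e
    rw [Finset.mem_coe, Finset.mem_sdiff]
    induction e using Sym2.ind with
    | _ u v =>
      simp only [SimpleGraph.mem_edgeFinset, SimpleGraph.mem_edgeSet, SimpleGraph.top_adj,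
        starG_adj, hS, Finset.mem_image, hLmem, Sym2.eq_iff]
      constructor
      · rintro ⟨h1, h2, h3⟩
        refine ⟨h1, ?_⟩
        rintro ⟨w, ⟨hw1, hw2⟩, ⟨rfl, rfl⟩ | ⟨rfl, rfl⟩⟩
        · exact h2 ⟨(ho' _).2 rfl, hw2⟩
        · exact h3 ⟨(ho' _).2 rfl, hw2⟩
      · rintro ⟨h1, h2⟩
        refine ⟨h1, ?_, ?_⟩
        · rintro ⟨h3, h4⟩
          refine h2 ⟨v, ⟨fun h5 => h1 (Fin.ext (h3.trans h5.symm)), h4⟩,
            Or.inl ⟨((ho' u).1 h3).symm, rfl⟩⟩
        · rintro ⟨h3, h4⟩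
          refine h2 ⟨u, ⟨fun h5 => h1 (Fin.ext (h5.trans h3.symm)), h4⟩,
            Or.inr ⟨((ho' v).1 h3).symm, rfl⟩⟩
  rw [heq, Set.ncard_coe_finset, Finset.card_sdiff_of_subset hsub,
    SimpleGraph.card_edgeFinset_top_eq_card_choose_two, Fintype.card_fin, hSc]

end Pool.Agent.Helper96.Mu
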