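import Mathlib
import Pool.Agent.Helper96.Mu.AsmF2
import Pool.Agent.Helper96.Mu.StarF2
import Pool.Agent.Helper96.Mu.StarCard

/-!
# Exact values of `f_μ(m)` for a positive proportion of all `m`, sharp bounds for all large `m`
-/

namespace Pool.Agent.Helper96.Mu

open Finset Pool.Agent.Helper39.Mu

/-- `Φ(m) = (m/2) √(2m + 1/4) - (5/4) m + √(2m + 1/4) - 1/2`. -/
noncomputable def bound (m : ℕ) : ℝ :=
  m / 2 * Real.sqrt (2 * m + 1 / 4) - 5 / 4 * m + Real.sqrt (2 * m + 1 / 4) - 1 / 2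

/-- The value of `f_μ` at the complete graph on `n` vertices minus a star with `j` edges:
`h (h - 1)² + l (l - 1)² - (4 h - 5) j + j²` with `h = ⌈n/2⌉`, `l = ⌊n/2⌋`. -/
def starValue (n j : ℕ) : ℤ :=
  (((n + 1) / 2 : ℕ) : ℤ) * ((((n + 1) / 2 : ℕ) : ℤ) - 1) ^ 2 +
    ((n / 2 : ℕ) : ℤ) * (((n / 2 : ℕ) : ℤ) - 1) ^ 2 -
    (4 * (((n + 1) / 2 : ℕ) : ℤ) - 5) * j + (j : ℤ) ^ 2

lemma starValue_cast (n j : ℕ) : (starValue n j : ℝ) = fS n j := by
  unfold starValue fS fK hi lo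
  simp only [Int.cast_add, Int.cast_sub, Int.cast_mul, Int.cast_pow, Int.cast_natCast,
    Int.cast_one, Int.cast_ofNat]

/-- The real number `n` with `n (n - 1) = 2 m`. -/
noncomputable def rt (m : ℕ) : ℝ := 1 / 2 + Real.sqrt (2 * m + 1 / 4)

lemma rt_sq (m : ℕ) : rt m * (rt m - 1) = 2 * m := by
  have h : Real.sqrt (2 * m + 1 / 4) ^ 2 = 2 * m + 1 / 4 := Real.sq_sqrt (by positivity)
  unfold rt
  nlinarith

lemma rt_ge (m : ℕ) : 1 ≤ rt m := by
  have h : (1 : ℝ) / 2 ≤ Real.sqrt (2 * m + 1 / 4) := by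
    apply Real.le_sqrt_of_sq_le
    have : (0 : ℝ) ≤ m := Nat.cast_nonneg m
    norm_num
  unfold rt
  linarith

lemma bound_eq (m : ℕ) : bound m = Phi (rt m) := by
  have h := rt_sq m
  have h1 : Real.sqrt (2 * m + 1 / 4) = rt m - 1 / 2 := by unfold rt; ring
  have h2 : rt m ^ 2 = 2 * m + rt m := by linarith
  have h3 : rt m ^ 3 = 2 * m * rt m + 2 * m + rt m := by
    linear_combination (rt m + 1) * h2
  unfold bound Phi
  rw [h1]
  have e : (rt m - 1) * (rt m ^ 2 - 3 * rt m + 4) / 4 =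
      (rt m ^ 3 - 4 * rt m ^ 2 + 7 * rt m - 4) / 4 := by ring
  rw [e, h3, h2]
  ring

lemma fMu_bdd (m : ℕ) :
    BddAbove {x | ∃ (n : ℕ) (G : SimpleGraph (Fin n)), G.edgeSet.ncard = m ∧ fMu G = x} := by
  refine ⟨⌊(Real.sqrt (2 * m) + 1) ^ 3 / 4 + (Real.sqrt (2 * m) + 1) ^ 2 / 4⌋₊, ?_⟩
  rintro x ⟨n, G, hG, rfl⟩
  apply Nat.le_floor
  have hsum := sum_deg G
  rw [hG] at hsum
  rcases Nat.eq_zero_or_pos m with h0 | h0
  · subst h0
    have hz : ∀ v, deg G v = 0 := by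
      intro v
      have := (Finset.sum_eq_zero_iff_of_nonneg (fun w _ => deg_nonneg G w)).mp
        (by simpa using hsum)
      exact this v (Finset.mem_univ v)
    have h1 := fMu_le G (fun _ => 0) (fun _ => by norm_num)
    have h2 : ∀ v, avg G (fun _ => (0 : ℝ)) v = 0 := fun v => by simp [avg]
    have h3 : ∀ v, vr G (fun _ => (0 : ℝ)) v = 0 := fun v => by simp [vr]
    have h4 : FX G (fun _ => 0) + FY G (fun _ => 0) = 0 := by
      unfold FX FY
      simp [h2, h3, hz]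
    rw [h4] at h1
    refine h1.trans ?_
    positivity
  · obtain ⟨N, hN⟩ : ∃ N, N = Real.sqrt (2 * m) := ⟨_, rfl⟩
    have hN0 : 0 < N := by rw [hN]; exact Real.sqrt_pos.mpr (by positivity)
    have hN2 : N ^ 2 = 2 * m := by rw [hN]; exact Real.sq_sqrt (by positivity)
    have := fMu_upper G hN0 (by rw [hsum, hN2])
    rw [← hN]
    refine this.trans ?_
    have h1 : N ^ 3 ≤ (N + 1) ^ 3 := pow_le_pow_left₀ hN0.le (by linarith) 3
    have h2 : N ^ 2 ≤ (N + 1) ^ 2 := pow_le_pow_left₀ hN0.le (by linarith) 2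
    linarith

lemma le_fMuMax {m n : ℕ} {G : SimpleGraph (Fin n)} (hG : G.edgeSet.ncard = m) :
    (fMu G : ℝ) ≤ fMuMax m := by
  have : fMu G ≤ fMuMax m := le_csSup (fMu_bdd m) ⟨n, G, hG, rfl⟩
  exact_mod_cast this

lemma fMuMax_attained (m : ℕ) :
    ∃ (n : ℕ) (G : SimpleGraph (Fin n)), G.edgeSet.ncard = m ∧ fMu G = fMuMax m := by
  have hne : {x | ∃ (n : ℕ) (G : SimpleGraph (Fin n)),
      G.edgeSet.ncard = m ∧ fMu G = x}.Nonempty := by
    obtain ⟨M, G, K, hG, _, _⟩ := exists_graph m 0 (by simp)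
    exact ⟨_, M, G, hG, rfl⟩
  exact Nat.sSup_mem hne (fMu_bdd m)

lemma tot_eq {m n : ℕ} {G : SimpleGraph (Fin n)} (hG : G.edgeSet.ncard = m) :
    tot G = Real.sqrt (2 * m) ^ 2 := by
  rw [Real.sq_sqrt (by positivity)]
  unfold tot
  rw [sum_deg G, hG]

lemma choose_cast (n : ℕ) : ((n.choose 2 : ℕ) : ℝ) = n * (n - 1) / 2 := by
  rw [Nat.cast_choose_two]

/-- The polynomial inequality behind the lower bound in the star range. -/
lemma poly1 {n d : ℝ} (hn : 1 ≤ n) (hd0 : 0 ≤ d) (hd : d ≤ 1 / 2) :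
    Phi (n - d) - 3 / 8 * ((n - d) * (n - d - 1)) - 10 * n ≤
      n * (n - 2) ^ 2 / 4 - (2 * n - 3) * (d * (2 * n - 1 - d) / 2) +
        (d * (2 * n - 1 - d) / 2) ^ 2 := by
  have e : n * (n - 2) ^ 2 / 4 - (2 * n - 3) * (d * (2 * n - 1 - d) / 2) +
        (d * (2 * n - 1 - d) / 2) ^ 2 -
      (Phi (n - d) - 3 / 8 * ((n - d) * (n - d - 1)) - 10 * n) =
      n ^ 2 * ((1 / 2 - d) * (3 / 4 - d)) +
      n * (10 + 1 - 7 / 4 - 3 / 8 + d * (4 + d) - d ^ 2 * (1 + d) - (3 * d ^ 2 + 8 * d) / 4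
        - 3 / 4 * d) +
      (1 - 3 / 2 * d * (1 + d) + d ^ 2 * (1 + d) ^ 2 / 4 + (d ^ 3 + 4 * d ^ 2 + 7 * d) / 4 +
        3 / 8 * (d ^ 2 + d)) := by
    unfold Phi
    ring
  have h1 : 0 ≤ n ^ 2 * ((1 / 2 - d) * (3 / 4 - d)) :=
    mul_nonneg (sq_nonneg n) (mul_nonneg (by linarith) (by linarith))
  have d2 : d ^ 2 ≤ 1 := by nlinarith
  have d3 : d ^ 3 ≤ 1 := by nlinarith
  have d20 : 0 ≤ d ^ 2 := sq_nonneg d
  have d30 : 0 ≤ d ^ 3 := by positivity
  have h2 : 1 ≤ 10 + 1 - 7 / 4 - 3 / 8 + d * (4 + d) - d ^ 2 * (1 + d) -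
      (3 * d ^ 2 + 8 * d) / 4 - 3 / 4 * d := by nlinarith
  have h3 : n * 1 ≤ n * (10 + 1 - 7 / 4 - 3 / 8 + d * (4 + d) - d ^ 2 * (1 + d) -
      (3 * d ^ 2 + 8 * d) / 4 - 3 / 4 * d) := mul_le_mul_of_nonneg_left h2 (by linarith)
  have h4 : 0 ≤ 1 - 3 / 2 * d * (1 + d) + d ^ 2 * (1 + d) ^ 2 / 4 +
      (d ^ 3 + 4 * d ^ 2 + 7 * d) / 4 + 3 / 8 * (d ^ 2 + d) := by
    have : 0 ≤ d ^ 2 * (1 + d) ^ 2 / 4 := by positivity
    nlinarith
  linarith

/-- The polynomial inequality behind the lower bound outside the star range. -/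
lemma poly2 {n d : ℝ} (hn : 1 ≤ n) (hd0 : 0 ≤ d) (hd : d ≤ 1) (hj : n ≤ d * (2 * n - 1 - d)) :
    Phi (n - d) - 3 / 8 * ((n - d) * (n - d - 1)) - 10 * n ≤ (n - 1) * (n - 1 - 2) ^ 2 / 4 := by
  have e : (n - 1) * (n - 1 - 2) ^ 2 / 4 -
      (Phi (n - d) - 3 / 8 * ((n - d) * (n - d - 1)) - 10 * n) =
      3 / 8 * n * (d * (2 * n - 1 - d) - n) +
      n * (10 + 15 / 4 - 7 / 4 - 3 / 8 + 3 / 8 * d * (1 + d) - (3 * d ^ 2 + 8 * d) / 4 -
        3 / 4 * d) +
      (-9 / 4 + 1 + (d ^ 3 + 4 * d ^ 2 + 7 * d) / 4 + 3 / 8 * (d ^ 2 + d)) := by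
    unfold Phi
    ring
  have h1 : 0 ≤ 3 / 8 * n * (d * (2 * n - 1 - d) - n) :=
    mul_nonneg (by linarith) (by linarith)
  have d2 : d ^ 2 ≤ 1 := by nlinarith
  have d20 : 0 ≤ d ^ 2 := sq_nonneg d
  have d30 : 0 ≤ d ^ 3 := by positivity
  have h2 : 2 ≤ 10 + 15 / 4 - 7 / 4 - 3 / 8 + 3 / 8 * d * (1 + d) - (3 * d ^ 2 + 8 * d) / 4 -
      3 / 4 * d := by nlinarith
  have h3 : n * 2 ≤ n * (10 + 15 / 4 - 7 / 4 - 3 / 8 + 3 / 8 * d * (1 + d) -
      (3 * d ^ 2 + 8 * d) / 4 - 3 / 4 * d) := mul_le_mul_of_nonneg_left h2 (by linarith)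
  nlinarith

/-- Main theorem for the sum version. -/
theorem mainF :
    (∀ m : ℕ, BddAbove {x | ∃ (n : ℕ) (G : SimpleGraph (Fin n)),
      G.edgeSet.ncard = m ∧ fMu G = x}) ∧
    ∃ n₀ : ℕ,
      (∀ n ≥ n₀, ∀ j : ℕ, 16 * j ≤ n →
        (fMuMax (n.choose 2 - j) : ℤ) = starValue n j) ∧
      (∀ m ≥ n₀, bound m - 3 / 4 * m - 30 * Real.sqrt m ≤ (fMuMax m : ℝ) ∧
        (fMuMax m : ℝ) ≤ bound m) ∧
      (∀ n ≥ n₀, Odd n → (fMuMax (n.choose 2) : ℝ) = bound (n.choose 2)) := by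
  have hstar : ∀ n ≥ 10 ^ 32, ∀ j : ℕ, 16 * j ≤ n →
        (fMuMax (n.choose 2 - j) : ℤ) = starValue n j := by
    intro n hn j hj
    have hn1 : 1 ≤ n := le_trans (by norm_num) hn
    have hnR : (10 : ℝ) ^ 32 ≤ n := by exact_mod_cast hn
    have hjR : 16 * (j : ℝ) ≤ n := by exact_mod_cast hj
    have hchR := choose_cast n
    have hjc : j ≤ n.choose 2 := by
      have : (j : ℝ) ≤ (n.choose 2 : ℕ) := by
        rw [hchR]
        nlinarith
      exact_mod_cast this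
    have key : (fMuMax (n.choose 2 - j) : ℝ) = fS n j := by
      apply le_antisymm
      · obtain ⟨M, G, hG, hx⟩ := fMuMax_attained (n.choose 2 - j)
        rw [← hx]
        have ht := tot_eq hG
        have hpos : (0 : ℝ) < 2 * ((n.choose 2 - j : ℕ) : ℝ) := by
          rw [Nat.cast_sub hjc, hchR]
          nlinarith
        refine upper_star G hn hj (Real.sqrt_pos.mpr hpos) ht ?_
        rw [Real.sq_sqrt hpos.le, Nat.cast_sub hjc, hchR]
        ring
      · have hcard := starG_card (n := n) (j := j) (by omega)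
        refine le_trans (le_fMu_starG2 (n := n) (j := j) ?_ ?_) (le_fMuMax hcard)
        · exact le_trans (by norm_num) hn
        · have : 20 ≤ n := le_trans (by norm_num) hn
          unfold hi
          omega
    rw [← starValue_cast] at key
    exact_mod_cast key
  have hupper : ∀ m ≥ 10 ^ 64, (fMuMax m : ℝ) ≤ bound m := by
    intro m hm
    have hmR : (10 : ℝ) ^ 64 ≤ m := by exact_mod_cast hm
    obtain ⟨M, G, hG, hx⟩ := fMuMax_attained m
    rw [← hx, bound_eq]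
    have ht := tot_eq hG
    refine upper_all G (N := Real.sqrt (2 * m)) ?_ ht (rt_ge m) ?_
    · apply Real.le_sqrt_of_sq_le
      refine le_trans ?_ (mul_le_mul_of_nonneg_left hmR (by norm_num : (0 : ℝ) ≤ 2))
      norm_num
    · rw [rt_sq, Real.sq_sqrt (by positivity)]
  refine ⟨fMu_bdd, 10 ^ 64, ?_, ?_, ?_⟩
  · intro n hn j hj
    exact hstar n (le_trans (by norm_num) hn) j hj
  · intro m hm
    refine ⟨?_, hupper m hm⟩
    have hmR : (10 : ℝ) ^ 64 ≤ m := by exact_mod_cast hm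
    obtain ⟨k, hk1, hk2⟩ := exists_n m
    obtain ⟨n, hn⟩ : ∃ n, n = k + 1 := ⟨_, rfl⟩
    have hkR : (n : ℝ) = k + 1 := by rw [hn]; push_cast; ring
    have hk0 : 1 ≤ k := by
      by_contra hcon
      have : k = 0 := by omega
      subst this
      omega
    have hk1' : (k : ℝ) * (k - 1) ≤ 2 * m := by
      have : ((k * (k - 1) : ℕ) : ℝ) ≤ ((2 * m : ℕ) : ℝ) := by exact_mod_cast hk1
      rw [Nat.cast_mul, Nat.cast_sub hk0] at this
      push_cast at this
      exact this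
    have hk2' : 2 * (m : ℝ) < (k + 1) * k := by exact_mod_cast hk2
    obtain ⟨x, hx⟩ : ∃ x, x = rt m := ⟨_, rfl⟩
    have hxm := rt_sq m
    have hx1 := rt_ge m
    rw [← hx] at hxm hx1
    have hkx : (k : ℝ) ≤ x := by
      by_contra hcon
      push Not at hcon
      nlinarith
    have hxk : x < k + 1 := by
      by_contra hcon
      push Not at hcon
      have : (0 : ℝ) ≤ k := Nat.cast_nonneg k
      nlinarith
    obtain ⟨d, hd⟩ : ∃ d, d = (n : ℝ) - x := ⟨_, rfl⟩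
    have hd0 : 0 ≤ d := by rw [hd, hkR]; linarith
    have hd1 : d ≤ 1 := by rw [hd, hkR]; linarith
    have hxd : x = n - d := by rw [hd]; ring
    have hn20 : (20 : ℝ) ≤ n := by
      by_contra hcon
      push Not at hcon
      nlinarith
    have hn20' : 20 ≤ n := by exact_mod_cast hn20
    have hsqrt : (n : ℝ) / 3 ≤ Real.sqrt m := by
      apply Real.le_sqrt_of_sq_le
      nlinarith
    have hchR := choose_cast n
    have hmch : m ≤ n.choose 2 := by
      have : (m : ℝ) ≤ (n.choose 2 : ℕ) := by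
        rw [hchR, hkR]
        linarith
      exact_mod_cast this
    obtain ⟨j, hj⟩ : ∃ j, j = n.choose 2 - m := ⟨_, rfl⟩
    have hjm : n.choose 2 - j = m := by omega
    have hjR : (j : ℝ) = d * (2 * n - 1 - d) / 2 := by
      rw [hj, Nat.cast_sub hmch, hchR]
      have : 2 * (m : ℝ) = (n - d) * (n - d - 1) := by rw [← hxd]; linarith
      linarith
    rw [bound_eq, ← hx, hxd]
    have hm38 : 3 / 4 * (m : ℝ) = 3 / 8 * ((n - d) * (n - d - 1)) := by
      rw [← hxd]; linarith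
    rw [hm38]
    by_cases hcase : j + 1 ≤ hi n
    · -- the star range
      have hcaseR : (j : ℝ) + 1 ≤ (n + 1) / 2 := by
        have h1 : (j : ℝ) + 1 ≤ hi n := by exact_mod_cast hcase
        linarith [(hi_bounds n).2]
      have hd2 : d ≤ 1 / 2 := by
        by_contra hcon
        push Not at hcon
        rw [hjR] at hcaseR
        nlinarith
      have hjn : j + 1 ≤ n := by
        have : hi n ≤ n := by unfold hi; omega
        omega
      have hcard := starG_card (n := n) (j := j) hjn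
      rw [hjm] at hcard
      have h1 := (le_fMu_starG2 (n := n) (j := j) hn20' hcase).trans (le_fMuMax hcard)
      refine le_trans ?_ h1
      have h2 := poly1 (n := n) (d := d) (by linarith) hd0 hd2
      rw [← hjR] at h2
      have h3 : (n : ℝ) * (n - 2) ^ 2 / 4 ≤ fK n := by
        have hhl : (hi n : ℝ) + lo n = n := by exact_mod_cast hi_add_lo n
        unfold fK
        have e : (hi n : ℝ) * (hi n - 1) ^ 2 + (lo n : ℝ) * (lo n - 1) ^ 2 -
            ((hi n : ℝ) + lo n) * (((hi n : ℝ) + lo n) - 2) ^ 2 / 4 =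
            (3 * ((hi n : ℝ) + lo n) - 4) * ((hi n : ℝ) - lo n) ^ 2 / 4 := by ring
        rw [hhl] at e
        have : 0 ≤ (3 * (n : ℝ) - 4) * ((hi n : ℝ) - lo n) ^ 2 / 4 :=
          div_nonneg (mul_nonneg (by linarith) (sq_nonneg _)) (by norm_num)
        linarith
      have h4 : (4 * (hi n : ℝ) - 5) * j ≤ (2 * n - 3) * j :=
        mul_le_mul_of_nonneg_right (by linarith [(hi_bounds n).2]) (Nat.cast_nonneg j)
      unfold fS
      linarith
    · -- the other range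
      have hcaseR : (n : ℝ) ≤ d * (2 * n - 1 - d) := by
        have h1 : hi n ≤ j := by omega
        have h2 : (hi n : ℝ) ≤ j := by exact_mod_cast h1
        have h3 := (hi_bounds n).1
        rw [hjR] at h2
        linarith
      have hch : k.choose 2 ≤ m := by
        rw [Nat.choose_two_right]
        omega
      obtain ⟨M, G, K, hG, hK, hadj⟩ := exists_graph m k hch
      have h1 := fMu_ge G K hadj (by
        rw [hK]
        have : (2 : ℝ) ≤ k := by linarith
        exact_mod_cast this)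
      rw [hK] at h1
      have h2 := h1.trans (le_fMuMax hG)
      have h3 := poly2 (n := n) (d := d) (by linarith) hd0 hd1 hcaseR
      have h4 : (k : ℝ) = n - 1 := by linarith
      rw [h4] at h2
      linarith
  · intro n hn hodd
    have hn32 : 10 ^ 32 ≤ n := le_trans (by norm_num) hn
    have h1 := hstar n hn32 0 (by omega)
    rw [Nat.sub_zero] at h1
    have h2 : (fMuMax (n.choose 2) : ℝ) = fS n 0 := by
      rw [show (0 : ℝ) = ((0 : ℕ) : ℝ) by norm_num, ← starValue_cast, ← h1]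
      norm_cast
    rw [h2, bound_eq]
    have h3 : rt (n.choose 2) = n := by
      have h4 := rt_sq (n.choose 2)
      have h5 := rt_ge (n.choose 2)
      rw [choose_cast n] at h4
      have hnR : (1 : ℝ) ≤ n := by
        have : 1 ≤ n := le_trans (by norm_num) hn
        exact_mod_cast this
      have h6 : (rt (n.choose 2) - n) * (rt (n.choose 2) + n - 1) = 0 := by linarith
      rcases mul_eq_zero.mp h6 with h7 | h7
      · linarith
      · have : rt (n.choose 2) = n := by linarith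
        exact this
    rw [h3]
    obtain ⟨k, rfl⟩ := hodd
    unfold fS fK Phi
    rw [hi_cast_odd, lo_cast_odd]
    push_cast
    ring

end Pool.Agent.Helper96.Mu
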