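import Pool.Agent.Helper96.Mu.GStarN
import Pool.Agent.Helper96.Mu.FinalF
import Pool.Agent.Helper96.Mu.GStar2

/-!
# Values of `g_μ(m)`: exact values and sharp bounds
-/

namespace Pool.Agent.Helper96.Mu

open Finset Pool.Agent.Helper39.Mu

/-- `Ψ(m) = (m/4) √(2m + 1/4) + m/8 - (1/8) √(2m + 1/4) + 1/16`. -/
noncomputable def boundG (m : ℕ) : ℝ :=
  m / 4 * Real.sqrt (2 * m + 1 / 4) + m / 8 - 1 / 8 * Real.sqrt (2 * m + 1 / 4) + 1 / 16

/-- The value of `g_μ` at the complete graph on `n` vertices (`n` odd) minus a star with `j`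
edges: `h (h - 1)² - (4 h - 5) j + j²` with `h = (n + 1) / 2`. -/
def starValueG (n j : ℕ) : ℤ :=
  (((n + 1) / 2 : ℕ) : ℤ) * ((((n + 1) / 2 : ℕ) : ℤ) - 1) ^ 2 -
    (4 * (((n + 1) / 2 : ℕ) : ℤ) - 5) * j + (j : ℤ) ^ 2

lemma starValueG_cast (n j : ℕ) : (starValueG n j : ℝ) = gS n j := by
  unfold starValueG gS hi
  simp only [Int.cast_add, Int.cast_sub, Int.cast_mul, Int.cast_pow, Int.cast_natCast,
    Int.cast_one, Int.cast_ofNat]

lemma boundG_eq (m : ℕ) : boundG m = Psi (rt m) := by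
  have h := rt_sq m
  have h1 : Real.sqrt (2 * m + 1 / 4) = rt m - 1 / 2 := by unfold rt; ring
  have h2 : rt m ^ 2 = 2 * m + rt m := by linarith
  have h3 : rt m ^ 3 = 2 * m * rt m + 2 * m + rt m := by
    linear_combination (rt m + 1) * h2
  unfold boundG Psi
  rw [h1]
  have e : (rt m + 1) * (rt m - 1) ^ 2 / 8 = (rt m ^ 3 - rt m ^ 2 - rt m + 1) / 8 := by ring
  rw [e, h3, h2]
  ring

lemma gMu_le_fMu {V : Type*} (G : SimpleGraph V) : gMu G ≤ fMu G := by
  have hne : {x | ∃ U : Set V, x = mu (G.induce U) + mu (G.induce Uᶜ)}.Nonempty := ⟨_, ∅, rfl⟩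
  obtain ⟨U, hU⟩ := Nat.sInf_mem hne
  have h1 : fMu G = mu (G.induce U) + mu (G.induce Uᶜ) := hU
  have h2 : gMu G ≤ max (mu (G.induce U)) (mu (G.induce Uᶜ)) := Nat.sInf_le ⟨U, rfl⟩
  rw [h1]
  exact h2.trans (max_le (Nat.le_add_right _ _) (Nat.le_add_left _ _))

lemma gMu_bdd (m : ℕ) :
    BddAbove {x | ∃ (n : ℕ) (G : SimpleGraph (Fin n)), G.edgeSet.ncard = m ∧ gMu G = x} := by
  obtain ⟨b, hb⟩ := fMu_bdd m
  refine ⟨b, ?_⟩
  rintro x ⟨n, G, hG, rfl⟩
  exact (gMu_le_fMu G).trans (hb ⟨n, G, hG, rfl⟩)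

lemma le_gMuMax {m n : ℕ} {G : SimpleGraph (Fin n)} (hG : G.edgeSet.ncard = m) :
    (gMu G : ℝ) ≤ gMuMax m := by
  have : gMu G ≤ gMuMax m := le_csSup (gMu_bdd m) ⟨n, G, hG, rfl⟩
  exact_mod_cast this

lemma gMuMax_attained (m : ℕ) :
    ∃ (n : ℕ) (G : SimpleGraph (Fin n)), G.edgeSet.ncard = m ∧ gMu G = gMuMax m := by
  have hne : {x | ∃ (n : ℕ) (G : SimpleGraph (Fin n)),
      G.edgeSet.ncard = m ∧ gMu G = x}.Nonempty := by
    obtain ⟨M, G, K, hG, _, _⟩ := exists_graph m 0 (by simp)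
    exact ⟨_, M, G, hG, rfl⟩
  exact Nat.sSup_mem hne (gMu_bdd m)

/-- The lower bound given by a clique. -/
lemma gMu_ge_clique {V : Type*} [Fintype V] [DecidableEq V] (G : SimpleGraph V) (K : Finset V)
    (hK : ∀ v ∈ K, ∀ w ∈ K, v ≠ w → G.Adj v w) (hn : 1 ≤ K.card) :
    (hi K.card : ℝ) * ((hi K.card : ℝ) - 1) ^ 2 ≤ (gMu G : ℝ) := by
  have hne : {x | ∃ U : Set V, x = max (mu (G.induce U)) (mu (G.induce Uᶜ))}.Nonempty :=
    ⟨_, ∅, rfl⟩
  obtain ⟨U, hU⟩ := Nat.sInf_mem hne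
  have h1 : gMu G = max (mu (G.induce U)) (mu (G.induce Uᶜ)) := hU
  have h3 : (mu (G.induce U) : ℝ) ≤ gMu G := by rw [h1]; exact_mod_cast le_max_left _ _
  have h4 : (mu (G.induce Uᶜ) : ℝ) ≤ gMu G := by rw [h1]; exact_mod_cast le_max_right _ _
  have h5 : ((K : Set V) ∩ U).ncard + ((K : Set V) ∩ Uᶜ).ncard = K.card := by
    have := Set.ncard_inter_add_ncard_sdiff_eq_ncard (K : Set V) U (Set.toFinite _)
    rw [Set.sdiff_eq, Set.ncard_coe_finset] at this
    exact this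
  have hmono : ∀ a : ℕ, hi K.card ≤ a →
      (hi K.card : ℝ) * ((hi K.card : ℝ) - 1) ^ 2 ≤ (a : ℝ) * ((a : ℝ) - 1) ^ 2 := by
    intro a ha
    have h6 : (hi K.card : ℝ) ≤ a := by exact_mod_cast ha
    have h7 : (1 : ℝ) ≤ hi K.card := by
      have : 1 ≤ hi K.card := by unfold hi; omega
      exact_mod_cast this
    apply mul_le_mul h6 _ (sq_nonneg _) (by linarith)
    exact pow_le_pow_left₀ (by linarith) (by linarith) 2
  have h6 : hi K.card ≤ ((K : Set V) ∩ U).ncard ∨ hi K.card ≤ ((K : Set V) ∩ Uᶜ).ncard := by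
    unfold hi
    omega
  rcases h6 with h6 | h6
  · exact (hmono _ h6).trans ((mu_induce_ge G K hK U).trans h3)
  · exact (hmono _ h6).trans ((mu_induce_ge G K hK Uᶜ).trans h4)

/-- The polynomial inequality behind the lower bound in the star range. -/
lemma polyG1 {n d : ℝ} (hn : 1 ≤ n) (hd0 : 0 ≤ d) (hd : d ≤ 1 / 2) :
    Psi (n - d) - 9 / 16 * ((n - d) * (n - d - 1)) - 10 * n ≤
      Psi n - (2 * n - 3) * (d * (2 * n - 1 - d) / 2) + (d * (2 * n - 1 - d) / 2) ^ 2 := by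
  have e : Psi n - (2 * n - 3) * (d * (2 * n - 1 - d) / 2) + (d * (2 * n - 1 - d) / 2) ^ 2 -
      (Psi (n - d) - 9 / 16 * ((n - d) * (n - d - 1)) - 10 * n) =
      n ^ 2 * ((1 / 2 - d) * (9 / 8 - d)) +
      n * (10 - (3 * d ^ 2 + 2 * d) / 8 + d * (4 + d) - d ^ 2 * (1 + d) -
        9 / 16 * (2 * d + 1)) +
      ((d ^ 3 + d ^ 2 - d) / 8 - 3 / 2 * d * (1 + d) + d ^ 2 * (1 + d) ^ 2 / 4 +
        9 / 16 * (d ^ 2 + d)) := by
    unfold Psi
    ring
  have h1 : 0 ≤ n ^ 2 * ((1 / 2 - d) * (9 / 8 - d)) :=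
    mul_nonneg (sq_nonneg n) (mul_nonneg (by linarith) (by linarith))
  have d2 : d ^ 2 ≤ 1 := by nlinarith
  have d3 : d ^ 3 ≤ 1 := by nlinarith
  have d20 : 0 ≤ d ^ 2 := sq_nonneg d
  have d30 : 0 ≤ d ^ 3 := by positivity
  have h2 : 4 ≤ 10 - (3 * d ^ 2 + 2 * d) / 8 + d * (4 + d) - d ^ 2 * (1 + d) -
      9 / 16 * (2 * d + 1) := by nlinarith
  have h3 : n * 4 ≤ n * (10 - (3 * d ^ 2 + 2 * d) / 8 + d * (4 + d) - d ^ 2 * (1 + d) -
      9 / 16 * (2 * d + 1)) := mul_le_mul_of_nonneg_left h2 (by linarith)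
  have h4 : -3 ≤ (d ^ 3 + d ^ 2 - d) / 8 - 3 / 2 * d * (1 + d) + d ^ 2 * (1 + d) ^ 2 / 4 +
      9 / 16 * (d ^ 2 + d) := by
    have : 0 ≤ d ^ 2 * (1 + d) ^ 2 / 4 := by positivity
    nlinarith
  linarith

/-- The polynomial inequality behind the lower bound outside the star range. -/
lemma polyG2 {n d : ℝ} (hn : 1 ≤ n) (hd0 : 0 ≤ d) (hd : d ≤ 2) (hj : n ≤ d * (2 * n - 1 - d)) :
    Psi (n - d) - 9 / 16 * ((n - d) * (n - d - 1)) - 10 * n ≤ Psi (n - 2) := by
  have e : Psi (n - 2) - (Psi (n - d) - 9 / 16 * ((n - d) * (n - d - 1)) - 10 * n) =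
      3 / 16 * n * (d * (2 * n - 1 - d) - n) +
      n * (10 + 3 / 16 * d * (1 + d) + (16 - 3 * d ^ 2 - 2 * d) / 8 - 9 / 16 * (2 * d + 1)) +
      ((d ^ 3 + d ^ 2 - d - 10) / 8 + 9 / 16 * (d ^ 2 + d)) := by
    unfold Psi
    ring
  have h1 : 0 ≤ 3 / 16 * n * (d * (2 * n - 1 - d) - n) :=
    mul_nonneg (by linarith) (by linarith)
  have d2 : d ^ 2 ≤ 4 := by nlinarith
  have d20 : 0 ≤ d ^ 2 := sq_nonneg d
  have d30 : 0 ≤ d ^ 3 := by positivity
  have h2 : 2 ≤ 10 + 3 / 16 * d * (1 + d) + (16 - 3 * d ^ 2 - 2 * d) / 8 -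
      9 / 16 * (2 * d + 1) := by nlinarith
  have h3 : n * 2 ≤ n * (10 + 3 / 16 * d * (1 + d) + (16 - 3 * d ^ 2 - 2 * d) / 8 -
      9 / 16 * (2 * d + 1)) := mul_le_mul_of_nonneg_left h2 (by linarith)
  nlinarith

lemma exists_odd (m : ℕ) : ∃ k : ℕ, k * (2 * k + 1) ≤ m ∧ m < (k + 1) * (2 * k + 3) := by
  induction m with
  | zero => exact ⟨0, by simp⟩
  | succ m ih =>
    obtain ⟨k, h1, h2⟩ := ih
    by_cases h : m + 1 < (k + 1) * (2 * k + 3)
    · exact ⟨k, by omega, h⟩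
    · refine ⟨k + 1, ?_, ?_⟩
      · have : (k + 1) * (2 * (k + 1) + 1) = (k + 1) * (2 * k + 3) := by ring
        omega
      · have : (k + 1 + 1) * (2 * (k + 1) + 3) = (k + 1) * (2 * k + 3) + (4 * k + 7) := by ring
        omega

/-- Main theorem for the maximum version. -/
theorem mainG :
    (∀ m : ℕ, BddAbove {x | ∃ (n : ℕ) (G : SimpleGraph (Fin n)),
      G.edgeSet.ncard = m ∧ gMu G = x}) ∧
    ∃ n₀ : ℕ,
      (∀ n ≥ n₀, Odd n → ∀ j : ℕ, 30 * j ≤ n →
        (gMuMax (n.choose 2 - j) : ℤ) = starValueG n j) ∧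
      (∀ m ≥ n₀, boundG m - 9 / 8 * m - 30 * Real.sqrt m ≤ (gMuMax m : ℝ) ∧
        (gMuMax m : ℝ) ≤ boundG m) ∧
      (∀ n ≥ n₀, Odd n → (gMuMax (n.choose 2) : ℝ) = boundG (n.choose 2)) := by
  have hstar : ∀ n ≥ 10 ^ 301, Odd n → ∀ j : ℕ, 30 * j ≤ n →
        (gMuMax (n.choose 2 - j) : ℤ) = starValueG n j := by
    intro n hn hodd j hj
    have hn32 : 10 ^ 32 ≤ n := (Nat.pow_le_pow_right (by norm_num) (by norm_num)).trans hn
    have hn1 : 1 ≤ n := le_trans (by norm_num) hn32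
    have hnR : (10 : ℝ) ^ 32 ≤ n := by exact_mod_cast hn32
    have hjR : 30 * (j : ℝ) ≤ n := by exact_mod_cast hj
    have hchR := choose_cast n
    have hjc : j ≤ n.choose 2 := by
      have : (j : ℝ) ≤ (n.choose 2 : ℕ) := by
        rw [hchR]
        nlinarith
      exact_mod_cast this
    have key : (gMuMax (n.choose 2 - j) : ℝ) = gS n j := by
      apply le_antisymm
      · obtain ⟨M, G, hG, hx⟩ := gMuMax_attained (n.choose 2 - j)
        rw [← hx]
        have ht := tot_eq hG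
        have hpos : (0 : ℝ) < 2 * ((n.choose 2 - j : ℕ) : ℝ) := by
          rw [Nat.cast_sub hjc, hchR]
          nlinarith
        refine upper_starG G hodd hn hj (Real.sqrt_pos.mpr hpos) ht ?_
        rw [Real.sq_sqrt hpos.le, Nat.cast_sub hjc, hchR]
        ring
      · have hcard := starG_card (n := n) (j := j) (by omega)
        have h20 : 20 ≤ n := le_trans (by norm_num) hn32
        refine le_trans (le_gMu_starG2 (n := n) (j := j) h20 ?_ hodd) (le_gMuMax hcard)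
        unfold hi
        omega
    rw [← starValueG_cast] at key
    exact_mod_cast key
  have hupper : ∀ m ≥ 10 ^ 600, (gMuMax m : ℝ) ≤ boundG m := by
    intro m hm
    have hmR : (10 : ℝ) ^ 600 ≤ m := by exact_mod_cast hm
    obtain ⟨M, G, hG, hx⟩ := gMuMax_attained m
    rw [← hx, boundG_eq]
    have ht := tot_eq hG
    refine upper_allG G (N := Real.sqrt (2 * m)) ?_ ht (rt_ge m) ?_
    · apply Real.le_sqrt_of_sq_le
      rw [← pow_mul]
      exact hmR.trans (le_mul_of_one_le_left (Nat.cast_nonneg m) (by norm_num))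
    · rw [rt_sq, Real.sq_sqrt (by positivity)]
  refine ⟨gMu_bdd, 10 ^ 600, ?_, ?_, ?_⟩
  · intro n hn hodd j hj
    exact hstar n ((Nat.pow_le_pow_right (by norm_num) (by norm_num)).trans hn) hodd j hj
  · intro m hm
    refine ⟨?_, hupper m hm⟩
    have hm64 : 10 ^ 64 ≤ m := (Nat.pow_le_pow_right (by norm_num) (by norm_num)).trans hm
    have hmR : (10 : ℝ) ^ 64 ≤ m := by exact_mod_cast hm64
    clear hm hupper hstar
    obtain ⟨i, hi1, hi2⟩ := exists_odd m
    obtain ⟨k, hk⟩ : ∃ k, k = 2 * i + 1 := ⟨_, rfl⟩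
    obtain ⟨n, hn⟩ : ∃ n, n = k + 2 := ⟨_, rfl⟩
    have hodd : Odd n := ⟨i + 1, by omega⟩
    have hkR : (n : ℝ) = k + 2 := by rw [hn]; push_cast; ring
    have hkiR : (k : ℝ) = 2 * i + 1 := by rw [hk]; push_cast; ring
    have hi0R : (0 : ℝ) ≤ i := Nat.cast_nonneg i
    have hk1' : (k : ℝ) * (k - 1) ≤ 2 * m := by
      have : ((i * (2 * i + 1) : ℕ) : ℝ) ≤ (m : ℝ) := by exact_mod_cast hi1
      push_cast at this
      rw [hkiR]
      linarith
    have hk2' : 2 * (m : ℝ) < (k + 2) * (k + 1) := by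
      have : (m : ℝ) < (((i + 1) * (2 * i + 3) : ℕ) : ℝ) := by exact_mod_cast hi2
      push_cast at this
      rw [hkiR]
      linarith
    obtain ⟨x, hx⟩ : ∃ x, x = rt m := ⟨_, rfl⟩
    have hxm := rt_sq m
    have hx1 := rt_ge m
    rw [← hx] at hxm hx1
    have hkx : (k : ℝ) ≤ x := by
      by_contra hcon
      push Not at hcon
      nlinarith
    have hxk : x < k + 2 := by
      by_contra hcon
      push Not at hcon
      have : (0 : ℝ) ≤ k := Nat.cast_nonneg k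
      nlinarith
    obtain ⟨d, hd⟩ : ∃ d, d = (n : ℝ) - x := ⟨_, rfl⟩
    have hd0 : 0 ≤ d := by rw [hd, hkR]; linarith
    have hd1 : d ≤ 2 := by rw [hd, hkR]; linarith
    have hxd : x = n - d := by rw [hd]; ring
    have hn20 : (20 : ℝ) ≤ n := by
      by_contra hcon
      push Not at hcon
      nlinarith
    have hn20' : 20 ≤ n := by exact_mod_cast hn20
    have hsqrt : (n : ℝ) / 3 ≤ Real.sqrt m := by
      apply Real.le_sqrt_of_sq_le
      nlinarith
    have hchR := choose_cast n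
    have hmch : m ≤ n.choose 2 := by
      have : (m : ℝ) ≤ (n.choose 2 : ℕ) := by
        rw [hchR, hkR]
        linarith
      exact_mod_cast this
    obtain ⟨j, hj⟩ : ∃ j, j = n.choose 2 - m := ⟨_, rfl⟩
    have hjm : n.choose 2 - j = m := by omega
    have hjR : (j : ℝ) = d * (2 * n - 1 - d) / 2 := by
      rw [hj, Nat.cast_sub hmch, hchR]
      have : 2 * (m : ℝ) = (n - d) * (n - d - 1) := by rw [← hxd]; linarith
      linarith
    rw [boundG_eq, ← hx, hxd]
    have hm38 : 9 / 8 * (m : ℝ) = 9 / 16 * ((n - d) * (n - d - 1)) := by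
      rw [← hxd]; linarith
    rw [hm38]
    obtain ⟨hho, hlo, -⟩ := gS_odd hodd 0
    by_cases hcase : j + 1 ≤ hi n
    · -- the star range
      have hcaseR : (j : ℝ) + 1 ≤ (n + 1) / 2 := by
        have h1 : (j : ℝ) + 1 ≤ hi n := by exact_mod_cast hcase
        linarith
      have hd2 : d ≤ 1 / 2 := by
        by_contra hcon
        push Not at hcon
        rw [hjR] at hcaseR
        nlinarith
      have hjn : j + 1 ≤ n := by
        have : hi n ≤ n := by unfold hi; omega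
        omega
      have hcard := starG_card (n := n) (j := j) hjn
      rw [hjm] at hcard
      have h1 := (le_gMu_starG2 (n := n) (j := j) hn20' hcase hodd).trans (le_gMuMax hcard)
      refine le_trans ?_ h1
      have h2 := polyG1 (n := n) (d := d) (by linarith) hd0 hd2
      rw [← hjR] at h2
      rw [hho]
      have e : ((n : ℝ) + 1) / 2 * (((n : ℝ) + 1) / 2 - 1) ^ 2 -
          (4 * (((n : ℝ) + 1) / 2) - 5) * j + (j : ℝ) ^ 2 =
          Psi n - (2 * n - 3) * j + (j : ℝ) ^ 2 := by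
        unfold Psi
        ring
      rw [e]
      linarith
    · -- the other range
      have hcaseR : (n : ℝ) ≤ d * (2 * n - 1 - d) := by
        have h1 : hi n ≤ j := by omega
        have h2 : (hi n : ℝ) ≤ j := by exact_mod_cast h1
        rw [hjR, hho] at h2
        linarith
      have hch : k.choose 2 ≤ m := by
        have : k.choose 2 = i * (2 * i + 1) := by
          rw [hk, Nat.choose_two_right]
          have : (2 * i + 1) * (2 * i + 1 - 1) = 2 * (i * (2 * i + 1)) := by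
            rw [Nat.add_sub_cancel]
            ring
          rw [this]
          exact Nat.mul_div_cancel_left _ (by norm_num)
        omega
      obtain ⟨M, G, K, hG, hK, hadj⟩ := exists_graph m k hch
      have h1 := gMu_ge_clique G K hadj (by rw [hK]; omega)
      rw [hK] at h1
      have h2 := h1.trans (le_gMuMax hG)
      have h3 := polyG2 (n := n) (d := d) (by linarith) hd0 hd1 hcaseR
      have h4 : (hi k : ℝ) * ((hi k : ℝ) - 1) ^ 2 = Psi (n - 2) := by
        have h5 : (hi k : ℝ) = i + 1 := by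
          rw [hk, hi_cast_odd]
          push_cast
          ring
        have h6 : (n : ℝ) = 2 * i + 3 := by linarith
        rw [h5, h6]
        unfold Psi
        ring
      rw [h4] at h2
      linarith
  · intro n hn hodd
    have hn301 : 10 ^ 301 ≤ n := (Nat.pow_le_pow_right (by norm_num) (by norm_num)).trans hn
    have hn1 : 1 ≤ n := (Nat.one_le_pow _ _ (by norm_num)).trans hn
    have h1 := hstar n hn301 hodd 0 (by omega)
    clear hn hn301 hstar hupper
    rw [Nat.sub_zero] at h1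
    have h2 : (gMuMax (n.choose 2) : ℝ) = gS n 0 := by
      rw [show (0 : ℝ) = ((0 : ℕ) : ℝ) by norm_num, ← starValueG_cast, ← h1]
      norm_cast
    rw [h2, boundG_eq]
    have h3 : rt (n.choose 2) = n := by
      have h4 := rt_sq (n.choose 2)
      have h5 := rt_ge (n.choose 2)
      rw [choose_cast n] at h4
      have hnR : (1 : ℝ) ≤ n := by exact_mod_cast hn1
      have h6 : (rt (n.choose 2) - n) * (rt (n.choose 2) + n - 1) = 0 := by linarith
      rcases mul_eq_zero.mp h6 with h7 | h7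
      · linarith
      · linarith
    rw [h3]
    obtain ⟨k, rfl⟩ := hodd
    unfold gS Psi
    rw [hi_cast_odd]
    push_cast
    ring

end Pool.Agent.Helper96.Mu
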