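import Pool.Agent.Helper96.Mu.Avg

/-!
# The averaging bound: existence of a good balanced half
-/

namespace Pool.Agent.Helper96.Mu

open Finset Pool.Agent.Helper39.Mu

set_option linter.unusedSectionVars false

section Graph

variable {V : Type*} [Fintype V] [DecidableEq V] (G : SimpleGraph V)

/-- The average cost of the partitions `S ∪ H`, `(B \ S) ∪ L`. -/
noncomputable def avgE (B H L : Finset V) : ℝ :=
  ∑ v ∈ B, (2 * (dg G B v * rho2 B.card + dg G B v * (dg G B v - 1) * rho3 B.card) +
        2 * rho2 B.card * dg G B v * (dg G H v + dg G L v) +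
        (dg G H v ^ 2 + dg G L v ^ 2) / 2) +
      ∑ h ∈ H, (dg G B h / 2 + dg G B h * (dg G B h - 1) * rho2 B.card +
        dg G B h * dg G H h + dg G H h ^ 2) +
      ∑ l ∈ L, (dg G B l / 2 + dg G B l * (dg G B l - 1) * rho2 B.card +
        dg G B l * dg G L l + dg G L l ^ 2)

theorem avg_of {B H L : Finset V} (h2 : Disjoint B H)
    (h3 : Disjoint B L) (h5 : 3 ≤ B.card) {T : ℝ}
    (hS : ∀ S, S ⊆ B → (S.card = hi B.card ∨ S.card = lo B.card) →
      T ≤ sq G (S ∪ H) + sq G ((B \ S) ∪ L)) :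
    T ≤ avgE G B H L := by
  unfold avgE
  -- sum over all splits of a given size
  have hsum : ∀ k l : ℕ, k + l = B.card → (k = hi B.card ∨ k = lo B.card) →
      (B.card.choose k : ℝ) * T ≤
      ∑ S ∈ B.powersetCard k, sq G (S ∪ H) + ∑ S ∈ B.powersetCard l, sq G (S ∪ L) := by
    intro k l hkl hk
    rw [← sum_compl hkl (fun S => sq G (S ∪ L)), ← Finset.sum_add_distrib]
    calc (B.card.choose k : ℝ) * T = ∑ S ∈ B.powersetCard k, T := by
          rw [Finset.sum_const, Finset.card_powersetCard, nsmul_eq_mul]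
      _ ≤ _ := Finset.sum_le_sum fun S hS' => hS S (Finset.mem_powersetCard.mp hS').1
          (by rw [(Finset.mem_powersetCard.mp hS').2]; exact hk)
  have hlh := lo_add_hi B.card
  have ha := hsum (hi B.card) (lo B.card) (by omega) (Or.inl rfl)
  have hb := hsum (lo B.card) (hi B.card) (by omega) (Or.inr rfl)
  have hch : B.card.choose (lo B.card) = B.card.choose (hi B.card) := by
    apply Nat.choose_symm_of_eq_add
    omega
  rw [sum_sq_union G h2, sum_sq_union G h3] at ha hb
  rw [hch] at ha hb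
  have hpos : (0 : ℝ) < (B.card.choose (hi B.card) : ℝ) := by
    exact_mod_cast Nat.choose_pos (by omega)
  rw [← mul_add] at ha hb
  have ha' := le_of_mul_le_mul_left ha hpos
  have hb' := le_of_mul_le_mul_left hb hpos
  have hp1 := pr1 h5
  have hp2 := pr2 h5
  have hp3 := pr3 h5
  have e1 : ∑ v ∈ B, (dg G B v * pr B.card (hi B.card) 2 +
        dg G B v * (dg G B v - 1) * pr B.card (hi B.card) 3 +
        2 * dg G H v * (dg G B v * pr B.card (hi B.card) 2) +
        dg G H v ^ 2 * pr B.card (hi B.card) 1) +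
      ∑ v ∈ B, (dg G B v * pr B.card (lo B.card) 2 +
        dg G B v * (dg G B v - 1) * pr B.card (lo B.card) 3 +
        2 * dg G L v * (dg G B v * pr B.card (lo B.card) 2) +
        dg G L v ^ 2 * pr B.card (lo B.card) 1) +
      (∑ v ∈ B, (dg G B v * pr B.card (lo B.card) 2 +
        dg G B v * (dg G B v - 1) * pr B.card (lo B.card) 3 +
        2 * dg G H v * (dg G B v * pr B.card (lo B.card) 2) +
        dg G H v ^ 2 * pr B.card (lo B.card) 1) +
      ∑ v ∈ B, (dg G B v * pr B.card (hi B.card) 2 +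
        dg G B v * (dg G B v - 1) * pr B.card (hi B.card) 3 +
        2 * dg G L v * (dg G B v * pr B.card (hi B.card) 2) +
        dg G L v ^ 2 * pr B.card (hi B.card) 1)) =
      2 * ∑ v ∈ B, (2 * (dg G B v * rho2 B.card + dg G B v * (dg G B v - 1) * rho3 B.card) +
        2 * rho2 B.card * dg G B v * (dg G H v + dg G L v) +
        (dg G H v ^ 2 + dg G L v ^ 2) / 2) := by
    rw [← Finset.sum_add_distrib, ← Finset.sum_add_distrib, ← Finset.sum_add_distrib,
      Finset.mul_sum]
    refine Finset.sum_congr rfl fun v _ => ?_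
    linear_combination (2 * dg G B v + 2 * dg G H v * dg G B v + 2 * dg G L v * dg G B v) * hp2 +
      2 * (dg G B v * (dg G B v - 1)) * hp3 + (dg G H v ^ 2 + dg G L v ^ 2) * hp1
  have e2' : ∀ K : Finset V, ∑ v ∈ K, (dg G B v * pr B.card (hi B.card) 1 +
        dg G B v * (dg G B v - 1) * pr B.card (hi B.card) 2 +
        2 * dg G K v * (dg G B v * pr B.card (hi B.card) 1) + dg G K v ^ 2) +
      ∑ v ∈ K, (dg G B v * pr B.card (lo B.card) 1 +
        dg G B v * (dg G B v - 1) * pr B.card (lo B.card) 2 +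
        2 * dg G K v * (dg G B v * pr B.card (lo B.card) 1) + dg G K v ^ 2) =
      2 * ∑ h ∈ K, (dg G B h / 2 + dg G B h * (dg G B h - 1) * rho2 B.card +
        dg G B h * dg G K h + dg G K h ^ 2) := by
    intro K
    rw [← Finset.sum_add_distrib, Finset.mul_sum]
    refine Finset.sum_congr rfl fun v _ => ?_
    linear_combination (dg G B v + 2 * dg G K v * dg G B v) * hp1 +
      (dg G B v * (dg G B v - 1)) * hp2
  have e2 := e2' H
  have e3 := e2' L
  linarith


/-- Some balanced half has cost at most the average. -/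
theorem exists_half {B H L : Finset V} (h2 : Disjoint B H)
    (h3 : Disjoint B L) (h5 : 3 ≤ B.card) :
    ∃ S, S ⊆ B ∧ (S.card = hi B.card ∨ S.card = lo B.card) ∧
      sq G (S ∪ H) + sq G ((B \ S) ∪ L) ≤ avgE G B H L := by
  classical
  obtain ⟨F, hF⟩ : ∃ F : Finset (Finset V),
      F = B.powerset.filter (fun S => S.card = hi B.card ∨ S.card = lo B.card) := ⟨_, rfl⟩
  have hne : F.Nonempty := by
    obtain ⟨S, hS1, hS2⟩ := Finset.exists_subset_card_eq (s := B) (n := lo B.card)
      (by unfold lo; omega)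
    refine ⟨S, ?_⟩
    rw [hF, Finset.mem_filter, Finset.mem_powerset]
    exact ⟨hS1, Or.inr hS2⟩
  obtain ⟨S, hS, hmin⟩ := Finset.exists_min_image F
    (fun S => sq G (S ∪ H) + sq G ((B \ S) ∪ L)) hne
  rw [hF, Finset.mem_filter, Finset.mem_powerset] at hS
  refine ⟨S, hS.1, hS.2, ?_⟩
  refine avg_of G h2 h3 h5 fun S' hS'1 hS'2 => hmin S' ?_
  rw [hF, Finset.mem_filter, Finset.mem_powerset]
  exact ⟨hS'1, hS'2⟩

end Graph

end Pool.Agent.Helper96.Mu
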