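import Mathlib
import Pool.Agent.Helper96.Mu.Base

/-!
# The maximum version: definitions
-/

namespace Pool.Agent.Helper96.Mu

open Finset Pool.Agent.Helper39.Mu

set_option linter.unusedSectionVars false

/-- `γ(u)`: the cost (divided by the degree) of a vertex `x = u / t` with `π = t`. -/
noncomputable def ga (t u : ℝ) : ℝ := (1 - u) * (u - t ^ 2) ^ 2 / u + (1 - t) * t ^ 3

/-- The cost (divided by the degree) of a vertex `x = u / t ≤ 1 / t` with `π = b x`. -/
noncomputable def cc (t u b : ℝ) : ℝ :=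
  u * (1 - u) * (1 - b) ^ 2 + (1 - t) / t * (u ^ 2 * b ^ 2)

noncomputable def Bt (t : ℝ) : ℝ := (1 / 4 - t * (1 - t) * (1 - 2 * t + 2 * t ^ 2)) / t

noncomputable def be0 (t : ℝ) : ℝ := (1 / 4 - t * (1 - t) * (2 - 3 * t + 2 * t ^ 2)) / t ^ 2

/-- Slope at a vertex `x ≥ 1`. -/
noncomputable def Bf (t x : ℝ) : ℝ :=
  x / (4 * t) - (1 - min 1 (t * x)) * (x - t) ^ 2 - (1 - t) * min 1 (t * x) * t

section Graph

variable {V : Type*} [Fintype V] [DecidableEq V] (G : SimpleGraph V)

/-- The biased probabilities `min (1, t d(v) / N)`. -/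
noncomputable def qt (N t : ℝ) (v : V) : ℝ := min 1 (t * (deg G v / N))

noncomputable def FX0 (q : V → ℝ) : ℝ := ∑ v, q v * avg G q v ^ 2

noncomputable def FY0 (q : V → ℝ) : ℝ := ∑ v, (1 - q v) * (deg G v - avg G q v) ^ 2

end Graph

/-- The upper bound for `g_μ` as a function of `n`, where `m = n (n - 1) / 2`. -/
noncomputable def Psi (n : ℝ) : ℝ := (n + 1) * (n - 1) ^ 2 / 8

end Pool.Agent.Helper96.Mu
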