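import Mathlib
import Pool.Agent.Helper96.Mu.GBase

/-!
# Polynomial inequalities for the certificate, part A
-/

namespace Pool.Agent.Helper96.Mu

private theorem small_aux {u v : ℝ} (hu : u ≤ 1 / 2) (hv : v ≤ 1 / 2) (hu0 : 0 ≤ u)
    (hv0 : 0 ≤ v) :
    (1 - u) * (1 - v) * (u + v - 2 * u * v) + 2 * (u ^ 2 * v ^ 2) ≤ 1 / 4 := by
  obtain ⟨a, ha⟩ : ∃ a, a = 1 - 2 * u := ⟨_, rfl⟩
  obtain ⟨b, hb⟩ : ∃ b, b = 1 - 2 * v := ⟨_, rfl⟩
  have ha0 : 0 ≤ a := by linarith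
  have hb0 : 0 ≤ b := by linarith
  have ha1 : a ≤ 1 := by linarith
  have hb1 : b ≤ 1 := by linarith
  have hu' : u = (1 - a) / 2 := by linarith
  have hv' : v = (1 - b) / 2 := by linarith
  have key : 0 ≤ (a + b) - (a + b) ^ 2 - (a * b) * (2 - 3 * (a + b)) := by
    have hp0 : 0 ≤ a * b := mul_nonneg ha0 hb0
    have hp1 : a * b ≤ (a + b) ^ 2 / 4 := by nlinarith [sq_nonneg (a - b)]
    have hp2 : a + b - 1 ≤ a * b := by nlinarith [mul_nonneg (sub_nonneg.2 ha1) (sub_nonneg.2 hb1)]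
    rcases le_total (2 - 3 * (a + b)) 0 with h | h
    · rcases le_total (a + b) 1 with h1 | h1
      · have : 0 ≤ (a * b) * (3 * (a + b) - 2) := mul_nonneg hp0 (by linarith)
        nlinarith [mul_nonneg (add_nonneg ha0 hb0) (sub_nonneg.2 h1)]
      · have : (a + b - 1) * (3 * (a + b) - 2) ≤ (a * b) * (3 * (a + b) - 2) :=
          mul_le_mul_of_nonneg_right hp2 (by linarith)
        nlinarith [sq_nonneg (a + b - 1)]
    · have h1 : (a * b) * (2 - 3 * (a + b)) ≤ (a + b) ^ 2 / 4 * (2 - 3 * (a + b)) :=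
        mul_le_mul_of_nonneg_right hp1 h
      have h2 : 0 ≤ (a + b) * (1 - 3 * (a + b) / 2 + 3 * (a + b) ^ 2 / 4) := by
        apply mul_nonneg (add_nonneg ha0 hb0)
        nlinarith [sq_nonneg (a + b - 1)]
      nlinarith [h1, h2]
  have e : 1 / 4 - ((1 - u) * (1 - v) * (u + v - 2 * u * v) + 2 * (u ^ 2 * v ^ 2)) =
      ((a + b) - (a + b) ^ 2 - (a * b) * (2 - 3 * (a + b))) / 8 := by
    rw [hu', hv']; ring
  linarith

private theorem pair_aux {ρ u v : ℝ} (hρ1 : ρ ≤ 1) (hρu : ρ * u ≤ 1 - u)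
    (hu0 : 0 ≤ u) (hu1 : u ≤ 1) (hv0 : 0 ≤ v) (hvu : v ≤ u) :
    (1 - u) * (1 - v) * (u + v - 2 * u * v) + 2 * (ρ * (u ^ 2 * v ^ 2)) ≤ 1 / 4 := by
  rcases le_total u (1 / 2) with h | h
  · have h1 := small_aux h (by linarith) hu0 hv0
    have h2 : ρ * (u ^ 2 * v ^ 2) ≤ 1 * (u ^ 2 * v ^ 2) :=
      mul_le_mul_of_nonneg_right hρ1 (by positivity)
    linarith
  · have h1 : ρ * u * (u * v ^ 2) ≤ (1 - u) * (u * v ^ 2) :=
      mul_le_mul_of_nonneg_right hρu (by positivity)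
    have h2 : (1 - u) * ((1 - v) * (u + v - 2 * u * v) + 2 * (u * v ^ 2)) ≤ 1 / 4 := by
      have hf : (1 - v) * (u + v - 2 * u * v) + 2 * (u * v ^ 2) =
        u + v * ((1 - 3 * u) + v * (4 * u - 1)) := by ring
      rw [hf]
      have hb : v * ((1 - 3 * u) + v * (4 * u - 1)) ≤ v * ((1 - 3 * u) + u * (4 * u - 1)) := by
        apply mul_le_mul_of_nonneg_left _ hv0
        have : v * (4 * u - 1) ≤ u * (4 * u - 1) := mul_le_mul_of_nonneg_right hvu (by linarith)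
        linarith
      have hc : (1 - 3 * u) + u * (4 * u - 1) = (1 - 2 * u) ^ 2 := by ring
      have hd : v * (1 - 2 * u) ^ 2 ≤ u * (1 - 2 * u) ^ 2 :=
        mul_le_mul_of_nonneg_right hvu (sq_nonneg _)
      rw [hc] at hb
      have he : (1 - u) * (u + v * ((1 - 3 * u) + v * (4 * u - 1))) ≤
          (1 - u) * (u + u * (1 - 2 * u) ^ 2) :=
        mul_le_mul_of_nonneg_left (by linarith) (by linarith)
      have hg : 1 / 4 - (1 - u) * (u + u * (1 - 2 * u) ^ 2) = (1 / 2 - 2 * (u * (1 - u))) ^ 2 := by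
        ring
      nlinarith [sq_nonneg (1 / 2 - 2 * (u * (1 - u)))]
    nlinarith [h1, h2]

theorem pair_TT {t u v : ℝ} (ht : 1 / 2 ≤ t) (ht1 : t ≤ 1) (hu0 : 0 ≤ u) (hu : u ≤ t)
    (hv0 : 0 ≤ v) (hv : v ≤ t) : cc t u v + cc t v u ≤ 1 / 4 := by
  have htp : 0 < t := by linarith
  have hρ0 : 0 ≤ (1 - t) / t := div_nonneg (by linarith) htp.le
  have hρ1 : (1 - t) / t ≤ 1 := by
    rw [div_le_one htp]; linarith
  have hρt : (1 - t) / t * t = 1 - t := by field_simp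
  have hρu : (1 - t) / t * u ≤ 1 - u := by
    have : (1 - t) / t * u ≤ (1 - t) / t * t := mul_le_mul_of_nonneg_left hu hρ0
    linarith
  have hρv : (1 - t) / t * v ≤ 1 - v := by
    have : (1 - t) / t * v ≤ (1 - t) / t * t := mul_le_mul_of_nonneg_left hv hρ0
    linarith
  rcases le_total v u with h | h
  · have := pair_aux hρ1 hρu hu0 (by linarith) hv0 h
    unfold cc
    linarith [this]
  · have := pair_aux hρ1 hρv hv0 (by linarith) hu0 h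
    unfold cc
    linarith [this]

private theorem s_aux {t : ℝ} (ht : 1 / 2 ≤ t) (ht1 : t ≤ 1) :
    0 ≤ 1 / 4 - t * (1 - t) * (2 - 3 * t + 2 * t ^ 2) := by
  have e : 1 / 4 - t * (1 - t) * (2 - 3 * t + 2 * t ^ 2) =
      (1 / 4) * ((2 * t - 1) ^ 2 + (1 - (2 * t - 1) ^ 2) * (2 * t - 1) * (1 - t)) := by ring
  rw [e]
  have h1 : 0 ≤ (1 - (2 * t - 1) ^ 2) := by nlinarith
  have h2 : 0 ≤ (1 - (2 * t - 1) ^ 2) * (2 * t - 1) * (1 - t) :=
    mul_nonneg (mul_nonneg h1 (by linarith)) (by linarith)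
  nlinarith [sq_nonneg (2 * t - 1)]

theorem be0_nonneg {t : ℝ} (ht : 1 / 2 ≤ t) (ht1 : t ≤ 1) : 0 ≤ be0 t := by
  unfold be0
  exact div_nonneg (s_aux ht ht1) (sq_nonneg _)

theorem Bt_ge {t : ℝ} (ht : 1 / 2 ≤ t) (ht1 : t ≤ 1) : 1 / 4 ≤ 2 * (t * Bt t) ∧
    (1 - t) ^ 2 ≤ Bt t := by
  have htp : 0 < t := by linarith
  have e : t * Bt t = 1 / 4 - t * (1 - t) * (1 - 2 * t + 2 * t ^ 2) := by
    unfold Bt; field_simp
  constructor
  · rw [e]
    nlinarith [sq_nonneg (1 / 2 - 2 * (t * (1 - t)))]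
  · unfold Bt
    rw [le_div_iff₀ htp]
    nlinarith [s_aux ht ht1]

private theorem SL_id {t u : ℝ} (htp : 0 < t) (hup : 0 < u) :
    u * Bt t + be0 t * t * (t - u) - ga t u =
      4 * (t - 1 / 2) ^ 4 + (u - t) ^ 2 * (u - t ^ 2) / u := by
  unfold Bt be0 ga
  field_simp
  ring

/-- `γ(u) + u β (v - t²/u) ≤ u (B + β (v - t))` for `t² ≤ u ≤ t` and every `v`. -/
theorem pair_SL {t u : ℝ} (v : ℝ) (ht : 1 / 2 ≤ t) (ht1 : t ≤ 1) (hu0 : t ^ 2 ≤ u) (hu : u ≤ t) :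
    ga t u + be0 t * u * (v - t ^ 2 / u) ≤ u * (Bt t + be0 t * (v - t)) := by
  have htp : 0 < t := by linarith
  have hup : 0 < u := lt_of_lt_of_le (by positivity) hu0
  have e1 : u * (t ^ 2 / u) = t ^ 2 := by field_simp
  have e2 : u * (Bt t + be0 t * (v - t)) - (ga t u + be0 t * u * (v - t ^ 2 / u)) =
      u * Bt t + be0 t * t * (t - u) - ga t u + be0 t * (u * (t ^ 2 / u) - t ^ 2) := by ring
  rw [e1, SL_id htp hup] at e2
  have h1 : 0 ≤ (u - t) ^ 2 * (u - t ^ 2) / u :=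
    div_nonneg (mul_nonneg (sq_nonneg _) (by linarith)) hup.le
  have h2 : 0 ≤ 4 * (t - 1 / 2) ^ 4 := by positivity
  linarith

theorem pair_TL {t u v : ℝ} (ht : 1 / 2 ≤ t) (ht1 : t ≤ 1) (hu0 : 0 ≤ u) (hu : u ≤ t)
    (hv0 : t ≤ v) (hv : v ≤ 1) (huv : u * v ≤ t ^ 2) :
    cc t u v ≤ u * (Bt t + be0 t * (v - t)) := by
  have htp : 0 < t := by linarith
  have hvp : 0 < v := by linarith
  obtain ⟨w, hw⟩ : ∃ w, w = t ^ 2 / v := ⟨_, rfl⟩
  have hwv : w * v = t ^ 2 := by rw [hw]; field_simp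
  have hwp : 0 < w := by rw [hw]; positivity
  have hw1 : t ^ 2 ≤ w := by nlinarith
  have hw2 : w ≤ t := by
    have : w * v ≤ t * v := by rw [hwv]; nlinarith
    exact le_of_mul_le_mul_right this hvp
  have huw : u ≤ w := le_of_mul_le_mul_right (by rw [hwv]; exact huv) hvp
  have hSL := pair_SL v ht ht1 hw1 hw2
  have e1 : t ^ 2 / w = v := by
    rw [← hwv]; field_simp
  rw [e1, sub_self, mul_zero, add_zero] at hSL
  obtain ⟨l, hl⟩ : ∃ l, l = Bt t + be0 t * (v - t) := ⟨_, rfl⟩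
  rw [← hl] at hSL ⊢
  obtain ⟨ρ, hρ⟩ : ∃ ρ, ρ = (1 - t) / t := ⟨_, rfl⟩
  have hρt : ρ * t = 1 - t := by rw [hρ]; field_simp
  have hga : ga t w = w * ((1 - w) * (1 - v) ^ 2 + ρ * (w * v ^ 2)) := by
    have h1 : (w - t ^ 2) ^ 2 / w = w * (1 - v) ^ 2 := by
      rw [← hwv]; field_simp
    have h2 : (1 - t) * t ^ 3 = ρ * (w ^ 2 * v ^ 2) := by
      have : w ^ 2 * v ^ 2 = t ^ 4 := by
        have : w ^ 2 * v ^ 2 = (w * v) ^ 2 := by ring
        rw [this, hwv]; ring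
      rw [this, ← hρt]; ring
    unfold ga
    rw [mul_div_assoc, h1, h2]; ring
  rw [hga] at hSL
  have h3 : (1 - w) * (1 - v) ^ 2 + ρ * (w * v ^ 2) ≤ l := le_of_mul_le_mul_left hSL hwp
  have h4 : (1 - v) ^ 2 ≤ l := by
    have h5 := (Bt_ge ht ht1).2
    have h6 := mul_nonneg (be0_nonneg ht ht1) (sub_nonneg.2 hv0)
    have h7 : (1 - v) ^ 2 ≤ (1 - t) ^ 2 := by nlinarith
    rw [hl]; linarith
  have h8 : (1 - u) * (1 - v) ^ 2 + ρ * (u * v ^ 2) ≤ l := by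
    have e2 : w * ((1 - u) * (1 - v) ^ 2 + ρ * (u * v ^ 2)) =
        (w - u) * (1 - v) ^ 2 + u * ((1 - w) * (1 - v) ^ 2 + ρ * (w * v ^ 2)) := by ring
    have h9 := mul_le_mul_of_nonneg_left h4 (sub_nonneg.2 huw)
    have h10 := mul_le_mul_of_nonneg_left h3 hu0
    have h11 : w * ((1 - u) * (1 - v) ^ 2 + ρ * (u * v ^ 2)) ≤ w * l := by
      rw [e2]; linarith
    exact le_of_mul_le_mul_left h11 hwp
  have e3 : cc t u v = u * ((1 - u) * (1 - v) ^ 2 + ρ * (u * v ^ 2)) := by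
    unfold cc; rw [← hρ]; ring
  rw [e3]
  exact mul_le_mul_of_nonneg_left h8 hu0

end Pool.Agent.Helper96.Mu
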