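import Mathlib
import Pool.Agent.Helper96.Mu.GBase

/-!
# Polynomial inequalities for the maximum version, part B
-/

namespace Pool.Agent.Helper96.Mu

open Finset Pool.Agent.Helper39.Mu

set_option linter.unusedSectionVars false

private lemma t2be0 {t : ℝ} (ht : 0 < t) :
    be0 t * t ^ 2 = 1 / 4 - t * (1 - t) * (2 - 3 * t + 2 * t ^ 2) := by
  unfold be0
  field_simp

private lemma tBt {t : ℝ} (ht : 0 < t) :
    t * Bt t = 1 / 4 - t * (1 - t) * (1 - 2 * t + 2 * t ^ 2) := by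
  unfold Bt
  field_simp

private lemma be0_nn {t : ℝ} (ht : 1 / 2 ≤ t) (ht1 : t ≤ 1) : 0 ≤ be0 t := by
  unfold be0
  apply div_nonneg _ (by positivity)
  have h1 : 0 ≤ 2 * t - 1 := by linarith
  have h2 : 0 ≤ 1 - t := by linarith
  have h3 : 0 ≤ t := by linarith
  have : 1 / 4 - t * (1 - t) * (2 - 3 * t + 2 * t ^ 2) =
      (1 / 4) * ((2 * t - 1) ^ 2 + 4 * (t * (1 - t)) * ((2 * t - 1) * (1 - t))) := by ring
  rw [this]
  positivity

private lemma ga_mul {t u : ℝ} (hu : 0 < u) :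
    ga t u * u = (1 - u) * (u - t ^ 2) ^ 2 + (1 - t) * t ^ 3 * u := by
  unfold ga
  field_simp

private lemma pSL {t u : ℝ} (v : ℝ) (ht : 1 / 2 ≤ t) (_ht1 : t ≤ 1) (hu0 : t ^ 2 ≤ u)
    (_hu : u ≤ t) :
    ga t u + be0 t * u * (v - t ^ 2 / u) ≤ u * (Bt t + be0 t * (v - t)) := by
  have ht0 : 0 < t := by linarith
  have hup : 0 < u := lt_of_lt_of_le (by positivity) hu0
  have key : u * (Bt t + be0 t * (v - t)) - (ga t u + be0 t * u * (v - t ^ 2 / u)) =
      4 * (t - 1 / 2) ^ 4 + (u - t) ^ 2 * (u - t ^ 2) / u := by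
    unfold ga be0 Bt
    field_simp
    ring
  have h1 : 0 ≤ (u - t) ^ 2 * (u - t ^ 2) / u := by
    apply div_nonneg _ hup.le
    exact mul_nonneg (sq_nonneg _) (by linarith)
  have h2 : 0 ≤ 4 * (t - 1 / 2) ^ 4 := by positivity
  linarith

private lemma bracket_t {t u : ℝ} (ht : 1 / 2 ≤ t) (ht1 : t ≤ 1) (hu0 : t ^ 2 ≤ u)
    (hu : u ≤ t) :
    0 ≤ be0 t * u + (1 - t - t) * (1 - u) ^ 2 + (1 - t) / t * u ^ 2 * (t + t) := by
  have ht0 : 0 < t := by linarith
  have hup : 0 < u := lt_of_lt_of_le (by positivity) hu0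
  have e1 : (1 - t) / t * u ^ 2 * (t + t) = 2 * (1 - t) * u ^ 2 := by
    field_simp
    ring
  rw [e1]
  have hb := be0_nn ht ht1
  have h1 : be0 t * t ^ 2 ≤ be0 t * u := mul_le_mul_of_nonneg_left hu0 hb
  rw [t2be0 ht0] at h1
  have h2 : (1 - u) ^ 2 ≤ (1 - t ^ 2) ^ 2 := by
    apply pow_le_pow_left₀ (by linarith) (by linarith)
  have h3 : (2 * t - 1) * (1 - u) ^ 2 ≤ (2 * t - 1) * (1 - t ^ 2) ^ 2 :=
    mul_le_mul_of_nonneg_left h2 (by linarith)
  have h4 : (t ^ 2) ^ 2 ≤ u ^ 2 := pow_le_pow_left₀ (by positivity) hu0 2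
  have h5 : 2 * (1 - t) * (t ^ 2) ^ 2 ≤ 2 * (1 - t) * u ^ 2 :=
    mul_le_mul_of_nonneg_left h4 (by linarith)
  -- one variable inequality
  have h6 : 0 ≤ 1 / 4 - t * (1 - t) * (2 - 3 * t + 2 * t ^ 2)
      - (2 * t - 1) * (1 - t ^ 2) ^ 2 + 2 * (1 - t) * (t ^ 2) ^ 2 := by
    obtain ⟨x, hx⟩ : ∃ x, t = 1 - x := ⟨1 - t, by ring⟩
    have hx0 : 0 ≤ x := by linarith
    have hx1 : x ≤ 1 / 2 := by linarith
    subst hx
    nlinarith [mul_nonneg hx0 (sub_nonneg.2 hx1), mul_nonneg (mul_nonneg hx0 hx0) (sub_nonneg.2 hx1),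
      mul_nonneg (mul_nonneg hx0 (sub_nonneg.2 hx1)) (sub_nonneg.2 hx1),
      mul_nonneg (mul_nonneg hx0 hx0) (mul_nonneg hx0 (sub_nonneg.2 hx1)),
      mul_nonneg (mul_nonneg hx0 (sub_nonneg.2 hx1)) (mul_nonneg hx0 (sub_nonneg.2 hx1)),
      mul_nonneg (mul_nonneg (mul_nonneg hx0 hx0) (mul_nonneg hx0 hx0)) (sub_nonneg.2 hx1),
      sq_nonneg (x - 1 / 4), sq_nonneg (x ^ 2 - x / 4), pow_nonneg hx0 3, pow_nonneg hx0 4,
      pow_nonneg hx0 5]
  nlinarith

theorem pair_TS {t u v : ℝ} (ht : 1 / 2 ≤ t) (ht1 : t ≤ 1) (hu0 : t ^ 2 ≤ u) (hu : u ≤ t)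
    (hv0 : 0 ≤ v) (hv : v ≤ t) :
    ga t u + be0 t * u * (v - t ^ 2 / u) + cc t v u ≤ 1 / 4 := by
  have ht0 : 0 < t := by linarith
  have hup : 0 < u := lt_of_lt_of_le (by positivity) hu0
  have hb := be0_nn ht ht1
  have hs := pSL t ht ht1 hu0 hu
  have hbr := bracket_t ht ht1 hu0 hu
  have hdt : 0 ≤ (1 - t) / t := div_nonneg (by linarith) ht0.le
  -- bracket at v
  have hbv : 0 ≤ be0 t * u + (1 - t - v) * (1 - u) ^ 2 + (1 - t) / t * u ^ 2 * (t + v) := by
    have e : be0 t * u + (1 - t - v) * (1 - u) ^ 2 + (1 - t) / t * u ^ 2 * (t + v) =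
        (1 - v / t) * (be0 t * u + (1 - t) * (1 - u) ^ 2 + (1 - t) / t * u ^ 2 * t) +
        (v / t) * (be0 t * u + (1 - t - t) * (1 - u) ^ 2 + (1 - t) / t * u ^ 2 * (t + t)) := by
      field_simp
      ring
    rw [e]
    have h1 : 0 ≤ v / t := div_nonneg hv0 ht0.le
    have h2 : v / t ≤ 1 := (div_le_one ht0).2 hv
    have h3 : 0 ≤ be0 t * u + (1 - t) * (1 - u) ^ 2 + (1 - t) / t * u ^ 2 * t := by
      have a1 : 0 ≤ be0 t * u := mul_nonneg hb hup.le
      have a2 : 0 ≤ (1 - t) * (1 - u) ^ 2 := mul_nonneg (by linarith) (sq_nonneg _)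
      have a3 : 0 ≤ (1 - t) / t * u ^ 2 * t := by positivity
      linarith
    exact add_nonneg (mul_nonneg (by linarith) h3) (mul_nonneg h1 hbr)
  have hW : cc t v u + be0 t * u * v ≤ cc t t u + be0 t * u * t := by
    have e : cc t t u + be0 t * u * t - (cc t v u + be0 t * u * v) =
        (t - v) * (be0 t * u + (1 - t - v) * (1 - u) ^ 2 + (1 - t) / t * u ^ 2 * (t + v)) := by
      unfold cc
      ring
    have := mul_nonneg (sub_nonneg.2 hv) hbv
    linarith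
  have hcc : cc t t u ≤ 1 / 4 - u * Bt t := by
    have e : cc t t u = t * (1 - t) * (1 - u) ^ 2 + t * (1 - t) * u ^ 2 := by
      unfold cc
      field_simp
    have e2 : u * Bt t = (u / t) * (1 / 4 - t * (1 - t) * (1 - 2 * t + 2 * t ^ 2)) := by
      rw [← tBt ht0]
      field_simp
    rw [e, e2]
    -- convexity in u between 0 and t
    obtain ⟨w, hw⟩ : ∃ w, u = w * t := ⟨u / t, by field_simp⟩
    have hw0 : 0 ≤ w := by
      by_contra hneg
      push_neg at hneg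
      nlinarith
    have hw1 : w ≤ 1 := by
      by_contra hneg
      push_neg at hneg
      nlinarith
    subst hw
    have e3 : w * t / t = w := by field_simp
    rw [e3]
    have hs4 : t * (1 - t) ≤ 1 / 4 := by nlinarith [sq_nonneg (2 * t - 1)]
    have hs0 : 0 ≤ t * (1 - t) := mul_nonneg ht0.le (by linarith)
    have k1 : 1 / 4 - w * (1 / 4 - t * (1 - t) * (1 - 2 * t + 2 * t ^ 2)) -
        (t * (1 - t) * (1 - w * t) ^ 2 + t * (1 - t) * (w * t) ^ 2) =
        (1 - w) * (1 / 4 - t * (1 - t)) + 2 * (t * (1 - t)) * (w * (1 - w)) * t ^ 2 := by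
      ring
    have k2 : 0 ≤ (1 - w) * (1 / 4 - t * (1 - t)) :=
      mul_nonneg (by linarith) (by linarith)
    have k3 : 0 ≤ 2 * (t * (1 - t)) * (w * (1 - w)) * t ^ 2 := by
      have : 0 ≤ w * (1 - w) := mul_nonneg hw0 (by linarith)
      positivity
    linarith
  have e1 : be0 t * u * (v - t ^ 2 / u) = be0 t * u * v - be0 t * t ^ 2 := by
    field_simp
  have e2 : be0 t * u * (t - t ^ 2 / u) = be0 t * u * t - be0 t * t ^ 2 := by
    field_simp
  have e3 : u * (Bt t + be0 t * (t - t)) = u * Bt t := by ring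
  rw [e2, e3] at hs
  rw [e1]
  linarith

private lemma ga_le {t u : ℝ} (ht : 1 / 2 ≤ t) (ht1 : t ≤ 1) (hu0 : t ^ 2 ≤ u) (hu : u ≤ t) :
    ga t u ≤ 1 / 8 := by
  have ht0 : 0 < t := by linarith
  have hup : 0 < u := lt_of_lt_of_le (by positivity) hu0
  have e : t * (1 - t) * (1 - 2 * (t * (1 - t))) - ga t u =
      (t - u) * ((t - u) * (u - t ^ 2) + u * (1 - t) ^ 2) / u := by
    unfold ga
    field_simp
    ring
  have h1 : 0 ≤ (t - u) * ((t - u) * (u - t ^ 2) + u * (1 - t) ^ 2) / u := by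
    apply div_nonneg _ hup.le
    apply mul_nonneg (by linarith)
    have a1 : 0 ≤ (t - u) * (u - t ^ 2) := mul_nonneg (by linarith) (by linarith)
    have a2 : 0 ≤ u * (1 - t) ^ 2 := by positivity
    linarith
  have h2 : t * (1 - t) * (1 - 2 * (t * (1 - t))) ≤ 1 / 8 := by
    nlinarith [sq_nonneg (t * (1 - t) - 1 / 4)]
  linarith

theorem pair_SS {t u v : ℝ} (ht : 1 / 2 ≤ t) (ht1 : t ≤ 1) (hu0 : t ^ 2 ≤ u) (hu : u ≤ t)
    (hv0 : t ^ 2 ≤ v) (hv : v ≤ t) :
    ga t u + be0 t * u * (v - t ^ 2 / u) + (ga t v + be0 t * v * (u - t ^ 2 / v)) ≤ 1 / 4 := by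
  have ht0 : 0 < t := by linarith
  have hup : 0 < u := lt_of_lt_of_le (by positivity) hu0
  have hvp : 0 < v := lt_of_lt_of_le (by positivity) hv0
  have hb := be0_nn ht ht1
  have h1 := ga_le ht ht1 hu0 hu
  have h2 := ga_le ht ht1 hv0 hv
  have e1 : be0 t * u * (v - t ^ 2 / u) = be0 t * (u * v - t ^ 2) := by
    field_simp
  have e2 : be0 t * v * (u - t ^ 2 / v) = be0 t * (u * v - t ^ 2) := by
    field_simp
  rw [e1, e2]
  have h3 : u * v ≤ t ^ 2 := by nlinarith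
  have h4 : be0 t * (u * v - t ^ 2) ≤ 0 := mul_nonpos_of_nonneg_of_nonpos hb (by linarith)
  linarith

private lemma Bf_small {t y : ℝ} (ht : 1 / 2 ≤ t) (hy : y ≤ 1 / t) :
    Bf t y - (Bt t + be0 t * (min 1 (t * y) - t)) =
      (2 * t - 1) * (1 - t) * (y - 1) ^ 2 + t * (y - 1) ^ 3 := by
  have ht0 : 0 < t := by linarith
  have h1 : t * y ≤ 1 := by
    rw [le_div_iff₀ ht0] at hy
    linarith
  unfold Bf
  rw [min_eq_right h1]
  unfold Bt be0
  field_simp
  ring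

private lemma Bf_large {t y : ℝ} (ht : 1 / 2 ≤ t) (hy : 1 / t ≤ y) :
    Bf t y - (Bt t + be0 t * (min 1 (t * y) - t)) =
      (2 * t - 1) * (1 - t) * (1 / t - 1) ^ 2 + t * (1 / t - 1) ^ 3 + (y - 1 / t) / (4 * t) := by
  have ht0 : 0 < t := by linarith
  have h1 : 1 ≤ t * y := by
    rw [div_le_iff₀ ht0] at hy
    linarith
  unfold Bf
  rw [min_eq_left h1]
  unfold Bt be0
  field_simp
  ring

theorem Bf_ge {t y : ℝ} (ht : 1 / 2 ≤ t) (ht1 : t ≤ 1) (hy : 1 ≤ y) :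
    Bt t + be0 t * (min 1 (t * y) - t) ≤ Bf t y := by
  have ht0 : 0 < t := by linarith
  have h1 : 0 ≤ (2 * t - 1) * (1 - t) := mul_nonneg (by linarith) (by linarith)
  rcases le_total y (1 / t) with h | h
  · have e := Bf_small ht h
    have a1 : 0 ≤ (2 * t - 1) * (1 - t) * (y - 1) ^ 2 := mul_nonneg h1 (sq_nonneg _)
    have a2 : 0 ≤ t * (y - 1) ^ 3 := mul_nonneg ht0.le (pow_nonneg (by linarith) 3)
    linarith
  · have e := Bf_large ht h
    have h2 : 0 ≤ 1 / t - 1 := by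
      rw [sub_nonneg, le_div_iff₀ ht0]
      linarith
    have a1 : 0 ≤ (2 * t - 1) * (1 - t) * (1 / t - 1) ^ 2 := mul_nonneg h1 (sq_nonneg _)
    have a2 : 0 ≤ t * (1 / t - 1) ^ 3 := mul_nonneg ht0.le (pow_nonneg h2 3)
    have a3 : 0 ≤ (y - 1 / t) / (4 * t) := div_nonneg (by linarith) (by linarith)
    linarith

theorem Bf_ge' {t y δ ω : ℝ} (ht : 1 / 2 ≤ t) (ht1 : t ≤ 1) (hδ : 0 < δ) (hδ1 : δ ≤ 1 / 10)
    (hω : 0 ≤ ω) (hωδ : ω ≤ δ ^ 3 / 200) (hy : 1 + δ ≤ y) :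
    Bt t + be0 t * (min 1 (t * y) - t) ≤ Bf t y - 3 * ω * y := by
  have ht0 : 0 < t := by linarith
  have h1 : 0 ≤ (2 * t - 1) * (1 - t) := mul_nonneg (by linarith) (by linarith)
  have hδ3 : 0 < δ ^ 3 := by positivity
  rcases le_total y (1 / t) with h | h
  · have e := Bf_small ht h
    have hy2 : y ≤ 2 := by
      rw [le_div_iff₀ ht0] at h
      nlinarith
    have a1 : 0 ≤ (2 * t - 1) * (1 - t) * (y - 1) ^ 2 := mul_nonneg h1 (sq_nonneg _)
    have a2 : δ ^ 3 ≤ (y - 1) ^ 3 := pow_le_pow_left₀ hδ.le (by linarith) 3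
    have a3 : 1 / 2 * δ ^ 3 ≤ t * (y - 1) ^ 3 := by
      have := mul_le_mul ht a2 hδ3.le ht0.le
      linarith
    have a4 : 3 * ω * y ≤ 6 * ω := by nlinarith
    linarith
  · have e := Bf_large ht h
    obtain ⟨a, ha⟩ : ∃ a, 1 / t = 1 + a := ⟨1 / t - 1, by ring⟩
    obtain ⟨z, hz⟩ : ∃ z, y = 1 + z := ⟨y - 1, by ring⟩
    have ha0 : 0 ≤ a := by
      have : 1 ≤ 1 / t := by
        rw [le_div_iff₀ ht0]
        linarith
      linarith
    have ha1 : a ≤ 1 := by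
      have : 1 / t ≤ 2 := by
        rw [div_le_iff₀ ht0]
        linarith
      linarith
    have hza : a ≤ z := by
      rw [ha, hz] at h
      linarith
    have hzδ : δ ≤ z := by linarith
    have g1 : 0 ≤ (2 * t - 1) * (1 - t) * (1 / t - 1) ^ 2 := mul_nonneg h1 (sq_nonneg _)
    have g2 : 1 / 2 * a ^ 3 ≤ t * (1 / t - 1) ^ 3 := by
      have : 1 / t - 1 = a := by linarith
      rw [this]
      exact mul_le_mul_of_nonneg_right ht (pow_nonneg ha0 3)
    have g3 : (z - a) / 4 ≤ (y - 1 / t) / (4 * t) := by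
      have : y - 1 / t = z - a := by linarith
      rw [this]
      apply div_le_div_of_nonneg_left (by linarith) (by linarith) (by linarith)
    have g4 : 3 * ω * y ≤ 3 * (δ ^ 3 / 200) * (1 + z) := by
      rw [hz]
      have : 0 ≤ 1 + z := by linarith
      nlinarith
    have goal1 : 3 * (δ ^ 3 / 200) * (1 + z) ≤ a ^ 3 / 2 + (z - a) / 4 := by
      rcases le_total a (z / 2) with hc | hc
      · have b1 : z / 8 ≤ (z - a) / 4 := by linarith
        have b2 : 0 ≤ a ^ 3 / 2 := by positivity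
        have b3 : δ ^ 3 ≤ z / 100 := by
          have : δ ^ 2 ≤ 1 / 100 := by nlinarith
          have e3 : δ ^ 3 = δ ^ 2 * δ := by ring
          rw [e3]
          calc δ ^ 2 * δ ≤ 1 / 100 * z := mul_le_mul this hzδ hδ.le (by norm_num)
            _ = z / 100 := by ring
        have b4 : δ ^ 3 ≤ 1 / 1000 := by
          have := pow_le_pow_left₀ hδ.le hδ1 3
          norm_num at this ⊢
          linarith
        have b5 : δ ^ 3 * z ≤ 1 / 1000 * z := mul_le_mul_of_nonneg_right b4 (by linarith)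
        nlinarith
      · have b1 : z ≤ 2 := by linarith
        have b2 : (z / 2) ^ 3 ≤ a ^ 3 := pow_le_pow_left₀ (by linarith) hc 3
        have b3 : δ ^ 3 ≤ z ^ 3 := pow_le_pow_left₀ hδ.le hzδ 3
        have b4 : 3 * (δ ^ 3 / 200) * (1 + z) ≤ 3 * (δ ^ 3 / 200) * 3 :=
          mul_le_mul_of_nonneg_left (by linarith) (by positivity)
        have b5 : (z / 2) ^ 3 = z ^ 3 / 8 := by ring
        rw [b5] at b2
        have b6 : 0 ≤ (z - a) / 4 := by linarith
        nlinarith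
    linarith

private lemma min_prop {t x : ℝ} (ht : 1 / 2 ≤ t) (hx : 1 ≤ x) :
    0 ≤ min 1 (t * x) ∧ min 1 (t * x) ≤ 1 := by
  refine ⟨le_min (by norm_num) (by nlinarith), min_le_left _ _⟩

theorem dom_large {t x π : ℝ} (ht : 1 / 2 ≤ t) (ht1 : t ≤ 1) (hx : 1 ≤ x) (h0 : 0 ≤ π)
    (h1 : π ≤ t) :
    t * (1 - min 1 (t * x)) * (x - π) ^ 2 + (1 - t) * min 1 (t * x) * π ^ 2 ≤
      x / 4 - Bf t x * π := by
  have ht0 : 0 < t := by linarith
  obtain ⟨hq0, hq1⟩ := min_prop ht hx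
  have hf0 : t * (1 - min 1 (t * x)) * x ^ 2 ≤ x / 4 := by
    rcases le_total 1 (t * x) with h | h
    · rw [min_eq_left h]
      have : t * (1 - 1) * x ^ 2 = 0 := by ring
      rw [this]
      linarith
    · rw [min_eq_right h]
      have e : t * (1 - t * x) * x ^ 2 = x * ((t * x) * (1 - t * x)) := by ring
      rw [e]
      have h2 : (t * x) * (1 - t * x) ≤ 1 / 4 := by nlinarith [sq_nonneg (2 * (t * x) - 1)]
      have := mul_le_mul_of_nonneg_left h2 (by linarith : (0 : ℝ) ≤ x)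
      linarith
  set q := min 1 (t * x) with hq
  have hBf : Bf t x * t = x / 4 - t * (1 - q) * (x - t) ^ 2 - (1 - t) * q * t ^ 2 := by
    unfold Bf
    rw [← hq]
    field_simp
  have hB : Bf t x * π = (π / t) * (x / 4 - t * (1 - q) * (x - t) ^ 2 - (1 - t) * q * t ^ 2) := by
    rw [← hBf]
    field_simp
  rw [hB]
  obtain ⟨w, hw⟩ : ∃ w, π = w * t := ⟨π / t, by field_simp⟩
  have hw0 : 0 ≤ w := by
    by_contra hneg
    push_neg at hneg
    nlinarith
  have hw1 : w ≤ 1 := by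
    by_contra hneg
    push_neg at hneg
    nlinarith
  subst hw
  have e3 : w * t / t = w := by field_simp
  rw [e3]
  have key : x / 4 - w * (x / 4 - t * (1 - q) * (x - t) ^ 2 - (1 - t) * q * t ^ 2) -
      (t * (1 - q) * (x - w * t) ^ 2 + (1 - t) * q * (w * t) ^ 2) =
      (1 - w) * (x / 4 - t * (1 - q) * x ^ 2) +
        w * (1 - w) * t ^ 2 * (t * (1 - q) + (1 - t) * q) := by
    ring
  have k1 : 0 ≤ (1 - w) * (x / 4 - t * (1 - q) * x ^ 2) :=
    mul_nonneg (by linarith) (by linarith)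
  have k2 : 0 ≤ w * (1 - w) * t ^ 2 * (t * (1 - q) + (1 - t) * q) := by
    have a1 : 0 ≤ w * (1 - w) := mul_nonneg hw0 (by linarith)
    have a2 : 0 ≤ t * (1 - q) := mul_nonneg ht0.le (by linarith)
    have a3 : 0 ≤ (1 - t) * q := mul_nonneg (by linarith) hq0
    positivity
  linarith

theorem dom_large' {t x π ω : ℝ} (ht : 1 / 2 ≤ t) (ht1 : t ≤ 1) (hx : 1 ≤ x) (h0 : 0 ≤ π)
    (hω : 0 ≤ ω) (hω1 : ω ≤ 1 / 10) (h1 : π ≤ t * (1 + 2 * ω)) :
    t * (1 - min 1 (t * x)) * (x - π) ^ 2 + (1 - t) * min 1 (t * x) * π ^ 2 ≤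
      x / 4 - (Bf t x - 3 * ω * x) * π := by
  have ht0 : 0 < t := by linarith
  rcases le_total π t with h | h
  · have := dom_large ht ht1 hx h0 h
    have h2 : 0 ≤ 3 * ω * x * π := by
      have : 0 ≤ x := by linarith
      positivity
    linarith
  · obtain ⟨hq0, hq1⟩ := min_prop ht hx
    set q := min 1 (t * x) with hq
    have hBf : Bf t x * t = x / 4 - t * (1 - q) * (x - t) ^ 2 - (1 - t) * q * t ^ 2 := by
      unfold Bf
      rw [← hq]
      field_simp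
    have hBle : Bf t x ≤ x / 2 := by
      have a1 : Bf t x * t ≤ x / 4 := by
        rw [hBf]
        have b1 : 0 ≤ t * (1 - q) * (x - t) ^ 2 :=
          mul_nonneg (mul_nonneg ht0.le (by linarith)) (sq_nonneg _)
        have b2 : 0 ≤ (1 - t) * q * t ^ 2 :=
          mul_nonneg (mul_nonneg (by linarith) hq0) (sq_nonneg _)
        linarith
      by_contra hneg
      push_neg at hneg
      have : x / 2 * t < Bf t x * t := mul_lt_mul_of_pos_right hneg ht0
      nlinarith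
    obtain ⟨z, hz⟩ : ∃ z, π = t + z := ⟨π - t, by ring⟩
    subst hz
    have hz0 : 0 ≤ z := by linarith
    have hz1 : z ≤ 2 * ω * t := by linarith
    have key : t * (1 - q) * (x - (t + z)) ^ 2 + (1 - t) * q * (t + z) ^ 2 =
        (x / 4 - Bf t x * t) - 2 * (t * (1 - q)) * (x - t) * z + 2 * ((1 - t) * q) * t * z +
          (t * (1 - q) + (1 - t) * q) * z ^ 2 := by
      rw [hBf]
      ring
    rw [key]
    have a1 : 0 ≤ 2 * (t * (1 - q)) * (x - t) * z :=
      mul_nonneg (mul_nonneg (mul_nonneg (by norm_num) (mul_nonneg ht0.le (by linarith)))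
        (by linarith)) hz0
    have a2 : (1 - t) * q * t ≤ 1 / 4 := by
      have b1 : (1 - t) * t ≤ 1 / 4 := by nlinarith [sq_nonneg (2 * t - 1)]
      have b2 : (1 - t) * t * q ≤ (1 - t) * t * 1 :=
        mul_le_mul_of_nonneg_left hq1 (mul_nonneg (by linarith) ht0.le)
      have b3 : (1 - t) * q * t = (1 - t) * t * q := by ring
      linarith
    have a3 : 2 * ((1 - t) * q) * t * z ≤ 1 / 2 * z := by
      have : 2 * ((1 - t) * q) * t * z = 2 * ((1 - t) * q * t) * z := by ring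
      rw [this]
      apply mul_le_mul_of_nonneg_right (by linarith) hz0
    have a4 : (t * (1 - q) + (1 - t) * q) * z ^ 2 ≤ 1 * z ^ 2 := by
      apply mul_le_mul_of_nonneg_right _ (sq_nonneg z)
      nlinarith
    have a5 : Bf t x * z ≤ x / 2 * z := mul_le_mul_of_nonneg_right hBle hz0
    have a6 : z ^ 2 ≤ z * (2 * ω * t) := by
      rw [sq]
      exact mul_le_mul_of_nonneg_left hz1 hz0
    have hωt : 0 ≤ ω * t := mul_nonneg hω ht0.le
    have a7 : 1 / 2 * z + x / 2 * z + z ^ 2 ≤ 3 * ω * x * t := by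
      have c1 : (1 / 2 + x / 2 + 2 * ω * t) * z ≤ (1 / 2 + x / 2 + 2 * ω * t) * (2 * ω * t) :=
        mul_le_mul_of_nonneg_left hz1 (by linarith)
      have c2 : 1 / 2 + x / 2 + 2 * ω * t ≤ 3 / 2 * x := by
        have : ω * t ≤ 1 / 10 := by nlinarith
        nlinarith
      have c3 : (1 / 2 + x / 2 + 2 * ω * t) * (2 * ω * t) ≤ 3 / 2 * x * (2 * ω * t) :=
        mul_le_mul_of_nonneg_right c2 (by linarith)
      nlinarith
    have a8 : 0 ≤ 3 * ω * x * z := by
      have : 0 ≤ x := by linarith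
      positivity
    nlinarith

private lemma cc_R {t u : ℝ} (ht : 0 < t) (hu : 0 < u) : cc t u (t ^ 2 / u) = ga t u := by
  unfold cc ga
  field_simp

private lemma cc_conv {t u : ℝ} (b r : ℝ) :
    cc t u b - (cc t u r + (2 * (-(u * (1 - u) * (1 - r)) + (1 - t) / t * (u ^ 2 * r))) * (b - r)) =
      (u * (1 - u) + (1 - t) / t * u ^ 2) * (b - r) ^ 2 := by
  unfold cc
  ring

/-- The supporting line at a vertex `x = u / t < 1` with `π = r x`. -/
theorem small_line {t u r : ℝ} (ht : 1 / 2 ≤ t) (ht1 : t ≤ 1) (hu0 : 0 < u) (hu : u < t)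
    (hr0 : 0 ≤ r) (hr1 : r ≤ 1) (hr : u * r ≤ t ^ 2) :
    ∃ s : ℝ,
      ((∀ b, cc t u r + s * (b - r) ≤ cc t u b) ∧
        (t ^ 2 ≤ u → ∀ b, t ^ 2 / u ≤ b →
          cc t u r + s * (b - r) ≤ ga t u + be0 t * u * (b - t ^ 2 / u))) ∨
      (t ^ 2 ≤ u ∧ ∀ b, cc t u r + s * (b - r) ≤ ga t u + be0 t * u * (b - t ^ 2 / u)) := by
  have ht0 : 0 < t := by linarith
  have _ := hr0
  have _ := hr1
  set c' : ℝ := 2 * (-(u * (1 - u) * (1 - r)) + (1 - t) / t * (u ^ 2 * r)) with hc'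
  have hK : 0 ≤ u * (1 - u) + (1 - t) / t * u ^ 2 := by
    have a1 : 0 ≤ u * (1 - u) := mul_nonneg hu0.le (by linarith)
    have a2 : 0 ≤ (1 - t) / t := div_nonneg (by linarith) ht0.le
    positivity
  have hconv : ∀ b, cc t u r + c' * (b - r) ≤ cc t u b := by
    intro b
    have e := cc_conv (t := t) (u := u) b r
    have := mul_nonneg hK (sq_nonneg (b - r))
    linarith
  have hR : r ≤ t ^ 2 / u := by
    rw [le_div_iff₀ hu0]
    linarith
  have hga := cc_R ht0 hu0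
  by_cases hcase : t ^ 2 ≤ u ∧ be0 t * u < c'
  · refine ⟨be0 t * u, Or.inr ⟨hcase.1, ?_⟩⟩
    intro b
    have h1 := hconv (t ^ 2 / u)
    have h2 : be0 t * u * (t ^ 2 / u - r) ≤ c' * (t ^ 2 / u - r) :=
      mul_le_mul_of_nonneg_right hcase.2.le (by linarith)
    rw [hga] at h1
    have e : be0 t * u * (b - r) =
        be0 t * u * (b - t ^ 2 / u) + be0 t * u * (t ^ 2 / u - r) := by ring
    rw [e]
    linarith
  · refine ⟨c', Or.inl ⟨hconv, ?_⟩⟩
    intro htu b hb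
    have hle : c' ≤ be0 t * u := by
      by_contra hneg
      push_neg at hneg
      exact hcase ⟨htu, hneg⟩
    have h1 := hconv (t ^ 2 / u)
    rw [hga] at h1
    have h2 : c' * (b - t ^ 2 / u) ≤ be0 t * u * (b - t ^ 2 / u) :=
      mul_le_mul_of_nonneg_right hle (by linarith)
    have e : c' * (b - r) = c' * (b - t ^ 2 / u) + c' * (t ^ 2 / u - r) := by ring
    rw [e]
    linarith

end Pool.Agent.Helper96.Mu
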