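import Mathlib
import Pool.Agent.Helper96.Mu.GBase
import Pool.Agent.Helper96.Mu.GPolyA
import Pool.Agent.Helper96.Mu.GPolyB

/-!
# The maximum version: the certificate
-/

namespace Pool.Agent.Helper96.Mu

open Finset Pool.Agent.Helper39.Mu

set_option linter.unusedSectionVars false

/-- The properties of the supporting line `al - be b` at a vertex of normalised degree `x`. -/
def CertLine (t x al be : ℝ) : Prop :=
  (1 ≤ x → al = 1 / 4 ∧ Bt t + be0 t * (min 1 (t * x) - t) ≤ be) ∧
  (x < 1 →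
    ((∀ b, al - be * b ≤ cc t (t * x) b) ∧
      (t ^ 2 ≤ t * x → ∀ b, t ^ 2 / (t * x) ≤ b →
        al - be * b ≤ ga t (t * x) + be0 t * (t * x) * (b - t ^ 2 / (t * x)))) ∨
    (t ^ 2 ≤ t * x ∧ ∀ b, al - be * b ≤
      ga t (t * x) + be0 t * (t * x) * (b - t ^ 2 / (t * x))))

lemma cert_min {t x : ℝ} (ht : 1 / 2 ≤ t) (ht1 : t ≤ 1) (hx1 : x < 1) :
    min 1 (t * x) = t * x := by
  refine min_eq_right ?_
  nlinarith

lemma cert_lt {t x : ℝ} (ht : 1 / 2 ≤ t) (hx1 : x < 1) : t * x < t := by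
  nlinarith

lemma cert_min_ge {t x : ℝ} (ht : 1 / 2 ≤ t) (ht1 : t ≤ 1) (hx1 : 1 ≤ x) :
    t ≤ min 1 (t * x) := by
  refine le_min ht1 ?_
  nlinarith

lemma cert_vertex {t x π δ ω : ℝ} (ht : 1 / 2 ≤ t) (ht1 : t ≤ 1) (hδ : 0 < δ)
    (hδ1 : δ ≤ 1 / 10) (hω : 0 ≤ ω) (hωδ : ω ≤ δ ^ 3 / 200) (hx : 0 < x) (h0 : 0 ≤ π)
    (hπx : π ≤ x) (h1 : π ≤ t * (1 + 2 * ω)) (h2 : x < 1 + δ → π ≤ t) :
    ∃ al be : ℝ, t * (1 - min 1 (t * x)) * (x - π) ^ 2 + (1 - t) * min 1 (t * x) * π ^ 2 ≤
      al * x - be * π ∧ CertLine t x al be := by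
  rcases lt_or_ge x 1 with hx1 | hx1
  · have hu : t * x < t := cert_lt ht hx1
    have hu0 : 0 < t * x := mul_pos (by linarith) hx
    have hr0 : 0 ≤ π / x := div_nonneg h0 hx.le
    have hr1 : π / x ≤ 1 := div_le_one_of_le₀ hπx hx.le
    have hπt : π ≤ t := h2 (by linarith)
    have hr : t * x * (π / x) ≤ t ^ 2 := by
      have : t * x * (π / x) = t * π := by field_simp
      rw [this, sq]
      exact mul_le_mul_of_nonneg_left hπt (by linarith)
    obtain ⟨s, hs⟩ := small_line ht ht1 hu0 hu hr0 hr1 hr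
    refine ⟨cc t (t * x) (π / x) - s * (π / x), -s, ?_, fun h => absurd hx1 (not_lt.mpr h), fun _ => ?_⟩
    · rw [cert_min ht ht1 hx1]
      have e : (cc t (t * x) (π / x) - s * (π / x)) * x - -s * π =
          t * (1 - t * x) * (x - π) ^ 2 + (1 - t) * (t * x) * π ^ 2 := by
        unfold cc
        have ht0 : t ≠ 0 := by linarith
        field_simp
        ring
      rw [e]
    · have e : ∀ b, cc t (t * x) (π / x) - s * (π / x) - -s * b =
          cc t (t * x) (π / x) + s * (b - π / x) := fun b => by ring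
      rcases hs with ⟨h3, h4⟩ | ⟨h3, h4⟩
      · refine Or.inl ⟨fun b => ?_, fun h5 b hb => ?_⟩
        · rw [e]
          exact h3 b
        · rw [e]
          exact h4 h5 b hb
      · refine Or.inr ⟨h3, fun b => ?_⟩
        rw [e]
        exact h4 b
  · rcases lt_or_ge x (1 + δ) with hx2 | hx2
    · refine ⟨1 / 4, Bf t x, ?_, fun _ => ⟨rfl, Bf_ge ht ht1 hx1⟩,
        fun h => absurd h (not_lt.mpr hx1)⟩
      have := dom_large ht ht1 hx1 h0 (h2 hx2)
      linarith
    · refine ⟨1 / 4, Bf t x - 3 * ω * x, ?_,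
        fun _ => ⟨rfl, Bf_ge' ht ht1 hδ hδ1 hω hωδ hx2⟩, fun h => absurd h (not_lt.mpr hx1)⟩
      have hω1 : ω ≤ 1 / 10 := by
        have h3 : δ ^ 3 ≤ 1 ^ 3 := pow_le_pow_left₀ hδ.le (by linarith) 3
        linarith
      have := dom_large' ht ht1 hx1 h0 hω hω1 h1
      linarith

lemma cert_mixed {t x y al be al' be' : ℝ} (ht : 1 / 2 ≤ t) (ht1 : t ≤ 1) (hx : 0 < x)
    (hx1 : x < 1) (hy1 : 1 ≤ y) (h : CertLine t x al be) (h' : CertLine t y al' be') :
    al - be * min 1 (t * y) + (al' - be' * min 1 (t * x)) ≤ 1 / 4 := by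
  obtain ⟨ha, hb⟩ := h'.1 hy1
  have hu0 : 0 < t * x := mul_pos (by linarith) hx
  have hu : t * x < t := cert_lt ht hx1
  have hv : t ≤ min 1 (t * y) := cert_min_ge ht ht1 hy1
  have hv1 : min 1 (t * y) ≤ 1 := min_le_left _ _
  rw [cert_min ht ht1 hx1, ha]
  have h1 : (Bt t + be0 t * (min 1 (t * y) - t)) * (t * x) ≤ be' * (t * x) :=
    mul_le_mul_of_nonneg_right hb hu0.le
  have key : al - be * min 1 (t * y) ≤ t * x * (Bt t + be0 t * (min 1 (t * y) - t)) := by
    have hSL : t ^ 2 ≤ t * x → ga t (t * x) + be0 t * (t * x) *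
        (min 1 (t * y) - t ^ 2 / (t * x)) ≤ t * x * (Bt t + be0 t * (min 1 (t * y) - t)) :=
      fun h2 => pair_SL _ ht ht1 h2 hu.le
    rcases h.2 hx1 with ⟨h3, h4⟩ | ⟨h3, h4⟩
    · rcases le_or_gt (t * x * min 1 (t * y)) (t ^ 2) with h5 | h5
      · exact (h3 _).trans (pair_TL ht ht1 hu0.le hu.le hv hv1 h5)
      · have h6 : t ^ 2 ≤ t * x := by
          have : t * x * min 1 (t * y) ≤ t * x * 1 := mul_le_mul_of_nonneg_left hv1 hu0.le
          linarith
        refine (h4 h6 _ ?_).trans (hSL h6)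
        rw [div_le_iff₀ hu0]
        linarith
    · exact (h4 _).trans (hSL h3)
  linarith

lemma cert_small {t x y al be al' be' : ℝ} (ht : 1 / 2 ≤ t) (ht1 : t ≤ 1) (hx : 0 < x)
    (hx1 : x < 1) (hy : 0 < y) (hy1 : y < 1) (h : CertLine t x al be)
    (h' : CertLine t y al' be') :
    al - be * min 1 (t * y) + (al' - be' * min 1 (t * x)) ≤ 1 / 4 := by
  have hu0 : 0 < t * x := mul_pos (by linarith) hx
  have hu : t * x < t := cert_lt ht hx1
  have hv0 : 0 < t * y := mul_pos (by linarith) hy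
  have hv : t * y < t := cert_lt ht hy1
  rw [cert_min ht ht1 hx1, cert_min ht ht1 hy1]
  rcases h.2 hx1 with ⟨h1, -⟩ | ⟨h1, h2⟩
  · rcases h'.2 hy1 with ⟨h3, -⟩ | ⟨h3, h4⟩
    · have h5 := h1 (t * y)
      have h6 := h3 (t * x)
      have h7 := pair_TT ht ht1 hu0.le hu.le hv0.le hv.le
      linarith
    · have h5 := h1 (t * y)
      have h6 := h4 (t * x)
      have h7 := pair_TS ht ht1 h3 hv.le hu0.le hu.le
      linarith
  · rcases h'.2 hy1 with ⟨h3, -⟩ | ⟨h3, h4⟩
    · have h5 := h2 (t * y)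
      have h6 := h3 (t * x)
      have h7 := pair_TS ht ht1 h1 hu.le hv0.le hv.le
      linarith
    · have h5 := h2 (t * y)
      have h6 := h4 (t * x)
      have h7 := pair_SS ht ht1 h1 hu.le h3 hv.le
      linarith

lemma cert_pair {t x y al be al' be' : ℝ} (ht : 1 / 2 ≤ t) (ht1 : t ≤ 1) (hx : 0 < x)
    (hy : 0 < y) (h : CertLine t x al be) (h' : CertLine t y al' be') :
    al - be * min 1 (t * y) + (al' - be' * min 1 (t * x)) ≤ 1 / 4 := by
  rcases lt_or_ge x 1 with hx1 | hx1
  · rcases lt_or_ge y 1 with hy1 | hy1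
    · exact cert_small ht ht1 hx hx1 hy hy1 h h'
    · exact cert_mixed ht ht1 hx hx1 hy1 h h'
  · rcases lt_or_ge y 1 with hy1 | hy1
    · have := cert_mixed ht ht1 hy hy1 hx1 h' h
      linarith
    · obtain ⟨ha, hb⟩ := h.1 hx1
      obtain ⟨ha', hb'⟩ := h'.1 hy1
      have hu := cert_min_ge ht ht1 hx1
      have hv := cert_min_ge ht ht1 hy1
      have hB := (Bt_ge ht ht1).1
      have hb0 := be0_nonneg ht ht1
      have h1 : 0 ≤ be0 t * (min 1 (t * x) - t) := mul_nonneg hb0 (by linarith)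
      have h2 : 0 ≤ be0 t * (min 1 (t * y) - t) := mul_nonneg hb0 (by linarith)
      have hBt : 0 ≤ Bt t := by
        by_contra hc
        have : t * Bt t < 0 := mul_neg_of_pos_of_neg (by linarith) (not_le.mp hc)
        linarith
      have h3 : Bt t * t ≤ be * min 1 (t * y) :=
        mul_le_mul (by linarith) hv (by linarith) (by linarith)
      have h4 : Bt t * t ≤ be' * min 1 (t * x) :=
        mul_le_mul (by linarith) hu (by linarith) (by linarith)
      rw [ha, ha']
      linarith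

section Graph

variable {V : Type*} [Fintype V] [DecidableEq V] (G : SimpleGraph V)

lemma cert_qt_mem {N t : ℝ} (hN : 0 < N) (ht : 1 / 2 ≤ t) (v : V) :
    0 ≤ qt G N t v ∧ qt G N t v ≤ 1 := by
  unfold qt
  refine ⟨le_min zero_le_one ?_, min_le_left _ _⟩
  exact mul_nonneg (by linarith) (div_nonneg (deg_nonneg G v) hN.le)

lemma cert_avg_le {N t : ℝ} (v : V) : avg G (qt G N t) v ≤ deg G v := by
  unfold avg deg
  refine Finset.sum_le_sum fun w _ => ?_
  calc adj G v w * qt G N t w ≤ adj G v w * 1 :=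
        mul_le_mul_of_nonneg_left (min_le_left _ _) (adj_nonneg G v w)
    _ = adj G v w := mul_one _

lemma cert_avg_le' {N t : ℝ} (v : V) :
    avg G (qt G N t) v ≤ t / N * ∑ w, adj G v w * deg G w := by
  unfold avg
  rw [Finset.mul_sum]
  refine Finset.sum_le_sum fun w _ => ?_
  calc adj G v w * qt G N t w ≤ adj G v w * (t * (deg G w / N)) :=
        mul_le_mul_of_nonneg_left (min_le_right _ _) (adj_nonneg G v w)
    _ = t / N * (adj G v w * deg G w) := by ring

lemma cert_pos {N : ℝ} (hN : 0 < N) {v w : V} (h : adj G v w = 1) : 0 < deg G v / N := by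
  have h1 : adj G v w ≤ deg G v :=
    Finset.single_le_sum (fun w _ => adj_nonneg G v w) (Finset.mem_univ w)
  exact div_pos (by linarith) hN

theorem cert {N δ ω t : ℝ} (hN : 0 < N) (hδ : 0 < δ) (hδ1 : δ ≤ 1 / 10) (hω : 0 ≤ ω)
    (hωδ : ω ≤ δ ^ 3 / 200) (ht : 1 / 2 ≤ t) (ht1 : t ≤ 1)
    (hsum : ∑ v, deg G v = (1 + 2 * ω) * N ^ 2)
    (hbad : ∀ v, deg G v < (1 + δ) * N → ∑ w, adj G v w * deg G w ≤ N ^ 2) :
    t * FY0 G (qt G N t) + (1 - t) * FX0 G (qt G N t) ≤ (1 + 2 * ω) * N ^ 3 / 8 := by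
  have ht0 : 0 < t := by linarith
  -- the supporting lines
  have hv : ∀ v, ∃ al be : ℝ, t * ((1 - qt G N t v) * (deg G v - avg G (qt G N t) v) ^ 2) +
      (1 - t) * (qt G N t v * avg G (qt G N t) v ^ 2) ≤
      N * (al * deg G v - be * avg G (qt G N t) v) ∧
      (0 < deg G v / N → CertLine t (deg G v / N) al be) := by
    intro v
    have hq := cert_qt_mem G hN ht v
    have hd0 := deg_nonneg G v
    have ha0 := avg_nonneg G (fun w => (cert_qt_mem G hN ht w).1) v
    have hale := cert_avg_le G (N := N) (t := t) v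
    rcases hd0.eq_or_lt with h0 | h0
    · refine ⟨0, 0, ?_, fun h => ?_⟩
      · have h1 : avg G (qt G N t) v = 0 := le_antisymm (by linarith) ha0
        rw [h1, ← h0]
        simp
      · rw [← h0, zero_div] at h
        exact absurd h (lt_irrefl _)
    · have hx : 0 < deg G v / N := div_pos h0 hN
      have hdeg : deg G v = N * (deg G v / N) := by field_simp
      have havg : avg G (qt G N t) v = N * (avg G (qt G N t) v / N) := by field_simp
      have h1 : avg G (qt G N t) v / N ≤ t * (1 + 2 * ω) := by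
        rw [div_le_iff₀ hN]
        refine (cert_avg_le' G v).trans ?_
        have h2 : ∑ w, adj G v w * deg G w ≤ (1 + 2 * ω) * N ^ 2 := by
          rw [← hsum]
          refine Finset.sum_le_sum fun w _ => ?_
          calc adj G v w * deg G w ≤ 1 * deg G w :=
                mul_le_mul_of_nonneg_right (adj_le_one G v w) (deg_nonneg G w)
            _ = deg G w := one_mul _
        calc t / N * ∑ w, adj G v w * deg G w ≤ t / N * ((1 + 2 * ω) * N ^ 2) :=
              mul_le_mul_of_nonneg_left h2 (div_nonneg ht0.le hN.le)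
          _ = t * (1 + 2 * ω) * N := by field_simp
      have h2 : deg G v / N < 1 + δ → avg G (qt G N t) v / N ≤ t := by
        intro h3
        rw [div_lt_iff₀ hN] at h3
        rw [div_le_iff₀ hN]
        refine (cert_avg_le' G v).trans ?_
        calc t / N * ∑ w, adj G v w * deg G w ≤ t / N * N ^ 2 :=
              mul_le_mul_of_nonneg_left (hbad v h3) (div_nonneg ht0.le hN.le)
          _ = t * N := by field_simp
      obtain ⟨al, be, h3, h4⟩ := cert_vertex ht ht1 hδ hδ1 hω hωδ hx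
        (div_nonneg ha0 hN.le) (div_le_div_of_nonneg_right hale hN.le) h1 h2
      refine ⟨al, be, ?_, fun _ => h4⟩
      have h5 := mul_le_mul_of_nonneg_left h3 (sq_nonneg N)
      have e1 : N ^ 2 * (t * (1 - min 1 (t * (deg G v / N))) *
          (deg G v / N - avg G (qt G N t) v / N) ^ 2 +
          (1 - t) * min 1 (t * (deg G v / N)) * (avg G (qt G N t) v / N) ^ 2) =
          t * ((1 - qt G N t v) * (deg G v - avg G (qt G N t) v) ^ 2) +
          (1 - t) * (qt G N t v * avg G (qt G N t) v ^ 2) := by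
        have e2 : qt G N t v = min 1 (t * (deg G v / N)) := rfl
        rw [← e2]
        field_simp
      have e2 : N ^ 2 * (al * (deg G v / N) - be * (avg G (qt G N t) v / N)) =
          N * (al * deg G v - be * avg G (qt G N t) v) := by
        field_simp
      rw [e1, e2] at h5
      exact h5
  choose al be h1 h2 using hv
  -- the sum over the pairs
  have e0 : ∀ v, ∑ w, adj G v w * (al v - be v * qt G N t w) =
      al v * deg G v - be v * avg G (qt G N t) v := by
    intro v
    unfold deg avg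
    rw [Finset.mul_sum, Finset.mul_sum, ← Finset.sum_sub_distrib]
    exact Finset.sum_congr rfl fun w _ => by ring
  have step2 : ∑ v, ∑ w, adj G v w * (al v - be v * qt G N t w) ≤ (1 + 2 * ω) * N ^ 2 / 8 := by
    have e1 : ∑ v, ∑ w, adj G v w * (al v - be v * qt G N t w) =
        ∑ v, ∑ w, adj G v w * (al w - be w * qt G N t v) := by
      rw [Finset.sum_comm]
      refine Finset.sum_congr rfl fun v _ => Finset.sum_congr rfl fun w _ => ?_
      rw [adj_comm]
    have e2 : 2 * ∑ v, ∑ w, adj G v w * (al v - be v * qt G N t w) =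
        ∑ v, ∑ w, adj G v w * ((al v - be v * qt G N t w) + (al w - be w * qt G N t v)) := by
      rw [two_mul]
      nth_rewrite 2 [e1]
      rw [← Finset.sum_add_distrib]
      refine Finset.sum_congr rfl fun v _ => ?_
      rw [← Finset.sum_add_distrib]
      exact Finset.sum_congr rfl fun w _ => by ring
    have e3 : ∑ v, ∑ w, adj G v w * ((al v - be v * qt G N t w) +
        (al w - be w * qt G N t v)) ≤ ∑ v, ∑ w, adj G v w * (1 / 4) := by
      refine Finset.sum_le_sum fun v _ => Finset.sum_le_sum fun w _ => ?_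
      rcases adj_zero_or_one G v w with h | h
      · rw [h]; simp
      · have hv := cert_pos G hN h
        have h' : adj G w v = 1 := by rw [adj_comm]; exact h
        have hw := cert_pos G hN h'
        rw [h, one_mul, one_mul]
        exact cert_pair ht ht1 hv hw (h2 v hv) (h2 w hw)
    have e4 : ∑ v, ∑ w, adj G v w * (1 / 4) = (1 + 2 * ω) * N ^ 2 / 4 := by
      have : ∀ v, ∑ w, adj G v w * (1 / 4) = deg G v / 4 := by
        intro v
        rw [← Finset.sum_mul]
        unfold deg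
        ring
      rw [Finset.sum_congr rfl (fun v _ => this v), ← Finset.sum_div, hsum]
    linarith
  have e5 : t * FY0 G (qt G N t) + (1 - t) * FX0 G (qt G N t) =
      ∑ v, (t * ((1 - qt G N t v) * (deg G v - avg G (qt G N t) v) ^ 2) +
      (1 - t) * (qt G N t v * avg G (qt G N t) v ^ 2)) := by
    unfold FX0 FY0
    rw [Finset.mul_sum, Finset.mul_sum, ← Finset.sum_add_distrib]
  rw [e5]
  calc _ ≤ ∑ v, N * (al v * deg G v - be v * avg G (qt G N t) v) :=
        Finset.sum_le_sum fun v _ => h1 v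
    _ = N * ∑ v, ∑ w, adj G v w * (al v - be v * qt G N t w) := by
        rw [Finset.mul_sum]
        exact Finset.sum_congr rfl fun v _ => by rw [e0 v]
    _ ≤ N * ((1 + 2 * ω) * N ^ 2 / 8) := mul_le_mul_of_nonneg_left step2 hN.le
    _ = (1 + 2 * ω) * N ^ 3 / 8 := by ring

end Graph

end Pool.Agent.Helper96.Mu
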