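import Pool.Agent.Helper96.Mu.GBase

/-!
# The maximum version: the balanced random partition (MG-4)
-/

namespace Pool.Agent.Helper96.Mu

open Finset Pool.Agent.Helper39.Mu

set_option linter.unusedSectionVars false

section Graph

variable {V : Type*} [Fintype V] [DecidableEq V] (G : SimpleGraph V)

theorem half_deg_nonneg (v : V) : 0 ≤ deg G v := Finset.sum_nonneg fun w _ => adj_nonneg G v w

open Classical in
theorem half_key {N δ ω : ℝ} (hN : 0 < N) (hδ : 0 < δ) (hδ1 : δ ≤ 1 / 10) (hω : 0 ≤ ω)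
    (hωδ : 5 * ω ≤ δ)
    (hsum : ∑ v, deg G v = (1 + 2 * ω) * N ^ 2) :
    δ * ∑ v ∈ univ.filter (fun v => ¬ deg G v < (1 + δ) * N), deg G v ≤
      ∑ v ∈ univ.filter (fun v => deg G v < (1 + δ) * N), deg G v := by
  set S := univ.filter (fun v => deg G v < (1 + δ) * N) with hS
  set L := univ.filter (fun v => ¬ deg G v < (1 + δ) * N) with hL
  have hsplit : ∑ v ∈ S, deg G v + ∑ v ∈ L, deg G v = (1 + 2 * ω) * N ^ 2 := by
    rw [← hsum]
    exact Finset.sum_filter_add_sum_filter_not _ _ _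
  have hS0 : 0 ≤ ∑ v ∈ S, deg G v := Finset.sum_nonneg fun v _ => half_deg_nonneg G v
  have hLd : ∀ v ∈ L, (1 + δ) * N ≤ deg G v := fun v hv => by
    have := (Finset.mem_filter.mp hv).2
    exact not_lt.mp this
  have hcard : (L.card : ℝ) * ((1 + δ) * N) ≤ (1 + 2 * ω) * N ^ 2 := by
    have h1 : (L.card : ℝ) * ((1 + δ) * N) ≤ ∑ v ∈ L, deg G v := by
      have := Finset.card_nsmul_le_sum L (fun v => deg G v) ((1 + δ) * N) hLd
      rwa [nsmul_eq_mul] at this
    linarith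
  have hcard2 : (L.card : ℝ) * (1 + δ) ≤ (1 + 2 * ω) * N := by
    have h1 : ((L.card : ℝ) * (1 + δ)) * N ≤ ((1 + 2 * ω) * N) * N := by nlinarith
    exact le_of_mul_le_mul_right h1 hN
  have hcard3 : (L.card : ℝ) ≤ (1 - δ) * ((1 + δ) * N) := by
    have h1 : (1 + 2 * ω) ≤ (1 - δ) * (1 + δ) * (1 + δ) := by
      have e1 : δ ^ 2 ≤ δ / 10 := by nlinarith
      have e2 : δ ^ 3 ≤ δ / 10 := by
        calc δ ^ 3 = δ * δ ^ 2 := by ring
          _ ≤ δ * (δ / 10) := mul_le_mul_of_nonneg_left e1 hδ.le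
          _ ≤ δ / 10 := by nlinarith
      have e3 : (1 - δ) * (1 + δ) * (1 + δ) = 1 + δ - δ ^ 2 - δ ^ 3 := by ring
      rw [e3]
      linarith
    have h2 : (L.card : ℝ) * (1 + δ) ≤ ((1 - δ) * ((1 + δ) * N)) * (1 + δ) := by
      calc (L.card : ℝ) * (1 + δ) ≤ (1 + 2 * ω) * N := hcard2
        _ ≤ ((1 - δ) * (1 + δ) * (1 + δ)) * N := mul_le_mul_of_nonneg_right h1 hN.le
        _ = _ := by ring
    exact le_of_mul_le_mul_right h2 (by linarith)
  have hdisj : Disjoint S L := by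
    rw [Finset.disjoint_left]
    intro v h1 h2
    exact (Finset.mem_filter.mp h2).2 (Finset.mem_filter.mp h1).2
  have hun : S ∪ L = univ := by
    ext v
    simp only [hS, hL, Finset.mem_union, Finset.mem_filter, Finset.mem_univ, true_and, iff_true]
    exact Classical.em _
  have hv : ∀ v ∈ L, δ * deg G v ≤ dg G S v := by
    intro v hv
    have h1 : deg G v = dg G S v + dg G L v := by
      rw [← dg_union G hdisj, hun, dg_univ]
    have h2 : dg G L v ≤ L.card := dg_le_card G L v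
    have h3 := hLd v hv
    have h4 : (1 - δ) * ((1 + δ) * N) ≤ (1 - δ) * deg G v :=
      mul_le_mul_of_nonneg_left h3 (by linarith)
    linarith
  calc δ * ∑ v ∈ L, deg G v = ∑ v ∈ L, δ * deg G v := by rw [Finset.mul_sum]
    _ ≤ ∑ v ∈ L, dg G S v := Finset.sum_le_sum hv
    _ = ∑ w ∈ S, dg G L w := sum_dg_comm G L S
    _ ≤ ∑ w ∈ S, deg G w := Finset.sum_le_sum fun w _ => dg_le_deg G L w

theorem half {N δ ω ε : ℝ} (hN : 0 < N) (hδ : 0 < δ) (hδ1 : δ ≤ 1 / 10) (hω : 0 ≤ ω)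
    (hε : 0 ≤ ε) (hε1 : ε ≤ 1) (hωδ : 5 * ω ≤ ε * δ)
    (hsum : ∑ v, deg G v = (1 + 2 * ω) * N ^ 2)
    (hbad : ∀ v, deg G v < (1 + δ) * N → ∑ w, adj G v w * deg G w ≤ (1 - ε) * N ^ 2) :
    FX0 G (qt G N (1 / 2)) ≤ (1 + 2 * ω) * N ^ 3 / 8 := by
  classical
  have hεδ : ε * δ ≤ δ := by nlinarith
  have hkey := half_key G hN hδ hδ1 hω (by linarith) hsum
  set S := univ.filter (fun v => deg G v < (1 + δ) * N) with hS
  set L := univ.filter (fun v => ¬ deg G v < (1 + δ) * N) with hL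
  have hsplit : ∑ v ∈ S, deg G v + ∑ v ∈ L, deg G v = (1 + 2 * ω) * N ^ 2 := by
    rw [← hsum]
    exact Finset.sum_filter_add_sum_filter_not _ _ _
  have hd0 := half_deg_nonneg G
  have hq : ∀ v, qt G N (1 / 2) v ≤ deg G v / (2 * N) := by
    intro v
    refine (min_le_right _ _).trans (le_of_eq ?_)
    field_simp
  have hq0 : ∀ v, 0 ≤ qt G N (1 / 2) v := by
    intro v
    have := hd0 v
    exact le_min zero_le_one (by positivity)
  have havg0 : ∀ v, 0 ≤ avg G (qt G N (1 / 2)) v := fun v =>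
    Finset.sum_nonneg fun w _ => mul_nonneg (adj_nonneg G v w) (hq0 w)
  have havg : ∀ v, avg G (qt G N (1 / 2)) v ≤ (∑ w, adj G v w * deg G w) / (2 * N) := by
    intro v
    unfold avg
    rw [Finset.sum_div]
    refine Finset.sum_le_sum fun w _ => ?_
    calc adj G v w * qt G N (1 / 2) w ≤ adj G v w * (deg G w / (2 * N)) :=
          mul_le_mul_of_nonneg_left (hq w) (adj_nonneg G v w)
      _ = adj G v w * deg G w / (2 * N) := by ring
  have haS : ∀ v ∈ S, avg G (qt G N (1 / 2)) v ≤ (1 - ε) * N / 2 := by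
    intro v hv
    have h1 := hbad v (Finset.mem_filter.mp hv).2
    refine (havg v).trans ?_
    rw [div_le_div_iff₀ (by positivity) (by norm_num)]
    nlinarith
  have haL : ∀ v, avg G (qt G N (1 / 2)) v ≤ (1 + 2 * ω) * N / 2 := by
    intro v
    have h1 : ∑ w, adj G v w * deg G w ≤ (1 + 2 * ω) * N ^ 2 := by
      rw [← hsum]
      refine Finset.sum_le_sum fun w _ => ?_
      rcases adj_zero_or_one G v w with h | h
      · rw [h, zero_mul]
        exact hd0 w
      · rw [h, one_mul]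
    refine (havg v).trans ?_
    rw [div_le_div_iff₀ (by positivity) (by norm_num)]
    nlinarith
  have hterm : ∀ v (a : ℝ), avg G (qt G N (1 / 2)) v ≤ a →
      qt G N (1 / 2) v * avg G (qt G N (1 / 2)) v ^ 2 ≤ deg G v / (2 * N) * a ^ 2 := by
    intro v a ha
    refine mul_le_mul (hq v) (pow_le_pow_left₀ (havg0 v) ha 2) (by positivity) ?_
    have := hd0 v
    positivity
  have hFS : ∑ v ∈ S, qt G N (1 / 2) v * avg G (qt G N (1 / 2)) v ^ 2 ≤
      (N / 8) * ((1 - ε) ^ 2 * ∑ v ∈ S, deg G v) := by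
    rw [Finset.mul_sum, Finset.mul_sum]
    refine Finset.sum_le_sum fun v hv => (hterm v _ (haS v hv)).trans (le_of_eq ?_)
    field_simp
    ring
  have hFL : ∑ v ∈ L, qt G N (1 / 2) v * avg G (qt G N (1 / 2)) v ^ 2 ≤
      (N / 8) * ((1 + 2 * ω) ^ 2 * ∑ v ∈ L, deg G v) := by
    rw [Finset.mul_sum, Finset.mul_sum]
    refine Finset.sum_le_sum fun v hv => (hterm v _ (haL v)).trans (le_of_eq ?_)
    field_simp
    ring
  have hFX : FX0 G (qt G N (1 / 2)) =
      ∑ v ∈ S, qt G N (1 / 2) v * avg G (qt G N (1 / 2)) v ^ 2 +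
      ∑ v ∈ L, qt G N (1 / 2) v * avg G (qt G N (1 / 2)) v ^ 2 := by
    unfold FX0
    exact (Finset.sum_filter_add_sum_filter_not _ _ _).symm
  set DS := ∑ v ∈ S, deg G v with hDS
  set DL := ∑ v ∈ L, deg G v with hDL
  have hDS0 : 0 ≤ DS := Finset.sum_nonneg fun v _ => hd0 v
  have hDL0 : 0 ≤ DL := Finset.sum_nonneg fun v _ => hd0 v
  have hω1 : ω ≤ 1 / 50 := by linarith
  have h1 : (4 * ω + 4 * ω ^ 2) * DL ≤ 5 * ω * DL := by
    apply mul_le_mul_of_nonneg_right _ hDL0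
    nlinarith
  have h2 : 5 * ω * DL ≤ ε * δ * DL := mul_le_mul_of_nonneg_right hωδ hDL0
  have h3 : ε * δ * DL ≤ ε * DS := by
    rw [mul_assoc]
    exact mul_le_mul_of_nonneg_left hkey hε
  have h4 : ε * DS ≤ (2 * ε - ε ^ 2) * DS := by
    apply mul_le_mul_of_nonneg_right _ hDS0
    nlinarith
  have h5 : (1 - ε) ^ 2 * DS + (1 + 2 * ω) ^ 2 * DL ≤ DS + DL := by nlinarith
  calc FX0 G (qt G N (1 / 2)) ≤ (N / 8) * ((1 - ε) ^ 2 * DS) + (N / 8) * ((1 + 2 * ω) ^ 2 * DL) := by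
        rw [hFX]
        exact add_le_add hFS hFL
    _ = (N / 8) * ((1 - ε) ^ 2 * DS + (1 + 2 * ω) ^ 2 * DL) := by ring
    _ ≤ (N / 8) * (DS + DL) := mul_le_mul_of_nonneg_left h5 (by positivity)
    _ = (1 + 2 * ω) * N ^ 3 / 8 := by
        rw [hsplit]
        ring

end Graph

end Pool.Agent.Helper96.Mu
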