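import Mathlib
import Pool.Agent.Helper96.Mu.GBase

/-!
# The maximum version: choice of the parameter `t` and truncation
-/

namespace Pool.Agent.Helper96.Mu

open Finset Pool.Agent.Helper39.Mu

set_option linter.unusedSectionVars false

section Graph

variable {V : Type*} [Fintype V] [DecidableEq V] (G : SimpleGraph V)

lemma givt_deg_nonneg (v : V) : 0 ≤ deg G v :=
  Finset.sum_nonneg fun w _ => adj_nonneg G v w

lemma givt_qt_nonneg {N t : ℝ} (hN : 0 < N) (ht : 0 ≤ t) (v : V) : 0 ≤ qt G N t v := by
  unfold qt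
  have := givt_deg_nonneg G v
  positivity

lemma givt_qt_le_one {N t : ℝ} (v : V) : qt G N t v ≤ 1 := min_le_left _ _

lemma givt_continuous (N : ℝ) : Continuous fun t : ℝ => FX0 G (qt G N t) := by
  unfold FX0 avg qt
  fun_prop

theorem exists_t {N E : ℝ} (hN : 0 < N)
    (h1 : ∀ t, 1 / 2 ≤ t → t ≤ 1 → t * FY0 G (qt G N t) + (1 - t) * FX0 G (qt G N t) ≤ E)
    (h2 : FX0 G (qt G N (1 / 2)) ≤ E) :
    ∃ t, 1 / 2 ≤ t ∧ t ≤ 1 ∧ FX0 G (qt G N t) ≤ E ∧ FY0 G (qt G N t) ≤ E := by
  by_cases h : FX0 G (qt G N 1) ≤ E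
  · refine ⟨1, by norm_num, le_rfl, h, ?_⟩
    have := h1 1 (by norm_num) le_rfl
    linarith
  · have hlt : E < FX0 G (qt G N 1) := not_le.mp h
    obtain ⟨t, ht, hE⟩ := intermediate_value_Icc (show (1 / 2 : ℝ) ≤ 1 by norm_num)
      (givt_continuous G N).continuousOn ⟨h2, hlt.le⟩
    have hE' : FX0 G (qt G N t) = E := hE
    refine ⟨t, ht.1, ht.2, hE'.le, ?_⟩
    have h3 := h1 t ht.1 ht.2
    rw [hE'] at h3
    have ht0 : 0 < t := lt_of_lt_of_le (by norm_num) ht.1
    have h4 : t * FY0 G (qt G N t) ≤ t * E := by linarith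
    exact le_of_mul_le_mul_left h4 ht0

lemma givt_avg_mono {q q' : V → ℝ} (h : ∀ v, q' v ≤ q v) (v : V) : avg G q' v ≤ avg G q v :=
  Finset.sum_le_sum fun w _ => mul_le_mul_of_nonneg_left (h w) (adj_nonneg G v w)

lemma givt_avg_nonneg {q : V → ℝ} (h : ∀ v, 0 ≤ q v) (v : V) : 0 ≤ avg G q v :=
  Finset.sum_nonneg fun w _ => mul_nonneg (adj_nonneg G v w) (h w)

lemma givt_avg_le {q : V → ℝ} (h : ∀ v, q v ≤ 1) (v : V) : avg G q v ≤ deg G v := by
  refine Finset.sum_le_sum fun w _ => ?_
  have := mul_le_mul_of_nonneg_left (h w) (adj_nonneg G v w)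
  rwa [mul_one] at this

/-- Vertices of small degree are put into the second part. -/
theorem trunc {N β t : ℝ} (hN : 0 < N) (hβ : 0 < β) (hβ1 : β ≤ 1) (ht : 1 / 2 ≤ t)
    (ht1 : t ≤ 1) :
    FX0 G (fun v => if deg G v < β * N then 0 else qt G N t v) ≤ FX0 G (qt G N t) ∧
    FY0 G (fun v => if deg G v < β * N then 0 else qt G N t v) ≤
      FY0 G (qt G N t) + 7 * β * N * tot G := by
  set q := qt G N t with hq
  set q' : V → ℝ := fun v => if deg G v < β * N then 0 else q v with hq'
  have ht0 : 0 < t := lt_of_lt_of_le (by norm_num) ht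
  have hq0 : ∀ v, 0 ≤ q v := givt_qt_nonneg G hN ht0.le
  have hq1 : ∀ v, q v ≤ 1 := fun v => givt_qt_le_one G v
  have hle : ∀ v, q' v ≤ q v := by
    intro v
    simp only [hq']
    split_ifs
    · exact hq0 v
    · exact le_rfl
  have hq'0 : ∀ v, 0 ≤ q' v := by
    intro v
    simp only [hq']
    split_ifs
    · exact le_rfl
    · exact hq0 v
  have hgap : ∀ v, q v ≤ q' v + β := by
    intro v
    simp only [hq']
    split_ifs with h
    · have h1 : q v ≤ t * (deg G v / N) := min_le_right _ _
      have h2 : deg G v / N ≤ β := by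
        rw [div_le_iff₀ hN]
        exact h.le
      have h3 : 0 ≤ deg G v / N := div_nonneg (givt_deg_nonneg G v) hN.le
      nlinarith
    · linarith
  have hav : ∀ v, avg G q' v ≤ avg G q v := givt_avg_mono G hle
  have hav' : ∀ v, avg G q v ≤ avg G q' v + β * deg G v := by
    intro v
    unfold avg deg
    rw [Finset.mul_sum, ← Finset.sum_add_distrib]
    refine Finset.sum_le_sum fun w _ => ?_
    have := mul_le_mul_of_nonneg_left (hgap w) (adj_nonneg G v w)
    linarith
  have hav0 : ∀ v, 0 ≤ avg G q' v := givt_avg_nonneg G hq'0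
  have hav1 : ∀ v, avg G q v ≤ deg G v := givt_avg_le G hq1
  constructor
  · unfold FX0
    refine Finset.sum_le_sum fun v _ => ?_
    exact mul_le_mul (hle v) (pow_le_pow_left₀ (hav0 v) (hav v) 2) (sq_nonneg _) (hq0 v)
  · unfold FY0 tot
    rw [Finset.mul_sum, ← Finset.sum_add_distrib]
    refine Finset.sum_le_sum fun v _ => ?_
    have hd := givt_deg_nonneg G v
    have ha := hav0 v
    have hb := hav v
    have hc := hav' v
    have he := hav1 v
    have hβN : 0 < β * N := mul_pos hβ hN
    by_cases h : deg G v < β * N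
    · have e1 : q' v = 0 := by simp only [hq']; rw [if_pos h]
      rw [e1]
      have h1 : 0 ≤ (1 - q v) * (deg G v - avg G q v) ^ 2 :=
        mul_nonneg (by linarith [hq1 v]) (sq_nonneg _)
      have h2 : (deg G v - avg G q' v) ^ 2 ≤ deg G v ^ 2 :=
        pow_le_pow_left₀ (by linarith) (by linarith) 2
      have h3 : deg G v ^ 2 ≤ β * N * deg G v := by nlinarith
      have h4 : 0 ≤ β * N * deg G v := by positivity
      nlinarith
    · have e1 : q' v = q v := by simp only [hq']; rw [if_neg h]
      rw [e1]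
      rcases (hq1 v).eq_or_lt with h1 | h1
      · rw [h1]
        have : 0 ≤ 7 * β * N * deg G v := by positivity
        linarith
      · have h2 : deg G v ≤ 2 * N := by
          by_contra hcon
          have h3 : 1 ≤ t * (deg G v / N) := by
            rw [mul_div_assoc', le_div_iff₀ hN]
            nlinarith [not_le.mp hcon]
          have h4 : q v = 1 := by
            rw [hq]; unfold qt; exact min_eq_left h3
          linarith
        have h3 : (deg G v - avg G q' v) ^ 2 ≤
            (deg G v - avg G q v + β * deg G v) ^ 2 :=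
          pow_le_pow_left₀ (by linarith) (by linarith) 2
        have h4 : (deg G v - avg G q v + β * deg G v) ^ 2 ≤
            (deg G v - avg G q v) ^ 2 + 6 * (β * N * deg G v) := by
          have h5 : 0 ≤ deg G v - avg G q v := by linarith
          have h6 : deg G v - avg G q v ≤ deg G v := by linarith
          have h7 : (deg G v - avg G q v) * (β * deg G v) ≤ deg G v * (β * deg G v) :=
            mul_le_mul_of_nonneg_right h6 (by positivity)
          have h8 : (β * deg G v) ^ 2 ≤ β * deg G v ^ 2 := by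
            have : β * (β * deg G v ^ 2) ≤ 1 * (β * deg G v ^ 2) :=
              mul_le_mul_of_nonneg_right hβ1 (by positivity)
            nlinarith
          have h9 : β * deg G v ^ 2 ≤ 2 * (β * N * deg G v) := by
            have : β * deg G v * deg G v ≤ β * deg G v * (2 * N) :=
              mul_le_mul_of_nonneg_left h2 (by positivity)
            nlinarith
          nlinarith
        have h5 : (1 - q v) * (deg G v - avg G q' v) ^ 2 ≤
            (1 - q v) * ((deg G v - avg G q v) ^ 2 + 6 * (β * N * deg G v)) :=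
          mul_le_mul_of_nonneg_left (h3.trans h4) (by linarith)
        have h6 : (1 - q v) * (6 * (β * N * deg G v)) ≤ 6 * (β * N * deg G v) := by
          have : 0 ≤ β * N * deg G v := by positivity
          nlinarith [hq0 v]
        have h7 : 0 ≤ β * N * deg G v := by positivity
        nlinarith

end Graph

end Pool.Agent.Helper96.Mu
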