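import Mathlib
import Pool.Agent.Helper96.Mu.AsmF2
import Pool.Agent.Helper96.Mu.GBase

/-!
# Moving one good vertex of the near clique
-/

namespace Pool.Agent.Helper96.Mu

open Finset Pool.Agent.Helper39.Mu

set_option linter.unusedSectionVars false

/-- The numerical part of `step`: the size of the near clique. -/
private lemma step_card {N a m e : ℝ} (hN : 10 ^ 12 ≤ N) (ha : 0 ≤ a) (hm : 0 ≤ m) (he : 0 ≤ e)
    (hp : m + e ≤ N ^ 2 / 10 ^ 10) (h : e - m = (N ^ 2 - a * (a - 1)) / 2) :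
    |a - N| ≤ N / 10 ^ 9 := by
  have hN2 : (10 : ℝ) ^ 12 * N ≤ N ^ 2 := by nlinarith
  have hNp : 0 < N := by linarith
  rw [abs_le]
  constructor
  · by_contra hcon
    push Not at hcon
    have h1 : a ≤ (1 - 1 / 10 ^ 9) * N := by linarith
    have h2 : a * a ≤ ((1 - 1 / 10 ^ 9) * N) * ((1 - 1 / 10 ^ 9) * N) :=
      mul_le_mul h1 h1 ha (by nlinarith)
    norm_num at *
    nlinarith
  · by_contra hcon
    push Not at hcon
    have h1 : (1 + 1 / 10 ^ 9) * N ≤ a := by linarith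
    have h2 : ((1 + 1 / 10 ^ 9) * N) * ((1 + 1 / 10 ^ 9) * N - 1) ≤ a * (a - 1) :=
      mul_le_mul h1 (by linarith) (by nlinarith) ha
    norm_num at *
    nlinarith

/-- The numerical part of `step`. -/
private lemma step_num {N s D t o m e Δ : ℝ} (hN : 10 ^ 12 ≤ N) (hm : 0 ≤ m) (he : 0 ≤ e)
    (hp : m + e ≤ N ^ 2 / 10 ^ 10) (hs : |s - N / 2| ≤ 2 / 10 ^ 8 * N)
    (ht : 0 ≤ t) (ho : 0 ≤ o) (hto : t + o ≤ N / 10 ^ 8)
    (hD1 : s - 1 - t ≤ D) (hD2 : D ≤ s - 1 + o)
    (hlo : D ^ 2 + 2 * ((s - 1) * (s - 2) - 2 * m - (s - 1) * t) ≤ Δ)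
    (hhi : Δ ≤ D ^ 2 + 2 * (s * (s - 1) + 2 * e) + D) :
    |Δ - 3 / 4 * N ^ 2| ≤ N ^ 2 / 10 ^ 6 := by
  have hN2 : (10 : ℝ) ^ 12 * N ≤ N ^ 2 := by nlinarith
  have hNp : 0 < N := by linarith
  rw [abs_le] at hs ⊢
  obtain ⟨hs1, hs2⟩ := hs
  have hs1' : (1 / 2 - 2 / 10 ^ 8) * N ≤ s := by linarith
  have hs2' : s ≤ (1 / 2 + 2 / 10 ^ 8) * N := by linarith
  have hD1' : (1 / 2 - 4 / 10 ^ 8) * N ≤ D := by
    have : (10 : ℝ) ^ 12 * 1 ≤ N := by linarith
    norm_num at *; linarith
  have hD2' : D ≤ (1 / 2 + 4 / 10 ^ 8) * N := by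
    norm_num at *; linarith
  have hDp : 0 ≤ D := le_trans (by norm_num; positivity) hD1'
  have hsp : 0 ≤ s := le_trans (by norm_num; positivity) hs1'
  have hDsq1 : ((1 / 2 - 4 / 10 ^ 8) * N) ^ 2 ≤ D ^ 2 :=
    pow_le_pow_left₀ (by norm_num; positivity) hD1' 2
  have hDsq2 : D ^ 2 ≤ ((1 / 2 + 4 / 10 ^ 8) * N) ^ 2 := pow_le_pow_left₀ hDp hD2' 2
  have hssq1 : ((1 / 2 - 2 / 10 ^ 8) * N) ^ 2 ≤ s ^ 2 :=
    pow_le_pow_left₀ (by norm_num; positivity) hs1' 2
  have hssq2 : s ^ 2 ≤ ((1 / 2 + 2 / 10 ^ 8) * N) ^ 2 := pow_le_pow_left₀ hsp hs2' 2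
  have hst : (s - 1) * t ≤ (1 / 2 + 2 / 10 ^ 8) * N * (N / 10 ^ 8) :=
    mul_le_mul (by linarith) (by linarith) ht (by norm_num; positivity)
  constructor
  · norm_num at *
    nlinarith
  · norm_num at *
    nlinarith

section Graph

variable {V : Type*} [Fintype V] [DecidableEq V] (G : SimpleGraph V)

private lemma e2_le_card (K : Finset V) : e2 G K ≤ K.card * (K.card - 1) := by
  have h := mis_nonneg G K
  unfold mis at h
  linarith

private lemma mis_mono {T B : Finset V} (h : T ⊆ B) : mis G T ≤ mis G B := by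
  have h1 := mis_union G (Finset.disjoint_sdiff (s := T) (t := B))
  rw [Finset.union_sdiff_of_subset h] at h1
  have h2 : 0 ≤ ∑ v ∈ B \ T, ((T.card : ℝ) - dg G T v) :=
    Finset.sum_nonneg fun v _ => sub_nonneg.mpr (dg_le_card G T v)
  have h3 := e2_le_card G (B \ T)
  linarith

/-- The number of vertices of `B` missed by `v` is monotone in `B`. -/
private lemma miss_mono {T B : Finset V} (h : T ⊆ B) (v : V) :
    (T.card : ℝ) - dg G T v ≤ (B.card : ℝ) - dg G B v := by
  have h1 : dg G B v = dg G T v + dg G (B \ T) v := by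
    rw [← dg_union G Finset.disjoint_sdiff, Finset.union_sdiff_of_subset h]
  have h2 := dg_le_card G (B \ T) v
  have h3 : (B.card : ℝ) = T.card + (B \ T).card := by
    have := Finset.card_sdiff_add_card_eq_card h
    rw [← this]; push_cast; ring
  linarith

private lemma dg_erase {A : Finset V} {v w : V} (hv : v ∈ A) :
    dg G A w = dg G (A.erase v) w + adj G w v := by
  unfold dg
  rw [Finset.sum_erase_add _ _ hv]

private lemma sq_erase {A : Finset V} {v : V} (hv : v ∈ A) :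
    sq G A = sq G (A.erase v) + dg G A v ^ 2 +
      ∑ w ∈ A.erase v, adj G w v * (2 * dg G (A.erase v) w + 1) := by
  unfold sq
  rw [← Finset.sum_erase_add _ _ hv]
  have h1 : ∑ w ∈ A.erase v, dg G A w ^ 2 = ∑ w ∈ A.erase v, dg G (A.erase v) w ^ 2 +
      ∑ w ∈ A.erase v, adj G w v * (2 * dg G (A.erase v) w + 1) := by
    rw [← Finset.sum_add_distrib]
    refine Finset.sum_congr rfl fun w _ => ?_
    rw [dg_erase G hv]
    have := adj_sq G w v
    linear_combination this
  rw [h1]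
  ring

theorem step {N : ℝ} {B K S : Finset V} (hN : 10 ^ 12 ≤ N) (hsum : tot G = N ^ 2)
    (hp : mis G B + ext G B ≤ N ^ 2 / 10 ^ 10)
    (hBK : Disjoint B K) (hS : S ⊆ B)
    (hs : |(S.card : ℝ) - B.card / 2| ≤ N / 10 ^ 8) {v : V} (hv : v ∈ S)
    (hgood : ((B.card : ℝ) - 1 - dg G B v) + dg G K v ≤ N / 10 ^ 8) :
    |sq G (S ∪ K) - sq G ((S.erase v) ∪ K) - 3 / 4 * N ^ 2| ≤ N ^ 2 / 10 ^ 6 := by
  have hm := mis_nonneg G B
  have he := ext_nonneg G B
  have hvB : v ∈ B := hS hv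
  have hvK : v ∉ K := Finset.disjoint_left.mp hBK hvB
  have hvX : v ∈ S ∪ K := Finset.mem_union_left _ hv
  have hNp : 0 < N := by linarith
  have hSK : Disjoint S K := Finset.disjoint_of_subset_left hS hBK
  have hY : (S ∪ K).erase v = S.erase v ∪ K := by
    rw [Finset.erase_union_distrib, Finset.erase_eq_of_notMem hvK]
  have hcard : |(B.card : ℝ) - N| ≤ N / 10 ^ 9 := by
    refine step_card hN (Nat.cast_nonneg _) hm he hp ?_
    rw [ext_sub_mis, hsum]
  have hs' : |(S.card : ℝ) - N / 2| ≤ 2 / 10 ^ 8 * N := by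
    rw [abs_le] at hs hcard ⊢
    obtain ⟨h1, h2⟩ := hs
    obtain ⟨h3, h4⟩ := hcard
    norm_num at *
    constructor <;> linarith
  -- the degree of `v`
  have hD : dg G (S ∪ K) v = dg G S v + dg G K v := dg_union G hSK v
  have hmv := miss_mono G hS v
  have ht0 := dg_le_card_sub_one G hvB
  have ho0 := dg_nonneg G K v
  have hSv := dg_le_card_sub_one G hv
  -- the identity
  have hid := sq_erase G hvX
  rw [hY] at hid
  -- the upper bound
  have hup : ∑ w ∈ S.erase v ∪ K, adj G w v * (2 * dg G (S.erase v ∪ K) w + 1) ≤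
      2 * ((S.card : ℝ) * (S.card - 1) + 2 * ext G B) + dg G (S ∪ K) v := by
    have h1 : ∑ w ∈ S.erase v ∪ K, adj G w v * (2 * dg G (S.erase v ∪ K) w + 1) ≤
        2 * e2 G (S.erase v ∪ K) + dg G (S.erase v ∪ K) v := by
      unfold e2
      rw [Finset.mul_sum]
      unfold dg
      rw [← Finset.sum_add_distrib]
      refine Finset.sum_le_sum fun w _ => ?_
      have h2 := adj_le_one G w v
      have h3 := adj_nonneg G w v
      have h4 : 0 ≤ ∑ x ∈ S.erase v ∪ K, adj G w x := dg_nonneg G (S.erase v ∪ K) w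
      rw [adj_comm G v w]
      nlinarith
    have h2 : e2 G (S.erase v ∪ K) ≤ e2 G (S ∪ K) := by
      unfold e2
      calc ∑ w ∈ S.erase v ∪ K, dg G (S.erase v ∪ K) w
          ≤ ∑ w ∈ S.erase v ∪ K, dg G (S ∪ K) w := Finset.sum_le_sum fun w _ =>
            dg_mono G (Finset.union_subset_union (Finset.erase_subset _ _) le_rfl) w
        _ ≤ _ := Finset.sum_le_sum_of_subset_of_nonneg
            (Finset.union_subset_union (Finset.erase_subset _ _) le_rfl)
            fun w _ _ => dg_nonneg G _ w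
    have h3 := e2_union G hSK
    have h4 := e2_le_card G S
    have h5 := ext_nonneg G (B ∪ K)
    rw [ext_union G hBK] at h5
    have h6 : ∑ w ∈ K, dg G S w ≤ ∑ w ∈ K, dg G B w :=
      Finset.sum_le_sum fun w _ => dg_mono G hS w
    have h7 : dg G (S.erase v ∪ K) v ≤ dg G (S ∪ K) v :=
      dg_mono G (Finset.union_subset_union (Finset.erase_subset _ _) le_rfl) v
    linarith
  -- the lower bound
  have hlo : 2 * (((S.card : ℝ) - 1) * (S.card - 2) - 2 * mis G B -
      (S.card - 1) * ((B.card : ℝ) - 1 - dg G B v)) ≤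
      ∑ w ∈ S.erase v ∪ K, adj G w v * (2 * dg G (S.erase v ∪ K) w + 1) := by
    have hT : ((S.erase v).card : ℝ) = S.card - 1 := by
      rw [Finset.card_erase_of_mem hv, Nat.cast_sub (Finset.card_pos.mpr ⟨v, hv⟩)]
      simp
    have h1 : ∑ w ∈ S.erase v, adj G w v * (2 * dg G (S.erase v) w) ≤
        ∑ w ∈ S.erase v ∪ K, adj G w v * (2 * dg G (S.erase v ∪ K) w + 1) := by
      calc ∑ w ∈ S.erase v, adj G w v * (2 * dg G (S.erase v) w)
          ≤ ∑ w ∈ S.erase v, adj G w v * (2 * dg G (S.erase v ∪ K) w + 1) := by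
            refine Finset.sum_le_sum fun w _ => ?_
            have h2 := dg_mono G (Finset.subset_union_left (s₁ := S.erase v) (s₂ := K)) w
            exact mul_le_mul_of_nonneg_left (by linarith) (adj_nonneg G w v)
        _ ≤ _ := Finset.sum_le_sum_of_subset_of_nonneg Finset.subset_union_left
            fun w _ _ => mul_nonneg (adj_nonneg G w v)
              (by have := dg_nonneg G (S.erase v ∪ K) w; linarith)
    have h2 : ∑ w ∈ S.erase v, adj G w v * (2 * dg G (S.erase v) w) =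
        2 * e2 G (S.erase v) - 2 * ∑ w ∈ S.erase v, (1 - adj G v w) * dg G (S.erase v) w := by
      unfold e2
      rw [Finset.mul_sum, Finset.mul_sum, ← Finset.sum_sub_distrib]
      refine Finset.sum_congr rfl fun w _ => ?_
      rw [adj_comm G v w]
      ring
    have h3 : ∑ w ∈ S.erase v, (1 - adj G v w) * dg G (S.erase v) w ≤
        ∑ w ∈ S.erase v, (1 - adj G v w) * ((S.card : ℝ) - 1) := by
      refine Finset.sum_le_sum fun w _ => ?_
      refine mul_le_mul_of_nonneg_left ?_ (by have := adj_le_one G v w; linarith)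
      rw [← hT]
      exact dg_le_card G _ w
    have h4 : ∑ w ∈ S.erase v, (1 - adj G v w) * ((S.card : ℝ) - 1) =
        ((S.card : ℝ) - 1 - dg G S v) * ((S.card : ℝ) - 1) := by
      rw [← Finset.sum_mul, Finset.sum_sub_distrib, Finset.sum_const, nsmul_eq_mul, mul_one, hT,
        dg_erase G hv, adj_self, add_zero]
      rfl
    have h5 : ((S.card : ℝ) - 1 - dg G S v) * ((S.card : ℝ) - 1) ≤
        ((B.card : ℝ) - 1 - dg G B v) * ((S.card : ℝ) - 1) := by
      refine mul_le_mul_of_nonneg_right (by linarith) ?_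
      rw [← hT]; exact Nat.cast_nonneg _
    have h6 := mis_mono G ((Finset.erase_subset v S).trans hS)
    have h7 : e2 G (S.erase v) = ((S.card : ℝ) - 1) * (S.card - 2) - 2 * mis G (S.erase v) := by
      unfold mis
      rw [hT]; ring
    linarith
  refine step_num (t := (B.card : ℝ) - 1 - dg G B v) (o := dg G K v) hN hm he hp hs'
    (by linarith) ho0 hgood (D := dg G (S ∪ K) v) (s := S.card) ?_ ?_ ?_ ?_
  · rw [hD]; linarith
  · rw [hD]; linarith
  · linarith
  · linarith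

end Graph

end Pool.Agent.Helper96.Mu
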