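import Mathlib
import Pool.Agent.Helper96.Mu.GBase
import Pool.Agent.Helper96.Mu.GAvg
import Pool.Agent.Helper96.Mu.GStep

/-!
# The maximum version: rebalancing the two parts
-/

namespace Pool.Agent.Helper96.Mu

open Finset Pool.Agent.Helper39.Mu

set_option linter.unusedSectionVars false

section Num

/-- `a` is close to `N`. -/
private lemma a_near {a N m x : ℝ} (hN : 10 ^ 12 ≤ N) (ha : 0 ≤ a) (hm : 0 ≤ m) (hx : 0 ≤ x)
    (h : a * (a - 1) - 2 * m + 2 * x = N ^ 2) (hp : m + x ≤ N ^ 2 / 10 ^ 10) :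
    (1 - 1 / 10 ^ 9) * N ≤ a ∧ a ≤ (1 + 1 / 10 ^ 9) * N := by
  have hN0 : 0 < N := by linarith
  have hN2 : 0 < N ^ 2 := by positivity
  constructor
  · by_contra hcon
    push Not at hcon
    have h1 : a ^ 2 ≤ ((1 - 1 / 10 ^ 9) * N) ^ 2 := by
      apply pow_le_pow_left₀ ha hcon.le
    have h2 : ((1 - 1 / 10 ^ 9) * N) ^ 2 = (1 - 1 / 10 ^ 9) ^ 2 * N ^ 2 := by ring
    rw [h2] at h1
    norm_num at h1 hp
    nlinarith
  · by_contra hcon
    push Not at hcon
    have h1 : (1 + 9 / 10 ^ 10) * N ≤ a - 1 := by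
      norm_num at hcon ⊢
      linarith
    have h2 : ((1 + 1 / 10 ^ 9) * N) * ((1 + 9 / 10 ^ 10) * N) ≤ a * (a - 1) := by
      apply mul_le_mul hcon.le h1 (by positivity) ha
    have h3 : ((1 + 1 / 10 ^ 9) * N) * ((1 + 9 / 10 ^ 10) * N) =
      (1 + 1 / 10 ^ 9) * (1 + 9 / 10 ^ 10) * N ^ 2 := by ring
    rw [h3] at h2
    norm_num at h2 hp
    nlinarith

/-- The difference of the values of two almost equal cliques. -/
private lemma b_diff {a N s : ℝ} (hN : 10 ^ 12 ≤ N) (ha1 : (1 - 1 / 10 ^ 9) * N ≤ a)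
    (ha2 : a ≤ (1 + 1 / 10 ^ 9) * N) (hs : |s - a / 2| ≤ 1 / 2) :
    |s * (s - 1) ^ 2 - (a - s) * ((a - s) - 1) ^ 2| ≤ 3 / 4 * (1 + 3 / 10 ^ 9) * N ^ 2 := by
  have hN0 : 0 < N := by linarith
  obtain ⟨d, hd⟩ : ∃ d, d = s - a / 2 := ⟨_, rfl⟩
  rw [← hd] at hs
  have e : s * (s - 1) ^ 2 - (a - s) * ((a - s) - 1) ^ 2 =
      (2 * d) * (3 / 4 * a ^ 2 - 2 * a + 1 + d ^ 2) := by
    have : s = a / 2 + d := by rw [hd]; ring
    rw [this]; ring
  have hd2 : d ^ 2 ≤ 1 / 4 := by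
    have := abs_le.mp hs
    nlinarith
  have ha10 : 10 ≤ a := by norm_num at ha1; linarith
  have h1 : 0 ≤ 3 / 4 * a ^ 2 - 2 * a + 1 + d ^ 2 := by nlinarith [sq_nonneg d]
  have h2 : 3 / 4 * a ^ 2 - 2 * a + 1 + d ^ 2 ≤ 3 / 4 * a ^ 2 := by linarith
  have h3 : a ^ 2 ≤ ((1 + 1 / 10 ^ 9) * N) ^ 2 := pow_le_pow_left₀ (by linarith) ha2 2
  have h4 : ((1 + 1 / 10 ^ 9) * N) ^ 2 ≤ (1 + 3 / 10 ^ 9) * N ^ 2 := by
    have : ((1 + 1 / 10 ^ 9) * N) ^ 2 = (1 + 1 / 10 ^ 9) ^ 2 * N ^ 2 := by ring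
    rw [this]
    apply mul_le_mul_of_nonneg_right _ (by positivity)
    norm_num
  rw [e, abs_mul, abs_of_nonneg h1]
  have h5 : |2 * d| ≤ 1 := by
    rw [abs_mul, abs_of_pos (by norm_num : (0 : ℝ) < 2)]
    linarith
  calc |2 * d| * (3 / 4 * a ^ 2 - 2 * a + 1 + d ^ 2)
      ≤ 1 * (3 / 4 * a ^ 2 - 2 * a + 1 + d ^ 2) := mul_le_mul_of_nonneg_right h5 h1
    _ ≤ 3 / 4 * (1 + 3 / 10 ^ 9) * N ^ 2 := by linarith

end Num

section Graph

variable {V : Type*} [Fintype V] [DecidableEq V] (G : SimpleGraph V)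

private lemma e2_nn (K : Finset V) : 0 ≤ e2 G K := Finset.sum_nonneg fun v _ => dg_nonneg G K v

private lemma cross_le {B K : Finset V} (h : Disjoint B K) :
    ∑ v ∈ K, dg G B v + e2 G K / 2 ≤ ext G B := by
  have h1 : e2 G (B ∪ K) = e2 G B + 2 * ∑ v ∈ K, dg G B v + e2 G K := by
    unfold e2
    rw [Finset.sum_union h]
    simp only [dg_union G h, Finset.sum_add_distrib]
    rw [sum_dg_comm G B K]
    ring
  have h2 : e2 G (B ∪ K) ≤ tot G := by
    unfold e2 tot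
    calc ∑ v ∈ B ∪ K, dg G (B ∪ K) v ≤ ∑ v ∈ B ∪ K, deg G v :=
          Finset.sum_le_sum fun v _ => dg_le_deg G _ v
      _ ≤ ∑ v, deg G v := Finset.sum_le_sum_of_subset_of_nonneg (Finset.subset_univ _)
          fun v _ _ => by rw [← dg_univ]; exact dg_nonneg G _ v
  unfold ext
  linarith

private lemma two_mis (B : Finset V) :
    ∑ v ∈ B, ((B.card : ℝ) - 1 - dg G B v) = 2 * mis G B := by
  unfold mis e2
  rw [Finset.sum_sub_distrib, Finset.sum_const, nsmul_eq_mul]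
  ring

private lemma mis_nn (B : Finset V) : 0 ≤ mis G B := by
  have h := two_mis G B
  have h1 : 0 ≤ ∑ v ∈ B, ((B.card : ℝ) - 1 - dg G B v) :=
    Finset.sum_nonneg fun v hv => by linarith [dg_le_card_sub_one G hv]
  linarith

private lemma ext_nn (B : Finset V) : 0 ≤ ext G B := by
  have h := cross_le G (B := B) (K := ∅) (Finset.disjoint_empty_right B)
  have h2 := e2_nn G (∅ : Finset V)
  simp only [Finset.sum_empty] at h
  linarith

/-- The cost of a part. -/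
private lemma cost_bound {N : ℝ} {B K S : Finset V} (hN : 0 < N) (hBK : Disjoint B K)
    (hS : S ⊆ B) (hs : (S.card : ℝ) ≤ 51 / 100 * N) (hout : ∀ v ∈ B, dg G K v ≤ N / 80)
    (hcap : ∀ k ∈ K, dg G (S ∪ K) k ≤ 52 / 100 * N) :
    |sq G (S ∪ K) - (S.card : ℝ) * ((S.card : ℝ) - 1) ^ 2| ≤
      208 / 100 * N * (mis G B + ext G B) := by
  have hSK : Disjoint S K := Finset.disjoint_of_subset_left hS hBK
  have hcr := cross_le G hBK
  have hmis := two_mis G B
  have hmono : ∀ k, dg G S k ≤ dg G B k := dg_mono G hS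
  -- missing pairs
  have hT : ∑ v ∈ S, ((S.card : ℝ) - 1 - dg G S v) ≤ 2 * mis G B := by
    rw [← hmis]
    calc ∑ v ∈ S, ((S.card : ℝ) - 1 - dg G S v)
        ≤ ∑ v ∈ S, ((B.card : ℝ) - 1 - dg G B v) := by
          refine Finset.sum_le_sum fun v _ => ?_
          have h1 : dg G B v = dg G S v + dg G (B \ S) v := by
            rw [← dg_union G Finset.disjoint_sdiff, Finset.union_sdiff_of_subset hS]
          have h2 := dg_le_card G (B \ S) v
          have h3 : ((B \ S).card : ℝ) = B.card - S.card := by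
            rw [Finset.card_sdiff_of_subset hS, Nat.cast_sub (Finset.card_le_card hS)]
          rw [h3] at h2
          linarith
      _ ≤ ∑ v ∈ B, ((B.card : ℝ) - 1 - dg G B v) :=
          Finset.sum_le_sum_of_subset_of_nonneg hS
            fun v hv _ => by linarith [dg_le_card_sub_one G hv]
  have hO : ∑ v ∈ S, dg G K v ≤ ext G B := by
    rw [sum_dg_comm G S K]
    have : ∑ w ∈ K, dg G S w ≤ ∑ w ∈ K, dg G B w := Finset.sum_le_sum fun w _ => hmono w
    linarith [e2_nn G K]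
  have hK : ∑ k ∈ K, dg G (S ∪ K) k ≤ 2 * ext G B := by
    have h1 : ∑ k ∈ K, dg G (S ∪ K) k = ∑ k ∈ K, dg G S k + e2 G K := by
      unfold e2
      rw [← Finset.sum_add_distrib]
      exact Finset.sum_congr rfl fun k _ => dg_union G hSK k
    have : ∑ w ∈ K, dg G S w ≤ ∑ w ∈ K, dg G B w := Finset.sum_le_sum fun w _ => hmono w
    have h2 : 0 ≤ ∑ w ∈ K, dg G B w := Finset.sum_nonneg fun w _ => dg_nonneg G B w
    rw [h1]
    linarith
  -- decomposition
  have e1 : sq G (S ∪ K) - (S.card : ℝ) * ((S.card : ℝ) - 1) ^ 2 =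
      ∑ v ∈ S, ((dg G S v + dg G K v) ^ 2 - ((S.card : ℝ) - 1) ^ 2) +
        ∑ k ∈ K, dg G (S ∪ K) k ^ 2 := by
    rw [sq_union G hSK, Finset.sum_sub_distrib, Finset.sum_const, nsmul_eq_mul]
    simp only [dg_union G hSK]
    ring
  have h1 : |∑ v ∈ S, ((dg G S v + dg G K v) ^ 2 - ((S.card : ℝ) - 1) ^ 2)| ≤
      104 / 100 * N * (2 * mis G B + ext G B) := by
    calc |∑ v ∈ S, ((dg G S v + dg G K v) ^ 2 - ((S.card : ℝ) - 1) ^ 2)|
        ≤ ∑ v ∈ S, |(dg G S v + dg G K v) ^ 2 - ((S.card : ℝ) - 1) ^ 2| :=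
          Finset.abs_sum_le_sum_abs _ _
      _ ≤ ∑ v ∈ S, 104 / 100 * N * (((S.card : ℝ) - 1 - dg G S v) + dg G K v) := by
          refine Finset.sum_le_sum fun v hv => ?_
          have a1 : 0 ≤ (S.card : ℝ) - 1 - dg G S v := by linarith [dg_le_card_sub_one G hv]
          have a2 : 0 ≤ dg G K v := dg_nonneg G K v
          have a3 := hout v (hS hv)
          have a4 := dg_nonneg G S v
          obtain ⟨t, ht⟩ : ∃ t, t = (S.card : ℝ) - 1 - dg G S v := ⟨_, rfl⟩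
          obtain ⟨o, ho⟩ : ∃ o, o = dg G K v := ⟨_, rfl⟩
          have e : (dg G S v + dg G K v) ^ 2 - ((S.card : ℝ) - 1) ^ 2 =
              (o - t) * ((2 * dg G S v + t) + o) := by
            rw [ht, ho]; ring
          rw [e, ← ht, ← ho, abs_mul]
          rw [← ht] at a1
          rw [← ho] at a2 a3
          have b1 : |o - t| ≤ t + o := by rw [abs_le]; constructor <;> linarith
          have b2 : |(2 * dg G S v + t) + o| ≤ 104 / 100 * N := by
            rw [abs_of_nonneg (by linarith)]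
            linarith
          calc |o - t| * |(2 * dg G S v + t) + o| ≤ (t + o) * (104 / 100 * N) :=
                mul_le_mul b1 b2 (abs_nonneg _) (by linarith)
            _ = 104 / 100 * N * (t + o) := by ring
      _ = 104 / 100 * N * (∑ v ∈ S, ((S.card : ℝ) - 1 - dg G S v) + ∑ v ∈ S, dg G K v) := by
          rw [← Finset.mul_sum, Finset.sum_add_distrib]
      _ ≤ _ := by
          apply mul_le_mul_of_nonneg_left _ (by positivity)
          linarith
  have h2 : 0 ≤ ∑ k ∈ K, dg G (S ∪ K) k ^ 2 := Finset.sum_nonneg fun k _ => sq_nonneg _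
  have h3 : ∑ k ∈ K, dg G (S ∪ K) k ^ 2 ≤ 104 / 100 * N * ext G B := by
    calc ∑ k ∈ K, dg G (S ∪ K) k ^ 2 ≤ ∑ k ∈ K, 52 / 100 * N * dg G (S ∪ K) k := by
          refine Finset.sum_le_sum fun k hk => ?_
          rw [pow_two]
          exact mul_le_mul_of_nonneg_right (hcap k hk) (dg_nonneg G _ k)
      _ = 52 / 100 * N * ∑ k ∈ K, dg G (S ∪ K) k := by rw [Finset.mul_sum]
      _ ≤ 52 / 100 * N * (2 * ext G B) := mul_le_mul_of_nonneg_left hK (by positivity)
      _ = _ := by ring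
  rw [e1]
  have h4 := abs_le.mp h1
  rw [abs_le]
  constructor
  · nlinarith [mul_nonneg hN.le (ext_nn G B), mul_nonneg hN.le (mis_nn G B)]
  · nlinarith [mul_nonneg hN.le (ext_nn G B), mul_nonneg hN.le (mis_nn G B)]

/-- One move. -/
private lemma move_one {N : ℝ} {B K1 K2 S : Finset V} (hN : 10 ^ 12 ≤ N)
    (hsum : tot G = N ^ 2) (hp : mis G B + ext G B ≤ N ^ 2 / 10 ^ 10)
    (h1 : Disjoint B K1) (h2 : Disjoint B K2)
    (hcross : ∑ v ∈ B, (dg G K1 v + dg G K2 v) ≤ ext G B) (hS : S ⊆ B)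
    (ha : 98 / 100 * N ≤ B.card) (hs : |(S.card : ℝ) - B.card / 2| ≤ N / 10 ^ 8 - 1) :
    ∃ v ∈ S, |sq G (S ∪ K1) - sq G (S.erase v ∪ K1) - 3 / 4 * N ^ 2| ≤ N ^ 2 / 10 ^ 6 ∧
      |sq G ((B \ S.erase v) ∪ K2) - sq G ((B \ S) ∪ K2) - 3 / 4 * N ^ 2| ≤ N ^ 2 / 10 ^ 6 := by
  have hN0 : 0 < N := by linarith
  have hsl := abs_le.mp hs
  have hgood : ∃ v ∈ S, ((B.card : ℝ) - 1 - dg G B v) + (dg G K1 v + dg G K2 v) ≤
      N / 10 ^ 8 := by
    by_contra hcon
    push Not at hcon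
    have a1 : (S.card : ℝ) * (N / 10 ^ 8) ≤
        ∑ v ∈ S, (((B.card : ℝ) - 1 - dg G B v) + (dg G K1 v + dg G K2 v)) := by
      calc (S.card : ℝ) * (N / 10 ^ 8) = ∑ v ∈ S, (N / 10 ^ 8) := by
            rw [Finset.sum_const, nsmul_eq_mul]
        _ ≤ _ := Finset.sum_le_sum fun v hv => (hcon v hv).le
    have a2 : ∑ v ∈ S, (((B.card : ℝ) - 1 - dg G B v) + (dg G K1 v + dg G K2 v)) ≤
        ∑ v ∈ B, (((B.card : ℝ) - 1 - dg G B v) + (dg G K1 v + dg G K2 v)) :=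
      Finset.sum_le_sum_of_subset_of_nonneg hS fun v hv _ => by
        linarith [dg_le_card_sub_one G hv, dg_nonneg G K1 v, dg_nonneg G K2 v]
    rw [Finset.sum_add_distrib (s := B), two_mis G B] at a2
    have a3 := mis_nn G B
    have a4 := ext_nn G B
    have a5 : 48 / 100 * N ≤ (S.card : ℝ) := by
      norm_num at hsl
      linarith
    have a6 : 48 / 100 * N * (N / 10 ^ 8) ≤ (S.card : ℝ) * (N / 10 ^ 8) :=
      mul_le_mul_of_nonneg_right a5 (by positivity)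
    have a7 : 0 < N ^ 2 := by positivity
    norm_num at a6 hp a1
    nlinarith
  obtain ⟨v, hv, hg⟩ := hgood
  have hvB := hS hv
  refine ⟨v, hv, ?_, ?_⟩
  · apply step G hN hsum hp h1 hS _ hv
    · linarith [dg_nonneg G K2 v]
    · exact hs.trans (by linarith)
  · have e1 : (B \ S.erase v).erase v = B \ S := by
      ext x
      simp only [Finset.mem_erase, Finset.mem_sdiff]
      constructor
      · rintro ⟨hx, hxB, hxS⟩
        exact ⟨hxB, fun h => hxS ⟨hx, h⟩⟩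
      · rintro ⟨hxB, hxS⟩
        exact ⟨fun h => hxS (h ▸ hv), hxB, fun h => hxS h.2⟩
    have h := step G (S := B \ S.erase v) hN hsum hp h2 Finset.sdiff_subset (v := v) (by
        have hsub : S.erase v ⊆ B := (Finset.erase_subset _ _).trans hS
        rw [Finset.card_sdiff_of_subset hsub, Finset.card_erase_of_mem hv]
        have hpos : 1 ≤ S.card := Finset.card_pos.mpr ⟨v, hv⟩
        have hle : S.card ≤ B.card := Finset.card_le_card hS
        rw [Nat.cast_sub (by omega), Nat.cast_sub hpos]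
        push_cast
        rw [abs_le]
        constructor <;> linarith) (by
        rw [Finset.mem_sdiff]
        exact ⟨hvB, Finset.notMem_erase v S⟩) (by linarith [dg_nonneg G K1 v])
    rw [e1] at h
    exact h

/-- Moving vertices until the two parts are balanced. -/
private lemma moves {N : ℝ} {B K1 K2 S0 : Finset V} (hN : 10 ^ 12 ≤ N)
    (hsum : tot G = N ^ 2) (hp : mis G B + ext G B ≤ N ^ 2 / 10 ^ 10)
    (h1 : Disjoint B K1) (h2 : Disjoint B K2)
    (hcross : ∑ v ∈ B, (dg G K1 v + dg G K2 v) ≤ ext G B) (hS : S0 ⊆ B)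
    (ha : 98 / 100 * N ≤ B.card) (hs : |(S0.card : ℝ) - B.card / 2| ≤ 1 / 2)
    (hD0 : 0 ≤ sq G (S0 ∪ K1) - sq G ((B \ S0) ∪ K2)) (i : ℕ) (hi : (i : ℝ) ≤ N / 10 ^ 9) :
    (∃ S ⊆ B, |sq G (S ∪ K1) - sq G ((B \ S) ∪ K2)| ≤ 3 / 4 * N ^ 2 + N ^ 2 / 10 ^ 6 ∧
      sq G (S ∪ K1) + sq G ((B \ S) ∪ K2) ≤
        sq G (S0 ∪ K1) + sq G ((B \ S0) ∪ K2) + 2 * N ^ 2 / 10 ^ 6 * i) ∨
    (∃ S ⊆ B, S.card + i = S0.card ∧
      3 / 4 * N ^ 2 + N ^ 2 / 10 ^ 6 < sq G (S ∪ K1) - sq G ((B \ S) ∪ K2) ∧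
      sq G (S ∪ K1) - sq G ((B \ S) ∪ K2) ≤
        sq G (S0 ∪ K1) - sq G ((B \ S0) ∪ K2) - i * (3 / 2 * N ^ 2 - 2 * N ^ 2 / 10 ^ 6) ∧
      sq G (S ∪ K1) + sq G ((B \ S) ∪ K2) ≤
        sq G (S0 ∪ K1) + sq G ((B \ S0) ∪ K2) + 2 * N ^ 2 / 10 ^ 6 * i) := by
  have hN0 : 0 < N := by linarith
  have hN2 : 0 < N ^ 2 := by positivity
  induction i with
  | zero =>
    rcases le_or_gt (sq G (S0 ∪ K1) - sq G ((B \ S0) ∪ K2)) (3 / 4 * N ^ 2 + N ^ 2 / 10 ^ 6)
      with h | h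
    · left
      refine ⟨S0, hS, ?_, by simp⟩
      rw [abs_of_nonneg hD0]
      exact h
    · right
      exact ⟨S0, hS, by simp, h, by simp, by simp⟩
  | succ i ih =>
    have hi' : (i : ℝ) ≤ N / 10 ^ 9 := by push_cast at hi; linarith
    rcases ih hi' with ⟨S, hSB, hD, hT⟩ | ⟨S, hSB, hc, hD, hD2, hT⟩
    · left
      refine ⟨S, hSB, hD, hT.trans ?_⟩
      push_cast
      have : 0 ≤ 2 * N ^ 2 / 10 ^ 6 := by positivity
      nlinarith
    · have hcR : (S.card : ℝ) + i = S0.card := by exact_mod_cast hc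
      have hsS : |(S.card : ℝ) - B.card / 2| ≤ N / 10 ^ 8 - 1 := by
        have := abs_le.mp hs
        have hi0 : (0 : ℝ) ≤ i := Nat.cast_nonneg i
        rw [abs_le]
        norm_num at hi' ⊢
        constructor <;> linarith
      obtain ⟨v, hv, hm1, hm2⟩ := move_one G hN hsum hp h1 h2 hcross hSB ha hsS
      have hm1' := abs_le.mp hm1
      have hm2' := abs_le.mp hm2
      have hT' : sq G (S.erase v ∪ K1) + sq G ((B \ S.erase v) ∪ K2) ≤
          sq G (S0 ∪ K1) + sq G ((B \ S0) ∪ K2) + 2 * N ^ 2 / 10 ^ 6 * ((i + 1 : ℕ) : ℝ) := by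
        push_cast
        linarith
      have hsub : S.erase v ⊆ B := (Finset.erase_subset _ _).trans hSB
      rcases le_or_gt (sq G (S.erase v ∪ K1) - sq G ((B \ S.erase v) ∪ K2))
        (3 / 4 * N ^ 2 + N ^ 2 / 10 ^ 6) with h | h
      · left
        refine ⟨S.erase v, hsub, ?_, hT'⟩
        rw [abs_le]
        constructor <;> linarith
      · right
        refine ⟨S.erase v, hsub, ?_, h, ?_, hT'⟩
        · rw [Finset.card_erase_of_mem hv]
          have : 1 ≤ S.card := Finset.card_pos.mpr ⟨v, hv⟩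
          omega
        · push_cast
          linarith

/-- The balanced partition. -/
private lemma balanced {N : ℝ} {B K1 K2 S0 : Finset V} (hN : 10 ^ 12 ≤ N)
    (hsum : tot G = N ^ 2) (hp : mis G B + ext G B ≤ N ^ 2 / 10 ^ 10)
    (h1 : Disjoint B K1) (h2 : Disjoint B K2)
    (hcross : ∑ v ∈ B, (dg G K1 v + dg G K2 v) ≤ ext G B) (hS : S0 ⊆ B)
    (ha : 98 / 100 * N ≤ B.card) (hs : |(S0.card : ℝ) - B.card / 2| ≤ 1 / 2)
    (hD0 : 0 ≤ sq G (S0 ∪ K1) - sq G ((B \ S0) ∪ K2))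
    (hD1 : sq G (S0 ∪ K1) - sq G ((B \ S0) ∪ K2) ≤ 3 / 4 * (1 + 3 / 10 ^ 9) * N ^ 2 +
      416 / 100 * N * (mis G B + ext G B)) :
    ∃ S ⊆ B, |sq G (S ∪ K1) - sq G ((B \ S) ∪ K2)| ≤ 3 / 4 * N ^ 2 + N ^ 2 / 10 ^ 6 ∧
      sq G (S ∪ K1) + sq G ((B \ S) ∪ K2) ≤
        sq G (S0 ∪ K1) + sq G ((B \ S0) ∪ K2) +
          2 * N ^ 2 / 10 ^ 6 * (3 * (mis G B + ext G B) / N + 1) := by
  have hN0 : 0 < N := by linarith
  have hN2 : 0 < N ^ 2 := by positivity
  have hp0 : 0 ≤ mis G B + ext G B := add_nonneg (mis_nn G B) (ext_nn G B)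
  obtain ⟨p, hpdef⟩ : ∃ p, p = mis G B + ext G B := ⟨_, rfl⟩
  rw [← hpdef] at hp hp0 hD1 ⊢
  have hx0 : 0 ≤ 3 * p / N := by positivity
  obtain ⟨k, hk⟩ : ∃ k, k = ⌊3 * p / N⌋₊ + 1 := ⟨_, rfl⟩
  have hk1 : (k : ℝ) ≤ 3 * p / N + 1 := by
    rw [hk]; push_cast; linarith [Nat.floor_le hx0]
  have hk2 : 3 * p / N < k := by
    rw [hk]; push_cast; exact Nat.lt_floor_add_one _
  have hpN : 3 * p / N ≤ 3 * N / 10 ^ 10 := by
    rw [div_le_iff₀ hN0]
    nlinarith
  have hk3 : (k : ℝ) ≤ N / 10 ^ 9 := by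
    norm_num at hpN ⊢
    linarith
  rcases moves G hN hsum (by rw [← hpdef]; exact hp) h1 h2 hcross hS ha hs hD0 k hk3 with
    ⟨S, hSB, hD, hT⟩ | ⟨S, hSB, hc, hD, hD2, hT⟩
  · refine ⟨S, hSB, hD, hT.trans ?_⟩
    have : 2 * N ^ 2 / 10 ^ 6 * (k : ℝ) ≤ 2 * N ^ 2 / 10 ^ 6 * (3 * p / N + 1) :=
      mul_le_mul_of_nonneg_left hk1 (by positivity)
    linarith
  · exfalso
    have h3 : 3 * p / N * (3 / 2 * N ^ 2 - 2 * N ^ 2 / 10 ^ 6) ≤
        k * (3 / 2 * N ^ 2 - 2 * N ^ 2 / 10 ^ 6) := by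
      apply mul_le_mul_of_nonneg_right hk2.le
      norm_num
      linarith
    have h4 : 3 * p / N * (3 / 2 * N ^ 2 - 2 * N ^ 2 / 10 ^ 6) =
        (9 / 2 - 6 / 10 ^ 6) * (N * p) := by
      field_simp
      ring
    rw [h4] at h3
    have h5 : 0 ≤ N * p := by positivity
    norm_num at h3 hD1 hD hD2
    nlinarith

private lemma gMu_le_max {X Y : Finset V} (h1 : X ∪ Y = univ) (h2 : Disjoint X Y) :
    (gMu G : ℝ) ≤ max (sq G X) (sq G Y) := by
  have h3 : gMu G ≤ max (mu (G.induce {v | v ∈ X})) (mu (G.induce {v | v ∈ X}ᶜ)) :=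
    Nat.sInf_le ⟨_, rfl⟩
  have h4 := mu_eq_sq G X {v | v ∈ X} (fun v => Iff.rfl)
  have h5 := mu_eq_sq G Y {v | v ∈ X}ᶜ (fun v => by
    simp only [Set.mem_compl_iff, Set.mem_ofPred_eq]
    constructor
    · intro h
      have : v ∈ X ∪ Y := by rw [h1]; exact Finset.mem_univ v
      exact (Finset.mem_union.mp this).resolve_left h
    · intro h h'
      exact Finset.disjoint_left.mp h2 h' h)
  rw [← h4, ← h5]
  exact_mod_cast h3

private lemma gMu_le_core {N : ℝ} {B H L : Finset V} (hc : Core G N B H L) {S : Finset V}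
    (hS : S ⊆ B) : (gMu G : ℝ) ≤ max (sq G (S ∪ H)) (sq G ((B \ S) ∪ L)) := by
  refine gMu_le_max G ?_ ?_
  · rw [← hc.union]
    ext v
    simp only [Finset.mem_union, Finset.mem_sdiff]
    constructor
    · rintro ((h | h) | (h | h))
      · exact Or.inl (Or.inl (hS h))
      · exact Or.inl (Or.inr h)
      · exact Or.inl (Or.inl h.1)
      · exact Or.inr h
    · rintro ((h | h) | h)
      · by_cases hs : v ∈ S
        · exact Or.inl (Or.inl hs)
        · exact Or.inr (Or.inl ⟨h, hs⟩)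
      · exact Or.inl (Or.inr h)
      · exact Or.inr (Or.inr h)
  · rw [Finset.disjoint_union_left, Finset.disjoint_union_right, Finset.disjoint_union_right]
    refine ⟨⟨Finset.disjoint_sdiff, Finset.disjoint_of_subset_left hS hc.disjBL⟩,
      (Finset.disjoint_of_subset_left Finset.sdiff_subset hc.disjBH).symm, hc.disjHL⟩

-- MODULE MG-9: file Pool/Agent/Helper96/Mu/GRebal.lean (imports GStep)
theorem rebalance {N : ℝ} {B H L : Finset V} (hc : Core G N B H L) (hN : 10 ^ 12 ≤ N)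
    (hsum : tot G = N ^ 2) (hp : mis G B + ext G B ≤ N ^ 2 / 10 ^ 10)
    {S : Finset V} (hS : S ⊆ B) (hs : S.card = hi B.card ∨ S.card = lo B.card) :
    2 * (gMu G : ℝ) ≤ sq G (S ∪ H) + sq G ((B \ S) ∪ L) + 3 / 4 * N ^ 2 +
      N * (mis G B + ext G B) / 10 ^ 5 + N ^ 2 / (5 * 10 ^ 4) := by
  have hN0 : 0 < N := by linarith
  have hN2 : 0 < N ^ 2 := by positivity
  have hm0 := mis_nn G B
  have hx0 := ext_nn G B
  -- the size of B
  have hrel : (B.card : ℝ) * (B.card - 1) - 2 * mis G B + 2 * ext G B = N ^ 2 := by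
    rw [← hsum]
    unfold mis ext
    ring
  obtain ⟨ha1, ha2⟩ := a_near hN (Nat.cast_nonneg _) hm0 hx0 hrel hp
  have ha98 : 98 / 100 * N ≤ (B.card : ℝ) := by
    norm_num at ha1; linarith
  have ha102 : (B.card : ℝ) ≤ 1001 / 1000 * N := by
    norm_num at ha2; linarith
  -- the size of S
  have hsc : |(S.card : ℝ) - B.card / 2| ≤ 1 / 2 := by
    have h1 : 2 * S.card ≤ B.card + 1 ∧ B.card ≤ 2 * S.card + 1 := by
      unfold hi lo at hs
      omega
    have h2 : 2 * (S.card : ℝ) ≤ B.card + 1 := by exact_mod_cast h1.1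
    have h3 : (B.card : ℝ) ≤ 2 * S.card + 1 := by exact_mod_cast h1.2
    rw [abs_le]
    constructor <;> linarith
  have hcompl : ((B \ S).card : ℝ) = B.card - S.card := by
    rw [Finset.card_sdiff_of_subset hS, Nat.cast_sub (Finset.card_le_card hS)]
  have hsl := abs_le.mp hsc
  -- the cost of the two parts
  have hcX := cost_bound G (N := N) (B := B) (K := H) (S := S) hN0 hc.disjBH hS (by linarith)
    (fun v hv => (dg_mono G Finset.subset_union_left v).trans (hc.out v hv))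
    (fun k _ => by
      have h1 := dg_le_card G (S ∪ H) k
      have h2 : ((S ∪ H).card : ℝ) ≤ S.card + H.card := by
        exact_mod_cast Finset.card_union_le S H
      have h3 := hc.cardH
      norm_num at h3
      linarith)
  have hcY := cost_bound G (N := N) (B := B) (K := L) (S := B \ S) hN0 hc.disjBL
    Finset.sdiff_subset (by rw [hcompl]; linarith)
    (fun v hv => (dg_mono G Finset.subset_union_right v).trans (hc.out v hv))
    (fun k hk => by
      have h1 := dg_le_deg G ((B \ S) ∪ L) k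
      have h3 := hc.Ldeg k hk
      linarith)
  rw [hcompl] at hcY
  have hb := b_diff hN ha1 ha2 hsc
  have hD : |sq G (S ∪ H) - sq G ((B \ S) ∪ L)| ≤ 3 / 4 * (1 + 3 / 10 ^ 9) * N ^ 2 +
      416 / 100 * N * (mis G B + ext G B) := by
    have h1 := abs_le.mp hcX
    have h2 := abs_le.mp hcY
    have h3 := abs_le.mp hb
    rw [abs_le]
    constructor <;> linarith
  have hcross : ∑ v ∈ B, (dg G H v + dg G L v) ≤ ext G B := by
    have hd : Disjoint B (H ∪ L) := Finset.disjoint_union_right.mpr ⟨hc.disjBH, hc.disjBL⟩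
    have h1 := cross_le G hd
    have h2 : ∑ v ∈ B, (dg G H v + dg G L v) = ∑ v ∈ B, dg G (H ∪ L) v :=
      Finset.sum_congr rfl fun v _ => (dg_union G hc.disjHL v).symm
    rw [h2, sum_dg_comm G B (H ∪ L)]
    linarith [e2_nn G (H ∪ L)]
  -- the final computation
  have hfin : ∀ T T' D : ℝ, |D| ≤ 3 / 4 * N ^ 2 + N ^ 2 / 10 ^ 6 →
      T' ≤ T + 2 * N ^ 2 / 10 ^ 6 * (3 * (mis G B + ext G B) / N + 1) →
      T' + |D| ≤ T + 3 / 4 * N ^ 2 + N * (mis G B + ext G B) / 10 ^ 5 +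
        N ^ 2 / (5 * 10 ^ 4) := by
    intro T T' D h1 h2
    have e : 2 * N ^ 2 / 10 ^ 6 * (3 * (mis G B + ext G B) / N + 1) =
        6 / 10 ^ 6 * (N * (mis G B + ext G B)) + 2 / 10 ^ 6 * N ^ 2 := by
      field_simp
      ring
    rw [e] at h2
    have h3 : 0 ≤ N * (mis G B + ext G B) := mul_nonneg hN0.le (by linarith)
    norm_num at h1 h2 ⊢
    linarith
  have hmax : ∀ x y : ℝ, 2 * max x y = (x + y) + |x - y| := by
    intro x y
    rcases le_total x y with h | h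
    · rw [max_eq_right h, abs_of_nonpos (by linarith)]; ring
    · rw [max_eq_left h, abs_of_nonneg (by linarith)]; ring
  rcases le_total 0 (sq G (S ∪ H) - sq G ((B \ S) ∪ L)) with h0 | h0
  · obtain ⟨S', hS', hD', hT'⟩ := balanced G hN hsum hp hc.disjBH hc.disjBL hcross hS ha98 hsc
      h0 (by rw [abs_of_nonneg h0] at hD; exact hD)
    have h1 := gMu_le_core G hc hS'
    calc 2 * (gMu G : ℝ) ≤ 2 * max (sq G (S' ∪ H)) (sq G ((B \ S') ∪ L)) := by linarith
      _ = (sq G (S' ∪ H) + sq G ((B \ S') ∪ L)) + |sq G (S' ∪ H) - sq G ((B \ S') ∪ L)| :=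
          hmax _ _
      _ ≤ _ := hfin _ _ _ hD' hT'
  · have hcross' : ∑ v ∈ B, (dg G L v + dg G H v) ≤ ext G B := by
      calc ∑ v ∈ B, (dg G L v + dg G H v) = ∑ v ∈ B, (dg G H v + dg G L v) :=
            Finset.sum_congr rfl fun v _ => add_comm _ _
        _ ≤ _ := hcross
    have hSS : B \ (B \ S) = S := Finset.sdiff_sdiff_eq_self hS
    obtain ⟨S', hS', hD', hT'⟩ := balanced G (S0 := B \ S) hN hsum hp hc.disjBL hc.disjBH
      hcross' Finset.sdiff_subset ha98 (by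
        rw [hcompl, abs_le]
        constructor <;> linarith)
      (by rw [hSS]; linarith) (by
        rw [hSS]
        have := neg_le_of_abs_le hD
        linarith)
    rw [hSS] at hT'
    have h1 := gMu_le_core G hc (S := B \ S') Finset.sdiff_subset
    rw [Finset.sdiff_sdiff_eq_self hS'] at h1
    calc 2 * (gMu G : ℝ) ≤ 2 * max (sq G ((B \ S') ∪ H)) (sq G (S' ∪ L)) := by linarith
      _ = (sq G (S' ∪ L) + sq G ((B \ S') ∪ H)) + |sq G (S' ∪ L) - sq G ((B \ S') ∪ H)| := by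
          rw [hmax, abs_sub_comm]; ring
      _ ≤ _ := hfin _ _ _ hD' (by linarith)

end Graph

end Pool.Agent.Helper96.Mu
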