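import Mathlib
import Pool.Agent.Helper96.Mu.GBase

/-!
# MG-6: rounding with respect to two cost functions simultaneously
-/

namespace Pool.Agent.Helper96.Mu

open Finset Pool.Agent.Helper39.Mu

set_option linter.unusedSectionVars false

section Graph

variable {V : Type*} [Fintype V] [DecidableEq V] (G : SimpleGraph V)

/-- Derandomization with respect to two functions simultaneously. -/
theorem rounding2 (F1 F2 : (V → ℝ) → ℝ)
    (hF1 : ∀ q u t, F1 (Function.update q u t) =
      (1 - t) * F1 (Function.update q u 0) + t * F1 (Function.update q u 1))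
    (hF2 : ∀ q u t, F2 (Function.update q u t) =
      (1 - t) * F2 (Function.update q u 0) + t * F2 (Function.update q u 1))
    (q : V → ℝ) (hq : ∀ v, 0 ≤ q v ∧ q v ≤ 1) (D : ℝ) (A : Finset V)
    (hA : ∀ v, v ∉ A → q v = 0 ∨ q v = 1)
    (hD : ∀ r : V → ℝ, (∀ v, 0 ≤ r v ∧ r v ≤ 1) → (∀ v, v ∉ A → r v = q v) → ∀ u ∈ A,
      |F1 (Function.update r u 1) - F1 (Function.update r u 0)| ≤ D ∧
      |F2 (Function.update r u 1) - F2 (Function.update r u 0)| ≤ D) :
    ∃ x : V → ℝ, (∀ v, x v = 0 ∨ x v = 1) ∧
      (F1 x - F1 q) ^ 2 + (F2 x - F2 q) ^ 2 ≤ A.card * (D ^ 2 / 2) := by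
  have key : ∀ s : Finset V, s ⊆ A → ∃ x : V → ℝ, (∀ v, 0 ≤ x v ∧ x v ≤ 1) ∧
      (∀ v ∈ s, x v = 0 ∨ x v = 1) ∧ (∀ v, v ∉ s → x v = q v) ∧
      (F1 x - F1 q) ^ 2 + (F2 x - F2 q) ^ 2 ≤ s.card * (D ^ 2 / 2) := by
    intro s
    induction s using Finset.induction_on with
    | empty => exact fun _ => ⟨q, hq, by simp, by simp, by simp⟩
    | insert u s hu ih =>
      intro hsA
      obtain ⟨x, hx, hxs, hxq, hxF⟩ := ih fun v hv => hsA (Finset.mem_insert_of_mem hv)
      have huA : u ∈ A := hsA (Finset.mem_insert_self u s)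
      obtain ⟨d1, d2⟩ := hD x hx (fun v hv => hxq v fun hvs =>
        hv (hsA (Finset.mem_insert_of_mem hvs))) u huA
      have h1 := hF1 x u (x u)
      have h2 := hF2 x u (x u)
      rw [Function.update_eq_self] at h1 h2
      have h3 : ∃ t : ℝ, (t = 0 ∨ t = 1) ∧
          (F1 (Function.update x u t) - F1 q) ^ 2 + (F2 (Function.update x u t) - F2 q) ^ 2 ≤
            (s.card * (D ^ 2 / 2)) + D ^ 2 / 2 := by
        by_contra hcon
        push Not at hcon
        have h4 := hcon 0 (Or.inl rfl)
        have h5 := hcon 1 (Or.inr rfl)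
        set p0 := F1 (Function.update x u 0)
        set p1 := F1 (Function.update x u 1)
        set q0 := F2 (Function.update x u 0)
        set q1 := F2 (Function.update x u 1)
        set C := (s.card : ℝ) * (D ^ 2 / 2)
        have hx0 := (hx u).1
        have hx1 := (hx u).2
        have e1 : (p1 - p0) ^ 2 ≤ D ^ 2 := sq_le_sq' (by linarith [(abs_le.mp d1).1])
          (abs_le.mp d1).2
        have e2 : (q1 - q0) ^ 2 ≤ D ^ 2 := sq_le_sq' (by linarith [(abs_le.mp d2).1])
          (abs_le.mp d2).2
        have e3 : x u * (1 - x u) ≤ 1 / 4 := by nlinarith [sq_nonneg (x u - 1 / 2)]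
        have e4 : 0 ≤ x u * (1 - x u) := mul_nonneg hx0 (by linarith)
        have e5 : x u * ((p1 - F1 q) ^ 2 + (q1 - F2 q) ^ 2) +
            (1 - x u) * ((p0 - F1 q) ^ 2 + (q0 - F2 q) ^ 2) =
            (F1 x - F1 q) ^ 2 + (F2 x - F2 q) ^ 2 +
              x u * (1 - x u) * ((p1 - p0) ^ 2 + (q1 - q0) ^ 2) := by
          rw [h1, h2]; ring
        have e6 : x u * (1 - x u) * ((p1 - p0) ^ 2 + (q1 - q0) ^ 2) ≤ 1 / 4 * (D ^ 2 + D ^ 2) := by
          have : 0 ≤ (p1 - p0) ^ 2 + (q1 - q0) ^ 2 := by positivity
          calc _ ≤ 1 / 4 * ((p1 - p0) ^ 2 + (q1 - q0) ^ 2) := by gcongr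
            _ ≤ _ := by linarith
        have e7 : x u * (C + D ^ 2 / 2) + (1 - x u) * (C + D ^ 2 / 2) <
            x u * ((p1 - F1 q) ^ 2 + (q1 - F2 q) ^ 2) +
            (1 - x u) * ((p0 - F1 q) ^ 2 + (q0 - F2 q) ^ 2) := by
          rcases hx0.eq_or_lt with h0 | h0
          · rw [← h0]; linarith
          · have a1 := mul_lt_mul_of_pos_left h5 h0
            have a2 := mul_le_mul_of_nonneg_left h4.le (by linarith : 0 ≤ 1 - x u)
            linarith
        linarith
      obtain ⟨t, ht, hle⟩ := h3
      refine ⟨Function.update x u t, ?_, ?_, ?_, ?_⟩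
      · intro v
        by_cases h : v = u
        · subst h
          rw [Function.update_self]
          rcases ht with rfl | rfl <;> norm_num
        · rw [Function.update_of_ne h]; exact hx v
      · intro v hv
        by_cases h : v = u
        · subst h
          rw [Function.update_self]
          exact ht
        · rw [Function.update_of_ne h]
          exact hxs v ((Finset.mem_insert.mp hv).resolve_left h)
      · intro v hv
        have h : v ≠ u := fun h => hv (h ▸ Finset.mem_insert_self u s)
        rw [Function.update_of_ne h]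
        exact hxq v fun hvs => hv (Finset.mem_insert_of_mem hvs)
      · rw [Finset.card_insert_of_notMem hu]
        push_cast
        linarith
  obtain ⟨x, _, hx, hxq, hle⟩ := key A (Finset.Subset.refl A)
  refine ⟨x, fun v => ?_, hle⟩
  by_cases hv : v ∈ A
  · exact hx v hv
  · rw [hxq v hv]
    exact hA v hv

namespace GRoundx

lemma FX_diff (r : V → ℝ) (u : V) :
    FX G (Function.update r u 1) - FX G (Function.update r u 0) =
      (avg G (Function.update r u 0) u ^ 2 + vr G (Function.update r u 0) u) +
      ∑ v, r v * (adj G v u * (2 * avg G (Function.update r u 0) v + 1)) := by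
  have h0 : (avg G (Function.update r u 0) u ^ 2 + vr G (Function.update r u 0) u) =
      ∑ v, if v = u then
        (avg G (Function.update r u 0) v ^ 2 + vr G (Function.update r u 0) v) else 0 := by
    simp
  unfold FX
  rw [h0, ← Finset.sum_sub_distrib, ← Finset.sum_add_distrib]
  refine Finset.sum_congr rfl fun v _ => ?_
  rw [avg_update G r u v 1, vr_update G r u v 1]
  by_cases h : v = u
  · subst h
    simp [adj_self]
  · simp only [Function.update_of_ne h, if_neg h]
    rcases adj_zero_or_one G v u with h1 | h1 <;> rw [h1] <;> ring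

lemma FY_diff (r : V → ℝ) (u : V) :
    FY G (Function.update r u 1) - FY G (Function.update r u 0) =
      - ((deg G u - avg G (Function.update r u 0) u) ^ 2 + vr G (Function.update r u 0) u) -
      ∑ v, (1 - r v) * (adj G v u * (2 * (deg G v - avg G (Function.update r u 0) v) - 1)) := by
  have h0 : ((deg G u - avg G (Function.update r u 0) u) ^ 2 +
      vr G (Function.update r u 0) u) =
      ∑ v, if v = u then
        ((deg G v - avg G (Function.update r u 0) v) ^ 2 +
          vr G (Function.update r u 0) v) else 0 := by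
    simp
  unfold FY
  rw [h0, ← Finset.sum_sub_distrib, ← Finset.sum_neg_distrib, ← Finset.sum_sub_distrib]
  refine Finset.sum_congr rfl fun v _ => ?_
  rw [avg_update G r u v 1, vr_update G r u v 1]
  by_cases h : v = u
  · subst h
    simp [adj_self]
  · simp only [Function.update_of_ne h, if_neg h]
    rcases adj_zero_or_one G v u with h1 | h1 <;> rw [h1] <;> ring

lemma avg_nonneg' {r : V → ℝ} (hr : ∀ v, 0 ≤ r v) (v : V) : 0 ≤ avg G r v :=
  Finset.sum_nonneg fun w _ => mul_nonneg (adj_nonneg G v w) (hr w)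

lemma avg_le_deg {r : V → ℝ} (hr : ∀ v, r v ≤ 1) (v : V) : avg G r v ≤ deg G v := by
  unfold avg deg
  refine Finset.sum_le_sum fun w _ => ?_
  have := mul_le_mul_of_nonneg_left (hr w) (adj_nonneg G v w)
  linarith

lemma vr_nonneg {r : V → ℝ} (hr : ∀ v, 0 ≤ r v ∧ r v ≤ 1) (v : V) : 0 ≤ vr G r v :=
  Finset.sum_nonneg fun w _ => mul_nonneg (adj_nonneg G v w)
    (mul_nonneg (hr w).1 (by linarith [(hr w).2]))

lemma vr_le (r : V → ℝ) (v : V) : vr G r v ≤ deg G v / 4 := by
  unfold vr deg
  rw [Finset.sum_div]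
  refine Finset.sum_le_sum fun w _ => ?_
  have h : r w * (1 - r w) ≤ 1 / 4 := by nlinarith [sq_nonneg (r w - 1 / 2)]
  have := mul_le_mul_of_nonneg_left h (adj_nonneg G v w)
  linarith

lemma deg_nonneg' (v : V) : 0 ≤ deg G v := Finset.sum_nonneg fun w _ => adj_nonneg G v w

/-- the number of vertices of degree at least `β N` -/
lemma card_le {N β : ℝ} (hN : 1 ≤ N) (hβ : 0 < β) (htot : tot G ≤ 2 * N ^ 2)
    (A : Finset V) (hA : ∀ v ∈ A, β * N ≤ deg G v) : (A.card : ℝ) ≤ 2 * N / β := by
  have h1 : (A.card : ℝ) * (β * N) ≤ tot G := by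
    calc (A.card : ℝ) * (β * N) = ∑ v ∈ A, β * N := by
          rw [Finset.sum_const, nsmul_eq_mul]
      _ ≤ ∑ v ∈ A, deg G v := Finset.sum_le_sum hA
      _ ≤ ∑ v, deg G v := Finset.sum_le_sum_of_subset_of_nonneg (Finset.subset_univ A)
          fun v _ _ => deg_nonneg' G v
  rw [le_div_iff₀ hβ]
  have hN0 : 0 < N := by linarith
  have h2 : ((A.card : ℝ) * β) * N ≤ (2 * N) * N := by nlinarith
  exact le_of_mul_le_mul_right h2 hN0

end GRoundx

open GRoundx

theorem round_cost {N β : ℝ} (hN : 1 ≤ N) (hβ : 0 < β) (hβ1 : β ≤ 1) (htot : tot G ≤ 2 * N ^ 2)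
    (q : V → ℝ) (hq : ∀ v, 0 ≤ q v ∧ q v ≤ 1) (hlow : ∀ v, deg G v < β * N → q v = 0)
    (hhigh : ∀ v, 2 * N ≤ deg G v → q v = 1) :
    ∃ x : V → ℝ, (∀ v, x v = 0 ∨ x v = 1) ∧
      FX G x ≤ FX G q + 30 * N ^ 2 * Real.sqrt N / β ^ 2 ∧
      FY G x ≤ FY G q + 30 * N ^ 2 * Real.sqrt N / β ^ 2 := by
  classical
  have hN0 : 0 < N := by linarith
  set A : Finset V := univ.filter fun v => 0 < q v ∧ q v < 1 with hAdef
  have hAm : ∀ v, v ∈ A ↔ 0 < q v ∧ q v < 1 := by intro v; simp [hAdef]
  have hA1 : ∀ v ∈ A, β * N ≤ deg G v := by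
    intro v hv
    by_contra h
    push Not at h
    have := hlow v h
    have := ((hAm v).mp hv).1
    linarith
  have hA2 : ∀ v, q v < 1 → deg G v < 2 * N := by
    intro v hv
    by_contra h
    push Not at h
    have := hhigh v h
    linarith
  have hcA := card_le G hN hβ htot A hA1
  have hcP := card_le G hN hβ htot (univ.filter fun v => 0 < q v) (by
    intro v hv
    by_contra h
    push Not at h
    have := hlow v h
    have := (Finset.mem_filter.mp hv).2
    linarith)
  -- the average is at most `2 N / β`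
  have hav : ∀ r : V → ℝ, (∀ v, 0 ≤ r v ∧ r v ≤ 1) → (∀ v, q v = 0 → r v = 0) →
      ∀ v, avg G r v ≤ 2 * N / β := by
    intro r hr h0 v
    refine le_trans ?_ hcP
    unfold avg
    rw [Finset.card_filter]
    push_cast
    refine Finset.sum_le_sum fun w _ => ?_
    split_ifs with hw
    · have h1 : adj G v w ≤ 1 := by rcases adj_zero_or_one G v w with h | h <;> rw [h]; norm_num
      have h2 := (hr w).2
      have h3 := (hr w).1
      have h4 := adj_nonneg G v w
      nlinarith
    · have : q w = 0 := le_antisymm (not_lt.mp hw) (hq w).1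
      rw [h0 w this, mul_zero]
  have hNN : N ≤ N ^ 2 := by nlinarith
  have hb : 1 ≤ 1 / β := by rw [le_div_iff₀ hβ]; linarith
  have hNb : N ^ 2 ≤ N ^ 2 / β := by
    rw [le_div_iff₀ hβ]
    nlinarith [sq_nonneg N]
  obtain ⟨x, hx, hle⟩ := rounding2 (FX G) (FY G) (FX_update G) (FY_update G) q hq
    (15 * N ^ 2 / β) A (by
      intro v hv
      rw [hAm] at hv
      push Not at hv
      rcases (hq v).1.eq_or_lt with h | h
      · exact Or.inl h.symm
      · exact Or.inr (le_antisymm (hq v).2 (hv h))) (by
      intro r hr hrq u hu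
      have hu1 := (hAm u).mp hu
      have hdu := hA2 u hu1.2
      set r0 := Function.update r u 0 with hr0def
      have hr0 : ∀ v, 0 ≤ r0 v ∧ r0 v ≤ 1 := by
        intro v
        by_cases h : v = u
        · subst h; simp [hr0def]
        · rw [hr0def, Function.update_of_ne h]; exact hr v
      have hr00 : ∀ v, q v = 0 → r0 v = 0 := by
        intro v hv
        by_cases h : v = u
        · subst h; simp [hr0def]
        · rw [hr0def, Function.update_of_ne h, hrq v, hv]
          rw [hAm]
          intro h2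
          linarith [h2.1]
      have a1 := avg_nonneg' G (fun v => (hr0 v).1) u
      have a2 := avg_le_deg G (fun v => (hr0 v).2) u
      have a3 := vr_nonneg G hr0 u
      have a4 := vr_le G r0 u
      have hdu0 := deg_nonneg' G u
      constructor
      · rw [FX_diff, ← hr0def]
        have s1 : 0 ≤ ∑ v, r v * (adj G v u * (2 * avg G r0 v + 1)) :=
          Finset.sum_nonneg fun v _ => mul_nonneg (hr v).1 (mul_nonneg (adj_nonneg G v u)
            (by linarith [avg_nonneg' G (fun v => (hr0 v).1) v]))
        have s2 : ∑ v, r v * (adj G v u * (2 * avg G r0 v + 1)) ≤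
            deg G u * (4 * N / β + 1) := by
          unfold deg
          rw [Finset.sum_mul]
          refine Finset.sum_le_sum fun v _ => ?_
          rw [adj_comm G u v]
          have b1 := hav r0 hr0 hr00 v
          have b2 := avg_nonneg' G (fun v => (hr0 v).1) v
          have b3 := adj_nonneg G v u
          have b4 : 2 * avg G r0 v + 1 ≤ 4 * N / β + 1 := by
            have : 4 * N / β = 2 * (2 * N / β) := by ring
            linarith
          have b5 : 0 ≤ adj G v u * (2 * avg G r0 v + 1) := mul_nonneg b3 (by linarith)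
          calc r v * (adj G v u * (2 * avg G r0 v + 1))
              ≤ 1 * (adj G v u * (2 * avg G r0 v + 1)) :=
                mul_le_mul_of_nonneg_right (hr v).2 b5
            _ = adj G v u * (2 * avg G r0 v + 1) := one_mul _
            _ ≤ _ := mul_le_mul_of_nonneg_left b4 b3
        have s3 : deg G u * (4 * N / β + 1) ≤ 2 * N * (4 * N / β + 1) := by
          have : 0 ≤ 4 * N / β + 1 := by positivity
          gcongr
        have s4 : 2 * N * (4 * N / β + 1) = 8 * (N ^ 2 / β) + 2 * N := by ring
        have s5 : avg G r0 u ^ 2 ≤ 4 * N ^ 2 := by nlinarith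
        have s6 : 15 * N ^ 2 / β = 15 * (N ^ 2 / β) := by ring
        rw [abs_of_nonneg (by positivity), s6]
        nlinarith
      · rw [FY_diff, ← hr0def]
        have s0 : ∀ v, adj G v u ≤ deg G v - avg G r0 v := by
          intro v
          unfold deg avg
          rw [← Finset.sum_sub_distrib]
          have : adj G v u = adj G v u - adj G v u * r0 u := by simp [hr0def]
          rw [this]
          refine Finset.single_le_sum (f := fun w => adj G v w - adj G v w * r0 w)
            (fun w _ => ?_) (Finset.mem_univ u)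
          have := mul_le_mul_of_nonneg_left (hr0 w).2 (adj_nonneg G v w)
          linarith
        have s1 : 0 ≤ ∑ v, (1 - r v) * (adj G v u * (2 * (deg G v - avg G r0 v) - 1)) := by
          refine Finset.sum_nonneg fun v _ => mul_nonneg (by linarith [(hr v).2]) ?_
          have := s0 v
          rcases adj_zero_or_one G v u with h | h
          · rw [h]; simp
          · rw [h] at this ⊢; linarith
        have s2 : ∑ v, (1 - r v) * (adj G v u * (2 * (deg G v - avg G r0 v) - 1)) ≤
            deg G u * (4 * N) := by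
          unfold deg
          rw [Finset.sum_mul]
          refine Finset.sum_le_sum fun v _ => ?_
          rw [adj_comm G u v]
          change (1 - r v) * (adj G v u * (2 * (deg G v - avg G r0 v) - 1)) ≤ _
          have b3 := adj_nonneg G v u
          rcases (hr v).2.lt_or_eq with h1 | h1
          · have hq1 : q v < 1 := by
              by_cases hvA : v ∈ A
              · exact ((hAm v).mp hvA).2
              · rw [← hrq v hvA]; exact h1
            have hdv := hA2 v hq1
            have b2 := avg_nonneg' G (fun v => (hr0 v).1) v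
            have b5 : 0 ≤ adj G v u * (2 * (deg G v - avg G r0 v) - 1) := by
              have := s0 v
              rcases adj_zero_or_one G v u with h | h
              · rw [h]; simp
              · rw [h] at this ⊢; linarith
            calc (1 - r v) * (adj G v u * (2 * (deg G v - avg G r0 v) - 1))
                ≤ 1 * (adj G v u * (2 * (deg G v - avg G r0 v) - 1)) :=
                  mul_le_mul_of_nonneg_right (by linarith [(hr v).1]) b5
              _ = adj G v u * (2 * (deg G v - avg G r0 v) - 1) := one_mul _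
              _ ≤ _ := mul_le_mul_of_nonneg_left (by linarith) b3
          · rw [h1]
            have : 0 ≤ adj G v u * (4 * N) := by positivity
            simpa using this
        have s3 : deg G u * (4 * N) ≤ 2 * N * (4 * N) := by gcongr
        have s5 : (deg G u - avg G r0 u) ^ 2 ≤ 4 * N ^ 2 := by nlinarith
        have s6 : 15 * N ^ 2 / β = 15 * (N ^ 2 / β) := by ring
        have s7 : 0 ≤ (deg G u - avg G r0 u) ^ 2 := sq_nonneg _
        rw [abs_le, s6]
        constructor <;> nlinarith)
  refine ⟨x, hx, ?_⟩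
  have hsq : Real.sqrt N ^ 2 = N := Real.sq_sqrt hN0.le
  have hE : (A.card : ℝ) * ((15 * N ^ 2 / β) ^ 2 / 2) ≤ (30 * N ^ 2 * Real.sqrt N / β ^ 2) ^ 2 := by
    calc (A.card : ℝ) * ((15 * N ^ 2 / β) ^ 2 / 2)
        ≤ (2 * N / β) * ((15 * N ^ 2 / β) ^ 2 / 2) := by gcongr
      _ = 225 * N ^ 5 / β ^ 3 := by field_simp; ring
      _ ≤ 900 * N ^ 5 / β ^ 4 := by
          rw [div_le_div_iff₀ (by positivity) (by positivity)]
          have h1 : N ^ 5 * β ^ 4 ≤ N ^ 5 * β ^ 3 := by
            have : β ^ 4 ≤ β ^ 3 := pow_le_pow_of_le_one hβ.le hβ1 (by norm_num)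
            gcongr
          have h2 : 0 ≤ N ^ 5 * β ^ 3 := by positivity
          nlinarith
      _ = (30 * N ^ 2 * Real.sqrt N / β ^ 2) ^ 2 := by
          rw [div_pow, mul_pow, mul_pow, hsq]
          ring
  have hpos : 0 ≤ 30 * N ^ 2 * Real.sqrt N / β ^ 2 := by positivity
  constructor
  · have h1 : (FX G x - FX G q) ^ 2 ≤ (30 * N ^ 2 * Real.sqrt N / β ^ 2) ^ 2 := by
      nlinarith [sq_nonneg (FY G x - FY G q)]
    have := abs_le_of_sq_le_sq h1 hpos
    linarith [(abs_le.mp (abs_le_of_sq_le_sq h1 hpos)).2]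
  · have h1 : (FY G x - FY G q) ^ 2 ≤ (30 * N ^ 2 * Real.sqrt N / β ^ 2) ^ 2 := by
      nlinarith [sq_nonneg (FX G x - FX G q)]
    linarith [(abs_le.mp (abs_le_of_sq_le_sq h1 hpos)).2]

end Graph

end Pool.Agent.Helper96.Mu
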