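import Pool.Agent.Helper96.Mu.GExt
import Pool.Agent.Helper96.Mu.GCert
import Pool.Agent.Helper96.Mu.GHalf
import Pool.Agent.Helper96.Mu.GIvt
import Pool.Agent.Helper96.Mu.GRound
import Pool.Agent.Helper96.Mu.GCore
import Pool.Agent.Helper96.Mu.GRebal
import Pool.Agent.Helper96.Mu.AsmF2

/-!
# The far case of the maximum version
-/

namespace Pool.Agent.Helper96.Mu

open Finset Pool.Agent.Helper39.Mu

set_option linter.unusedSectionVars false

/-- The gain in the far case. -/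
noncomputable def kg : ℝ := 1 / (4 * 10 ^ 45)

section Graph

variable {V : Type*} [Fintype V] [DecidableEq V] (G : SimpleGraph V)

lemma vr_nonneg' {q : V → ℝ} (hq : ∀ v, 0 ≤ q v ∧ q v ≤ 1) (v : V) : 0 ≤ vr G q v :=
  Finset.sum_nonneg fun w _ =>
    mul_nonneg (adj_nonneg G v w) (mul_nonneg (hq w).1 (by linarith [(hq w).2]))

lemma FX_le {q : V → ℝ} (hq : ∀ v, 0 ≤ q v ∧ q v ≤ 1) : FX G q ≤ FX0 G q + tot G / 4 := by
  have h1 := sum_vr_le G q
  have h2 : FX G q = FX0 G q + ∑ v, q v * vr G q v := by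
    unfold FX FX0
    rw [← Finset.sum_add_distrib]
    exact Finset.sum_congr rfl fun v _ => by ring
  have h3 : ∑ v, q v * vr G q v ≤ ∑ v, vr G q v :=
    Finset.sum_le_sum fun v _ => by
      have := vr_nonneg' G hq v
      nlinarith [(hq v).2]
  unfold tot
  linarith

lemma FY_le {q : V → ℝ} (hq : ∀ v, 0 ≤ q v ∧ q v ≤ 1) : FY G q ≤ FY0 G q + tot G / 4 := by
  have h1 := sum_vr_le G q
  have h2 : FY G q = FY0 G q + ∑ v, (1 - q v) * vr G q v := by
    unfold FY FY0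
    rw [← Finset.sum_add_distrib]
    exact Finset.sum_congr rfl fun v _ => by ring
  have h3 : ∑ v, (1 - q v) * vr G q v ≤ ∑ v, vr G q v :=
    Finset.sum_le_sum fun v _ => by
      have := vr_nonneg' G hq v
      nlinarith [(hq v).1]
  unfold tot
  linarith

lemma gMu_le_max {x : V → ℝ} (hx : ∀ v, x v = 0 ∨ x v = 1) {E : ℝ} (h1 : FX G x ≤ E)
    (h2 : FY G x ≤ E) : (gMu G : ℝ) ≤ E := by
  have h3 : gMu G ≤ max (mu (G.induce {v | x v = 1})) (mu (G.induce {v | x v = 1}ᶜ)) :=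
    Nat.sInf_le ⟨_, rfl⟩
  have h4 : (gMu G : ℝ) ≤ max ((mu (G.induce {v | x v = 1}) : ℕ) : ℝ)
      ((mu (G.induce {v | x v = 1}ᶜ) : ℕ) : ℝ) := by
    exact_mod_cast h3
  rw [cost_first G hx, cost_second G hx] at h4
  exact h4.trans (max_le h1 h2)

lemma qt_mem {N t : ℝ} (hN : 0 < N) (ht : 0 ≤ t) (v : V) : 0 ≤ qt G N t v ∧ qt G N t v ≤ 1 := by
  unfold qt
  exact ⟨le_min zero_le_one (mul_nonneg ht (div_nonneg (deg_nonneg G v) hN.le)), min_le_left _ _⟩

/-- Either the cost is far below the extremal value or there is a core structure. -/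
theorem dichotomyG {N : ℝ} (hN : 10 ^ 300 ≤ N) (hsum : tot G = N ^ 2) :
    (gMu G : ℝ) ≤ (1 - kg) * N ^ 3 / 8 ∨
      ∃ B H L : Finset V, Core G N B H L ∧ mis G B + ext G B ≤ N ^ 2 / 10 ^ 10 := by
  have hN0 : 0 < N := lt_of_lt_of_le (by positivity) hN
  have hN48 : (10 : ℝ) ^ 48 ≤ N := (pow_le_pow_right₀ (by norm_num) (by norm_num)).trans hN
  have hsqN : (10 : ℝ) ^ 150 ≤ Real.sqrt N := by
    apply Real.le_sqrt_of_sq_le
    rw [← pow_mul]
    exact hN
  clear hN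
  obtain ⟨ω, hω⟩ : ∃ ω : ℝ, ω = 1 / 10 ^ 45 := ⟨_, rfl⟩
  obtain ⟨δ, hδ⟩ : ∃ δ : ℝ, δ = 1 / 10 ^ 14 := ⟨_, rfl⟩
  have hω0 : 0 < ω := by rw [hω]; positivity
  have hω1 : ω ≤ 1 / 10 ^ 45 := by rw [hω]
  have hω2 : ω ≤ 1 / 1000 := by rw [hω]; norm_num
  have hk : kg = ω / 4 := by rw [hω]; unfold kg; norm_num
  obtain ⟨s, hs⟩ : ∃ s, s = Real.sqrt (1 + 2 * ω) := ⟨_, rfl⟩
  have hs0 : 0 < s := by rw [hs]; exact Real.sqrt_pos.mpr (by linarith)
  have hs2 : s ^ 2 = 1 + 2 * ω := by rw [hs]; exact Real.sq_sqrt (by linarith)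
  have hs1 : 1 ≤ s := by nlinarith only [hs2, hs0, hω0]
  obtain ⟨N', hN'⟩ : ∃ N', N' = N / s := ⟨_, rfl⟩
  have hN'0 : 0 < N' := by rw [hN']; positivity
  have hNs : N = N' * s := by rw [hN']; field_simp
  have hN'N : N' ≤ N := by
    calc N' = N' * 1 := (mul_one _).symm
      _ ≤ N' * s := mul_le_mul_of_nonneg_left hs1 hN'0.le
      _ = N := hNs.symm
  have hN'2 : (1 + 2 * ω) * N' ^ 2 = N ^ 2 := by rw [← hs2, hNs]; ring
  have hN'le : N' ≤ (1 - ω / 2) * N := by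
    have h1 : 1 ≤ (1 - ω / 2) * s := by
      have h2 : 1 ≤ ((1 - ω / 2) * s) ^ 2 := by
        rw [mul_pow, hs2]
        nlinarith only [hω0, hω2, mul_pos hω0 hω0, mul_pos (mul_pos hω0 hω0) hω0]
      have h3 : 0 ≤ (1 - ω / 2) * s := mul_nonneg (by linarith) hs0.le
      nlinarith only [h2, h3]
    calc N' = N' * 1 := (mul_one _).symm
      _ ≤ N' * ((1 - ω / 2) * s) := mul_le_mul_of_nonneg_left h1 hN'0.le
      _ = (1 - ω / 2) * (N' * s) := by ring
      _ = (1 - ω / 2) * N := by rw [← hNs]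
  have htot : ∑ v, deg G v = (1 + 2 * ω) * N' ^ 2 := by rw [hN'2]; exact hsum
  by_cases hbad : ∀ v, deg G v < (1 + δ) * N' → ∑ w, adj G v w * deg G w ≤ (1 - δ) * N' ^ 2
  · left
    have hN'sq : 0 < N' ^ 2 := by positivity
    have hδ0 : 0 < δ := by rw [hδ]; positivity
    have hbad' : ∀ v, deg G v < (1 + δ) * N' → ∑ w, adj G v w * deg G w ≤ N' ^ 2 := by
      intro v hv
      have h1 := hbad v hv
      have h2 : 0 ≤ δ * N' ^ 2 := by positivity
      linarith only [h1, h2]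
    obtain ⟨E, hE⟩ : ∃ E, E = (1 + 2 * ω) * N' ^ 3 / 8 := ⟨_, rfl⟩
    have hE' : E = N ^ 2 * N' / 8 := by rw [hE, ← hN'2]; ring
    obtain ⟨t, ht1, ht2, hX, hY⟩ := exists_t G (N := N') (E := E) hN'0
      (fun t h1 h2 => by
        rw [hE]
        exact cert G hN'0 hδ0 (by rw [hδ]; norm_num) hω0.le (by rw [hω, hδ]; norm_num) h1 h2
          htot hbad')
      (by
        rw [hE]
        exact half G hN'0 hδ0 (by rw [hδ]; norm_num) hω0.le hδ0.le (by rw [hδ]; norm_num)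
          (by rw [hω, hδ]; norm_num) htot hbad)
    obtain ⟨β, hβ⟩ : ∃ β, β = ω / 1000 := ⟨_, rfl⟩
    have hβ0 : 0 < β := by rw [hβ]; positivity
    have hβ1 : β ≤ 1 := by rw [hβ]; linarith
    obtain ⟨htX, htY⟩ := trunc G (N := N') (β := β) (t := t) hN'0 hβ0 hβ1 ht1 ht2
    obtain ⟨q, hq⟩ : ∃ q : V → ℝ, q = fun v => if deg G v < β * N' then 0 else qt G N' t v :=
      ⟨_, rfl⟩
    rw [← hq] at htX htY
    have hqm : ∀ v, 0 ≤ q v ∧ q v ≤ 1 := by
      intro v
      rw [hq]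
      dsimp only
      split_ifs
      · norm_num
      · exact qt_mem G hN'0 (by linarith) v
    have hN'1 : 1 ≤ N' := by
      have h1 : N ≤ 2 * N' := by
        have h2 : s ≤ 2 := by nlinarith only [hs2, hs0, hω2]
        calc N = N' * s := hNs
          _ ≤ N' * 2 := mul_le_mul_of_nonneg_left h2 hN'0.le
          _ = 2 * N' := mul_comm _ _
      linarith only [h1, hN48]
    have hlow : ∀ v, deg G v < β * N' → q v = 0 := by
      intro v hv
      rw [hq]
      dsimp only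
      rw [if_pos hv]
    have hhigh : ∀ v, 2 * N' ≤ deg G v → q v = 1 := by
      intro v hv
      rw [hq]
      dsimp only
      rw [if_neg (by nlinarith only [hv, hβ1, hN'0])]
      unfold qt
      apply min_eq_left
      rw [← mul_div_assoc, le_div_iff₀ hN'0]
      nlinarith only [hv, ht1, hN'0]
    have htot2 : tot G ≤ 2 * N' ^ 2 := by
      have : tot G = (1 + 2 * ω) * N' ^ 2 := htot
      rw [this]
      nlinarith only [hω2, hN'sq]
    obtain ⟨x, hx, hxX, hxY⟩ := round_cost G hN'1 hβ0 hβ1 htot2 q hqm hlow hhigh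
    have hFX := FX_le G hqm
    have hFY := FY_le G hqm
    obtain ⟨W, hW⟩ : ∃ W, W = 30 * N' ^ 2 * Real.sqrt N' / β ^ 2 := ⟨_, rfl⟩
    rw [← hW] at hxX hxY
    rw [hsum] at hFX hFY htY
    have hg := gMu_le_max G hx (E := E + 7 * β * N' * N ^ 2 + N ^ 2 / 4 + W)
      (by
        have : 0 ≤ 7 * β * N' * N ^ 2 := by positivity
        linarith) (by linarith)
    refine hg.trans ?_
    rw [hk, hE']
    -- numerical estimates
    have h1 : N ^ 2 * N' ≤ N ^ 2 * ((1 - ω / 2) * N) := mul_le_mul_of_nonneg_left hN'le (sq_nonneg N)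
    have h2 : 7 * β * N' * N ^ 2 ≤ 7 / 1000 * ω * N ^ 3 := by
      rw [hβ]
      have : N' * N ^ 2 ≤ N * N ^ 2 := mul_le_mul_of_nonneg_right hN'N (sq_nonneg N)
      nlinarith only [this, hω0]
    have h3 : N ^ 2 / 4 ≤ 1 / 1000 * ω * N ^ 3 := by
      have h4 : 250 ≤ ω * N := by
        rw [hω, div_mul_eq_mul_div, le_div_iff₀ (by positivity)]
        have h5 : (250 : ℝ) * 10 ^ 45 ≤ 10 ^ 48 := by norm_num
        linarith
      have h5 : 250 * N ^ 2 ≤ ω * N * N ^ 2 := mul_le_mul_of_nonneg_right h4 (sq_nonneg N)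
      nlinarith only [h5]
    have h4 : W ≤ 1 / 1000 * ω * N ^ 3 := by
      have hsq : Real.sqrt N * Real.sqrt N = N := Real.mul_self_sqrt hN0.le
      have h5 : Real.sqrt N' ≤ Real.sqrt N := Real.sqrt_le_sqrt hN'N
      have h6 : N' ^ 2 ≤ N ^ 2 := pow_le_pow_left₀ hN'0.le hN'N 2
      have h7 : 30 * N' ^ 2 * Real.sqrt N' ≤ 30 * N ^ 2 * Real.sqrt N := by
        have : N' ^ 2 * Real.sqrt N' ≤ N ^ 2 * Real.sqrt N :=
          mul_le_mul h6 h5 (Real.sqrt_nonneg _) (sq_nonneg _)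
        linarith
      rw [hW, div_le_iff₀ (by positivity)]
      refine h7.trans ?_
      have h8 : 30 * Real.sqrt N ≤ 1 / 1000 * ω * N * β ^ 2 := by
        rw [hβ]
        have h9 : 3 * 10 ^ 10 ≤ ω ^ 3 * Real.sqrt N := by
          rw [hω, div_pow, one_pow, div_mul_eq_mul_div, le_div_iff₀ (by positivity)]
          have h10 : (3 : ℝ) * 10 ^ 10 * (10 ^ 45) ^ 3 ≤ 10 ^ 150 := by norm_num
          linarith
        have h10 : 3 * 10 ^ 10 * Real.sqrt N ≤ ω ^ 3 * Real.sqrt N * Real.sqrt N :=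
          mul_le_mul_of_nonneg_right h9 (Real.sqrt_nonneg _)
        have h11 : ω ^ 3 * Real.sqrt N * Real.sqrt N = ω ^ 3 * N := by rw [mul_assoc, hsq]
        rw [h11] at h10
        have e : 1 / 1000 * ω * N * (ω / 1000) ^ 2 = ω ^ 3 * N / 10 ^ 9 := by ring
        rw [e]
        rw [le_div_iff₀ (by norm_num)]
        linarith
      have h12 : N ^ 2 * (30 * Real.sqrt N) ≤ N ^ 2 * (1 / 1000 * ω * N * β ^ 2) :=
        mul_le_mul_of_nonneg_left h8 (sq_nonneg N)
      linarith only [h12]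
    have h0 : 0 < ω * N ^ 3 := by positivity
    nlinarith only [h1, h2, h3, h4, h0]
  · right
    push Not at hbad
    obtain ⟨v, hv1, hv2⟩ := hbad
    obtain ⟨A, hA1, hA2⟩ := extract2 G htot hv1 hv2
    refine exists_core2 G hN0 hsum A ?_ ?_
    · rw [hδ] at hA1
      refine hA1.trans ?_
      have : (1 + 1 / 10 ^ 14) * N' ≤ (1 + 1 / 10 ^ 13) * N' := by
        apply mul_le_mul_of_nonneg_right _ hN'0.le
        norm_num
      refine this.trans ?_
      apply mul_le_mul_of_nonneg_left hN'N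
      norm_num
    · refine le_trans ?_ hA2
      have h4 : 0 < N' ^ 2 := by positivity
      have h5 : ω * N' ^ 2 ≤ 1 / 10 ^ 45 * N' ^ 2 := mul_le_mul_of_nonneg_right hω1 h4.le
      have h6 : 0 < ω * N' ^ 2 := by positivity
      rw [← hN'2, hδ]
      norm_num at h5 ⊢
      nlinarith only [h4, h5, h6]

end Graph

end Pool.Agent.Helper96.Mu
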