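import Pool.Agent.Helper96.Mu.GFar

/-!
# The near case of the maximum version, all numbers of edges
-/

namespace Pool.Agent.Helper96.Mu

open Finset Pool.Agent.Helper39.Mu

set_option linter.unusedSectionVars false

/-- Slope of `Psi` at `a`. -/
noncomputable def slG (a : ℝ) : ℝ := (3 * a ^ 2 - 2 * a - 1) / (4 * (2 * a - 1))

/-- Convexity of `Psi` as a function of the number of edges. -/
lemma psi_convex {a n : ℝ} (ha : 2 ≤ a) (hn : 1 ≤ n) :
    Psi a + slG a * ((n * (n - 1) - a * (a - 1)) / 2) ≤ Psi n := by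
  have h1 : 2 * a - 1 ≠ 0 := by linarith
  have hsl : slG a * (4 * (2 * a - 1)) = 3 * a ^ 2 - 2 * a - 1 := by
    unfold slG
    exact div_mul_cancel₀ _ (mul_ne_zero four_ne_zero h1)
  have ht : (a ^ 2 - 2 * a + 2) / (2 * a - 1) * (2 * a - 1) = a ^ 2 - 2 * a + 2 :=
    div_mul_cancel₀ _ h1
  have e : Psi n - (Psi a + slG a * ((n * (n - 1) - a * (a - 1)) / 2)) =
      (n - a) ^ 2 / 8 * (n + (a ^ 2 - 2 * a + 2) / (2 * a - 1)) := by
    apply mul_left_cancel₀ h1
    unfold Psi
    linear_combination (-((n * (n - 1) - a * (a - 1)) / 2) / 4) * hsl - (n - a) ^ 2 / 8 * ht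
  have h2 : 0 ≤ (a ^ 2 - 2 * a + 2) / (2 * a - 1) := by
    apply div_nonneg
    · nlinarith
    · linarith
  have h3 : 0 ≤ (n - a) ^ 2 / 8 * (n + (a ^ 2 - 2 * a + 2) / (2 * a - 1)) :=
    mul_nonneg (by positivity) (by linarith)
  linarith

lemma slG_lo {a : ℝ} (ha : 1 ≤ a) : 0 ≤ slG a := by
  unfold slG
  apply div_nonneg
  · nlinarith
  · linarith

lemma slG_hi {a : ℝ} (ha : 10 ≤ a) : slG a ≤ 2 / 5 * a := by
  unfold slG
  rw [div_le_iff₀ (by linarith)]
  nlinarith

lemma hi_Psi {a : ℕ} (ha : 3 ≤ a) : (hi a : ℝ) * ((hi a : ℝ) - 1) ^ 2 ≤ Psi a ∧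
    (lo a : ℝ) * ((lo a : ℝ) - 1) ^ 2 ≤ Psi a - (3 * a ^ 2 - 5 * a + 1) / 8 := by
  have ha' : (3 : ℝ) ≤ a := by exact_mod_cast ha
  rcases Nat.even_or_odd' a with ⟨k, rfl | rfl⟩
  · unfold Psi
    rw [hi_cast_even, lo_cast_even]
    push_cast at ha' ⊢
    constructor <;> nlinarith
  · unfold Psi
    rw [hi_cast_odd, lo_cast_odd]
    push_cast at ha' ⊢
    constructor <;> nlinarith

section Graph

variable {V : Type*} [Fintype V] [DecidableEq V] (G : SimpleGraph V)

/-- The rebalancing bound. -/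
theorem near_reb {N : ℝ} {B H L : Finset V} (hc : Core G N B H L)
    (hp : mis G B + ext G B ≤ N ^ 2 / 10 ^ 10) (hN : 10 ^ 12 ≤ N) (hsum : tot G = N ^ 2) {T : ℝ}
    (hT : ∀ T0 : ℝ, T0 ≤ avgE G B H L → T0 ≤ T) :
    2 * (gMu G : ℝ) ≤ T + 3 / 4 * N ^ 2 + N * (mis G B + ext G B) / 10 ^ 5 +
      N ^ 2 / (5 * 10 ^ 4) := by
  have ha1 := hc.card_lo
  have h3 : 3 ≤ B.card := by
    have : (3 : ℝ) ≤ B.card := by
      norm_num at ha1
      linarith
    exact_mod_cast this
  obtain ⟨S, hS1, hS2, hS3⟩ := exists_half G hc.disjBH hc.disjBL h3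
  have h1 := rebalance G hc hN hsum hp hS1 hS2
  have h2 := hT _ hS3
  linarith

/-- The bound in the near case for all numbers of edges. -/
theorem near_allG {N : ℝ} {B H L : Finset V} (hc : Core G N B H L)
    (hp : mis G B + ext G B ≤ N ^ 2 / 10 ^ 10) (hN : 10 ^ 12 ≤ N) (hsum : tot G = N ^ 2) {n : ℝ}
    (hn : 1 ≤ n) (hnN : n * (n - 1) = N ^ 2) : (gMu G : ℝ) ≤ Psi n := by
  have ha1 := hc.card_lo
  have ha2 := hc.card_hi
  obtain ⟨a, ha⟩ : ∃ a : ℝ, a = B.card := ⟨_, rfl⟩
  rw [← ha] at ha1 ha2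
  have hN6 : (10 : ℝ) ^ 6 ≤ N := by linarith
  have haN : (10 : ℝ) ^ 11 ≤ a := by
    norm_num at ha1 hN ⊢
    linarith
  have ha4 : 4 ≤ B.card := by
    have : (4 : ℝ) ≤ B.card := by
      rw [← ha]
      norm_num at haN
      linarith
    exact_mod_cast this
  have ha3 : 3 ≤ B.card := by omega
  have hM0 := mis_nonneg G B
  have hE0 := ext_nonneg G B
  have hME := ext_sub_mis G B
  rw [hsum, ← hnN, ← ha] at hME
  obtain ⟨M, hM⟩ : ∃ M, M = mis G B := ⟨_, rfl⟩
  obtain ⟨E, hE⟩ : ∃ E, E = ext G B := ⟨_, rfl⟩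
  rcases le_or_gt (N / 10) (mis G B + ext G B) with hbig | hsmall
  · -- many defects: rebalancing
    have hreb := near_reb G hc hp hN hsum (T := Phi n - N / 1000 * (ext G B + mis G B)) (by
      intro T0 hT0
      have h1 := near_bound_of G hc hN6 (T := T0) hT0
      have h2 := phi_convex (a := (B.card : ℝ)) (n := n) (by rw [← ha]; norm_num at haN; linarith) hn
      have h3 := (fK_le_Phi (a := B.card) (by omega)).1
      rw [ext_sub_mis, hsum, ← hnN] at h1
      linarith)
    have hid : 2 * Psi n = Phi n + (3 * (n * (n - 1)) - 5 * n + 5) / 4 := by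
      unfold Psi Phi
      ring
    have hnN1 : n ≤ N + 1 := by nlinarith
    have h5 : N * (N / 10) ≤ N * (mis G B + ext G B) :=
      mul_le_mul_of_nonneg_left hbig (by linarith)
    have h6 : (10 : ℝ) ^ 12 * N ≤ N * N := mul_le_mul_of_nonneg_right hN (by linarith)
    rw [hnN] at hid
    norm_num at h6 hreb ⊢
    nlinarith
  · -- few defects: the direct partition
    have hhi := hi_bounds B.card
    have hlo : (lo B.card : ℝ) ≤ B.card / 2 := by
      have h1 := hi_add_lo B.card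
      have h2 : (hi B.card : ℝ) + lo B.card = B.card := by exact_mod_cast h1
      linarith [hhi.1]
    obtain ⟨U, hU1, hU2⟩ := direct G (B := B) ha4 (by
      rw [← ha] at hhi
      norm_num at ha1
      linarith [hhi.1])
    have hg : (gMu G : ℝ) ≤ max (mu (G.induce U) : ℝ) (mu (G.induce Uᶜ) : ℝ) := by
      have : gMu G ≤ max (mu (G.induce U)) (mu (G.induce Uᶜ)) := Nat.sInf_le ⟨U, rfl⟩
      exact_mod_cast this
    refine hg.trans (max_le (hU1.trans ?_) (hU2.trans ?_))
    all_goals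
      have hcv := psi_convex (a := a) (n := n) (by norm_num at haN; linarith) hn
      have hPs := hi_Psi ha3
      have hs0 := slG_lo (a := a) (by norm_num at haN; linarith)
      have hs1 := slG_hi (a := a) (by norm_num at haN; linarith)
      rw [← hME, ← hM, ← hE] at hcv
      rw [← hM, ← hE] at hsmall
      rw [← hM] at hM0
      rw [← hE] at hE0
      rw [← ha] at hPs hhi
      have hMs : M ≤ 101 / 1000 * a := by
        norm_num at ha1
        linarith
      have hEs : E ≤ 101 / 1000 * a := by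
        norm_num at ha1
        linarith
      have ha0 : 0 < a := by
        norm_num at haN
        linarith
      have hsM : slG a * M ≤ 2 / 5 * a * M := mul_le_mul_of_nonneg_right hs1 hM0
      have hsE : 0 ≤ slG a * E := mul_nonneg hs0 hE0
    · rw [← hM]
      have h5 : 2 * a * M ≤ 4 * (hi B.card : ℝ) * M := by
        apply mul_le_mul_of_nonneg_right _ hM0
        linarith [hhi.1]
      have h6 : M * M ≤ 101 / 1000 * a * M := mul_le_mul_of_nonneg_right hMs hM0
      have h7 : (10 : ℝ) ^ 11 * M ≤ a * M := mul_le_mul_of_nonneg_right haN hM0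
      norm_num at h7
      nlinarith [hPs.1]
    · rw [← hE, ← ha]
      have h5 : a * E ≤ a * (101 / 1000 * a) := mul_le_mul_of_nonneg_left hEs ha0.le
      have h6 : E * E ≤ 101 / 1000 * a * (101 / 1000 * a) :=
        mul_le_mul hEs hEs hE0 (by positivity)
      have h7 : 2 / 5 * a * M ≤ 2 / 5 * a * (101 / 1000 * a) :=
        mul_le_mul_of_nonneg_left hMs (by positivity)
      have h8 : (10 : ℝ) ^ 11 * a ≤ a * a := mul_le_mul_of_nonneg_right haN ha0.le
      norm_num at h8
      nlinarith [hPs.2]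

/-- The upper bound `Psi` for all large graphs. -/
theorem upper_allG {N : ℝ} (hN : 10 ^ 300 ≤ N) (hsum : tot G = N ^ 2) {n : ℝ} (hn : 1 ≤ n)
    (hnN : n * (n - 1) = N ^ 2) : (gMu G : ℝ) ≤ Psi n := by
  have hN48 : (10 : ℝ) ^ 48 ≤ N := (pow_le_pow_right₀ (by norm_num) (by norm_num)).trans hN
  rcases dichotomyG G hN hsum with h | ⟨B, H, L, hc, hp⟩
  · clear hN
    refine h.trans ?_
    have hN0 : 0 < N := by
      norm_num at hN48
      linarith
    have h1 : N ≤ n := by nlinarith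
    have e1 : Psi n = (n - 1) * (N ^ 2 + (n - 1)) / 8 := by
      unfold Psi
      rw [← hnN]; ring
    have h4 : (N - 1) * N ^ 2 ≤ (n - 1) * (N ^ 2 + (n - 1)) := by
      apply mul_le_mul (by linarith) (by linarith) (sq_nonneg N) (by linarith)
    rw [e1]
    have h5 : 1 ≤ kg * N := by
      unfold kg
      rw [div_mul_eq_mul_div, le_div_iff₀ (by norm_num)]
      norm_num at hN48 ⊢
      linarith
    have h6 : 1 * N ^ 2 ≤ kg * N * N ^ 2 := mul_le_mul_of_nonneg_right h5 (sq_nonneg N)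
    nlinarith
  · exact near_allG G hc hp ((pow_le_pow_right₀ (by norm_num) (by norm_num)).trans hN) hsum hn hnN

end Graph

end Pool.Agent.Helper96.Mu
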