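import Pool.Agent.Helper96.Mu.GNear
import Pool.Agent.Helper96.Mu.Fill

/-!
# The star range: upper bound for the maximum version
-/

namespace Pool.Agent.Helper96.Mu

open Finset Pool.Agent.Helper39.Mu

set_option linter.unusedSectionVars false

/-- The larger part of `K_n` minus a star with `j` edges. -/
noncomputable def gS (n : ℕ) (j : ℝ) : ℝ :=
  (hi n : ℝ) * ((hi n : ℝ) - 1) ^ 2 - (4 * (hi n : ℝ) - 5) * j + j ^ 2

lemma gS_odd {n : ℕ} (hodd : Odd n) (j : ℝ) : (hi n : ℝ) = (n + 1) / 2 ∧ (lo n : ℝ) = (n - 1) / 2 ∧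
    2 * gS n j = Phi n + (3 * (n * (n - 1)) - 5 * n + 5) / 4 - (4 * n - 6) * j + 2 * j ^ 2 := by
  obtain ⟨k, rfl⟩ := hodd
  unfold gS
  rw [hi_cast_odd, lo_cast_odd]
  unfold Phi
  push_cast
  refine ⟨by ring, by ring, by ring⟩

/-- The cost of the smaller part. -/
lemma lside {n j E : ℝ} (hn : 1000 ≤ n) (hj0 : 0 ≤ j) (hj : 30 * j ≤ n) (hE0 : 0 ≤ E)
    (hE : E ≤ 475 / 1000 * n - j) :
    (n - 1) / 2 * ((n - 1) / 2 - 1) ^ 2 + n * E + E ^ 2 ≤
      (n + 1) / 2 * ((n + 1) / 2 - 1) ^ 2 - (4 * ((n + 1) / 2) - 5) * j + j ^ 2 := by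
  have h5 : 0 ≤ (475 / 1000 * n - j - E) * (n + (475 / 1000 * n - j) + E) :=
    mul_nonneg (by linarith) (by linarith)
  have h6 : j * n ≤ n / 30 * n := mul_le_mul_of_nonneg_right (by linarith) (by linarith)
  have h7 : 1000 * n ≤ n * n := mul_le_mul_of_nonneg_right hn (by linarith)
  have e : (n + 1) / 2 * ((n + 1) / 2 - 1) ^ 2 - (4 * ((n + 1) / 2) - 5) * j + j ^ 2 -
      ((n - 1) / 2 * ((n - 1) / 2 - 1) ^ 2 + n * E + E ^ 2) =
      (475 / 1000 * n - j - E) * (n + (475 / 1000 * n - j) + E) +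
      (49375 / 1000000 * n ^ 2 - 2 * n + 5 / 4 - 5 / 100 * (j * n) + 3 * j) := by ring
  have h8 : 0 ≤ 49375 / 1000000 * n ^ 2 - 2 * n + 5 / 4 - 5 / 100 * (j * n) + 3 * j := by
    nlinarith
  linarith

/-- The final numerical contradiction. -/
lemma star_contraG {n N Mq Ep Q : ℝ} (hn : 10 ^ 8 ≤ n) (hN1 : n - 1 ≤ N) (hN2 : N ≤ n)
    (h1 : 474 / 1000 * n ≤ Mq) (h2 : 4416 / 10000 * n ≤ Ep) (h3 : Mq + Ep ≤ 932 / 1000 * n)
    (h4 : N * Mq - Mq ^ 2 + (N * Ep - Ep ^ 2) - 1 / 10 ^ 3 * N ^ 2 ≤ Q)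
    (h5 : Q < 465 / 1000 * n ^ 2) : False := by
  have hn0 : 0 < n := by linarith
  have a1 : 0 ≤ (Mq - 474 / 1000 * n) * (N - Mq - 474 / 1000 * n) :=
    mul_nonneg (by linarith) (by linarith)
  have a2 : 0 ≤ (Ep - 4416 / 10000 * n) * (N - Ep - 4416 / 10000 * n) :=
    mul_nonneg (by linarith) (by linarith)
  have a3 : (n - 1) * n ≤ N * n := mul_le_mul_of_nonneg_right hN1 hn0.le
  have a4 : N ^ 2 ≤ n ^ 2 := by nlinarith
  nlinarith

/-! Small numerical steps of the proofs below. -/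

private lemma gs_N1 {n N j : ℝ} (hn : 10 ≤ n) (hj : 30 * j ≤ n) (hN0 : 0 < N)
    (h : N ^ 2 = n * (n - 1) - 2 * j) : n - 1 ≤ N := by
  by_contra hc
  push Not at hc
  have h1 : N ^ 2 < (n - 1) ^ 2 := pow_lt_pow_left₀ hc hN0.le two_ne_zero
  linarith

private lemma gs_N2 {n N j : ℝ} (hn : 10 ≤ n) (hj : 0 ≤ j) (h : N ^ 2 = n * (n - 1) - 2 * j) :
    N ≤ n := by
  by_contra hc
  push Not at hc
  have h1 : n ^ 2 < N ^ 2 := pow_lt_pow_left₀ hc (by linarith) two_ne_zero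
  linarith

private lemma gs_sq2 {n N : ℝ} (hn : 10 ^ 13 ≤ n) (h : n - 1 ≤ N) :
    999 / 1000 * n ^ 2 ≤ N ^ 2 := by
  have h1 : (n - 1) ^ 2 ≤ N ^ 2 := pow_le_pow_left₀ (by linarith) h 2
  have h2 : 10 ^ 13 * n ≤ n * n := mul_le_mul_of_nonneg_right hn (by linarith)
  linarith

private lemma gs_mul_sub {q N c : ℝ} (g1 : 0 ≤ q) (g2 : q ≤ N / 2) {D : ℝ}
    (g4 : q * (N - q) - c ≤ D) : N / 2 * q - c ≤ D := by
  have h : 0 ≤ q * (N / 2 - q) := mul_nonneg g1 (by linarith)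
  linarith

private lemma gs_dg {d N : ℝ} (h0 : 0 ≤ d) (h : d < N / 2) : N / 2 * d ≤ d * (N - d) := by
  have h1 : 0 ≤ d * (N / 2 - d) := mul_nonneg h0 (by linarith)
  linarith

private lemma gs_card {c : ℝ} (h0 : 0 ≤ c) (h : c ≤ 466) : c * (c - 1) ≤ 466 * 466 := by
  have h1 : c * c ≤ 466 * 466 := mul_le_mul h h h0 (by norm_num)
  linarith

private lemma gs_large {m g P n j s Q X : ℝ} (hn : 10 ^ 13 ≤ n) (hj0 : 0 ≤ j) (hj : 30 * j ≤ n)
    (hg : 2 * g = P + (3 * (n * (n - 1)) - 5 * n + 5) / 4 - (4 * n - 6) * j + 2 * j ^ 2)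
    (hr : 2 * m ≤ P - s - 6 / 25 * Q + 3 / 4 * (n * (n - 1) - 2 * j) + X / 10 ^ 5
      + (n * (n - 1) - 2 * j) / (5 * 10 ^ 4))
    (hX : X ≤ 1002 * Q) (hs : 7499 / 10000 * n * j ≤ s) (hQ : 465 / 1000 * n ^ 2 ≤ Q) : m ≤ g := by
  have h5 : 0 ≤ (n / 30 - j) * (159172 / 100000 * n - j) :=
    mul_nonneg (by linarith) (by linarith)
  have h6 : (10 : ℝ) ^ 13 * n ≤ n * n := mul_le_mul_of_nonneg_right hn (by linarith)
  have h7 : 0 ≤ n * j := mul_nonneg (by linarith) hj0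
  linarith

private lemma gs_Hc {n N c : ℝ} (hn : 0 < n) (h5 : c * (N ^ 2 / 1000) < 465 / 1000 * n ^ 2)
    (h6 : 999 / 1000 * n ^ 2 ≤ N ^ 2) (h7 : 466 * (N ^ 2 / 1000) ≤ c * (N ^ 2 / 1000)) :
    False := by
  have h8 : 0 < n ^ 2 := by positivity
  linarith

private lemma gs_last {n N Q X : ℝ} (hn : 10 ^ 13 ≤ n) (hN1 : n - 1 ≤ N) (hN0 : 0 < N)
    (hN2 : N ≤ n) (hQ : Q < 465 / 1000 * n ^ 2) (h5 : N * X ≤ 2 * (Q + 94 / 10 ^ 5 * N ^ 2)) :
    N * X < N * (932 / 1000 * n) := by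
  have h8 : N ^ 2 ≤ n ^ 2 := pow_le_pow_left₀ hN0.le hN2 2
  have h9 : (n - 1) * n ≤ N * n := mul_le_mul_of_nonneg_right hN1 (by linarith)
  have h10 : (10 : ℝ) ^ 13 * n ≤ n * n := mul_le_mul_of_nonneg_right hn (by linarith)
  norm_num at h5 h10 ⊢
  linarith

private lemma gs_b1 {b n j E M : ℝ} (hn : 10 ^ 13 ≤ n) (hb : b + 1 ≤ n) (hb0 : 0 ≤ b)
    (hj : 30 * j ≤ n) (h : E - M = (n * (n - 1) - 2 * j - b * (b - 1)) / 2) (hM : 0 ≤ M)
    (hE : E ≤ 932 / 1000 * n) : False := by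
  have h1 : 0 ≤ (n - 1 - b) * (n - 2 + b) := mul_nonneg (by linarith) (by linarith)
  linarith

private lemma gs_b2 {b n j E M : ℝ} (hn : 10 ^ 13 ≤ n) (hb : n + 1 ≤ b) (hj : 0 ≤ j)
    (h : E - M = (n * (n - 1) - 2 * j - b * (b - 1)) / 2) (hE : 0 ≤ E)
    (hM : M ≤ 933 / 1000 * n) : False := by
  have h1 : 0 ≤ (b - (n + 1)) * (b + n) := mul_nonneg (by linarith) (by linarith)
  linarith

section Graph

variable {V : Type*} [Fintype V] [DecidableEq V] (G : SimpleGraph V)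

/-- The bound in the near case for `m = C(n,2) - j`, `n` odd, `30 j ≤ n`. -/
theorem near_starG {N : ℝ} {B H L : Finset V} (hc : Core G N B H L)
    (hp : mis G B + ext G B ≤ N ^ 2 / 10 ^ 10) {n j : ℕ} (hodd : Odd n)
    (hn : 10 ^ 13 ≤ n) (hj : 30 * j ≤ n) (hN0 : 0 < N) (hsum : tot G = N ^ 2)
    (hNn : N ^ 2 = n * (n - 1) - 2 * j) : (gMu G : ℝ) ≤ gS n j := by
  classical
  have hnR : (10 : ℝ) ^ 13 ≤ n := by exact_mod_cast hn
  have hjR : 30 * (j : ℝ) ≤ n := by exact_mod_cast hj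
  have hj0 : (0 : ℝ) ≤ j := Nat.cast_nonneg j
  have hn0 : (0 : ℝ) < n := by linarith
  have hN1 : (n : ℝ) - 1 ≤ N := gs_N1 (by linarith) hjR hN0 hNn
  have hN2 : N ≤ n := gs_N2 (by linarith) hj0 hNn
  have ha1 := hc.card_lo
  have ha2 := hc.card_hi
  obtain ⟨a, ha⟩ : ∃ a : ℝ, a = B.card := ⟨_, rfl⟩
  rw [← ha] at ha1 ha2
  have hN12 : (10 : ℝ) ^ 12 ≤ N := by linarith
  have hN6 : (10 : ℝ) ^ 6 ≤ N := by linarith
  have ha10 : (10 : ℝ) ≤ a := by linarith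
  have haN : 2 ≤ B.card := by
    have : (2 : ℝ) ≤ B.card := by rw [← ha]; linarith
    exact_mod_cast this
  have h3 : 3 ≤ B.card := by
    have : (3 : ℝ) ≤ B.card := by rw [← ha]; linarith
    exact_mod_cast this
  have ha0 : 0 < a := by linarith
  obtain ⟨hho, hlo, hgS⟩ := gS_odd hodd (j : ℝ)
  obtain ⟨-, hb2, hlam0⟩ := near_bound2_of G hc hN6 (T := avgE G B H L) le_rfl
  obtain ⟨Q, hQ⟩ : ∃ Q, Q = N * (mis G B + lam G B H) + ∑ h ∈ H, dg G B h * (N - dg G B h) :=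
    ⟨_, rfl⟩
  have hmis0 := mis_nonneg G B
  have hext0 := ext_nonneg G B
  -- the general bound
  have hphi := phi_convex (a := (B.card : ℝ)) (n := n) (by rw [← ha]; linarith) (by linarith)
  have hPhia := (fK_le_Phi haN).1
  have hsl := sl_lo (a := (B.card : ℝ)) (by rw [← ha]; linarith)
  rw [← ha] at hphi hPhia hsl
  have hslj : 7499 / 10000 * n * j ≤ sl a * j := by
    apply mul_le_mul_of_nonneg_right _ hj0
    linarith
  have hreb := near_reb G hc hp hN12 hsum (T := Phi n - sl a * j - 6 / 25 * Q) (by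
    intro T0 hT0
    obtain ⟨hb1, -, -⟩ := near_bound2_of G hc hN6 (T := T0) hT0
    rw [← hQ, ext_sub_mis, hsum, hNn, ← ha] at hb1
    have e : sl a * (((n : ℝ) * (n - 1) - 2 * j - a * (a - 1)) / 2) =
        sl a * (((n : ℝ) * (n - 1) - a * (a - 1)) / 2) - sl a * j := by ring
    rw [e] at hb1
    linarith)
  -- the weight of the defects
  have hNp : N * (mis G B + ext G B) ≤ 1002 * Q := by
    have h5 : N * (mis G B + ext G B) = Q + ∑ h ∈ H, dg G B h ^ 2 := by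
      have h6 : ∑ h ∈ H, dg G B h * (N - dg G B h) =
          N * ∑ h ∈ H, dg G B h - ∑ h ∈ H, dg G B h ^ 2 := by
        rw [Finset.mul_sum, ← Finset.sum_sub_distrib]
        exact Finset.sum_congr rfl fun h _ => by ring
      rw [hQ, h6]
      unfold lam
      ring
    have h6 : ∑ h ∈ H, dg G B h ^ 2 ≤ H.card * ((1 + 1 / 10 ^ 6) * N) ^ 2 := by
      calc ∑ h ∈ H, dg G B h ^ 2 ≤ ∑ h ∈ H, ((1 + 1 / 10 ^ 6) * N) ^ 2 := by
            refine Finset.sum_le_sum fun h _ => pow_le_pow_left₀ (dg_nonneg G B h) ?_ 2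
            exact (dg_le_card G B h).trans (by rw [← ha]; exact ha2)
        _ = H.card * ((1 + 1 / 10 ^ 6) * N) ^ 2 := by rw [Finset.sum_const, nsmul_eq_mul]
    have h7 : (H.card : ℝ) * (N ^ 2 / 1000) ≤ Q := by
      have : 0 ≤ N * mis G B := mul_nonneg hN0.le hmis0
      rw [hQ]
      linarith
    have h8 : (H.card : ℝ) * ((1 + 1 / 10 ^ 6) * N) ^ 2 ≤ 1001 * (H.card * (N ^ 2 / 1000)) := by
      have h9 : 0 ≤ (H.card : ℝ) * N ^ 2 := by positivity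
      have e : (H.card : ℝ) * ((1 + 1 / 10 ^ 6) * N) ^ 2 =
          (1 + 1 / 10 ^ 6) ^ 2 * (H.card * N ^ 2) := by ring
      rw [e]
      norm_num
      linarith
    rw [h5]
    linarith
  rcases le_or_gt (465 / 1000 * (n : ℝ) ^ 2) Q with hQ1 | hQ1
  · -- large defect
    rw [hNn] at hreb
    exact gs_large hnR hj0 hjR hgS hreb hNp hslj hQ1
  · -- small defect
    have hHc : (H.card : ℝ) ≤ 466 := by
      have h5 : (H.card : ℝ) * (N ^ 2 / 1000) < 465 / 1000 * (n : ℝ) ^ 2 := by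
        have : 0 ≤ N * mis G B := mul_nonneg hN0.le hmis0
        rw [hQ] at hQ1
        linarith
      have h6 : 999 / 1000 * (n : ℝ) ^ 2 ≤ N ^ 2 := gs_sq2 hnR hN1
      by_contra hcon
      push Not at hcon
      have h7 : 466 * (N ^ 2 / 1000) ≤ (H.card : ℝ) * (N ^ 2 / 1000) :=
        mul_le_mul_of_nonneg_right hcon.le (by positivity)
      exact gs_Hc hn0 h5 h6 h7
    obtain ⟨H1, hH1⟩ : ∃ H1, H1 = H.filter (fun h => N / 2 ≤ dg G B h) := ⟨_, rfl⟩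
    obtain ⟨H0, hH0⟩ : ∃ H0, H0 = H.filter (fun h => ¬ (N / 2 ≤ dg G B h)) := ⟨_, rfl⟩
    have hsplit : ∀ f : V → ℝ, ∑ h ∈ H, f h = ∑ h ∈ H1, f h + ∑ h ∈ H0, f h := by
      intro f
      rw [hH1, hH0, Finset.sum_filter_add_sum_filter_not]
    have hH1H : H1 ⊆ H := by rw [hH1]; exact Finset.filter_subset _ _
    have hH1c : (H1.card : ℝ) ≤ 466 := by
      have : (H1.card : ℝ) ≤ H.card := by exact_mod_cast Finset.card_le_card hH1H
      linarith
    have hH1c0 : (0 : ℝ) ≤ H1.card := Nat.cast_nonneg _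
    have hdis : Disjoint B H1 := Finset.disjoint_of_subset_right hH1H hc.disjBH
    -- the truncated defects
    obtain ⟨q, hq⟩ : ∃ q : V → ℝ, q = fun h => max (N - dg G B h) 0 := ⟨_, rfl⟩
    have hqf : ∀ h ∈ H1, 0 ≤ q h ∧ q h ≤ N / 2 ∧ a - dg G B h ≤ q h + 1 / 10 ^ 6 * N ∧
        q h * (N - q h) - 2 / 10 ^ 6 * N ^ 2 ≤ dg G B h * (N - dg G B h) := by
      intro h hh
      rw [hH1, Finset.mem_filter] at hh
      exact q_facts hN0 ha2 (by rw [ha]; exact dg_le_card G B h) hh.2 (by rw [hq])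
    obtain ⟨sq, hsq⟩ : ∃ sq, sq = ∑ h ∈ H1, q h := ⟨_, rfl⟩
    obtain ⟨sD, hsD⟩ : ∃ sD, sD = ∑ h ∈ H0, dg G B h := ⟨_, rfl⟩
    have hsq0 : 0 ≤ sq := by rw [hsq]; exact Finset.sum_nonneg fun h hh => (hqf h hh).1
    have hsD0 : 0 ≤ sD := by rw [hsD]; exact Finset.sum_nonneg fun h _ => dg_nonneg G B h
    -- sums of squares
    have hsq2 : ∑ h ∈ H1, q h ^ 2 ≤ sq ^ 2 := by
      rw [hsq]; exact sum_sq_le_sq _ _ fun h hh => (hqf h hh).1
    have hsD2 : ∑ h ∈ H0, dg G B h ^ 2 ≤ sD ^ 2 := by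
      rw [hsD]; exact sum_sq_le_sq _ _ fun h _ => dg_nonneg G B h
    -- lower bounds for the sums
    have hL1 : N * sq - sq ^ 2 - 94 / 10 ^ 5 * N ^ 2 ≤
        ∑ h ∈ H1, dg G B h * (N - dg G B h) := by
      have h5 : ∑ h ∈ H1, (q h * (N - q h) - 2 / 10 ^ 6 * N ^ 2) ≤
          ∑ h ∈ H1, dg G B h * (N - dg G B h) := Finset.sum_le_sum fun h hh => (hqf h hh).2.2.2
      have h6 : ∑ h ∈ H1, (q h * (N - q h) - 2 / 10 ^ 6 * N ^ 2) =
          N * sq - ∑ h ∈ H1, q h ^ 2 - H1.card * (2 / 10 ^ 6 * N ^ 2) := by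
        rw [Finset.sum_sub_distrib, Finset.sum_const, nsmul_eq_mul, hsq, Finset.mul_sum,
          ← Finset.sum_sub_distrib]
        congr 1
        exact Finset.sum_congr rfl fun h _ => by ring
      have h7 : (H1.card : ℝ) * (2 / 10 ^ 6 * N ^ 2) ≤ 466 * (2 / 10 ^ 6 * N ^ 2) :=
        mul_le_mul_of_nonneg_right hH1c (by positivity)
      have h8 : 0 ≤ N ^ 2 := sq_nonneg N
      norm_num at h5 h6 h7 ⊢
      linarith
    have hL1' : N / 2 * sq - 94 / 10 ^ 5 * N ^ 2 ≤ ∑ h ∈ H1, dg G B h * (N - dg G B h) := by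
      have h5 : ∑ h ∈ H1, (N / 2 * q h - 2 / 10 ^ 6 * N ^ 2) ≤
          ∑ h ∈ H1, dg G B h * (N - dg G B h) := by
        refine Finset.sum_le_sum fun h hh => ?_
        obtain ⟨g1, g2, g3, g4⟩ := hqf h hh
        exact gs_mul_sub g1 g2 g4
      have h6 : ∑ h ∈ H1, (N / 2 * q h - 2 / 10 ^ 6 * N ^ 2) =
          N / 2 * sq - H1.card * (2 / 10 ^ 6 * N ^ 2) := by
        rw [Finset.sum_sub_distrib, Finset.sum_const, nsmul_eq_mul, hsq, Finset.mul_sum]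
      have h7 : (H1.card : ℝ) * (2 / 10 ^ 6 * N ^ 2) ≤ 466 * (2 / 10 ^ 6 * N ^ 2) :=
        mul_le_mul_of_nonneg_right hH1c (by positivity)
      have h8 : 0 ≤ N ^ 2 := sq_nonneg N
      norm_num at h5 h6 h7 ⊢
      linarith
    have hL0 : N * sD - sD ^ 2 ≤ ∑ h ∈ H0, dg G B h * (N - dg G B h) := by
      have h6 : ∑ h ∈ H0, dg G B h * (N - dg G B h) = N * sD - ∑ h ∈ H0, dg G B h ^ 2 := by
        rw [hsD, Finset.mul_sum, ← Finset.sum_sub_distrib]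
        exact Finset.sum_congr rfl fun h _ => by ring
      rw [h6]
      linarith
    have hL0' : N / 2 * sD ≤ ∑ h ∈ H0, dg G B h * (N - dg G B h) := by
      rw [hsD, Finset.mul_sum]
      refine Finset.sum_le_sum fun h hh => ?_
      rw [hH0, Finset.mem_filter] at hh
      exact gs_dg (dg_nonneg G B h) (not_le.mp hh.2)
    rw [hsplit] at hQ
    obtain ⟨Mq, hMq⟩ : ∃ Mq, Mq = mis G B + sq := ⟨_, rfl⟩
    obtain ⟨Ep, hEp⟩ : ∃ Ep, Ep = lam G B H + sD := ⟨_, rfl⟩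
    have hQlow : N * Mq - Mq ^ 2 + (N * Ep - Ep ^ 2) - 1 / 10 ^ 3 * N ^ 2 ≤ Q := by
      have h5 : sq ^ 2 ≤ Mq ^ 2 := pow_le_pow_left₀ hsq0 (by linarith) 2
      have h6 : sD ^ 2 ≤ Ep ^ 2 := pow_le_pow_left₀ hsD0 (by linarith) 2
      have h7 : 0 ≤ N ^ 2 := sq_nonneg N
      have h8 : N * Mq = N * mis G B + N * sq := by rw [hMq]; ring
      have h9 : N * Ep = N * lam G B H + N * sD := by rw [hEp]; ring
      rw [hQ, h8, h9]
      norm_num at hL1 ⊢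
      linarith
    have hsumME : Mq + Ep ≤ 932 / 1000 * n := by
      have h5 : N * (Mq + Ep) ≤ 2 * (Q + 94 / 10 ^ 5 * N ^ 2) := by
        have h6 : 0 ≤ N * mis G B := mul_nonneg hN0.le hmis0
        have h7 : 0 ≤ N * lam G B H := mul_nonneg hN0.le hlam0
        rw [hQ, hMq, hEp]
        norm_num at hL1' ⊢
        linarith
      have h9 : N * (Mq + Ep) < N * (932 / 1000 * n) := gs_last hnR hN1 hN0 hN2 hQ1 h5
      exact (lt_of_mul_lt_mul_left h9 hN0.le).le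
    -- the enlarged clique
    obtain ⟨M, hM⟩ : ∃ M, M = mis G (B ∪ H1) := ⟨_, rfl⟩
    obtain ⟨E, hE⟩ : ∃ E, E = ext G (B ∪ H1) := ⟨_, rfl⟩
    have hM0 : 0 ≤ M := by rw [hM]; exact mis_nonneg G _
    have hE0 : 0 ≤ E := by rw [hE]; exact ext_nonneg G _
    have hMle : M ≤ Mq + 1 / 1000 * n := by
      rw [hM, mis_union G hdis, hMq, ← ha]
      have h5 : ∑ v ∈ H1, (a - dg G B v) ≤ ∑ v ∈ H1, (q v + 1 / 10 ^ 6 * N) :=
        Finset.sum_le_sum fun h hh => (hqf h hh).2.2.1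
      rw [Finset.sum_add_distrib, Finset.sum_const, nsmul_eq_mul, ← hsq] at h5
      have h6 : (H1.card : ℝ) * (1 / 10 ^ 6 * N) ≤ 466 * (1 / 10 ^ 6 * N) :=
        mul_le_mul_of_nonneg_right hH1c (by positivity)
      have h7 := e2_nonneg G H1
      have h8 : (H1.card : ℝ) * (H1.card - 1) ≤ 466 * 466 := gs_card hH1c0 hH1c
      linarith
    have hEle : E ≤ Ep := by
      rw [hE, ext_union G hdis, hEp]
      have h5 : lam G B H = ext G B - (∑ v ∈ H1, dg G B v + sD) := by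
        unfold lam
        rw [hsplit, hsD]
      have h7 := e2_nonneg G H1
      linarith
    have hME := ext_sub_mis G (B ∪ H1)
    rw [← hM, ← hE, hsum, hNn] at hME
    have hMq0 : 0 ≤ Mq := by rw [hMq]; linarith
    have hEp0 : 0 ≤ Ep := by rw [hEp]; linarith
    -- the enlarged clique has `n` vertices
    have hb : (B ∪ H1).card = n := by
      obtain ⟨b, hb⟩ : ∃ b, b = (B ∪ H1).card := ⟨_, rfl⟩
      rw [← hb] at hME ⊢
      rcases lt_trichotomy b n with h | h | h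
      · exfalso
        have h5 : (b : ℝ) + 1 ≤ n := by exact_mod_cast h
        have h6 : (0 : ℝ) ≤ b := Nat.cast_nonneg b
        exact gs_b1 hnR h5 h6 hjR hME hM0 (by linarith)
      · exact h
      · exfalso
        have h5 : (n : ℝ) + 1 ≤ b := by exact_mod_cast h
        exact gs_b2 hnR h5 hj0 hME hE0 (by linarith)
    rw [hb] at hME
    have hMEj : M = E + j := by linarith
    have hE4 : E ≤ 475 / 1000 * n - j := by
      by_contra hcon
      push Not at hcon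
      exact star_contraG (n := n) (N := N) (Mq := Mq) (Ep := Ep) (Q := Q)
        (by linarith) hN1 hN2
        (by linarith) (by linarith) hsumME hQlow hQ1
    -- the direct partition
    have hnR' : (1000 : ℝ) ≤ n := by linarith
    obtain ⟨U, hU1, hU2⟩ := direct2 G (B := B ∪ H1) (j := (j : ℝ)) (by rw [hb]; omega) hj0
      (by rw [← hM]; linarith)
      (by rw [hb, hho]; linarith)
    rw [hb] at hU1
    rw [hb, ← hE] at hU2
    have hg : (gMu G : ℝ) ≤ max (mu (G.induce U) : ℝ) (mu (G.induce Uᶜ) : ℝ) := by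
      have : gMu G ≤ max (mu (G.induce U)) (mu (G.induce Uᶜ)) := Nat.sInf_le ⟨U, rfl⟩
      exact_mod_cast this
    refine hg.trans (max_le hU1 (hU2.trans ?_))
    unfold gS
    rw [hho, hlo]
    exact lside hnR' hj0 hjR hE0 hE4

/-- The upper bound in the star range. -/
theorem upper_starG {N : ℝ} {n j : ℕ} (hodd : Odd n) (hn : 10 ^ 301 ≤ n) (hj : 30 * j ≤ n)
    (hN0 : 0 < N) (hsum : tot G = N ^ 2) (hNn : N ^ 2 = n * (n - 1) - 2 * j) :
    (gMu G : ℝ) ≤ gS n j := by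
  have hn60 : 10 ^ 60 ≤ n := (Nat.pow_le_pow_right (by norm_num) (by norm_num)).trans hn
  have hnR : (10 : ℝ) ^ 60 ≤ n := by exact_mod_cast hn60
  have hjR : 30 * (j : ℝ) ≤ n := by exact_mod_cast hj
  have hj0 : (0 : ℝ) ≤ j := Nat.cast_nonneg j
  have hn0 : (0 : ℝ) < n := lt_of_lt_of_le (by positivity) hnR
  have hn1 : (10 : ℝ) ≤ n := by linarith
  have hN1 : (n : ℝ) - 1 ≤ N := by nlinarith
  have hN2 : N ≤ n := by nlinarith
  have hN300 : (10 : ℝ) ^ 300 ≤ N := by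
    have h1 : (10 : ℝ) ^ 301 ≤ n := by exact_mod_cast hn
    have h2 : (10 : ℝ) ^ 301 = 10 * 10 ^ 300 := by rw [pow_succ]; ring
    rw [h2] at h1
    have h3 : (1 : ℝ) ≤ 10 ^ 300 := one_le_pow₀ (by norm_num)
    obtain ⟨P, hP⟩ : ∃ P : ℝ, P = 10 ^ 300 := ⟨_, rfl⟩
    rw [← hP] at h1 h3 ⊢
    clear hP h2
    linarith
  rcases dichotomyG G hN300 hsum with h | ⟨B, H, L, hc, hp⟩
  · clear hN300
    refine h.trans ?_
    obtain ⟨hho, hlo, hgS⟩ := gS_odd hodd (j : ℝ)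
    have h1 : N ^ 3 ≤ (n : ℝ) ^ 3 := pow_le_pow_left₀ hN0.le hN2 3
    have h5 : 20 ≤ kg * n := by
      unfold kg
      rw [div_mul_eq_mul_div, le_div_iff₀ (by norm_num)]
      linarith
    have h6 : 20 * (n : ℝ) ^ 2 ≤ kg * n * n ^ 2 := mul_le_mul_of_nonneg_right h5 (sq_nonneg _)
    have hk : kg ≤ 1 := by unfold kg; norm_num
    have h7 : (1 - kg) * N ^ 3 ≤ (1 - kg) * (n : ℝ) ^ 3 :=
      mul_le_mul_of_nonneg_left h1 (by linarith)
    have h8 : (4 * (n : ℝ) - 6) * j ≤ 4 * n * (n / 30) := by nlinarith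
    have h9 : Phi n = ((n : ℝ) ^ 3 - 4 * n ^ 2 + 7 * n - 4) / 4 := by unfold Phi; ring
    have h10 : 0 ≤ (j : ℝ) ^ 2 := sq_nonneg _
    have h11 : 10 * (n : ℝ) ≤ n * n := mul_le_mul_of_nonneg_right hn1 hn0.le
    rw [h9] at hgS
    nlinarith
  · exact near_starG G hc hp hodd ((Nat.pow_le_pow_right (by norm_num) (by norm_num)).trans hn60)
      hj hN0 hsum hNn

end Graph

end Pool.Agent.Helper96.Mu
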