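import Mathlib
import Pool.Agent.Helper96.Mu.GBase
import Pool.Agent.Helper96.Mu.GAvg
import Pool.Agent.Helper96.Mu.Near2

/-!
# Module PN-3: upper bound for the average cost `avgE`
-/

namespace Pool.Agent.Helper96.Mu

open Finset Pool.Agent.Helper39.Mu

set_option linter.unusedSectionVars false

section Graph

variable {V : Type*} [Fintype V] [DecidableEq V] (G : SimpleGraph V)

private lemma pavg_main {N a r2 r3 d fka : ℝ} (hN : 10 ^ 20 ≤ N)
    (ha1 : (1 - 1 / 10 ^ 6) * N ≤ a) (h2 : 0 ≤ r2) (h3 : 1249 / 10000 ≤ r3)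
    (hf : a * (2 * ((a - 1) * r2 + (a - 1) * (a - 2) * r3)) = fka)
    (ht0 : d ≤ a - 1) (ht : a - 1 - d ≤ N / 80) :
    2 * (d * r2 + d * (d - 1) * r3) ≤ fka / a - 9929 / 20000 * N * (a - 1 - d) := by
  have ha0 : 0 < a := by linarith
  have e1 : fka / a = 2 * ((a - 1) * r2 + (a - 1) * (a - 2) * r3) := by
    rw [← hf]; field_simp
  rw [e1]
  obtain ⟨t, rfl⟩ : ∃ t, d = a - 1 - t := ⟨a - 1 - d, by ring⟩
  have ht0' : 0 ≤ t := by linarith
  have ht' : t ≤ N / 80 := by linarith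
  have key : 0 ≤ t * (2 * r2 + 2 * r3 * (2 * a - 3 - t) - 9929 / 20000 * N) := by
    apply mul_nonneg ht0'
    have h4 : 0 ≤ 2 * a - 3 - t := by linarith
    have h5 : 2 * (1249 / 10000) * (2 * a - 3 - t) ≤ 2 * r3 * (2 * a - 3 - t) := by
      nlinarith
    linarith
  nlinarith [key]

private lemma pavg_cross {N a r2 d h l : ℝ} (hN : 10 ^ 20 ≤ N)
    (ha2 : a ≤ (1 + 1 / 10 ^ 6) * N) (h2' : r2 ≤ 1 / 4) (hd0 : 0 ≤ d) (hd : d ≤ a)
    (hh0 : 0 ≤ h) (hh : h ≤ 2000) (hl0 : 0 ≤ l) (hl : l ≤ N / 80) :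
    2 * r2 * d * (h + l) + (h ^ 2 + l ^ 2) / 2 ≤
      N / 2 * h + 507 / 1000 * N * l + 11 / 10000 * N := by
  have e1 : 2 * r2 * d ≤ a / 2 := by nlinarith
  have e2 : 2 * r2 * d * (h + l) ≤ a / 2 * (h + l) :=
    mul_le_mul_of_nonneg_right e1 (by linarith)
  have e3 : a / 2 * (h + l) ≤ (1 + 1 / 10 ^ 6) * N / 2 * (h + l) :=
    mul_le_mul_of_nonneg_right (by linarith) (by linarith)
  have e4 : N * h ≤ N * 2000 := mul_le_mul_of_nonneg_left hh (by linarith)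
  have e5 : h ^ 2 ≤ 2000 ^ 2 := by nlinarith
  have e6 : l ^ 2 ≤ N / 80 * l := by nlinarith
  have e7 : 0 ≤ N * l := mul_nonneg (by linarith) hl0
  norm_num at e3 e5 ⊢
  nlinarith

private lemma pavg_H {N a r2 d s : ℝ} (hN : 10 ^ 20 ≤ N)
    (ha2 : a ≤ (1 + 1 / 10 ^ 6) * N) (h2 : 0 ≤ r2) (h2' : r2 ≤ 1 / 4) (hd0 : 0 ≤ d)
    (hd : d ≤ a) (hs0 : 0 ≤ s) (hs : s ≤ 2000) :
    d / 2 + d * (d - 1) * r2 + d * s + s ^ 2 ≤ d ^ 2 / 4 + 10 ^ 4 * N := by
  have e2 : d * (d - 1) * r2 ≤ d ^ 2 / 4 := by nlinarith [mul_nonneg hd0 h2]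
  have e3 : d * s ≤ d * 2000 := mul_le_mul_of_nonneg_left hs hd0
  have e4 : s ^ 2 ≤ 2000 ^ 2 := by nlinarith
  norm_num at ha2 e4 ⊢
  nlinarith

private lemma pavg_L {N r2 d q : ℝ} (hN : 10 ^ 20 ≤ N) (h2 : 0 ≤ r2) (h2' : r2 ≤ 1 / 4)
    (hd0 : 0 ≤ d) (hq0 : 0 ≤ q) (hdeg : d + q ≤ N / 100) :
    d / 2 + d * (d - 1) * r2 + d * q + q ^ 2 ≤ 3 / 1000 * N * d + 201 / 10000 * N * q := by
  have e2 : d * (d - 1) * r2 ≤ d ^ 2 / 4 := by nlinarith [mul_nonneg hd0 h2]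
  have e3 : d ^ 2 ≤ N / 100 * d := by nlinarith
  have e4 : q ^ 2 ≤ N / 100 * q := by nlinarith
  have e5 : d * q ≤ N / 100 * q := by nlinarith
  have e6 : d / 2 ≤ N / 2000 * d := by nlinarith
  have e7 : 0 ≤ N * q := mul_nonneg (by linarith) hq0
  nlinarith

-- MODULE PN-3: file Pool/Agent/Helper96/Mu/PAvg.lean
theorem avgE_le {N : ℝ} {B H L : Finset V} (hc : Core G N B H L) (hN : 10 ^ 20 ≤ N)
    (hcard : (H.card : ℝ) ≤ 2000) :
    avgE G B H L ≤ fK B.card - 9929 / 10000 * (N * mis G B) +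
      ∑ h ∈ H, (N / 2 * dg G B h + dg G B h ^ 2 / 4) +
      N * (52 / 100 * ∑ l ∈ L, dg G B l + 21 / 1000 * e2 G L) + 2 / 1000 * N ^ 2 := by
  have hN1 : (10 : ℝ) ^ 10 ≤ N := le_trans (by norm_num) hN
  have ha1 := hc.card_lo
  have ha2 := hc.card_hi
  have haR : (10000 : ℝ) ≤ B.card := by
    norm_num at ha1 hN1
    linarith
  have h3 : 3 ≤ B.card := by
    have : (3 : ℝ) ≤ B.card := by linarith
    exact_mod_cast this
  have hr2 := rho2_nonneg h3
  have hr2' := rho2_le h3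
  have hr3 := rho3_ge' haR
  have hfK := fK_eq h3
  -- degrees
  have hdeg : ∀ v, deg G v = dg G B v + dg G H v + dg G L v := by
    intro v
    rw [← dg_univ, ← hc.union, dg_union G _ v, dg_union G hc.disjBH v]
    rw [Finset.disjoint_union_left]
    exact ⟨hc.disjBL, hc.disjHL⟩
  have hout : ∀ v, dg G (H ∪ L) v = dg G H v + dg G L v := fun v => dg_union G hc.disjHL v
  have hBH := sum_dg_comm G B H
  have hBL := sum_dg_comm G B L
  have hH2000 : ∀ v, dg G H v ≤ 2000 := fun v => (dg_le_card G H v).trans hcard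
  -- `B` part
  have hB1 : ∑ v ∈ B, (2 * (dg G B v * rho2 B.card + dg G B v * (dg G B v - 1) * rho3 B.card) +
        2 * rho2 B.card * dg G B v * (dg G H v + dg G L v) +
        (dg G H v ^ 2 + dg G L v ^ 2) / 2) ≤
      ∑ v ∈ B, (fK B.card / B.card - 9929 / 20000 * N * (B.card - 1 - dg G B v) +
        (N / 2 * dg G H v + 507 / 1000 * N * dg G L v + 11 / 10000 * N)) := by
    apply Finset.sum_le_sum
    intro v hv
    have i1 := pavg_main hN ha1 hr2 hr3 hfK (dg_le_card_sub_one G hv) (hc.miss v hv)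
    have hLv : dg G L v ≤ N / 80 := by
      have := hc.out v hv
      rw [hout] at this
      linarith [dg_nonneg G H v]
    have i2 := pavg_cross (a := (B.card : ℝ)) hN ha2 hr2' (dg_nonneg G B v) (dg_le_card G B v)
      (dg_nonneg G H v) (hH2000 v) (dg_nonneg G L v) hLv
    linarith
  have hB2 : ∑ v ∈ B, (fK B.card / B.card - 9929 / 20000 * N * (B.card - 1 - dg G B v) +
        (N / 2 * dg G H v + 507 / 1000 * N * dg G L v + 11 / 10000 * N)) =
      fK B.card - 9929 / 10000 * (N * mis G B) +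
        N / 2 * ∑ h ∈ H, dg G B h +
        507 / 1000 * N * ∑ l ∈ L, dg G B l + B.card * (11 / 10000 * N) := by
    rw [Finset.sum_add_distrib, Finset.sum_sub_distrib, Finset.sum_add_distrib,
      Finset.sum_add_distrib, ← Finset.mul_sum, ← Finset.mul_sum, ← Finset.mul_sum, hBH, hBL]
    have e1 : ∑ v ∈ B, fK B.card / (B.card : ℝ) = fK B.card := by
      rw [Finset.sum_const, nsmul_eq_mul]
      field_simp
    have e2 : ∑ v ∈ B, ((B.card : ℝ) - 1 - dg G B v) = 2 * mis G B := by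
      rw [Finset.sum_sub_distrib, Finset.sum_const, nsmul_eq_mul]
      unfold mis e2
      ring
    have e3 : ∑ v ∈ B, (11 / 10000 * N : ℝ) = B.card * (11 / 10000 * N) := by
      rw [Finset.sum_const, nsmul_eq_mul]
    rw [e1, e2, e3]
    ring
  have hB3 : (B.card : ℝ) * (11 / 10000 * N) ≤ 12 / 10000 * N ^ 2 := by
    have hN0 : 0 ≤ 11 / 10000 * N := by linarith
    have := mul_le_mul_of_nonneg_right ha2 hN0
    have h2 : 0 ≤ N ^ 2 := sq_nonneg N
    norm_num at this ⊢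
    nlinarith
  -- `H` part
  have hH : ∑ h ∈ H, (dg G B h / 2 + dg G B h * (dg G B h - 1) * rho2 B.card +
        dg G B h * dg G H h + dg G H h ^ 2) ≤
      ∑ h ∈ H, (dg G B h ^ 2 / 4) + H.card * (10 ^ 4 * N) := by
    rw [← nsmul_eq_mul, ← Finset.sum_const, ← Finset.sum_add_distrib]
    apply Finset.sum_le_sum
    intro v _
    exact pavg_H (a := (B.card : ℝ)) hN ha2 hr2 hr2' (dg_nonneg G B v) (dg_le_card G B v)
      (dg_nonneg G H v) (hH2000 v)
  have hH3 : (H.card : ℝ) * (10 ^ 4 * N) ≤ 1 / 10000 * N ^ 2 := by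
    have hN0 : 0 ≤ 10 ^ 4 * N := by
      have : 0 ≤ N := by linarith
      positivity
    have := mul_le_mul_of_nonneg_right hcard hN0
    nlinarith
  -- `L` part
  have hL : ∑ l ∈ L, (dg G B l / 2 + dg G B l * (dg G B l - 1) * rho2 B.card +
        dg G B l * dg G L l + dg G L l ^ 2) ≤
      3 / 1000 * N * ∑ l ∈ L, dg G B l + 201 / 10000 * N * e2 G L := by
    unfold e2
    rw [Finset.mul_sum, Finset.mul_sum, ← Finset.sum_add_distrib]
    apply Finset.sum_le_sum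
    intro v hv
    have hd := hc.Ldeg v hv
    rw [hdeg] at hd
    exact pavg_L hN hr2 hr2' (dg_nonneg G B v) (dg_nonneg G L v)
      (by linarith [dg_nonneg G H v])
  have hsumL : 0 ≤ N * ∑ l ∈ L, dg G B l :=
    mul_nonneg (by linarith) (Finset.sum_nonneg fun l _ => dg_nonneg G B l)
  have heL : 0 ≤ N * e2 G L :=
    mul_nonneg (by linarith) (Finset.sum_nonneg fun l _ => dg_nonneg G L l)
  have hsumH : ∑ h ∈ H, (N / 2 * dg G B h + dg G B h ^ 2 / 4) =
      N / 2 * ∑ h ∈ H, dg G B h + ∑ h ∈ H, (dg G B h ^ 2 / 4) := by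
    rw [Finset.sum_add_distrib, ← Finset.mul_sum]
  have hN2 : 0 ≤ N ^ 2 := sq_nonneg N
  unfold avgE
  rw [hsumH]
  rw [hB2] at hB1
  nlinarith

end Graph

end Pool.Agent.Helper96.Mu
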