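import Mathlib
import Pool.Agent.Helper96.Mu.GBase
import Pool.Agent.Helper96.Mu.GAvg
import Pool.Agent.Helper96.Mu.Near2

/-!
# Module PN-2: upper bound for an averaged cost
-/

namespace Pool.Agent.Helper96.Mu

open Finset Pool.Agent.Helper39.Mu

set_option linter.unusedSectionVars false

private lemma pcst_T {b T : ℝ} (hb : 10 ^ 19 ≤ b) (ht : |2 * T - b| ≤ 10 ^ 4) :
    (b - 10 ^ 4) / 2 ≤ T ∧ T ≤ (b + 10 ^ 4) / 2 := by
  rw [abs_le] at ht
  constructor <;> linarith [ht.1, ht.2]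

private lemma pcst_p1 {b T : ℝ} (hb : 10 ^ 19 ≤ b) (ht : |2 * T - b| ≤ 10 ^ 4) :
    T / b ≤ 1 / 2 + 1 / 10 ^ 10 := by
  obtain ⟨-, h2⟩ := pcst_T hb ht
  have hb0 : 0 < b := lt_of_lt_of_le (by norm_num) hb
  rw [div_le_iff₀ hb0]
  norm_num at hb h2 ⊢
  linarith

private lemma pcst_p2 {b T : ℝ} (hb : 10 ^ 19 ≤ b) (ht : |2 * T - b| ≤ 10 ^ 4) :
    T * (T - 1) / (b * (b - 1)) ≤ 1 / 4 + 1 / 10 ^ 10 := by
  obtain ⟨h1, h2⟩ := pcst_T hb ht
  have hb1 : (10 : ℝ) ^ 10 ≤ b := le_trans (by norm_num) hb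
  have hb0 : 0 < b * (b - 1) := by
    norm_num at hb1
    apply mul_pos <;> linarith
  rw [div_le_iff₀ hb0]
  have h3 : T * (T - 1) ≤ (b + 10 ^ 4) / 2 * ((b + 10 ^ 4) / 2) := by
    norm_num at h1 h2 hb1 ⊢
    apply mul_le_mul h2 (by linarith) (by linarith) (by linarith)
  norm_num at h3 hb ⊢
  nlinarith

private lemma pcst_p3 {b T : ℝ} (hb : 10 ^ 19 ≤ b) (ht : |2 * T - b| ≤ 10 ^ 4) :
    1 / 8 - 1 / 10 ^ 10 ≤ T * (T - 1) * (T - 2) / (b * (b - 1) * (b - 2)) := by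
  obtain ⟨h1, h2⟩ := pcst_T hb ht
  have hb1 : (10 : ℝ) ^ 10 ≤ b := le_trans (by norm_num) hb
  norm_num at hb1
  have hb0 : 0 < b * (b - 1) * (b - 2) := by
    apply mul_pos _ (by linarith)
    apply mul_pos <;> linarith
  rw [le_div_iff₀ hb0]
  obtain ⟨y, hy⟩ : ∃ y, y = (b - 10 ^ 4) / 2 - 2 := ⟨_, rfl⟩
  have hy0 : 0 ≤ y := by rw [hy]; norm_num; linarith
  have h3 : y * y * y ≤ T * (T - 1) * (T - 2) := by
    have e1 : y ≤ T - 2 := by rw [hy]; linarith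
    have e2 : y * y ≤ T * (T - 1) :=
      mul_le_mul (by linarith) (by linarith) hy0 (by linarith)
    exact mul_le_mul e2 e1 hy0 (by
      apply mul_nonneg <;> linarith)
  have h4 : (1 / 8 - 1 / 10 ^ 10) * (b * (b - 1) * (b - 2)) ≤
      (1 / 8 - 1 / 10 ^ 10) * (b * b * b) := by
    apply mul_le_mul_of_nonneg_left _ (by norm_num)
    apply mul_le_mul _ (by linarith) (by linarith) (by nlinarith)
    apply mul_le_mul _ (by linarith) (by linarith) (by linarith)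
    exact le_rfl
  have hyb : b = 2 * y + 10004 := by rw [hy]; ring
  have hy1 : (10 : ℝ) ^ 18 ≤ y := by rw [hy]; norm_num at hb ⊢; linarith
  have h5 : (1 / 8 - 1 / 10 ^ 10) * (b * b * b) ≤ y * y * y := by
    rw [hyb]
    have e1 : (2 * y + 10004) ≤ 2 * (1 + 1 / 10 ^ 13) * y := by
      norm_num at hy1 ⊢
      linarith
    have e2 : (2 * y + 10004) * (2 * y + 10004) * (2 * y + 10004) ≤
        (2 * (1 + 1 / 10 ^ 13) * y) * (2 * (1 + 1 / 10 ^ 13) * y) *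
          (2 * (1 + 1 / 10 ^ 13) * y) := by
      have h0 : 0 ≤ 2 * y + 10004 := by linarith
      have h0' : 0 ≤ 2 * (1 + 1 / 10 ^ 13) * y := by positivity
      exact mul_le_mul (mul_le_mul e1 e1 h0 h0') e1 h0 (mul_nonneg h0' h0')
    have e3 : (1 / 8 - 1 / 10 ^ 10) * ((2 * (1 + 1 / 10 ^ 13) * y) *
        (2 * (1 + 1 / 10 ^ 13) * y) * (2 * (1 + 1 / 10 ^ 13) * y)) ≤ y * y * y := by
      have e4 : (1 / 8 - 1 / 10 ^ 10) * ((2 * (1 + 1 / 10 ^ 13) * y) *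
        (2 * (1 + 1 / 10 ^ 13) * y) * (2 * (1 + 1 / 10 ^ 13) * y)) =
          ((1 / 8 - 1 / 10 ^ 10) * (2 * (1 + 1 / 10 ^ 13)) ^ 3) * (y * y * y) := by ring
      rw [e4]
      have e5 : ((1 / 8 - 1 / 10 ^ 10) * (2 * (1 + 1 / 10 ^ 13)) ^ 3 : ℝ) ≤ 1 := by norm_num
      have e6 : 0 ≤ y * y * y := by positivity
      nlinarith
    have e7 : (0 : ℝ) ≤ 1 / 8 - 1 / 10 ^ 10 := by norm_num
    exact (mul_le_mul_of_nonneg_left e2 e7).trans e3
  linarith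

private lemma pcst_main {N b p2 p3 d X : ℝ} (hN : 10 ^ 20 ≤ N)
    (hb : (1 - 1 / 10 ^ 6) * N ≤ b) (h2 : 0 ≤ p2) (h3 : 1 / 8 - 1 / 10 ^ 10 ≤ p3)
    (hX : b * ((b - 1) * p2 + (b - 1) * (b - 2) * p3) = X)
    (ht0 : d ≤ b - 1) (ht : b - 1 - d ≤ N / 80) :
    d * p2 + d * (d - 1) * p3 ≤ X / b - 2484 / 10000 * N * (b - 1 - d) := by
  have hN1 : (10 : ℝ) ^ 10 ≤ N := le_trans (by norm_num) hN
  norm_num at hN1 hb h3
  have hb0 : 0 < b := by linarith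
  have e1 : X / b = (b - 1) * p2 + (b - 1) * (b - 2) * p3 := by
    rw [← hX]; field_simp
  rw [e1]
  obtain ⟨m, rfl⟩ : ∃ m, d = b - 1 - m := ⟨b - 1 - d, by ring⟩
  have hm0 : 0 ≤ m := by linarith
  have hm : m ≤ N / 80 := by linarith
  have key : 0 ≤ m * (p2 + p3 * (2 * b - 3 - m) - 2484 / 10000 * N) := by
    apply mul_nonneg hm0
    have h4 : 0 ≤ 2 * b - 3 - m := by linarith
    have h5 : (1249999999 / 10000000000) * (2 * b - 3 - m) ≤ p3 * (2 * b - 3 - m) :=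
      mul_le_mul_of_nonneg_right (by linarith) h4
    linarith
  nlinarith [key]

private lemma pcst_cross {N b p1 p2 d h l : ℝ} (hN : 10 ^ 20 ≤ N)
    (hb : b ≤ (1 + 1 / 10 ^ 6) * N) (h1 : p1 ≤ 1 / 2 + 1 / 10 ^ 10)
    (h20 : 0 ≤ p2) (h2 : p2 ≤ 1 / 4 + 1 / 10 ^ 10)
    (hd0 : 0 ≤ d) (hd : d ≤ b) (hh0 : 0 ≤ h) (hh : h ≤ 2000) (hl0 : 0 ≤ l) (hl : l ≤ N / 80) :
    2 * (h + l) * (d * p2) + (h + l) ^ 2 * p1 ≤
      N / 2 * h + 5128 / 10000 * N * l + 21 / 10000 * N := by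
  have hN1 : (10 : ℝ) ^ 14 ≤ N := le_trans (by norm_num) hN
  norm_num at hN1 hb h1 h2
  have e1 : d * p2 ≤ 250000501 / 1000000000 * N := by
    have : d * p2 ≤ (1000001 / 1000000 * N) * (2500000001 / 10000000000) :=
      mul_le_mul (by linarith) h2 h20 (by linarith)
    linarith
  have e2 : 2 * (h + l) * (d * p2) ≤ 2 * (h + l) * (250000501 / 1000000000 * N) :=
    mul_le_mul_of_nonneg_left e1 (by linarith)
  have e4 : N * h ≤ N * 2000 := mul_le_mul_of_nonneg_left hh (by linarith)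
  have e5 : h ^ 2 ≤ 2000 ^ 2 := by nlinarith
  have e6 : l ^ 2 ≤ N / 80 * l := by nlinarith
  have e7 : 0 ≤ N * l := mul_nonneg (by linarith) hl0
  have e8 : (h + l) ^ 2 ≤ 2 * h ^ 2 + 2 * l ^ 2 := by nlinarith [sq_nonneg (h - l)]
  have e9 : (h + l) ^ 2 * p1 ≤ (h + l) ^ 2 * (51 / 100) :=
    mul_le_mul_of_nonneg_left (by linarith) (sq_nonneg _)
  norm_num at e5
  nlinarith

private lemma pcst_H {N p1 p2 d s l : ℝ} (hN : 10 ^ 20 ≤ N)
    (h10 : 0 ≤ p1) (h1 : p1 ≤ 1 / 2 + 1 / 10 ^ 10) (h20 : 0 ≤ p2) (h2 : p2 ≤ 1 / 4 + 1 / 10 ^ 10)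
    (hd0 : 0 ≤ d) (hl0 : 0 ≤ l) (hdl : d + l ≤ N) (hs0 : 0 ≤ s) (hs : s ≤ 2000) :
    d * p1 + d * (d - 1) * p2 + 2 * (s + l) * (d * p1) + (s + l) ^ 2 ≤
      (d / 2 + l) ^ 2 + 1 / 10 ^ 9 * N ^ 2 := by
  have hN1 : (10 : ℝ) ^ 18 ≤ N := le_trans (by norm_num) hN
  norm_num at hN1 h1 h2 ⊢
  have hdN : d ≤ N := by linarith
  have hlN : l ≤ N := by linarith
  have hdd : d ^ 2 ≤ N ^ 2 := by nlinarith
  have hdl2 : d * l ≤ N ^ 2 := by nlinarith
  have e1 : d * p1 ≤ N * 1 := mul_le_mul hdN (by linarith) h10 (by linarith)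
  have e2 : d * (d - 1) * p2 ≤ d ^ 2 / 4 + 1 / 10000000000 * N ^ 2 := by
    have : d * (d - 1) * p2 ≤ d ^ 2 * p2 := by nlinarith [mul_nonneg hd0 h20]
    have : d ^ 2 * p2 ≤ d ^ 2 * (2500000001 / 10000000000) :=
      mul_le_mul_of_nonneg_left h2 (sq_nonneg d)
    linarith
  have e3 : 2 * (s + l) * (d * p1) ≤ 4000 * N + d * l + 2 / 10000000000 * N ^ 2 := by
    have g1 : s * (d * p1) ≤ 2000 * (N * 1) :=
      mul_le_mul hs e1 (mul_nonneg hd0 h10) (by norm_num)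
    have g2 : l * d * p1 ≤ l * d * (5000000001 / 10000000000) :=
      mul_le_mul_of_nonneg_left h1 (mul_nonneg hl0 hd0)
    nlinarith
  have e4 : (s + l) ^ 2 ≤ l ^ 2 + 4000 * N + 4000000 := by nlinarith
  have e5 : 10000 * N ≤ 1 / 10000000000 * N ^ 2 := by nlinarith
  nlinarith

private lemma pcst_L {N p1 p2 d q : ℝ} (hN : 10 ^ 20 ≤ N)
    (h10 : 0 ≤ p1) (h1 : p1 ≤ 1 / 2 + 1 / 10 ^ 10) (h20 : 0 ≤ p2) (h2 : p2 ≤ 1 / 4 + 1 / 10 ^ 10)
    (hd0 : 0 ≤ d) (hq0 : 0 ≤ q) (hdeg : d + q ≤ N / 100) :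
    d * p1 + d * (d - 1) * p2 + 2 * q * (d * p1) + q ^ 2 ≤
      3 / 1000 * N * d + 204 / 10000 * N * q := by
  have hN1 : (10 : ℝ) ^ 10 ≤ N := le_trans (by norm_num) hN
  norm_num at hN1 h1 h2
  have e1 : d * p1 ≤ d * (51 / 100) := mul_le_mul_of_nonneg_left (by linarith) hd0
  have e2 : d * (d - 1) * p2 ≤ d ^ 2 * (2501 / 10000) := by
    have : d * (d - 1) * p2 ≤ d ^ 2 * p2 := by nlinarith [mul_nonneg hd0 h20]
    have : d ^ 2 * p2 ≤ d ^ 2 * (2501 / 10000) :=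
      mul_le_mul_of_nonneg_left (by linarith) (sq_nonneg d)
    linarith
  have e3 : q * (d * p1) ≤ q * (d * (51 / 100)) := mul_le_mul_of_nonneg_left e1 hq0
  have e4 : d ^ 2 ≤ N / 100 * d := by nlinarith
  have e5 : q ^ 2 ≤ N / 100 * q := by nlinarith
  have e6 : d * q ≤ N / 100 * q := by nlinarith
  have e7 : 0 ≤ N * q := mul_nonneg (by linarith) hq0
  have e8 : d * 10000000000 ≤ N * d := by nlinarith
  nlinarith

section Graph

variable {V : Type*} [Fintype V] [DecidableEq V] (G : SimpleGraph V)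

/-- The average of `sq (T ∪ K)` over the subsets `T` of `B` with `t` elements. -/
noncomputable def cst (B K : Finset V) (t : ℕ) : ℝ :=
  ∑ v ∈ B, (dg G B v * pr B.card t 2 + dg G B v * (dg G B v - 1) * pr B.card t 3 +
      2 * dg G K v * (dg G B v * pr B.card t 2) + dg G K v ^ 2 * pr B.card t 1) +
    ∑ v ∈ K, (dg G B v * pr B.card t 1 + dg G B v * (dg G B v - 1) * pr B.card t 2 +
      2 * dg G K v * (dg G B v * pr B.card t 1) + dg G K v ^ 2)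

-- MODULE PN-2: file Pool/Agent/Helper96/Mu/PCst.lean
theorem cst_le {N : ℝ} {B H1 H2 L : Finset V} (hc : Core G N B (H1 ∪ H2) L)
    (hd : Disjoint H1 H2) (hN : 10 ^ 20 ≤ N) (hcard : ((H1 ∪ H2).card : ℝ) ≤ 2000)
    (hdeg : ∀ h ∈ H2, deg G h ≤ N) {t : ℕ} (ht : |2 * (t : ℝ) - B.card| ≤ 10 ^ 4) :
    cst G B (H2 ∪ L) t ≤ (t : ℝ) * ((t : ℝ) - 1) ^ 2 - 4968 / 10000 * (N * mis G B) +
      ∑ h ∈ H2, (N / 2 * dg G B h + (dg G B h / 2 + dg G L h) ^ 2) +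
      N * (52 / 100 * ∑ l ∈ L, dg G B l + 21 / 1000 * ∑ h ∈ H2, dg G L h +
        21 / 1000 * e2 G L) + 3 / 1000 * N ^ 2 := by
  have hN1 : (10 : ℝ) ^ 10 ≤ N := le_trans (by norm_num) hN
  have hN0 : 0 < N := lt_of_lt_of_le (by norm_num) hN1
  have ha1 := hc.card_lo
  have ha2 := hc.card_hi
  obtain ⟨b, hb⟩ : ∃ b : ℝ, b = (B.card : ℝ) := ⟨_, rfl⟩
  have hb19 : (10 : ℝ) ^ 19 ≤ b := by
    have h1 : (10 : ℝ) ^ 19 ≤ (1 - 1 / 10 ^ 6) * N := by
      norm_num at hN ⊢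
      linarith
    rw [hb]
    exact h1.trans ha1
  have hb10 : (10000000000 : ℝ) ≤ b := le_trans (by norm_num) hb19
  have hHL : Disjoint H2 L := hc.disjHL.mono_left Finset.subset_union_right
  have hBL : Disjoint B L := hc.disjBL
  have hBH2 : Disjoint B H2 := hc.disjBH.mono_right Finset.subset_union_right
  -- the probabilities
  have q1 : pr B.card t 1 = (t : ℝ) / b := by
    unfold pr
    rw [Nat.choose_one_right, Nat.choose_one_right, hb]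
  have q2 : pr B.card t 2 = (t : ℝ) * (t - 1) / (b * (b - 1)) := by
    unfold pr
    rw [Nat.cast_choose_two, Nat.cast_choose_two, ← hb]
    have h0 : b ≠ 0 := by linarith
    have h1 : b - 1 ≠ 0 := by linarith
    field_simp
  have q3 : pr B.card t 3 = (t : ℝ) * (t - 1) * (t - 2) / (b * (b - 1) * (b - 2)) := by
    unfold pr
    rw [cast_choose_three, cast_choose_three, ← hb]
    have h0 : b ≠ 0 := by linarith
    have h1 : b - 1 ≠ 0 := by linarith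
    have h2 : b - 2 ≠ 0 := by linarith
    field_simp
  rw [← hb] at ha1 ha2 ht
  have b1 := pcst_p1 hb19 ht
  have b2 := pcst_p2 hb19 ht
  have b3 := pcst_p3 hb19 ht
  rw [← q1] at b1
  rw [← q2] at b2
  rw [← q3] at b3
  obtain ⟨p1, hp1⟩ : ∃ p, p = pr B.card t 1 := ⟨_, rfl⟩
  obtain ⟨p2, hp2⟩ : ∃ p, p = pr B.card t 2 := ⟨_, rfl⟩
  obtain ⟨p3, hp3⟩ : ∃ p, p = pr B.card t 3 := ⟨_, rfl⟩
  have p10 : 0 ≤ p1 := by rw [hp1]; unfold pr; positivity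
  have p20 : 0 ≤ p2 := by rw [hp2]; unfold pr; positivity
  have hX : b * ((b - 1) * p2 + (b - 1) * (b - 2) * p3) = (t : ℝ) * ((t : ℝ) - 1) ^ 2 := by
    rw [hp2, hp3, q2, q3]
    have h0 : b ≠ 0 := by linarith
    have h1 : b - 1 ≠ 0 := by linarith
    have h2 : b - 2 ≠ 0 := by linarith
    field_simp
    ring
  unfold cst
  rw [← hp1] at b1 ⊢
  rw [← hp2] at b2 ⊢
  rw [← hp3] at b3 ⊢
  obtain ⟨X, hXd⟩ : ∃ X, X = (t : ℝ) * ((t : ℝ) - 1) ^ 2 := ⟨_, rfl⟩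
  rw [← hXd] at hX ⊢
  -- degrees
  have hK : ∀ v, dg G (H2 ∪ L) v = dg G H2 v + dg G L v := fun v => dg_union G hHL v
  have hH2sub : H2 ⊆ H1 ∪ H2 := Finset.subset_union_right
  have hH2c : ∀ v, dg G H2 v ≤ 2000 := fun v => by
    have h1 := dg_le_card G (H1 ∪ H2) v
    have h2 := dg_mono G hH2sub v
    linarith
  have cBH := sum_dg_comm G B H2
  have cBL := sum_dg_comm G B L
  have cLH := sum_dg_comm G L H2
  -- the part `B`
  have hB1 : ∑ v ∈ B, (dg G B v * p2 + dg G B v * (dg G B v - 1) * p3 +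
      2 * dg G (H2 ∪ L) v * (dg G B v * p2) + dg G (H2 ∪ L) v ^ 2 * p1) ≤
      ∑ v ∈ B, (X / b - 2484 / 10000 * N * (b - 1 - dg G B v) +
        (N / 2 * dg G H2 v + 5128 / 10000 * N * dg G L v + 21 / 10000 * N)) := by
    apply Finset.sum_le_sum
    intro v hv
    have hm1 := dg_le_card_sub_one G hv
    have hm2 := hc.miss v hv
    rw [← hb] at hm1 hm2
    have i1 := pcst_main hN ha1 p20 b3 hX hm1 hm2
    have hLv : dg G L v ≤ N / 80 := by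
      have h1 := hc.out v hv
      have h2 := dg_mono G (Finset.subset_union_right : L ⊆ H1 ∪ H2 ∪ L) v
      linarith
    have hdB := dg_le_card G B v
    rw [← hb] at hdB
    have i2 := pcst_cross hN ha2 b1 p20 b2 (dg_nonneg G B v) hdB (dg_nonneg G H2 v) (hH2c v)
      (dg_nonneg G L v) hLv
    rw [hK]
    linarith
  have hB2 : ∑ v ∈ B, (X / b - 2484 / 10000 * N * (b - 1 - dg G B v) +
        (N / 2 * dg G H2 v + 5128 / 10000 * N * dg G L v + 21 / 10000 * N)) =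
      X - 4968 / 10000 * (N * mis G B) + N / 2 * ∑ h ∈ H2, dg G B h +
        5128 / 10000 * N * ∑ l ∈ L, dg G B l + b * (21 / 10000 * N) := by
    rw [Finset.sum_add_distrib, Finset.sum_sub_distrib, Finset.sum_add_distrib,
      Finset.sum_add_distrib, ← Finset.mul_sum, ← Finset.mul_sum, ← Finset.mul_sum, cBH, cBL]
    have e1 : ∑ v ∈ B, X / b = X := by
      rw [Finset.sum_const, nsmul_eq_mul, ← hb]
      field_simp
    have e2 : ∑ v ∈ B, (b - 1 - dg G B v) = 2 * mis G B := by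
      rw [Finset.sum_sub_distrib, Finset.sum_const, nsmul_eq_mul]
      unfold mis e2
      rw [← hb]
      ring
    have e3 : ∑ v ∈ B, (21 / 10000 * N : ℝ) = b * (21 / 10000 * N) := by
      rw [Finset.sum_const, nsmul_eq_mul, hb]
    rw [e1, e2, e3]
    ring
  have hB3 : b * (21 / 10000 * N) ≤ 22 / 10000 * N ^ 2 := by
    have h0 : 0 ≤ 21 / 10000 * N := by linarith
    have := mul_le_mul_of_nonneg_right ha2 h0
    have h2 : 0 ≤ N ^ 2 := sq_nonneg N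
    norm_num at this ⊢
    nlinarith
  -- the part `H2`
  have hH : ∑ v ∈ H2, (dg G B v * p1 + dg G B v * (dg G B v - 1) * p2 +
      2 * dg G (H2 ∪ L) v * (dg G B v * p1) + dg G (H2 ∪ L) v ^ 2) ≤
      ∑ h ∈ H2, (dg G B h / 2 + dg G L h) ^ 2 + H2.card * (1 / 10 ^ 9 * N ^ 2) := by
    rw [← nsmul_eq_mul, ← Finset.sum_const, ← Finset.sum_add_distrib]
    apply Finset.sum_le_sum
    intro v hv
    rw [hK]
    refine pcst_H hN p10 b1 p20 b2 (dg_nonneg G B v) (dg_nonneg G L v) ?_ (dg_nonneg G H2 v)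
      (hH2c v)
    have h1 := hdeg v hv
    have h2 := dg_le_deg G (B ∪ L) v
    rw [dg_union G hBL v] at h2
    linarith
  have hH3 : (H2.card : ℝ) * (1 / 10 ^ 9 * N ^ 2) ≤ 1 / 10000 * N ^ 2 := by
    have h0 : 0 ≤ 1 / 10 ^ 9 * N ^ 2 := by positivity
    have h1 : (H2.card : ℝ) ≤ 2000 := by
      have : (H2.card : ℝ) ≤ (H1 ∪ H2).card := by exact_mod_cast Finset.card_le_card hH2sub
      linarith
    have h2 := mul_le_mul_of_nonneg_right h1 h0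
    have h3 : 0 ≤ N ^ 2 := sq_nonneg N
    norm_num at h2 ⊢
    linarith
  -- the part `L`
  have hL : ∑ v ∈ L, (dg G B v * p1 + dg G B v * (dg G B v - 1) * p2 +
      2 * dg G (H2 ∪ L) v * (dg G B v * p1) + dg G (H2 ∪ L) v ^ 2) ≤
      3 / 1000 * N * ∑ l ∈ L, dg G B l +
        204 / 10000 * N * (∑ h ∈ H2, dg G L h + e2 G L) := by
    have e1 : ∑ h ∈ H2, dg G L h + e2 G L = ∑ l ∈ L, dg G (H2 ∪ L) l := by
      simp only [hK, Finset.sum_add_distrib, cLH]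
      unfold e2
      rfl
    rw [e1, Finset.mul_sum, Finset.mul_sum, ← Finset.sum_add_distrib]
    apply Finset.sum_le_sum
    intro v hv
    refine pcst_L hN p10 b1 p20 b2 (dg_nonneg G B v) (dg_nonneg G _ v) ?_
    have h1 := hc.Ldeg v hv
    have hdis : Disjoint B (H2 ∪ L) := Finset.disjoint_union_right.mpr ⟨hBH2, hBL⟩
    have h2 := dg_le_deg G (B ∪ (H2 ∪ L)) v
    rw [dg_union G hdis v] at h2
    linarith
  have hsumL : 0 ≤ N * ∑ l ∈ L, dg G B l :=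
    mul_nonneg hN0.le (Finset.sum_nonneg fun l _ => dg_nonneg G B l)
  have hsumHL : 0 ≤ N * ∑ h ∈ H2, dg G L h :=
    mul_nonneg hN0.le (Finset.sum_nonneg fun l _ => dg_nonneg G L l)
  have heL : 0 ≤ N * e2 G L :=
    mul_nonneg hN0.le (Finset.sum_nonneg fun l _ => dg_nonneg G L l)
  have hsumH : ∑ h ∈ H2, (N / 2 * dg G B h + (dg G B h / 2 + dg G L h) ^ 2) =
      N / 2 * ∑ h ∈ H2, dg G B h + ∑ h ∈ H2, (dg G B h / 2 + dg G L h) ^ 2 := by
    rw [Finset.sum_add_distrib, ← Finset.mul_sum]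
  have hN2 : 0 ≤ N ^ 2 := sq_nonneg N
  rw [Finset.sum_union hHL, hsumH]
  rw [hB2] at hB1
  nlinarith

end Graph

end Pool.Agent.Helper96.Mu
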