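import Pool.Agent.Helper96.Mu.GBase

/-!
# The plateau: numerical lemmas
-/

namespace Pool.Agent.Helper96.Mu

open Finset Pool.Agent.Helper39.Mu

set_option linter.unusedSectionVars false

/-- Vertices outside the core of degree at most `N`. -/
lemma vertH2 {N D l : ℝ} (hD : 0 ≤ D) (hl : 0 ≤ l) (h : D + l ≤ N) :
    N * D + (D / 2 + l) ^ 2 + D ^ 2 / 4 - 3 / 2 * N * (D + l) + 21 / 1000 * (N * l) ≤ 0 := by
  have h1 : 0 ≤ D * (N - D) := mul_nonneg hD (by linarith)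
  have h2 : 0 ≤ l * (N - D - l) := mul_nonneg hl (by linarith)
  have h3 : 0 ≤ N * l := mul_nonneg (by linarith) hl
  nlinarith

/-- Vertices outside the core of degree at least `N`. -/
lemma vertH1 {N D l : ℝ} (hN : 0 < N) (hD : 0 ≤ D) (hD2 : D ≤ 2 * N) (hl : 0 ≤ l)
    (h : N - 2000 ≤ D + l) :
    N / 2 * D + D ^ 2 / 4 - 3 / 2 * N * (D + l) ≤ -(3 / 4) * N ^ 2 + 3000 * N := by
  rcases le_or_gt N D with h1 | h1
  · have h2 : 0 ≤ (D - N) * (3 * N - D) := mul_nonneg (by linarith) (by linarith)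
    have h3 : 0 ≤ N * l := mul_nonneg hN.le hl
    nlinarith
  · have h2 : N * (N - 2000) ≤ N * (D + l) := mul_le_mul_of_nonneg_left h hN.le
    have h3 : 0 ≤ (N - D) * (3 * N + D) := mul_nonneg (by linarith) (by linarith)
    nlinarith

/-- Increase of `Psi` along the plateau. -/
lemma psi_incr {h e x : ℝ} (hh : 10 ^ 10 ≤ h) (he0 : 0 ≤ e) (he : e ≤ 9 / 10 * h) (hx : 1 ≤ x)
    (hxe : x * (x - 1) = (2 * h - 1) * (2 * h - 2) + 2 * e) :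
    Psi x ≤ h * (h - 1) ^ 2 + 677 / 1000 * h ^ 2 ∧ 2 * h - 1 ≤ x ∧ x ≤ 2 * h := by
  have h1 : 2 * h - 1 ≤ x := by
    by_contra hcon
    push Not at hcon
    nlinarith
  have h2 : x ≤ 2 * h := by
    by_contra hcon
    push Not at hcon
    nlinarith
  refine ⟨?_, h1, h2⟩
  have h3 : (x - (2 * h - 1)) * (x + (2 * h - 2)) = 2 * e := by nlinarith
  have h4 : x - (2 * h - 1) ≤ 4501 / 10000 := by
    by_contra hcon
    push Not at hcon
    have : 4501 / 10000 * (x + (2 * h - 2)) < (x - (2 * h - 1)) * (x + (2 * h - 2)) :=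
      mul_lt_mul_of_pos_right hcon (by linarith)
    nlinarith
  have e1 : Psi x - h * (h - 1) ^ 2 = (x - (2 * h - 1)) *
      (x ^ 2 + x * (2 * h - 1) + (2 * h - 1) ^ 2 - (x + (2 * h - 1)) - 1) / 8 := by
    unfold Psi
    ring
  have h5 : x ^ 2 + x * (2 * h - 1) + (2 * h - 1) ^ 2 - (x + (2 * h - 1)) - 1 ≤ 12 * h ^ 2 := by
    nlinarith
  have h6 : 0 ≤ x ^ 2 + x * (2 * h - 1) + (2 * h - 1) ^ 2 - (x + (2 * h - 1)) - 1 := by
    nlinarith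
  have h7 : (x - (2 * h - 1)) *
      (x ^ 2 + x * (2 * h - 1) + (2 * h - 1) ^ 2 - (x + (2 * h - 1)) - 1) ≤
      4501 / 10000 * (12 * h ^ 2) :=
    mul_le_mul h4 h5 h6 (by norm_num)
  nlinarith

/-- The size of the core. -/
lemma size_near {a N M E : ℝ} (hN : 10 ^ 20 ≤ N) (ha : 0 ≤ a) (hM : 0 ≤ M) (hE : 0 ≤ E)
    (hp : M + E ≤ 1503 * N) (h : E - M = (N ^ 2 - a * (a - 1)) / 2) :
    N - 1505 ≤ a ∧ a ≤ N + 1505 := by
  have hN0 : 0 < N := by linarith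
  constructor
  · by_contra hcon
    push Not at hcon
    rcases le_or_gt a 1 with h1 | h1
    · have h2 : a * (a - 1) ≤ 0 := mul_nonpos_of_nonneg_of_nonpos ha (by linarith)
      have h3 : 10 ^ 20 * N ≤ N * N := mul_le_mul_of_nonneg_right hN hN0.le
      nlinarith
    · have h2 : a * (a - 1) ≤ (N - 1505) * (N - 1505 - 1) :=
        mul_le_mul hcon.le (by linarith) (by linarith) (by linarith)
      nlinarith
  · by_contra hcon
    push Not at hcon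
    have h2 : (N + 1505) * (N + 1505 - 1) ≤ a * (a - 1) :=
      mul_le_mul hcon.le (by linarith) (by linarith) ha
    nlinarith

/-- The final linear combination. -/
lemma final_num {x N k NM NE ND1 ND2 NL1 NL2 Nz NeH NeL S1 S2 S3 cs av g A F Ph U P : ℝ}
    (h1 : cs ≤ A - 4968 / 10000 * NM + (1 / 2 * ND2 + S1) +
      (52 / 100 * Nz + 21 / 1000 * NL2 + 21 / 1000 * NeL) + 3 / 1000 * N ^ 2)
    (h2 : av ≤ F - 9929 / 10000 * NM + ((1 / 2 * ND1 + S2) + (1 / 2 * ND2 + S3)) +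
      (52 / 100 * Nz + 21 / 1000 * NeL) + 2 / 1000 * N ^ 2)
    (h5 : F ≤ Ph) (h3 : NE = ND1 + ND2 + (NL1 + NL2) + Nz + NeH / 2 + NeL / 2)
    (hME : NM = NE + U / 2)
    (h4 : A + Ph + 3 / 4 * N ^ 2 * (1 - k) - 3 / 4 * U - 3 * P ≤ -(29 / 100) * x ^ 2)
    (h6 : ND2 + S1 + S3 - 3 / 2 * (ND2 + NL2) + 21 / 1000 * NL2 ≤ 0)
    (h7 : 1 / 2 * ND1 + S2 - 3 / 2 * (ND1 + NL1) ≤ k * (-(3 / 4) * N ^ 2 + 3000 * N))
    (hz : 0 ≤ Nz) (heH : 0 ≤ NeH) (heL : 0 ≤ NeL) (hNM : NM ≤ 3 / 2 * N ^ 2)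
    (hNp : NM + NE ≤ 1503 * N ^ 2) (hcs : P < cs)
    (hreb : 2 * g ≤ av + 3 / 4 * N ^ 2 + (NM + NE) / 10 ^ 5 + N ^ 2 / (5 * 10 ^ 4))
    (hNx : N ^ 2 ≤ 4 * x ^ 2) (hN : N ≤ 2 * x) (hN0 : 0 ≤ N) (hx : 10 ^ 15 * x ≤ x ^ 2)
    (hx0 : 0 ≤ x) (hk : k ≤ 1500) : g ≤ P := by
  have h8 : k * N ≤ 1500 * N := mul_le_mul_of_nonneg_right hk hN0
  have h9 : k * (-(3 / 4) * N ^ 2 + 3000 * N) = -(3 / 4) * (N ^ 2 * k) + 3000 * (k * N) := by ring
  have h10 : 3 / 4 * N ^ 2 * (1 - k) = 3 / 4 * N ^ 2 - 3 / 4 * (N ^ 2 * k) := by ring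
  rw [h9] at h7
  rw [h10] at h4
  norm_num at hreb hx
  linarith

end Pool.Agent.Helper96.Mu
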