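import Mathlib
import Pool.Agent.Helper96.Mu.Base

/-!
# MODULE PN-1: a polynomial inequality
-/

namespace Pool.Agent.Helper96.Mu

private lemma pnum_key {h N e r k : ℝ} (hN2 : N ^ 2 = (2 * h - 1) * (2 * h - 2) + 2 * e) :
    (h - 1 + r + k) * (h - 2 + r + k) ^ 2 + Phi (2 * h - 1 + r) + 3 / 4 * N ^ 2 * (1 - k) -
      3 / 4 * N * ((2 * h - 1 + r) * (2 * h - 2 + r) - N ^ 2) - 3 * (h * (h - 1) ^ 2) =
      -3 * h ^ 2 + 3 * (h * e) +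
        h * (3 * r ^ 2 + 6 * (r * k) - 25 / 2 * r + 3 * k ^ 2 - 11 / 2 * k + 19 / 2) +
        e * (3 / 2 - 3 / 2 * k) +
        (5 / 4 * r ^ 3 + 3 * (r ^ 2 * k) - 27 / 4 * r ^ 2 + 3 * (r * k ^ 2) - 10 * (r * k) +
          25 / 2 * r + k ^ 3 - 5 * k ^ 2 + 13 / 2 * k - 13 / 2) -
        3 / 4 * ((N - 2 * h) * (r * (4 * h - 3 + r) - 2 * e)) := by
  rw [hN2]
  unfold Phi
  ring

lemma numbers {h N e r k : ℝ} (hh : 10 ^ 15 ≤ h) (he0 : 0 ≤ e) (he : e ≤ 9 / 10 * h)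
    (hN0 : 0 < N) (hN2 : N ^ 2 = (2 * h - 1) * (2 * h - 2) + 2 * e) (hr : |r| ≤ 10 ^ 4)
    (hk0 : 0 ≤ k) (hk : k ≤ 10 ^ 4) :
    (h - 1 + r + k) * (h - 2 + r + k) ^ 2 + Phi (2 * h - 1 + r) + 3 / 4 * N ^ 2 * (1 - k) -
      3 / 4 * N * ((2 * h - 1 + r) * (2 * h - 2 + r) - N ^ 2) - 3 * (h * (h - 1) ^ 2) ≤
      -(29 / 100) * h ^ 2 := by
  rw [pnum_key hN2]
  obtain ⟨hr1, hr2⟩ := abs_le.1 hr
  have hh0 : (0 : ℝ) < h := lt_of_lt_of_le (by norm_num) hh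
  have hNle : N ≤ 2 * h := by
    by_contra hcon
    push Not at hcon
    nlinarith
  have hNge : 2 * h - 2 ≤ N := by
    by_contra hcon
    push Not at hcon
    nlinarith
  -- the quantity `X`
  have hpos : 0 ≤ 4 * h - 3 + r := by nlinarith
  have hX1 : r * (4 * h - 3 + r) ≤ 10 ^ 4 * (4 * h - 3 + r) :=
    mul_le_mul_of_nonneg_right hr2 hpos
  have hX2 : -10 ^ 4 * (4 * h - 3 + r) ≤ r * (4 * h - 3 + r) :=
    mul_le_mul_of_nonneg_right (by linarith) hpos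
  obtain ⟨X, hX⟩ : ∃ X : ℝ, X = r * (4 * h - 3 + r) - 2 * e := ⟨_, rfl⟩
  rw [← hX]
  have hXu : X ≤ 5 * 10 ^ 4 * h := by
    rw [hX]
    nlinarith
  have hXl : -(5 * 10 ^ 4 * h) ≤ X := by
    rw [hX]
    nlinarith
  have hY : -((N - 2 * h) * X) ≤ 10 ^ 5 * h := by
    have h1 : |(N - 2 * h) * X| ≤ 2 * (5 * 10 ^ 4 * h) := by
      rw [abs_mul]
      exact mul_le_mul (abs_le.2 ⟨by linarith, by linarith⟩) (abs_le.2 ⟨hXl, hXu⟩)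
        (abs_nonneg _) (by norm_num)
    have h2 := neg_abs_le ((N - 2 * h) * X)
    linarith
  -- monomials
  have hr2' : r ^ 2 ≤ 10 ^ 8 := by nlinarith
  have hr2n : 0 ≤ r ^ 2 := sq_nonneg r
  have hk2 : k ^ 2 ≤ 10 ^ 8 := by nlinarith
  have hk2n : 0 ≤ k ^ 2 := sq_nonneg k
  have hrk1 : r * k ≤ 10 ^ 8 := by nlinarith
  have hrk2 : -10 ^ 8 ≤ r * k := by nlinarith
  have hr3 : r ^ 3 ≤ 10 ^ 12 := by
    have : r ^ 3 = r * r ^ 2 := by ring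
    rw [this]
    nlinarith
  have hr2k : r ^ 2 * k ≤ 10 ^ 12 := by nlinarith
  have hrk2' : r * k ^ 2 ≤ 10 ^ 12 := by nlinarith
  have hk3 : k ^ 3 ≤ 10 ^ 12 := by
    have : k ^ 3 = k * k ^ 2 := by ring
    rw [this]
    nlinarith
  have hA : 3 * r ^ 2 + 6 * (r * k) - 25 / 2 * r + 3 * k ^ 2 - 11 / 2 * k + 19 / 2 ≤
      2 * 10 ^ 9 := by linarith
  have hA' := mul_le_mul_of_nonneg_left hA hh0.le
  have hB : 5 / 4 * r ^ 3 + 3 * (r ^ 2 * k) - 27 / 4 * r ^ 2 + 3 * (r * k ^ 2) - 10 * (r * k) +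
      25 / 2 * r + k ^ 3 - 5 * k ^ 2 + 13 / 2 * k - 13 / 2 ≤ 10 ^ 13 := by linarith
  have hE : e * (3 / 2 - 3 / 2 * k) ≤ 2 * h := by nlinarith
  have hhe : h * e ≤ 9 / 10 * h ^ 2 := by nlinarith
  have hsq : 10 ^ 15 * h ≤ h ^ 2 := by nlinarith
  linarith

end Pool.Agent.Helper96.Mu
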