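import Pool.Agent.Helper96.Mu.GStarN
import Pool.Agent.Helper96.Mu.PLem
import Pool.Agent.Helper96.Mu.PNum
import Pool.Agent.Helper96.Mu.PCst
import Pool.Agent.Helper96.Mu.PAvg

/-!
# The plateau: assembly
-/

namespace Pool.Agent.Helper96.Mu

open Finset Pool.Agent.Helper39.Mu

set_option linter.unusedSectionVars false

section Graph

variable {V : Type*} [Fintype V] [DecidableEq V] (G : SimpleGraph V)

theorem exists_sub {B K : Finset V} (hBK : Disjoint B K) {t : ℕ} (ht : t ≤ B.card) :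
    ∃ T, T ⊆ B ∧ T.card = t ∧ sq G (T ∪ K) ≤ cst G B K t := by
  have h1 := sum_sq_union G hBK t
  have h2 : (0 : ℝ) < (B.card.choose t : ℝ) := by exact_mod_cast Nat.choose_pos ht
  by_contra hcon
  push Not at hcon
  have h3 : ∑ T ∈ B.powersetCard t, cst G B K t < ∑ T ∈ B.powersetCard t, sq G (T ∪ K) := by
    apply Finset.sum_lt_sum_of_nonempty
    · exact Finset.powersetCard_nonempty.mpr ht
    · intro T hT
      rw [Finset.mem_powersetCard] at hT
      exact hcon T hT.1 hT.2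
  rw [Finset.sum_const, Finset.card_powersetCard, nsmul_eq_mul, h1] at h3
  unfold cst at h3
  exact lt_irrefl _ h3

lemma sq_le_card (X : Finset V) : sq G X ≤ (X.card : ℝ) * ((X.card : ℝ) - 1) ^ 2 := by
  unfold sq
  calc ∑ v ∈ X, dg G X v ^ 2 ≤ ∑ v ∈ X, ((X.card : ℝ) - 1) ^ 2 :=
        Finset.sum_le_sum fun v hv =>
          pow_le_pow_left₀ (dg_nonneg G X v) (dg_le_card_sub_one G hv) 2
    _ = (X.card : ℝ) * ((X.card : ℝ) - 1) ^ 2 := by rw [Finset.sum_const, nsmul_eq_mul]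

lemma gMu_le_sq {X Y : Finset V} (h1 : X ∪ Y = univ) (h2 : Disjoint X Y) :
    (gMu G : ℝ) ≤ max (sq G X) (sq G Y) := by
  have h3 : gMu G ≤ max (mu (G.induce {v | v ∈ X})) (mu (G.induce {v | v ∈ X}ᶜ)) :=
    Nat.sInf_le ⟨_, rfl⟩
  have h4 := mu_eq_sq G X {v | v ∈ X} (fun v => Iff.rfl)
  have h5 := mu_eq_sq G Y {v | v ∈ X}ᶜ (fun v => by
    simp only [Set.mem_compl_iff, Set.mem_ofPred_eq]
    constructor
    · intro h
      have : v ∈ X ∪ Y := by rw [h1]; exact Finset.mem_univ v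
      exact (Finset.mem_union.mp this).resolve_left h
    · intro h h'
      exact Finset.disjoint_left.mp h2 h' h)
  rw [← h4, ← h5]
  exact_mod_cast h3

/-- The number of edges outside the core. -/
lemma ext_eq {N : ℝ} {B H L : Finset V} (hc : Core G N B H L) :
    ext G B = ∑ h ∈ H, dg G B h + ∑ h ∈ H, dg G L h + ∑ l ∈ L, dg G B l + e2 G H / 2 +
      e2 G L / 2 := by
  have hdis : Disjoint (B ∪ H) L := by
    rw [Finset.disjoint_union_left]
    exact ⟨hc.disjBL, hc.disjHL⟩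
  have h1 : e2 G (B ∪ H ∪ L) = tot G := by
    rw [hc.union]
    rfl
  rw [e2_union G hdis, e2_union G hc.disjBH] at h1
  have h2 : ∑ v ∈ L, dg G (B ∪ H) v = ∑ v ∈ L, dg G B v + ∑ v ∈ L, dg G H v := by
    rw [← Finset.sum_add_distrib]
    exact Finset.sum_congr rfl fun v _ => dg_union G hc.disjBH v
  rw [h2, sum_dg_comm G L H] at h1
  unfold ext
  linarith

theorem near_plateau {N : ℝ} {B H L : Finset V} (hc : Core G N B H L)
    (hp : mis G B + ext G B ≤ N ^ 2 / 10 ^ 10) (hN : 10 ^ 20 ≤ N) (hsum : tot G = N ^ 2)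
    {h e : ℕ} (he : 10 * e ≤ 9 * h) (hh : 10 ^ 15 ≤ h)
    (hNh : N ^ 2 = (2 * (h : ℝ) - 1) * (2 * h - 2) + 2 * e) :
    (gMu G : ℝ) ≤ (h : ℝ) * ((h : ℝ) - 1) ^ 2 := by
  classical
  have hN0 : 0 < N := by linarith
  have hN12 : (10 : ℝ) ^ 12 ≤ N := by linarith
  have hN6 : (10 : ℝ) ^ 6 ≤ N := by linarith
  obtain ⟨x, hx⟩ : ∃ x : ℝ, x = h := ⟨_, rfl⟩
  obtain ⟨ε, hε⟩ : ∃ ε : ℝ, ε = e := ⟨_, rfl⟩
  have hxh : (10 : ℝ) ^ 15 ≤ x := by rw [hx]; exact_mod_cast hh
  have hε0 : 0 ≤ ε := by rw [hε]; exact Nat.cast_nonneg e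
  have hεx : ε ≤ 9 / 10 * x := by
    have : 10 * (e : ℝ) ≤ 9 * h := by exact_mod_cast he
    rw [hε, hx]
    linarith
  rw [← hx, ← hε] at hNh
  rw [← hx]
  have hx0 : 0 < x := by linarith
  have hN1 : 2 * x - 2 ≤ N := by nlinarith
  have hN2 : N ≤ 2 * x := by nlinarith
  have hNsq : N ^ 2 ≤ 4 * x ^ 2 := by nlinarith
  have hNsq' : 4 * x ^ 2 - 8 * x ≤ N ^ 2 := by nlinarith
  have hxx : 10 ^ 15 * x ≤ x ^ 2 := by nlinarith
  have ha1 := hc.card_lo
  have ha2 := hc.card_hi
  obtain ⟨a, ha⟩ : ∃ a : ℝ, a = B.card := ⟨_, rfl⟩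
  rw [← ha] at ha1 ha2
  have ha10 : (10 : ℝ) ≤ a := by linarith
  have haN : 2 ≤ B.card := by
    have : (2 : ℝ) ≤ B.card := by rw [← ha]; linarith
    exact_mod_cast this
  obtain ⟨-, hb2, hlam0⟩ := near_bound2_of G hc hN6 (T := avgE G B H L) le_rfl
  obtain ⟨Q, hQ⟩ : ∃ Q, Q = N * (mis G B + lam G B H) + ∑ h ∈ H, dg G B h * (N - dg G B h) :=
    ⟨_, rfl⟩
  have hmis0 := mis_nonneg G B
  have hext0 := ext_nonneg G B
  have hHQ : (H.card : ℝ) * (N ^ 2 / 1000) ≤ Q := by
    have : 0 ≤ N * mis G B := mul_nonneg hN0.le hmis0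
    rw [hQ]
    linarith
  have hMQ : N * mis G B ≤ Q := by
    have : 0 ≤ (H.card : ℝ) * (N ^ 2 / 1000) := by positivity
    rw [hQ]
    linarith
  -- the weight of the defects
  have hNp : N * (mis G B + ext G B) ≤ 1002 * Q := by
    have h5 : N * (mis G B + ext G B) = Q + ∑ h ∈ H, dg G B h ^ 2 := by
      have h6 : ∑ h ∈ H, dg G B h * (N - dg G B h) =
          N * ∑ h ∈ H, dg G B h - ∑ h ∈ H, dg G B h ^ 2 := by
        rw [Finset.mul_sum, ← Finset.sum_sub_distrib]
        exact Finset.sum_congr rfl fun h _ => by ring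
      rw [hQ, h6]
      unfold lam
      ring
    have h6 : ∑ h ∈ H, dg G B h ^ 2 ≤ H.card * ((1 + 1 / 10 ^ 6) * N) ^ 2 := by
      calc ∑ h ∈ H, dg G B h ^ 2 ≤ ∑ h ∈ H, ((1 + 1 / 10 ^ 6) * N) ^ 2 := by
            refine Finset.sum_le_sum fun h _ => pow_le_pow_left₀ (dg_nonneg G B h) ?_ 2
            exact (dg_le_card G B h).trans (by rw [← ha]; exact ha2)
        _ = H.card * ((1 + 1 / 10 ^ 6) * N) ^ 2 := by rw [Finset.sum_const, nsmul_eq_mul]
    have h8 : (H.card : ℝ) * ((1 + 1 / 10 ^ 6) * N) ^ 2 ≤ 1001 * (H.card * (N ^ 2 / 1000)) := by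
      have h9 : 0 ≤ (H.card : ℝ) * N ^ 2 := by positivity
      have e : (H.card : ℝ) * ((1 + 1 / 10 ^ 6) * N) ^ 2 =
          (1 + 1 / 10 ^ 6) ^ 2 * (H.card * N ^ 2) := by ring
      rw [e]
      norm_num
      linarith
    rw [h5]
    linarith
  rcases le_or_gt (3 / 2 * N ^ 2) Q with hQ1 | hQ1
  · -- large defect: rebalancing
    obtain ⟨y, hy⟩ : ∃ y : ℝ, y = 1 / 2 + Real.sqrt (N ^ 2 + 1 / 4) := ⟨_, rfl⟩
    have hyy : y * (y - 1) = N ^ 2 := by
      have h1 : Real.sqrt (N ^ 2 + 1 / 4) ^ 2 = N ^ 2 + 1 / 4 := Real.sq_sqrt (by positivity)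
      rw [hy]
      nlinarith
    have hy1 : 1 ≤ y := by
      have h1 : (1 : ℝ) / 2 ≤ Real.sqrt (N ^ 2 + 1 / 4) := by
        apply Real.le_sqrt_of_sq_le
        have : 0 ≤ N ^ 2 := sq_nonneg N
        linarith
      rw [hy]
      linarith
    have hreb := near_reb G hc hp hN12 hsum (T := Phi y - 6 / 25 * Q) (by
      intro T0 hT0
      obtain ⟨hb1, -, -⟩ := near_bound2_of G hc hN6 (T := T0) hT0
      rw [← hQ, ext_sub_mis, hsum, ← hyy] at hb1
      have h2 := phi_convex (a := (B.card : ℝ)) (n := y) (by rw [← ha]; linarith) hy1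
      have h3 := (fK_le_Phi (a := B.card) haN).1
      linarith)
    have hid : 2 * Psi y = Phi y + (3 * (y * (y - 1)) - 5 * y + 5) / 4 := by
      unfold Psi Phi
      ring
    obtain ⟨hP1, hP2, hP3⟩ := psi_incr (h := x) (e := ε) (x := y) (by linarith) hε0 hεx hy1
      (by rw [hyy, hNh])
    rw [hyy] at hid
    linarith
  · -- small defect
    have hHc : (H.card : ℝ) ≤ 1500 := by
      by_contra hcon
      push Not at hcon
      have h7 : 1500 * (N ^ 2 / 1000) < (H.card : ℝ) * (N ^ 2 / 1000) :=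
        mul_lt_mul_of_pos_right hcon (by positivity)
      linarith
    have hM : mis G B ≤ 3 / 2 * N := by
      have h1 : N * mis G B ≤ N * (3 / 2 * N) := by linarith
      exact le_of_mul_le_mul_left h1 hN0
    have hpN : mis G B + ext G B ≤ 1503 * N := by
      have h1 : N * (mis G B + ext G B) ≤ N * (1503 * N) := by linarith
      exact le_of_mul_le_mul_left h1 hN0
    have hME := ext_sub_mis G B
    rw [hsum, ← ha] at hME
    -- the size of the core
    obtain ⟨r, hr⟩ : ∃ r, r = a - (2 * x - 1) := ⟨_, rfl⟩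
    have hrb : |r| ≤ 1510 := by
      obtain ⟨h1, h2⟩ := size_near hN (by linarith) hmis0 hext0 hpN hME
      rw [abs_le, hr]
      constructor <;> linarith
    have hrb' := abs_le.mp hrb
    obtain ⟨H1, hH1⟩ : ∃ H1, H1 = H.filter (fun v => N ≤ deg G v) := ⟨_, rfl⟩
    obtain ⟨H2, hH2⟩ : ∃ H2, H2 = H.filter (fun v => ¬ (N ≤ deg G v)) := ⟨_, rfl⟩
    have hsplit : ∀ f : V → ℝ, ∑ v ∈ H, f v = ∑ v ∈ H1, f v + ∑ v ∈ H2, f v := by
      intro f
      rw [hH1, hH2, Finset.sum_filter_add_sum_filter_not]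
    have hH1H : H1 ⊆ H := by rw [hH1]; exact Finset.filter_subset _ _
    have hH2H : H2 ⊆ H := by rw [hH2]; exact Finset.filter_subset _ _
    have hHu : H1 ∪ H2 = H := by rw [hH1, hH2]; exact Finset.filter_union_filter_not_eq _ _
    have hHd : Disjoint H1 H2 := by
      rw [hH1, hH2]; exact Finset.disjoint_filter_filter_not _ _ _
    obtain ⟨k, hk⟩ : ∃ k, k = H1.card := ⟨_, rfl⟩
    have hkR : (k : ℝ) ≤ 1500 := by
      have : (H1.card : ℝ) ≤ H.card := by exact_mod_cast Finset.card_le_card hH1H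
      rw [hk]
      linarith
    have hk0 : (0 : ℝ) ≤ k := Nat.cast_nonneg k
    have hkh : k ≤ h := by
      have : (k : ℝ) ≤ (h : ℝ) := by rw [← hx]; linarith
      exact_mod_cast this
    have hhb : h ≤ B.card := by
      have : (h : ℝ) ≤ (B.card : ℝ) := by rw [← hx, ← ha]; linarith
      exact_mod_cast this
    obtain ⟨t, ht⟩ : ∃ t, t = B.card + k - h := ⟨_, rfl⟩
    have htR : (t : ℝ) = x - 1 + r + k := by
      rw [ht, Nat.cast_sub (by omega)]
      push_cast
      rw [← ha, ← hx, hr]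
      ring
    have htB : t ≤ B.card := by omega
    have hBK : Disjoint B (H2 ∪ L) := by
      rw [Finset.disjoint_union_right]
      exact ⟨Finset.disjoint_of_subset_right hH2H hc.disjBH, hc.disjBL⟩
    obtain ⟨T, hT1, hT2, hT3⟩ := exists_sub G hBK htB
    -- the partition
    have hBH1 : Disjoint B H1 := Finset.disjoint_of_subset_right hH1H hc.disjBH
    have hg : (gMu G : ℝ) ≤ max (sq G ((B \ T) ∪ H1)) (sq G (T ∪ (H2 ∪ L))) := by
      apply gMu_le_sq
      · rw [← hc.union, ← hHu]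
        ext v
        simp only [Finset.mem_union, Finset.mem_sdiff]
        constructor
        · rintro ((h | h) | (h | (h | h)))
          · exact Or.inl (Or.inl h.1)
          · exact Or.inl (Or.inr (Or.inl h))
          · exact Or.inl (Or.inl (hT1 h))
          · exact Or.inl (Or.inr (Or.inr h))
          · exact Or.inr h
        · rintro ((h | (h | h)) | h)
          · by_cases hs : v ∈ T
            · exact Or.inr (Or.inl hs)
            · exact Or.inl (Or.inl ⟨h, hs⟩)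
          · exact Or.inl (Or.inr h)
          · exact Or.inr (Or.inr (Or.inl h))
          · exact Or.inr (Or.inr (Or.inr h))
      · rw [Finset.disjoint_union_left]
        constructor
        · rw [Finset.disjoint_union_right]
          exact ⟨Finset.sdiff_disjoint, Finset.disjoint_of_subset_left Finset.sdiff_subset hBK⟩
        · rw [Finset.disjoint_union_right, Finset.disjoint_union_right]
          exact ⟨(Finset.disjoint_of_subset_left hT1 hBH1).symm, hHd,
            Finset.disjoint_of_subset_left hH1H hc.disjHL⟩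
    have hScard : (((B \ T) ∪ H1).card : ℝ) = x := by
      rw [Finset.card_union_of_disjoint
        (Finset.disjoint_of_subset_left Finset.sdiff_subset hBH1),
        Finset.card_sdiff_of_subset hT1, hT2, ← hk]
      have : B.card - t + k = h := by omega
      rw [this, hx]
    have hS := sq_le_card G ((B \ T) ∪ H1)
    rw [hScard] at hS
    rcases le_or_gt (cst G B (H2 ∪ L) t) (x * (x - 1) ^ 2) with hcs | hcs
    · exact hg.trans (max_le hS (hT3.trans hcs))
    · -- rebalancing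
      have hreb := near_reb G hc hp hN12 hsum (T := avgE G B H L) (fun T0 hT0 => hT0)
      rw [← hHu] at hc
      have h1 := cst_le G hc hHd hN (by rw [hHu]; linarith) (t := t) (by
        intro v hv
        rw [hH2, Finset.mem_filter] at hv
        exact (not_le.mp hv.2).le) (by
        rw [htR, ← ha, abs_le]
        rw [hr] at hrb' ⊢
        constructor <;> linarith)
      rw [hHu] at hc
      have h2 := avgE_le G hc hN (by linarith)
      have h3 := ext_eq G hc
      have h4 := numbers (h := x) (N := N) (e := ε) (r := r) (k := k) hxh hε0 hεx hN0 hNh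
        (by linarith) hk0 (by linarith)
      have h5 := (fK_le_Phi (a := B.card) haN).1
      have hbr : (B.card : ℝ) = 2 * x - 1 + r := by rw [← ha, hr]; ring
      -- the vertices outside the core
      have hdeg : ∀ v, deg G v = dg G B v + dg G H v + dg G L v := by
        intro v
        rw [← dg_univ, ← hc.union, dg_union G _ v, dg_union G hc.disjBH v]
        rw [Finset.disjoint_union_left]
        exact ⟨hc.disjBL, hc.disjHL⟩
      have h6 : ∑ v ∈ H2, (N * dg G B v + (dg G B v / 2 + dg G L v) ^ 2 + dg G B v ^ 2 / 4 -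
          3 / 2 * N * (dg G B v + dg G L v) + 21 / 1000 * (N * dg G L v)) ≤ 0 := by
        apply Finset.sum_nonpos
        intro v hv
        rw [hH2, Finset.mem_filter] at hv
        have h7 := not_le.mp hv.2
        have h8 := hdeg v
        have h9 := dg_nonneg G H v
        exact vertH2 (dg_nonneg G B v) (dg_nonneg G L v) (by linarith)
      have h7 : ∑ v ∈ H1, (N / 2 * dg G B v + dg G B v ^ 2 / 4 -
          3 / 2 * N * (dg G B v + dg G L v)) ≤ k * (-(3 / 4) * N ^ 2 + 3000 * N) := by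
        calc ∑ v ∈ H1, (N / 2 * dg G B v + dg G B v ^ 2 / 4 -
              3 / 2 * N * (dg G B v + dg G L v)) ≤
              ∑ v ∈ H1, (-(3 / 4) * N ^ 2 + 3000 * N) := by
              apply Finset.sum_le_sum
              intro v hv
              rw [hH1, Finset.mem_filter] at hv
              have h8 := hdeg v
              have h9 := dg_le_card G H v
              have h10 := dg_le_card G B v
              rw [← ha] at h10
              exact vertH1 hN0 (dg_nonneg G B v) (by linarith) (dg_nonneg G L v)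
                (by linarith [hv.2])
          _ = k * (-(3 / 4) * N ^ 2 + 3000 * N) := by
              rw [Finset.sum_const, nsmul_eq_mul, hk]
      rw [hsplit (fun v => dg G B v), hsplit (fun v => dg G L v)] at h3
      rw [hsplit (fun v => N / 2 * dg G B v + dg G B v ^ 2 / 4)] at h2
      simp only [Finset.sum_add_distrib, Finset.sum_sub_distrib, ← Finset.mul_sum] at h1 h2 h6 h7
      obtain ⟨cs, hcs'⟩ : ∃ cs, cs = cst G B (H2 ∪ L) t := ⟨_, rfl⟩
      obtain ⟨av, hav⟩ : ∃ av, av = avgE G B H L := ⟨_, rfl⟩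
      obtain ⟨M, hM'⟩ : ∃ M, M = mis G B := ⟨_, rfl⟩
      obtain ⟨E, hE'⟩ : ∃ E, E = ext G B := ⟨_, rfl⟩
      obtain ⟨D1, hD1⟩ : ∃ D1, D1 = ∑ v ∈ H1, dg G B v := ⟨_, rfl⟩
      obtain ⟨D2, hD2⟩ : ∃ D2, D2 = ∑ v ∈ H2, dg G B v := ⟨_, rfl⟩
      obtain ⟨L1, hL1⟩ : ∃ L1, L1 = ∑ v ∈ H1, dg G L v := ⟨_, rfl⟩
      obtain ⟨L2, hL2⟩ : ∃ L2, L2 = ∑ v ∈ H2, dg G L v := ⟨_, rfl⟩
      obtain ⟨z, hz⟩ : ∃ z, z = ∑ v ∈ L, dg G B v := ⟨_, rfl⟩
      obtain ⟨eH, heH⟩ : ∃ eH, eH = e2 G H := ⟨_, rfl⟩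
      obtain ⟨eL, heL⟩ : ∃ eL, eL = e2 G L := ⟨_, rfl⟩
      obtain ⟨S1, hS1⟩ : ∃ S1, S1 = ∑ v ∈ H2, (dg G B v / 2 + dg G L v) ^ 2 := ⟨_, rfl⟩
      obtain ⟨S2, hS2⟩ : ∃ S2, S2 = ∑ v ∈ H1, dg G B v ^ 2 / 4 := ⟨_, rfl⟩
      obtain ⟨S3, hS3⟩ : ∃ S3, S3 = ∑ v ∈ H2, dg G B v ^ 2 / 4 := ⟨_, rfl⟩
      have hz0 : 0 ≤ N * z := mul_nonneg hN0.le (by
        rw [hz]; exact Finset.sum_nonneg fun v _ => dg_nonneg G B v)
      have heH0 : 0 ≤ N * eH := mul_nonneg hN0.le (by rw [heH]; exact e2_nonneg G H)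
      have heL0 : 0 ≤ N * eL := mul_nonneg hN0.le (by rw [heL]; exact e2_nonneg G L)
      have hNM : N * M ≤ 3 / 2 * N ^ 2 := by
        rw [hM']
        linarith
      rw [hbr] at h5
      rw [htR] at h1
      rw [← hcs'] at h1 hcs
      rw [← hav] at h2 hreb
      rw [← hM'] at h1 h2 hME hpN hreb
      rw [← hE'] at h3 hME hpN hreb
      rw [← hD1, ← hD2, ← hL1, ← hL2, ← hz, ← heH, ← heL] at h3
      rw [← hD2, ← hL2, ← hz, ← heL, ← hS1] at h1
      rw [← hD1, ← hD2, ← hz, ← heL, ← hS2, ← hS3] at h2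
      rw [← hD2, ← hL2, ← hS1, ← hS3] at h6
      rw [← hD1, ← hL1, ← hS2] at h7
      have har : a = 2 * x - 1 + r := by rw [hr]; ring
      rw [har] at hME
      refine final_num (x := x) (N := N) (k := k) (NM := N * M) (NE := N * E) (ND1 := N * D1)
        (ND2 := N * D2) (NL1 := N * L1) (NL2 := N * L2) (Nz := N * z) (NeH := N * eH)
        (NeL := N * eL) (S1 := S1) (S2 := S2) (S3 := S3) (cs := cs) (av := av)
        (A := (x - 1 + r + k) * (x - 2 + r + k) ^ 2) (F := fK B.card) (Ph := Phi (2 * x - 1 + r))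
        (U := N * ((2 * x - 1 + r) * (2 * x - 2 + r) - N ^ 2)) (P := x * (x - 1) ^ 2)
        ?_ ?_ h5 ?_ ?_ ?_ ?_ ?_ hz0 heH0 heL0 hNM ?_ hcs ?_ hNsq hN2 hN0.le hxx hx0.le hkR
      · refine h1.trans (le_of_eq ?_)
        ring
      · refine h2.trans (le_of_eq ?_)
        ring
      · rw [h3]; ring
      · have : M = E - (N ^ 2 - (2 * x - 1 + r) * (2 * x - 1 + r - 1)) / 2 := by linarith
        rw [this]; ring
      · refine le_trans (le_of_eq ?_) h4
        ring
      · refine le_trans (le_of_eq ?_) h6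
        ring
      · refine le_trans (le_of_eq ?_) h7
        ring
      · have : N * (M + E) ≤ N * (1503 * N) := mul_le_mul_of_nonneg_left hpN hN0.le
        linarith
      · refine hreb.trans (le_of_eq ?_)
        ring

end Graph

end Pool.Agent.Helper96.Mu
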