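import Pool.Agent.Helper96.Mu.PAsm
import Pool.Agent.Helper96.Mu.FinalG

/-!
# `g_μ` is constant on a long interval after `C(n,2)`, `n` odd
-/

namespace Pool.Agent.Helper96.Mu

open Finset Pool.Agent.Helper39.Mu

set_option linter.unusedSectionVars false

section Graph

variable {V : Type*} [Fintype V] [DecidableEq V] (G : SimpleGraph V)

/-- The upper bound on the plateau. -/
theorem upper_plateau {N : ℝ} {h e : ℕ} (hh : 10 ^ 301 ≤ h) (he : 10 * e ≤ 9 * h) (hN0 : 0 < N)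
    (hsum : tot G = N ^ 2) (hNh : N ^ 2 = (2 * (h : ℝ) - 1) * (2 * h - 2) + 2 * e) :
    (gMu G : ℝ) ≤ (h : ℝ) * ((h : ℝ) - 1) ^ 2 := by
  have hh60 : 10 ^ 60 ≤ h := (Nat.pow_le_pow_right (by norm_num) (by norm_num)).trans hh
  have hhR : (10 : ℝ) ^ 60 ≤ h := by exact_mod_cast hh60
  have heR : 10 * (e : ℝ) ≤ 9 * h := by exact_mod_cast he
  have he0 : (0 : ℝ) ≤ e := Nat.cast_nonneg e
  have hN2 : N ≤ 2 * h := by nlinarith
  have hN1 : 2 * (h : ℝ) - 2 ≤ N := by nlinarith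
  have hN300 : (10 : ℝ) ^ 300 ≤ N := by
    have h1 : (10 : ℝ) ^ 301 ≤ h := by exact_mod_cast hh
    have h2 : (10 : ℝ) ^ 301 = 10 * 10 ^ 300 := by rw [pow_succ]; ring
    rw [h2] at h1
    have h3 : (1 : ℝ) ≤ 10 ^ 300 := one_le_pow₀ (by norm_num)
    obtain ⟨P, hP⟩ : ∃ P : ℝ, P = 10 ^ 300 := ⟨_, rfl⟩
    rw [← hP] at h1 h3 ⊢
    clear hP h2
    linarith
  rcases dichotomyG G hN300 hsum with h0 | ⟨B, H, L, hc, hp⟩
  · clear hN300
    refine h0.trans ?_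
    have h1 : N ^ 3 ≤ (2 * (h : ℝ)) ^ 3 := pow_le_pow_left₀ hN0.le hN2 3
    have h5 : 2 ≤ kg * h := by
      unfold kg
      rw [div_mul_eq_mul_div, le_div_iff₀ (by norm_num)]
      linarith
    have h6 : 2 * (h : ℝ) ^ 2 ≤ kg * h * h ^ 2 := mul_le_mul_of_nonneg_right h5 (sq_nonneg _)
    have hk : kg ≤ 1 := by unfold kg; norm_num
    have h7 : (1 - kg) * N ^ 3 ≤ (1 - kg) * (2 * (h : ℝ)) ^ 3 :=
      mul_le_mul_of_nonneg_left h1 (by linarith)
    nlinarith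
  · have hN20 : (10 : ℝ) ^ 20 ≤ N :=
      (pow_le_pow_right₀ (by norm_num) (by norm_num)).trans hN300
    exact near_plateau G hc hp hN20 hsum he
      ((Nat.pow_le_pow_right (by norm_num) (by norm_num)).trans hh60) hNh

end Graph

/-- `g_μ` is exactly `h (h - 1)²`, `h = (n + 1) / 2`, for `C(n,2) ≤ m ≤ C(n,2) + 9 n / 20`. -/
theorem plateau : ∃ n₀ : ℕ, ∀ n ≥ n₀, Odd n → ∀ e : ℕ, 20 * e ≤ 9 * n →
    (gMuMax (n.choose 2 + e) : ℤ) = starValueG n 0 := by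
  refine ⟨10 ^ 302, ?_⟩
  rintro n hn ⟨k, rfl⟩ e he
  obtain ⟨h, hh⟩ : ∃ h, h = k + 1 := ⟨_, rfl⟩
  have hk : k = h - 1 := by omega
  have hh301 : 10 ^ 301 ≤ h := by
    have h1 : 10 ^ 302 = 10 * 10 ^ 301 := by rw [pow_succ]; ring
    rw [h1] at hn
    obtain ⟨P, hP⟩ : ∃ P : ℕ, P = 10 ^ 301 := ⟨_, rfl⟩
    rw [← hP] at hn ⊢
    clear hP h1
    omega
  clear hn
  have hh1 : 1 ≤ h := by omega
  have hch : (((2 * k + 1).choose 2 : ℕ) : ℝ) = (2 * (h : ℝ) - 1) * (2 * h - 2) / 2 := by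
    rw [choose_cast, hh]
    push_cast
    ring
  have key : (gMuMax ((2 * k + 1).choose 2 + e) : ℝ) = (h : ℝ) * ((h : ℝ) - 1) ^ 2 := by
    apply le_antisymm
    · obtain ⟨M, G, hG, hx⟩ := gMuMax_attained ((2 * k + 1).choose 2 + e)
      rw [← hx]
      have ht := tot_eq hG
      have hpos : (0 : ℝ) < 2 * (((2 * k + 1).choose 2 + e : ℕ) : ℝ) := by
        have h60 : 10 ^ 60 ≤ h := (Nat.pow_le_pow_right (by norm_num) (by norm_num)).trans hh301
        have hR : (10 : ℝ) ^ 60 ≤ h := by exact_mod_cast h60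
        have he0 : (0 : ℝ) ≤ e := Nat.cast_nonneg e
        push_cast
        rw [hch]
        nlinarith
      refine upper_plateau G (h := h) (e := e) hh301 (by omega) (Real.sqrt_pos.mpr hpos) ht ?_
      rw [Real.sq_sqrt hpos.le]
      push_cast
      rw [hch]
      ring
    · obtain ⟨M, G, K, hG, hK, hadj⟩ := exists_graph ((2 * k + 1).choose 2 + e) (2 * k + 1)
        (Nat.le_add_right _ _)
      have h1 := gMu_ge_clique G K hadj (by rw [hK]; omega)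
      rw [hK, hi_cast_odd, ← hh] at h1
      exact h1.trans (le_gMuMax hG)
  have h2 : ((gMuMax ((2 * k + 1).choose 2 + e) : ℤ) : ℝ) = ((starValueG (2 * k + 1) 0 : ℤ) : ℝ) := by
    rw [starValueG_cast]
    unfold gS
    rw [hi_cast_odd, ← hh]
    push_cast
    rw [key]
    ring
  exact_mod_cast h2

end Pool.Agent.Helper96.Mu
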