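import Mathlib
import Pool.Agent.Helper96.Mu.StarDef

/-!
# The graph `K_n` minus a star: lower bound for the sum of the two costs
-/

namespace Pool.Agent.Helper96.Mu

open Finset Pool.Agent.Helper39.Mu

/-- Worst case: the part with the centre is as large as the larger half. -/
private lemma starF_leaves {h i j : ℝ} (hj : 2 * j ≤ h) (hh : 5 ≤ h) (hij : i ≤ j)
    (_hi0 : 0 ≤ i) : - (4 * h - 5) * j + j ^ 2 ≤ - i * (4 * h - 5) + i ^ 2 := by
  have h1 : 0 ≤ (j - i) * (4 * h - 5 - i - j) := mul_nonneg (by linarith) (by linarith)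
  nlinarith [h1]

private lemma starF_balance {h l t : ℝ} :
    (h + t) * (h + t - 1) ^ 2 + (l - t) * (l - t - 1) ^ 2 =
      h * (h - 1) ^ 2 + l * (l - 1) ^ 2 + t * (3 * (h + l) - 4) * (t + (h - l)) := by
  ring

theorem le_fMu_starG {n j : ℕ} (hn : 20 ≤ n) (hj : 4 * j ≤ n) :
    fS n j ≤ (fMu (starG n j) : ℝ) := by
  classical
  have hne : {x | ∃ U : Set (Fin n), x = mu ((starG n j).induce U) +
      mu ((starG n j).induce Uᶜ)}.Nonempty := ⟨_, ∅, rfl⟩
  obtain ⟨U, hU⟩ := Nat.sInf_mem hne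
  have h1 : fMu (starG n j) = mu ((starG n j).induce U) + mu ((starG n j).induce Uᶜ) := hU
  have hn0 : 0 < n := by omega
  have hcard : U.ncard + Uᶜ.ncard = n := by
    have := Set.ncard_add_ncard_compl U
    rw [Nat.card_eq_fintype_card, Fintype.card_fin] at this
    exact this
  obtain ⟨h, hh⟩ : ∃ h, h = hi n := ⟨_, rfl⟩
  obtain ⟨l, hl⟩ : ∃ l, l = lo n := ⟨_, rfl⟩
  have hhl : h + l = n := by rw [hh, hl, hi, lo]; omega
  have hlh : l ≤ h := by rw [hh, hl, hi, lo]; omega
  have hhl1 : h ≤ l + 1 := by rw [hh, hl, hi, lo]; omega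
  have hh10 : (10 : ℝ) ≤ h := by
    have : 10 ≤ h := by omega
    exact_mod_cast this
  have hjh : 2 * (j : ℝ) ≤ h := by
    have : 2 * j ≤ h := by omega
    exact_mod_cast this
  have hhlR : (h : ℝ) + l = n := by exact_mod_cast hhl
  have hlhR : (l : ℝ) ≤ h := by exact_mod_cast hlh
  have hhl1R : (h : ℝ) ≤ l + 1 := by exact_mod_cast hhl1
  have hnR : (20 : ℝ) ≤ n := by exact_mod_cast hn
  have hjR : 4 * (j : ℝ) ≤ n := by exact_mod_cast hj
  unfold fS fK
  rw [← hh, ← hl]
  -- symmetric core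
  have key : ∀ W : Set (Fin n), (⟨0, hn0⟩ : Fin n) ∈ W → W.ncard + Wᶜ.ncard = n →
      (h : ℝ) * ((h : ℝ) - 1) ^ 2 + (l : ℝ) * ((l : ℝ) - 1) ^ 2 - (4 * (h : ℝ) - 5) * j +
        (j : ℝ) ^ 2 ≤
        (mu ((starG n j).induce W) : ℝ) + (mu ((starG n j).induce Wᶜ) : ℝ) := by
    intro W hW hWc
    obtain ⟨i, hij, hip, hmu⟩ := star_part (j := j) hn0 W hW
    have hoth := star_other (j := j) hn0 Wᶜ (by simpa using hW)
    have hijR : (i : ℝ) ≤ j := by exact_mod_cast hij
    have hi0 : (0 : ℝ) ≤ i := by positivity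
    obtain ⟨t, ht⟩ : ∃ t : ℝ, t = (W.ncard : ℝ) - h := ⟨_, rfl⟩
    have hp : (W.ncard : ℝ) = h + t := by rw [ht]; ring
    have hq : (Wᶜ.ncard : ℝ) = l - t := by
      have : (W.ncard : ℝ) + (Wᶜ.ncard : ℝ) = n := by exact_mod_cast hWc
      linarith
    rw [hq] at hoth
    rw [hmu, hp]
    have hbal := starF_balance (h := h) (l := l) (t := t)
    by_cases hcase : h ≤ W.ncard
    · -- the part with the centre is large
      have ht0 : t = 0 ∨ 1 ≤ t := by
        rcases Nat.eq_or_lt_of_le hcase with h2 | h2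
        · left; rw [ht, ← h2]; ring
        · right
          have : (h : ℝ) + 1 ≤ W.ncard := by exact_mod_cast h2
          rw [ht]; linarith
      have h2 := starF_leaves (h := h + t) (i := i) (j := j)
        (by rcases ht0 with h | h <;> linarith) (by rcases ht0 with h | h <;> linarith) hijR hi0
      have h3 : 4 * (j : ℝ) * t ≤ t * (3 * ((h : ℝ) + l) - 4) * (t + (h - l)) := by
        rcases ht0 with h4 | h4
        · rw [h4]; simp
        · have h5 : 4 * (j : ℝ) ≤ (3 * ((h : ℝ) + l) - 4) * (t + (h - l)) := by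
            have h6 : (3 * ((h : ℝ) + l) - 4) * 1 ≤ (3 * ((h : ℝ) + l) - 4) * (t + (h - l)) :=
              mul_le_mul_of_nonneg_left (by linarith) (by rw [hhlR]; linarith)
            rw [hhlR] at h6 ⊢
            linarith
          have h6 := mul_le_mul_of_nonneg_left h5 (by linarith : (0 : ℝ) ≤ t)
          linarith
      linarith
    · -- the part with the centre is small
      have ht1 : t ≤ -1 := by
        have h2 : W.ncard + 1 ≤ h := by omega
        have h3 : (W.ncard : ℝ) + 1 ≤ h := by exact_mod_cast h2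
        rw [ht]; linarith
      have h2 := starF_leaves (h := h) (i := i) (j := j) hjh (by linarith) hijR hi0
      have h3 : 0 ≤ t * (3 * ((h : ℝ) + l) - 4) * (t + (h - l)) := by
        rw [hhlR]
        have h4 : 0 ≤ (-t) * (3 * (n : ℝ) - 4) * (-(t + (h - l))) :=
          mul_nonneg (mul_nonneg (by linarith) (by linarith)) (by linarith)
        linarith
      have h4 : 0 ≤ (i : ℝ) * (-t) := mul_nonneg hi0 (by linarith)
      linarith
  rw [h1]
  push_cast
  by_cases h0 : (⟨0, hn0⟩ : Fin n) ∈ U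
  · exact key U h0 hcard
  · have h2 := key Uᶜ h0 (by rw [compl_compl]; omega)
    rw [compl_compl] at h2
    linarith

end Pool.Agent.Helper96.Mu
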