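import Mathlib
import Pool.Agent.Helper96.Mu.StarDef

/-!
# The graph `K_n` minus a star: lower bound for the maximum of the two costs
-/

namespace Pool.Agent.Helper96.Mu

open Finset Pool.Agent.Helper39.Mu

private lemma starG_arith {h : ℕ} {p i j : ℝ} (hh : 10 ≤ (h : ℝ)) (hj : 2 * j ≤ h) (hi : i ≤ j)
    (_hi0 : 0 ≤ i) (hp : (h : ℝ) ≤ p) :
    (h : ℝ) * ((h : ℝ) - 1) ^ 2 - (4 * (h : ℝ) - 5) * j + j ^ 2 ≤
      p * (p - 1) ^ 2 - i * (4 * p - 5) + i ^ 2 := by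
  have h1 : 0 ≤ (j - i) * (4 * p - 5 - i - j) :=
    mul_nonneg (by linarith) (by linarith)
  have h2 : 0 ≤ (p - h) * (p ^ 2 + p * h + h ^ 2 - 2 * (p + h) + 1 - 4 * j) := by
    refine mul_nonneg (by linarith) ?_
    nlinarith [mul_nonneg (sub_nonneg.2 hp) (sub_nonneg.2 hh), mul_nonneg (sub_nonneg.2 hh) (sub_nonneg.2 hh),
      mul_nonneg (sub_nonneg.2 hp) (sub_nonneg.2 hp)]
  nlinarith [h1, h2]

theorem le_gMu_starG {n j : ℕ} (hn : 20 ≤ n) (hj : 4 * j ≤ n) (hodd : Odd n) :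
    (hi n : ℝ) * ((hi n : ℝ) - 1) ^ 2 - (4 * (hi n : ℝ) - 5) * j + (j : ℝ) ^ 2 ≤
      (gMu (starG n j) : ℝ) := by
  classical
  have hne : {x | ∃ U : Set (Fin n), x = max (mu ((starG n j).induce U))
      (mu ((starG n j).induce Uᶜ))}.Nonempty := ⟨_, ∅, rfl⟩
  obtain ⟨U, hU⟩ := Nat.sInf_mem hne
  have h1 : gMu (starG n j) = max (mu ((starG n j).induce U)) (mu ((starG n j).induce Uᶜ)) := hU
  have h2 : (mu ((starG n j).induce U) : ℝ) ≤ gMu (starG n j) := by
    rw [h1]; exact_mod_cast le_max_left _ _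
  have h3 : (mu ((starG n j).induce Uᶜ) : ℝ) ≤ gMu (starG n j) := by
    rw [h1]; exact_mod_cast le_max_right _ _
  have hn0 : 0 < n := by omega
  obtain ⟨h, hh⟩ : ∃ h, h = hi n := ⟨_, rfl⟩
  have hh2 : 2 * h = n + 1 := by
    obtain ⟨k, hk⟩ := hodd
    rw [hh, hi]
    omega
  have hcard : U.ncard + Uᶜ.ncard = n := by
    have := Set.ncard_add_ncard_compl U
    rw [Nat.card_eq_fintype_card, Fintype.card_fin] at this
    exact this
  have hh10 : (10 : ℝ) ≤ h := by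
    have : 10 ≤ h := by omega
    exact_mod_cast this
  have hjh : 2 * (j : ℝ) ≤ h := by
    have : 2 * j ≤ h := by omega
    exact_mod_cast this
  rw [← hh]
  -- symmetric core
  have key : ∀ W : Set (Fin n), (⟨0, hn0⟩ : Fin n) ∈ W →
      (mu ((starG n j).induce W) : ℝ) ≤ gMu (starG n j) →
      (mu ((starG n j).induce Wᶜ) : ℝ) ≤ gMu (starG n j) → W.ncard + Wᶜ.ncard = n →
      (h : ℝ) * ((h : ℝ) - 1) ^ 2 - (4 * (h : ℝ) - 5) * j + (j : ℝ) ^ 2 ≤
        (gMu (starG n j) : ℝ) := by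
    intro W hW hW1 hW2 hWc
    obtain ⟨i, hij, hip, hmu⟩ := star_part (j := j) hn0 W hW
    by_cases hp : h ≤ W.ncard
    · have h4 := starG_arith (h := h) (p := W.ncard) (i := i) (j := j) hh10 hjh
        (by exact_mod_cast hij) (by positivity) (by exact_mod_cast hp)
      linarith
    · have h4 := star_other (j := j) hn0 Wᶜ (by simpa using hW)
      have h5 : h ≤ Wᶜ.ncard := by omega
      have h6 := starG_arith (h := h) (p := Wᶜ.ncard) (i := 0) (j := 0) hh10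
        (by linarith) le_rfl le_rfl (by exact_mod_cast h5)
      have h7 : 0 ≤ (j : ℝ) * (4 * (h : ℝ) - 5 - j) :=
        mul_nonneg (by positivity) (by linarith)
      nlinarith
  by_cases h0 : (⟨0, hn0⟩ : Fin n) ∈ U
  · exact key U h0 h2 h3 hcard
  · refine key Uᶜ h0 h3 ?_ ?_
    · rw [compl_compl]; exact h2
    · rw [compl_compl]; omega

end Pool.Agent.Helper96.Mu
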